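import Pool.Agent.N262.FX.Defs2

/-!
# Banach-Steinhaus for the flux functional
-/

open MeasureTheory Set Filter Topology
open scoped ContDiff NNReal ENNReal
open H459R3.NS

namespace Pool.Agent.N262.FX

namespace BS

/-- Lebesgue measure on the period cell -/
noncomputable abbrev mu : Measure V := volume.restrict cube

instance : IsProbabilityMeasure mu := ⟨by rw [Measure.restrict_apply_univ, volume_cube]⟩

theorem norm_sum_le {a b : V} : |∑ i, a i * b i| ≤ 3 * (‖a‖ * ‖b‖) := by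
  calc |∑ i, a i * b i| ≤ ∑ i, |a i * b i| := Finset.abs_sum_le_sum_abs _ _
    _ ≤ ∑ _i : Fin 3, ‖a‖ * ‖b‖ := by
        refine Finset.sum_le_sum fun i _ => ?_
        rw [abs_mul]
        exact mul_le_mul (norm_le_pi_norm a i) (norm_le_pi_norm b i) (abs_nonneg _) (norm_nonneg _)
    _ = 3 * (‖a‖ * ‖b‖) := by simp

theorem int_aux {M : V → V} (hM : AEStronglyMeasurable M mu) {C : ℝ} (hC : ∀ x, ‖M x‖ ≤ C)
    {f : V → V} (hf : MemLp f 2 mu) : Integrable (fun x => ∑ i, f x i * M x i) mu := by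
  have hfi : Integrable f mu := hf.integrable (by norm_num)
  refine integrable_finsetSum _ fun i _ => ?_
  have h1 : Integrable (fun x => f x i) mu := by
    have := (ContinuousLinearMap.proj (R := ℝ) (φ := fun _ : Fin 3 => ℝ) i).integrable_comp hfi
    exact this
  have h2 : AEStronglyMeasurable (fun x => M x i) mu :=
    (continuous_apply i).comp_aestronglyMeasurable hM
  refine h1.mul_bdd (c := C) h2 (ae_of_all _ fun x => ?_)
  exact (norm_le_pi_norm (M x) i).trans (hC x)

/-- the functional `f ↦ ∫ f · M` -/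
theorem exists_LM {M : V → V} (hM : AEStronglyMeasurable M mu) {C : ℝ} (hC : ∀ x, ‖M x‖ ≤ C) :
    ∃ T : Lp V 2 mu →L[ℝ] ℝ, ∀ f : Lp V 2 mu, T f = ∫ x, ∑ i, f x i * M x i ∂mu := by
  have hC0 : 0 ≤ C := (norm_nonneg _).trans (hC 0)
  refine ⟨LinearMap.mkContinuous
    { toFun := fun f => ∫ x, ∑ i, f x i * M x i ∂mu
      map_add' := fun f g => ?_
      map_smul' := fun c f => ?_ } (3 * C) fun f => ?_, fun f => rfl⟩
  · rw [← integral_add (int_aux hM hC (Lp.memLp f)) (int_aux hM hC (Lp.memLp g))]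
    refine integral_congr_ae ?_
    filter_upwards [Lp.coeFn_add f g] with x hx
    rw [hx, ← Finset.sum_add_distrib]
    exact Finset.sum_congr rfl fun i _ => by simp [add_mul]
  · rw [RingHom.id_apply, smul_eq_mul, ← integral_const_mul]
    refine integral_congr_ae ?_
    filter_upwards [Lp.coeFn_smul c f] with x hx
    rw [hx, Finset.mul_sum]
    exact Finset.sum_congr rfl fun i _ => by simp [mul_assoc]
  · have hf := Lp.memLp f
    have hfi : Integrable f mu := hf.integrable (by norm_num)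
    have h1 : ‖∫ x, ∑ i, f x i * M x i ∂mu‖ ≤ ∫ x, 3 * C * ‖f x‖ ∂mu := by
      refine norm_integral_le_of_norm_le (hfi.norm.const_mul _) (ae_of_all _ fun x => ?_)
      rw [Real.norm_eq_abs]
      refine norm_sum_le.trans ?_
      have := mul_le_mul_of_nonneg_left (hC x) (norm_nonneg (f x))
      nlinarith
    refine h1.trans ?_
    rw [integral_const_mul]
    refine mul_le_mul_of_nonneg_left ?_ (by positivity)
    have h2 : ∫ x, ‖f x‖ ∂mu = (eLpNorm f 1 mu).toReal := by
      rw [eLpNorm_one_eq_lintegral_enorm, integral_norm_eq_lintegral_enorm hfi.1]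
    rw [h2, Lp.norm_def]
    exact ENNReal.toReal_mono hf.2.ne
      (eLpNorm_le_eLpNorm_of_exponent_le (by norm_num) hfi.1)

theorem ell_eq (Φ : ℝ → V → V) (ψ : V → V) (t : ℝ) (B : V → V) :
    ell Φ ψ t B = ∫ x, ∑ i, B x i *
      (fun j => dot (fderiv ℝ (Φ t) x (Pi.single j 1)) (ψ (Φ t x)) : V) i ∂mu := by
  unfold ell
  refine integral_congr_ae (ae_of_all _ fun x => ?_)
  have h1 : B x = ∑ j, B x j • (Pi.single j 1 : V) := by
    ext k
    simp [Finset.sum_apply, Pi.single_apply]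
  have h2 : fderiv ℝ (Φ t) x (B x) = ∑ j, B x j • fderiv ℝ (Φ t) x (Pi.single j 1) := by
    conv_lhs => rw [h1]
    rw [map_sum]
    exact Finset.sum_congr rfl fun j _ => by rw [map_smul]
  simp only [dot]
  rw [h2]
  simp only [Finset.sum_apply, Pi.smul_apply, smul_eq_mul, Finset.sum_mul, Finset.mul_sum]
  rw [Finset.sum_comm]
  exact Finset.sum_congr rfl fun i _ => Finset.sum_congr rfl fun j _ => by ring

/-- a periodic measurable representative -/
theorem exists_rep (f : Lp V 2 mu) :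
    ∃ B : V → V, Measurable B ∧ Per B ∧ B =ᵐ[mu] f := by
  refine ⟨fun x => f (fun i => Int.fract (x i)), ?_, ?_, ?_⟩
  · refine (Lp.stronglyMeasurable f).measurable.comp ?_
    exact measurable_pi_lambda _ fun i => (measurable_pi_apply i).fract
  · intro i x
    have h0 : (fun j => Int.fract ((x + Pi.single i 1 : V) j)) = fun j => Int.fract (x j) := by
      funext j
      by_cases hj : j = i
      · subst hj
        rw [Pi.add_apply, Pi.single_eq_same, Int.fract_add_one]
      · rw [Pi.add_apply, Pi.single_eq_of_ne hj, add_zero]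
    show f (fun j => Int.fract ((x + Pi.single i 1 : V) j)) = f fun j => Int.fract (x j)
    rw [h0]
  · have h1 : (Set.pi univ fun i : Fin 3 => Ico ((0 : V) i) ((1 : V) i)) =ᵐ[volume] cube :=
      Measure.univ_pi_Ico_ae_eq_Icc
    have h2 : ∀ᵐ x ∂mu, x ∈ (Set.pi univ fun i : Fin 3 => Ico ((0 : V) i) ((1 : V) i)) := by
      rw [mu, ← Measure.restrict_congr_set h1]
      exact ae_restrict_mem (MeasurableSet.univ_pi fun i => measurableSet_Ico)
    filter_upwards [h2] with x hx
    congr 1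
    funext i
    have := hx i (mem_univ i)
    simp only [Pi.zero_apply, Pi.one_apply, mem_Ico] at this
    exact Int.fract_eq_self.2 this

theorem norm_le_l2norm {B : V → V} (hB : L2Field B) : ‖hB.mem.toLp B‖ ≤ l2norm B := by
  rw [Lp.norm_toLp, hB.mem.eLpNorm_eq_integral_rpow_norm (by norm_num) (by norm_num)]
  have h0 : ∀ b : V, ‖b‖ ^ 2 ≤ ∑ i, b i ^ 2 := by
    intro b
    have h1 : ‖b‖ ≤ Real.sqrt (∑ i, b i ^ 2) := by
      refine (pi_norm_le_iff_of_nonneg (Real.sqrt_nonneg _)).2 fun i => ?_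
      rw [Real.norm_eq_abs]
      refine Real.abs_le_sqrt ?_
      exact Finset.single_le_sum (f := fun i => b i ^ 2) (fun i _ => sq_nonneg _)
        (Finset.mem_univ i)
    calc ‖b‖ ^ 2 ≤ Real.sqrt (∑ i, b i ^ 2) ^ 2 := pow_le_pow_left₀ (norm_nonneg _) h1 2
      _ = _ := Real.sq_sqrt (Finset.sum_nonneg fun i _ => sq_nonneg _)
  have h1 : ∫ x, ‖B x‖ ^ (2 : ℝ≥0∞).toReal ∂mu ≤ ∫ x in cube, ∑ i, B x i ^ 2 := by
    have hint : Integrable (fun x => ∑ i, B x i ^ 2) mu := by
      refine integrable_finsetSum _ fun i _ => ?_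
      have : MemLp (fun x => B x i) 2 mu := by
        refine hB.mem.of_le ((continuous_apply i).comp_aestronglyMeasurable hB.mem.1)
          (ae_of_all _ fun x => norm_le_pi_norm (B x) i)
      exact this.integrable_sq
    refine integral_mono_of_nonneg (ae_of_all _ fun x => by positivity) hint
      (ae_of_all _ fun x => ?_)
    have h3 : ‖B x‖ ^ (2 : ℝ≥0∞).toReal = ‖B x‖ ^ 2 := by
      rw [ENNReal.toReal_ofNat]; exact Real.rpow_natCast _ 2
    simp only [h3]
    exact h0 (B x)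
  have h2 : 0 ≤ ∫ x, ‖B x‖ ^ (2 : ℝ≥0∞).toReal ∂mu := integral_nonneg fun x => by positivity
  rw [ENNReal.toReal_ofReal (by positivity), l2norm, Real.sqrt_eq_rpow]
  have h4 : ((2 : ℝ≥0∞).toReal)⁻¹ = (1 / 2 : ℝ) := by rw [ENNReal.toReal_ofNat]; norm_num
  rw [h4]
  exact Real.rpow_le_rpow h2 h1 (by norm_num)

end BS

open BS

theorem banach_steinhaus_flux {Φ : ℝ → V → V}
    (hL : ∀ t, 0 ≤ t → ∃ C : ℝ≥0, LipschitzWith C (Φ t)) {ψ : V → V} (hψ : SPV ψ) {δ : ℝ}
    (h : ∀ R : ℝ, ∃ t ≥ R, ∃ B : V → V, L2Field B ∧ DivFree B ∧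
      R * Real.exp (δ * t) * l2norm B < |ell Φ ψ t B|) :
    ∃ B : V → V, Measurable B ∧ L2Field B ∧ DivFree B ∧
      ∀ R : ℝ, ∃ t ≥ R, Real.exp (δ * t) ≤ |ell Φ ψ t B| := by
  -- the functionals of the divergence
  have hD : ∀ φ : {φ : V → ℝ // SP φ}, ∃ T : Lp V 2 mu →L[ℝ] ℝ, ∀ f : Lp V 2 mu,
      T f = ∫ x, ∑ i, f x i * (fun j => pd j φ.1 x : V) i ∂mu := by
    intro φ
    have hs : ∀ i, SP (pd i φ.1) := fun i => φ.2.pd i
    have hc : Continuous (fun x => (fun j => pd j φ.1 x : V)) :=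
      continuous_pi fun j => (hs j).smooth.continuous
    obtain ⟨C, hC⟩ := TH811.SPD.per_bound
      (f := fun x => (fun j => pd j φ.1 x : V)) (fun i x => funext fun j => (hs j).per i x) hc
    exact exists_LM hc.aestronglyMeasurable hC
  choose D hD using hD
  let X : Submodule ℝ (Lp V 2 mu) := ⨅ φ, LinearMap.ker (D φ).toLinearMap
  have hXmem : ∀ f : Lp V 2 mu, f ∈ X ↔ ∀ φ, D φ f = 0 := by
    intro f
    simp [X, Submodule.mem_iInf]
  have hXc : IsClosed (X : Set (Lp V 2 mu)) := by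
    have : (X : Set (Lp V 2 mu)) = ⋂ φ, {f | D φ f = 0} := by
      ext f; simp [hXmem]
    rw [this]
    exact isClosed_iInter fun φ => isClosed_eq (D φ).continuous continuous_const
  have : CompleteSpace X := hXc.completeSpace_coe
  -- the flux functionals
  have hell : ∀ t, 0 ≤ t → ∃ T : Lp V 2 mu →L[ℝ] ℝ, ∀ (f : Lp V 2 mu) (B : V → V), B =ᵐ[mu] f →
      T f = ell Φ ψ t B := by
    intro t ht
    obtain ⟨K, hK⟩ := hL t ht
    have hψc : Continuous ψ := hψ.1.continuous
    obtain ⟨C, hC⟩ := TH811.SPD.per_bound (f := ψ) hψ.2 hψc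
    have hm : Measurable (fun x => (fun j => dot (fderiv ℝ (Φ t) x (Pi.single j 1)) (ψ (Φ t x)) : V)) := by
      refine measurable_pi_lambda _ fun j => ?_
      unfold dot
      refine Finset.measurable_sum _ fun i _ => ?_
      refine Measurable.mul ?_ ?_
      · exact (measurable_pi_apply i).comp (measurable_fderiv_apply_const ℝ (Φ t) _)
      · exact ((continuous_apply i).comp (hψc.comp hK.continuous)).measurable
    have hb : ∀ x, ‖(fun j => dot (fderiv ℝ (Φ t) x (Pi.single j 1)) (ψ (Φ t x)) : V)‖ ≤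
        3 * (K * C) := by
      intro x
      refine (pi_norm_le_iff_of_nonneg (by positivity)).2 fun j => ?_
      rw [Real.norm_eq_abs]
      refine norm_sum_le.trans ?_
      have h1 : ‖fderiv ℝ (Φ t) x (Pi.single j 1)‖ ≤ K := by
        have h2 : ‖fderiv ℝ (Φ t) x‖ ≤ K := norm_fderiv_le_of_lipschitz ℝ hK
        have h3 := (fderiv ℝ (Φ t) x).le_opNorm (Pi.single j 1)
        have h4 : ‖(Pi.single j 1 : V)‖ ≤ 1 := by
          refine (pi_norm_le_iff_of_nonneg zero_le_one).2 fun i => ?_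
          by_cases hij : i = j
          · subst hij; simp
          · simp [hij]
        calc _ ≤ ‖fderiv ℝ (Φ t) x‖ * ‖(Pi.single j 1 : V)‖ := h3
          _ ≤ K * 1 := mul_le_mul h2 h4 (norm_nonneg _) K.2
          _ = K := mul_one _
      have := mul_le_mul h1 (hC (Φ t x)) (norm_nonneg _) K.2
      linarith
    obtain ⟨T, hT⟩ := exists_LM (M := fun x => (fun j => dot (fderiv ℝ (Φ t) x (Pi.single j 1)) (ψ (Φ t x)) : V))
      hm.aestronglyMeasurable hb
    refine ⟨T, fun f B hB => ?_⟩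
    rw [hT, ell_eq]
    refine integral_congr_ae ?_
    filter_upwards [hB] with x hx
    rw [hx]
  by_contra! hcon
  choose t ht B hB hdiv hbig using fun n : ℕ => h (n + 1)
  have ht0 : ∀ n, 0 ≤ t n := fun n => by have := ht n; have : (0 : ℝ) ≤ n := n.cast_nonneg; linarith
  choose T hT using fun n => hell (t n) (ht0 n)
  let S : ℕ → X →L[ℝ] ℝ := fun n => (Real.exp (-(δ * t n))) • (T n).comp X.subtypeL
  have hS : ∀ n (f : X), S n f = Real.exp (-(δ * t n)) * T n f := fun n f => rfl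
  have hpt : ∀ f : X, ∃ C, ∀ n, ‖S n f‖ ≤ C := by
    intro f
    obtain ⟨b, hbm, hbp, hbf⟩ := exists_rep (f : Lp V 2 mu)
    have hb2 : L2Field b := ⟨hbp, (memLp_congr_ae hbf).2 (Lp.memLp _)⟩
    have hbd : DivFree b := by
      intro φ hφ
      have h1 := (hXmem f.1).1 f.2 ⟨φ, hφ⟩
      rw [hD] at h1
      rw [← h1]
      refine integral_congr_ae ?_
      filter_upwards [hbf] with x hx
      rw [hx]
    obtain ⟨R, hR⟩ := hcon b hbm hb2 hbd
    obtain ⟨N, hN⟩ := exists_nat_ge R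
    refine ⟨1 + ∑ n ∈ Finset.range N, ‖S n f‖, fun n => ?_⟩
    by_cases hn : n < N
    · have := Finset.single_le_sum (f := fun n => ‖S n f‖) (fun i _ => norm_nonneg _)
        (Finset.mem_range.2 hn)
      linarith
    · have h1 : R ≤ t n := by
        have := ht n
        have h2 : (N : ℝ) ≤ n := by exact_mod_cast not_lt.1 hn
        linarith
      have h2 := hR (t n) h1
      rw [← hT n f b hbf] at h2
      have h3 : ‖S n f‖ ≤ 1 := by
        rw [hS, norm_mul, Real.norm_eq_abs, Real.norm_eq_abs, abs_of_pos (Real.exp_pos _),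
          Real.exp_neg, inv_mul_le_iff₀ (Real.exp_pos _), mul_one]
        exact h2.le
      have h4 : 0 ≤ ∑ n ∈ Finset.range N, ‖S n f‖ := Finset.sum_nonneg fun i _ => norm_nonneg _
      linarith
  obtain ⟨C', hC'⟩ := banach_steinhaus hpt
  obtain ⟨n, hn⟩ := exists_nat_ge C'
  have hmem : (hB n).mem.toLp (B n) ∈ X := by
    rw [hXmem]
    intro φ
    rw [hD]
    rw [← hdiv n φ.1 φ.2]
    refine integral_congr_ae ?_
    filter_upwards [(hB n).mem.coeFn_toLp] with x hx
    rw [hx]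
  have h1 := (S n).le_opNorm ⟨_, hmem⟩
  have h2 : ‖S n ⟨_, hmem⟩‖ = Real.exp (-(δ * t n)) * |ell Φ ψ (t n) (B n)| := by
    rw [hS, norm_mul, Real.norm_eq_abs, Real.norm_eq_abs, abs_of_pos (Real.exp_pos _),
      hT n _ (B n) ((hB n).mem.coeFn_toLp).symm]
  rw [h2] at h1
  have h3 : ‖(⟨_, hmem⟩ : X)‖ ≤ l2norm (B n) := norm_le_l2norm (hB n)
  have h4 : ‖S n‖ ≤ C' := hC' n
  have h5 : 0 ≤ l2norm (B n) := Real.sqrt_nonneg _
  have h6 : ‖S n‖ * ‖(⟨_, hmem⟩ : X)‖ ≤ (n + 1) * l2norm (B n) :=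
    mul_le_mul (by linarith) h3 (norm_nonneg _) (by positivity)
  have h7 := hbig n
  have h8 : |ell Φ ψ (t n) (B n)| ≤ Real.exp (δ * t n) * ((n + 1) * l2norm (B n)) := by
    have h9 := h1.trans h6
    rwa [Real.exp_neg, inv_mul_le_iff₀ (Real.exp_pos _)] at h9
  have h10 : Real.exp (δ * t n) * ((n + 1) * l2norm (B n)) =
    (n + 1) * Real.exp (δ * t n) * l2norm (B n) := by ring
  linarith

end Pool.Agent.N262.FX
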