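import Pool.Agent.N262.FX.Defs2

/-!
# Two explicit smooth periodic divergence-free cell fields

`exists_cellFields : ∃ W₀ W₁, CellFields W₀ W₁`.
-/

set_option autoImplicit false

open MeasureTheory Set Filter Topology
open scoped ContDiff
open H459R3.NS

namespace Pool.Agent.N262.FX.Cell

/-! ### periodic functions of one variable -/

/-- Periodization of a smooth function which vanishes near the complement of the open unit
interval. -/
theorem per1 {F : ℝ → ℝ} (hF : ContDiff ℝ ∞ F) {δ : ℝ} (hδ : 0 < δ)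
    (h : ∀ s, (s ≤ δ ∨ 1 - δ ≤ s) → F s = 0) : ContDiff ℝ ∞ (fun s => F (Int.fract s)) := by
  rw [contDiff_iff_contDiffAt]
  intro s
  by_cases hs : Int.fract s = 0
  · -- near an integer
    have hs' : s = (⌊s⌋ : ℝ) := by
      have := Int.self_sub_floor s
      rw [hs] at this
      linarith
    have hev : (fun s => F (Int.fract s)) =ᶠ[𝓝 s] fun _ => 0 := by
      have hmin : 0 < min δ (1 / 2) := lt_min hδ (by norm_num)
      filter_upwards [Metric.ball_mem_nhds s hmin] with t ht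
      rw [Metric.mem_ball, Real.dist_eq, abs_lt] at ht
      have h1 : min δ (1 / 2) ≤ δ := min_le_left _ _
      have h2 : min δ (1 / 2) ≤ 1 / 2 := min_le_right _ _
      rcases le_or_gt s t with hst | hst
      · have hfl : ⌊t⌋ = ⌊s⌋ := by
          rw [Int.floor_eq_iff]
          constructor
          · rw [← hs']; exact hst
          · rw [← hs']; linarith
        refine h _ (Or.inl ?_)
        rw [← Int.self_sub_floor, hfl, ← hs']
        linarith
      · have hfl : ⌊t⌋ = ⌊s⌋ - 1 := by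
          rw [Int.floor_eq_iff]
          push_cast
          constructor
          · rw [← hs']; linarith
          · rw [← hs']; linarith
        refine h _ (Or.inr ?_)
        rw [← Int.self_sub_floor, hfl]
        push_cast
        rw [← hs']
        linarith
    exact contDiffAt_const.congr_of_eventuallyEq hev
  · have hpos : 0 < Int.fract s := lt_of_le_of_ne (Int.fract_nonneg s) (Ne.symm hs)
    have h1 : (⌊s⌋ : ℝ) < s := by
      have := Int.self_sub_floor s
      linarith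
    have h2 : s < ⌊s⌋ + 1 := Int.lt_floor_add_one s
    have hev : (fun s => F (Int.fract s)) =ᶠ[𝓝 s] fun t => F (t - ⌊s⌋) := by
      filter_upwards [Ioo_mem_nhds h1 h2] with t ht
      have hfl : ⌊t⌋ = ⌊s⌋ := by
        rw [Int.floor_eq_iff]
        exact ⟨ht.1.le, ht.2⟩
      rw [← Int.self_sub_floor, hfl]
    exact (hF.contDiffAt.comp s (contDiffAt_id.sub contDiffAt_const)).congr_of_eventuallyEq hev

theorem sp_coord {f : ℝ → ℝ} (hf : ContDiff ℝ ∞ (fun s => f (Int.fract s))) (j : Fin 3) :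
    SP (fun x => f (Int.fract (x j))) where
  smooth := hf.comp (contDiff_apply ℝ ℝ j)
  per := fun i x => by
    by_cases hij : i = j
    · subst hij
      simp
    · have : (Pi.single i (1 : ℝ) : V) j = 0 := Pi.single_eq_of_ne (Ne.symm hij) _
      simp [this]

/-- the cutoff function: `1` on `[1/10, 9/10]` and `0` outside `[1/20, 19/20]` -/
noncomputable def Fch (s : ℝ) : ℝ :=
  Real.smoothTransition ((s - 1 / 20) * 20) * Real.smoothTransition ((19 / 20 - s) * 20)

/-- `8 (s - 1/2)` on `[1/20, 19/20]` and `0` outside `[1/40, 39/40]` -/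
noncomputable def Fq (s : ℝ) : ℝ :=
  8 * (s - 1 / 2) *
    (Real.smoothTransition ((s - 1 / 40) * 40) * Real.smoothTransition ((39 / 40 - s) * 40))

theorem smooth_Fch : ContDiff ℝ ∞ Fch := by
  unfold Fch
  exact (Real.smoothTransition.contDiff.comp (by fun_prop)).mul
    (Real.smoothTransition.contDiff.comp (by fun_prop))

theorem smooth_Fq : ContDiff ℝ ∞ Fq := by
  unfold Fq
  exact ContDiff.mul (by fun_prop) ((Real.smoothTransition.contDiff.comp (by fun_prop)).mul
    (Real.smoothTransition.contDiff.comp (by fun_prop)))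

theorem Fch_zero (s : ℝ) (h : s ≤ 1 / 20 ∨ 1 - 1 / 20 ≤ s) : Fch s = 0 := by
  unfold Fch
  rcases h with h | h
  · rw [Real.smoothTransition.zero_of_nonpos (by linarith), zero_mul]
  · rw [Real.smoothTransition.zero_of_nonpos (x := (19 / 20 - s) * 20) (by linarith), mul_zero]

theorem Fq_zero (s : ℝ) (h : s ≤ 1 / 40 ∨ 1 - 1 / 40 ≤ s) : Fq s = 0 := by
  unfold Fq
  rcases h with h | h
  · rw [Real.smoothTransition.zero_of_nonpos (by linarith), zero_mul, mul_zero]
  · rw [Real.smoothTransition.zero_of_nonpos (x := (39 / 40 - s) * 40) (by linarith), mul_zero,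
      mul_zero]

theorem Fch_one (s : ℝ) (h1 : 1 / 10 ≤ s) (h2 : s ≤ 9 / 10) : Fch s = 1 := by
  unfold Fch
  rw [Real.smoothTransition.one_of_one_le (by linarith),
    Real.smoothTransition.one_of_one_le (by linarith), one_mul]

theorem Fq_eq (s : ℝ) (h1 : 1 / 20 ≤ s) (h2 : s ≤ 19 / 20) : Fq s = 8 * (s - 1 / 2) := by
  unfold Fq
  rw [Real.smoothTransition.one_of_one_le (by linarith),
    Real.smoothTransition.one_of_one_le (by linarith), one_mul, mul_one]

noncomputable def ch (j : Fin 3) (x : V) : ℝ := Fch (Int.fract (x j))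

noncomputable def qq (j : Fin 3) (x : V) : ℝ := Fq (Int.fract (x j))

theorem sp_ch (j : Fin 3) : SP (ch j) :=
  sp_coord (per1 smooth_Fch (δ := 1 / 20) (by norm_num) Fch_zero) j

theorem sp_qq (j : Fin 3) : SP (qq j) :=
  sp_coord (per1 smooth_Fq (δ := 1 / 40) (by norm_num) Fq_zero) j

/-- the product of the three cutoffs -/
noncomputable def XX (x : V) : ℝ := ch 0 x * ch 1 x * ch 2 x

theorem sp_XX : SP XX := ((sp_ch 0).mul (sp_ch 1)).mul (sp_ch 2)

theorem sp_smul {f : V → ℝ} (c : ℝ) (hf : SP f) : SP (fun x => c * f x) where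
  smooth := contDiff_const.mul hf.smooth
  per := fun i x => by simp only [hf.per i x]

theorem sp_zero : SP (fun _ => (0 : ℝ)) where
  smooth := contDiff_const
  per := fun _ _ => rfl

theorem sp_comp {f : V → ℝ} (hf : SP f) {K : ℝ → ℝ} (hK : ContDiff ℝ ∞ K) :
    SP (fun x => K (f x)) where
  smooth := hK.comp hf.smooth
  per := fun i x => by simp only [hf.per i x]

theorem sp_sub {f g : V → ℝ} (hf : SP f) (hg : SP g) : SP (fun x => f x - g x) where
  smooth := hf.smooth.sub hg.smooth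
  per := fun i x => by simp only [hf.per i x, hg.per i x]

/-! ### curls -/

/-- `K(s) = -s τ(s)` with `τ = ± 1` for `± s ≥ 1/3` -/
noncomputable def KK (s : ℝ) : ℝ := -s * (2 * Real.smoothTransition ((s + 1 / 3) * (3 / 2)) - 1)

theorem smooth_KK : ContDiff ℝ ∞ KK := by
  unfold KK
  refine ContDiff.mul (by fun_prop) (ContDiff.sub (contDiff_const.mul ?_) contDiff_const)
  exact Real.smoothTransition.contDiff.comp (by fun_prop)

theorem KK_pos (s : ℝ) (h : 1 / 3 ≤ s) : KK s = -s := by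
  unfold KK
  rw [Real.smoothTransition.one_of_one_le (by linarith)]
  ring

theorem KK_neg (s : ℝ) (h : s ≤ -(1 / 3)) : KK s = s := by
  unfold KK
  rw [Real.smoothTransition.zero_of_nonpos (by linarith)]
  ring

theorem pd_congr {f g : V → ℝ} {x : V} (h : f =ᶠ[𝓝 x] g) (j : Fin 3) : pd j f x = pd j g x := by
  unfold pd
  rw [h.fderiv_eq]

theorem curl_congr {A B : V → V} {x : V} (h : A =ᶠ[𝓝 x] B) : curl A x = curl B x := by
  have hi : ∀ i, (fun y => A y i) =ᶠ[𝓝 x] fun y => B y i := fun i => by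
    filter_upwards [h] with y hy
    rw [hy]
  unfold curl
  simp only [pd_congr (hi _)]

theorem curl_zero' (x : V) : curl (fun _ => (0 : V)) x = 0 := by
  have : ∀ (i j : Fin 3), pd j (fun _ : V => (0 : V) i) x = 0 := by
    intro i j
    unfold pd
    simp
  unfold curl
  simp only [this]
  ext i
  fin_cases i <;> simp

theorem sp_curl {A : V → V} (hA : ∀ i, SP (fun x => A x i)) (i : Fin 3) :
    SP (fun x => curl A x i) := by
  fin_cases i
  · exact sp_sub ((hA 2).pd 1) ((hA 1).pd 2)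
  · exact sp_sub ((hA 0).pd 2) ((hA 2).pd 0)
  · exact sp_sub ((hA 1).pd 0) ((hA 0).pd 1)

theorem pd_sub {f g : V → ℝ} (hf : SP f) (hg : SP g) (j : Fin 3) (x : V) :
    pd j (fun y => f y - g y) x = pd j f x - pd j g x := by
  unfold pd
  have h : HasFDerivAt (fun y => f y - g y) _ x :=
    ((hf.smooth.differentiable (by norm_cast)) x).hasFDerivAt.sub
      ((hg.smooth.differentiable (by norm_cast)) x).hasFDerivAt
  rw [h.fderiv]
  rfl

theorem pd_comm' {f : V → ℝ} (hf : SP f) (i j : Fin 3) (x : V) :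
    pd i (fun y => pd j f y) x = pd j (fun y => pd i f y) x := by
  have h2 : ContDiff ℝ 2 f := hf.smooth.of_le (by norm_cast)
  have hs : IsSymmSndFDerivAt ℝ f x := h2.contDiffAt.isSymmSndFDerivAt (by simp)
  have hd : DifferentiableAt ℝ (fderiv ℝ f) x :=
    ((h2.fderiv_right (m := 1) (by norm_num)).differentiable one_ne_zero) x
  have e : ∀ a b : Fin 3, pd a (fun y => pd b f y) x
      = fderiv ℝ (fderiv ℝ f) x (Pi.single a 1) (Pi.single b 1) := by
    intro a b
    unfold pd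
    have h3 : HasFDerivAt (fun y => fderiv ℝ f y (Pi.single b 1)) _ x :=
      hd.hasFDerivAt.clm_apply (hasFDerivAt_const (Pi.single b (1 : ℝ) : V) x)
    rw [h3.fderiv]
    simp
  rw [e, e]
  exact hs _ _

theorem div_curl {A : V → V} (hA : ∀ i, SP (fun x => A x i)) (x : V) :
    ∑ i, pd i (fun y => curl A y i) x = 0 := by
  rw [Fin.sum_univ_three]
  have e0 : pd 0 (fun y => curl A y 0) x =
      pd 0 (fun y => pd 1 (fun z => A z 2) y) x - pd 0 (fun y => pd 2 (fun z => A z 1) y) x :=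
    pd_sub ((hA 2).pd 1) ((hA 1).pd 2) 0 x
  have e1 : pd 1 (fun y => curl A y 1) x =
      pd 1 (fun y => pd 2 (fun z => A z 0) y) x - pd 1 (fun y => pd 0 (fun z => A z 2) y) x :=
    pd_sub ((hA 0).pd 2) ((hA 2).pd 0) 1 x
  have e2 : pd 2 (fun y => curl A y 2) x =
      pd 2 (fun y => pd 0 (fun z => A z 1) y) x - pd 2 (fun y => pd 1 (fun z => A z 0) y) x :=
    pd_sub ((hA 1).pd 0) ((hA 0).pd 1) 2 x
  rw [e0, e1, e2, pd_comm' (hA 2) 0 1, pd_comm' (hA 1) 0 2, pd_comm' (hA 0) 1 2]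
  ring

/-! ### the two fields -/

/-- the first vector potential -/
noncomputable def A0 (x : V) : V :=
  ![(1 / 64 * Real.log 4) * (XX x * (qq 1 x * qq 2 x)),
    -(1 / 64 * Real.log 4) * (XX x * (qq 0 x * qq 2 x)), 0]

/-- the second vector potential -/
noncomputable def A1 (x : V) : V :=
  ![(1 / 64) * (XX x * KK ((1 / 2) * qq 1 x + 2 * qq 2 x)), 0, 0]

theorem sp_A0 (i : Fin 3) : SP (fun x => A0 x i) := by
  fin_cases i
  · exact sp_smul _ (sp_XX.mul ((sp_qq 1).mul (sp_qq 2)))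
  · exact sp_smul _ (sp_XX.mul ((sp_qq 0).mul (sp_qq 2)))
  · exact sp_zero

theorem sp_A1 (i : Fin 3) : SP (fun x => A1 x i) := by
  fin_cases i
  · exact sp_smul _ (sp_XX.mul (sp_comp
      ((sp_smul (1 / 2) (sp_qq 1)).add (sp_smul 2 (sp_qq 2))) smooth_KK))
  · exact sp_zero
  · exact sp_zero

/-- the cutoff vanishes near the integer planes -/
theorem XX_zero {x : V} (h : ∃ (j : Fin 3) (m : ℤ), |x j - m| < 1 / 32) :
    ∀ᶠ y in 𝓝 x, XX y = 0 := by
  obtain ⟨j, m, h⟩ := h
  have hopen : IsOpen {y : V | |y j - m| < 1 / 32} :=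
    isOpen_lt (by fun_prop) continuous_const
  filter_upwards [hopen.mem_nhds h] with y hy
  have hy' : |y j - m| < 1 / 32 := hy
  rw [abs_lt] at hy'
  have hch : ch j y = 0 := by
    refine Fch_zero _ ?_
    rcases le_or_gt (m : ℝ) (y j) with h1 | h1
    · left
      have hfl : ⌊y j⌋ = m := by
        rw [Int.floor_eq_iff]
        exact ⟨h1, by linarith⟩
      rw [← Int.self_sub_floor, hfl]
      linarith
    · right
      have hfl : ⌊y j⌋ = m - 1 := by
        rw [Int.floor_eq_iff]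
        push_cast
        constructor <;> linarith
      rw [← Int.self_sub_floor, hfl]
      push_cast
      linarith
  unfold XX
  fin_cases j
  · simp only [Fin.zero_eta] at hch; simp [hch]
  · simp only [Fin.mk_one] at hch; simp [hch]
  · have hch' : ch 2 y = 0 := hch
    simp [hch']

/-- near a point of the core all the cutoffs are trivial -/
theorem core_eventually {X : V} (hX : ∀ j, |X j| ≤ 3) :
    ∀ᶠ y in 𝓝 (cp X), XX y = 1 ∧ ∀ j, qq j y = 8 * (y j - 1 / 2) := by
  have hopen : IsOpen {y : V | ∀ j, 1 / 10 < y j ∧ y j < 9 / 10} := by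
    simp only [Set.ofPred_forall]
    refine isOpen_iInter_of_finite fun j => ?_
    exact (isOpen_lt continuous_const (continuous_apply j)).inter
      (isOpen_lt (continuous_apply j) continuous_const)
  have hmem : cp X ∈ {y : V | ∀ j, 1 / 10 < y j ∧ y j < 9 / 10} := by
    intro j
    have h := abs_le.1 (hX j)
    unfold cp
    constructor <;> linarith
  filter_upwards [hopen.mem_nhds hmem] with y hy
  have hfr : ∀ j, Int.fract (y j) = y j := fun j => by
    rw [Int.fract_eq_self]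
    have := hy j
    constructor <;> linarith
  have hch : ∀ j, ch j y = 1 := fun j => by
    unfold ch
    rw [hfr]
    exact Fch_one _ (hy j).1.le (hy j).2.le
  refine ⟨?_, fun j => ?_⟩
  · unfold XX
    simp [hch]
  · unfold qq
    rw [hfr]
    have := hy j
    exact Fq_eq _ (by linarith) (by linarith)

theorem hasFDerivAt_coord (i : Fin 3) (x : V) :
    HasFDerivAt (fun y : V => 8 * (y i - 1 / 2))
      ((8 : ℝ) • (ContinuousLinearMap.proj i : (Fin 3 → ℝ) →L[ℝ] ℝ)) x :=
  ((hasFDerivAt_apply (𝕜 := ℝ) i x).sub_const (1 / 2)).const_mul 8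

theorem pd_quad (c : ℝ) (a b j : Fin 3) (x : V) :
    pd j (fun y : V => c * ((8 * (y a - 1 / 2)) * (8 * (y b - 1 / 2)))) x =
      c * ((8 * (x a - 1 / 2)) * (8 * (Pi.single j (1 : ℝ) : V) b) +
        (8 * (x b - 1 / 2)) * (8 * (Pi.single j (1 : ℝ) : V) a)) := by
  unfold pd
  have h : HasFDerivAt (fun y : V => c * ((8 * (y a - 1 / 2)) * (8 * (y b - 1 / 2)))) _ x :=
    ((hasFDerivAt_coord a x).mul (hasFDerivAt_coord b x)).const_mul c
  rw [h.fderiv]
  simp
  ring

theorem pd_aff (c d e : ℝ) (a b j : Fin 3) (x : V) :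
    pd j (fun y : V => c * (d * (8 * (y a - 1 / 2)) + e * (8 * (y b - 1 / 2)))) x =
      c * (d * (8 * (Pi.single j (1 : ℝ) : V) a) + e * (8 * (Pi.single j (1 : ℝ) : V) b)) := by
  unfold pd
  have h : HasFDerivAt
      (fun y : V => c * (d * (8 * (y a - 1 / 2)) + e * (8 * (y b - 1 / 2)))) _ x :=
    (((hasFDerivAt_coord a x).const_mul d).add ((hasFDerivAt_coord b x).const_mul e)).const_mul c
  rw [h.fderiv]
  simp
  ring

theorem pd_zero (j : Fin 3) (x : V) : pd j (fun _ : V => (0 : ℝ)) x = 0 := by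
  unfold pd
  simp

theorem core0 (X : V) (hX : ∀ j, |X j| ≤ 3) :
    curl A0 (cp X) =
      (1 / 8 : ℝ) • ![Real.log 4 * X 0, Real.log 4 * X 1, -2 * Real.log 4 * X 2] := by
  have h : A0 =ᶠ[𝓝 (cp X)] fun y =>
      ![(1 / 64 * Real.log 4) * ((8 * (y 1 - 1 / 2)) * (8 * (y 2 - 1 / 2))),
        -(1 / 64 * Real.log 4) * ((8 * (y 0 - 1 / 2)) * (8 * (y 2 - 1 / 2))), 0] := by
    filter_upwards [core_eventually hX] with y hy
    unfold A0
    rw [hy.1, hy.2 0, hy.2 1, hy.2 2]
    simp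
  rw [curl_congr h]
  unfold curl
  have e0 : ∀ y : V, (![(1 / 64 * Real.log 4) * ((8 * (y 1 - 1 / 2)) * (8 * (y 2 - 1 / 2))),
        -(1 / 64 * Real.log 4) * ((8 * (y 0 - 1 / 2)) * (8 * (y 2 - 1 / 2))), 0] : V) 0 =
      (1 / 64 * Real.log 4) * ((8 * (y 1 - 1 / 2)) * (8 * (y 2 - 1 / 2))) := fun _ => rfl
  have e1 : ∀ y : V, (![(1 / 64 * Real.log 4) * ((8 * (y 1 - 1 / 2)) * (8 * (y 2 - 1 / 2))),
        -(1 / 64 * Real.log 4) * ((8 * (y 0 - 1 / 2)) * (8 * (y 2 - 1 / 2))), 0] : V) 1 =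
      -(1 / 64 * Real.log 4) * ((8 * (y 0 - 1 / 2)) * (8 * (y 2 - 1 / 2))) := fun _ => rfl
  have e2 : ∀ y : V, (![(1 / 64 * Real.log 4) * ((8 * (y 1 - 1 / 2)) * (8 * (y 2 - 1 / 2))),
        -(1 / 64 * Real.log 4) * ((8 * (y 0 - 1 / 2)) * (8 * (y 2 - 1 / 2))), 0] : V) 2 =
      0 := fun _ => rfl
  simp only [e0, e1, e2, pd_quad, pd_zero]
  ext i
  fin_cases i <;> simp [cp] <;> ring

theorem core1 (X : V) (hX : ∀ j, |X j| ≤ 3) (σ : ℝ) (hσ : σ = 1 ∨ σ = -1)
    (h : 2 / 5 ≤ σ * (X 1 / 2 + 2 * X 2)) :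
    curl A1 (cp X) = (1 / 8 : ℝ) • ![0, -2 * σ, σ / 2] := by
  have hKK : ∀ᶠ y in 𝓝 (cp X),
      KK ((1 / 2) * (8 * (y 1 - 1 / 2)) + 2 * (8 * (y 2 - 1 / 2))) =
        -σ * ((1 / 2) * (8 * (y 1 - 1 / 2)) + 2 * (8 * (y 2 - 1 / 2))) := by
    have hopen : IsOpen {y : V | 1 / 3 < σ * ((1 / 2) * (8 * (y 1 - 1 / 2)) +
        2 * (8 * (y 2 - 1 / 2)))} := isOpen_lt continuous_const (by fun_prop)
    have hmem : cp X ∈ {y : V | 1 / 3 < σ * ((1 / 2) * (8 * (y 1 - 1 / 2)) +
        2 * (8 * (y 2 - 1 / 2)))} := by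
      show 1 / 3 < σ * ((1 / 2) * (8 * (cp X 1 - 1 / 2)) + 2 * (8 * (cp X 2 - 1 / 2)))
      have e : (1 / 2) * (8 * (cp X 1 - 1 / 2)) + 2 * (8 * (cp X 2 - 1 / 2)) =
          X 1 / 2 + 2 * X 2 := by
        unfold cp; ring
      rw [e]
      linarith
    filter_upwards [hopen.mem_nhds hmem] with y hy
    have hy' : 1 / 3 < σ * ((1 / 2) * (8 * (y 1 - 1 / 2)) + 2 * (8 * (y 2 - 1 / 2))) := hy
    rcases hσ with rfl | rfl
    · rw [KK_pos _ (by linarith)]; ring
    · rw [KK_neg _ (by linarith)]; ring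
  have h : A1 =ᶠ[𝓝 (cp X)] fun y =>
      ![(1 / 64 * -σ) * ((1 / 2) * (8 * (y 1 - 1 / 2)) + 2 * (8 * (y 2 - 1 / 2))), 0, 0] := by
    filter_upwards [core_eventually hX, hKK] with y hy hy2
    unfold A1
    rw [hy.1, hy.2 1, hy.2 2, hy2]
    ext i
    fin_cases i
    · simp; ring
    · simp
    · simp
  rw [curl_congr h]
  unfold curl
  have e0 : ∀ y : V, (![(1 / 64 * -σ) * ((1 / 2) * (8 * (y 1 - 1 / 2)) +
      2 * (8 * (y 2 - 1 / 2))), 0, 0] : V) 0 =
      (1 / 64 * -σ) * ((1 / 2) * (8 * (y 1 - 1 / 2)) + 2 * (8 * (y 2 - 1 / 2))) := fun _ => rfl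
  have e1 : ∀ y : V, (![(1 / 64 * -σ) * ((1 / 2) * (8 * (y 1 - 1 / 2)) +
      2 * (8 * (y 2 - 1 / 2))), 0, 0] : V) 1 = 0 := fun _ => rfl
  have e2 : ∀ y : V, (![(1 / 64 * -σ) * ((1 / 2) * (8 * (y 1 - 1 / 2)) +
      2 * (8 * (y 2 - 1 / 2))), 0, 0] : V) 2 = 0 := fun _ => rfl
  simp only [e0, e1, e2, pd_aff, pd_zero]
  ext i
  fin_cases i <;> simp <;> ring

end Pool.Agent.N262.FX.Cell

namespace Pool.Agent.N262.FX

open Cell

theorem exists_cellFields : ∃ W₀ W₁, CellFields W₀ W₁ := by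
  refine ⟨curl A0, curl A1, ?_⟩
  constructor
  · exact sp_curl sp_A0
  · exact sp_curl sp_A1
  · exact div_curl sp_A0
  · exact div_curl sp_A1
  · intro x hx
    have h : A0 =ᶠ[𝓝 x] fun _ => 0 := by
      filter_upwards [XX_zero hx] with y hy
      unfold A0
      rw [hy]
      ext i
      fin_cases i <;> simp
    rw [curl_congr h, curl_zero']
  · intro x hx
    have h : A1 =ᶠ[𝓝 x] fun _ => 0 := by
      filter_upwards [XX_zero hx] with y hy
      unfold A1
      rw [hy]
      ext i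
      fin_cases i <;> simp
    rw [curl_congr h, curl_zero']
  · exact core0
  · exact core1

end Pool.Agent.N262.FX
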