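import Pool.Agent.N262.FX.Ode

/-!
# Functions defined cell by cell
-/

open MeasureTheory Set Filter Topology
open scoped ContDiff NNReal ENNReal
open H459R3.NS Pool.Agent.GR.Flow

namespace Pool.Agent.N262.FX

/-- integer parts of the coordinates of `2ᵏ x` -/
noncomputable def fl (k : ℕ) (x : V) : K3 := fun j => ⌊2 ^ k * x j⌋

/-- the function vanishes near the planes `x j ∈ ℤ` -/
def Van (g : V → ℝ) : Prop := ∀ x : V, (∃ (j : Fin 3) (m : ℤ), |x j - m| < 1 / 32) → g x = 0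

/-- the function equal to `S m * g (2ᵏ x)` in the cell with index `m` -/
noncomputable def cellF (k : ℕ) (S : K3 → ℝ) (g : V → ℝ) (x : V) : ℝ :=
  S (fl k x) * g ((2 : ℝ) ^ k • x)

theorem fl_local {k : ℕ} {x : V} (h : ∀ j, ∀ m : ℤ, (2 : ℝ) ^ k * x j ≠ m) :
    ∀ᶠ y in 𝓝 x, fl k y = fl k x := by
  have h1 : ∀ j, ∀ᶠ y : V in 𝓝 x, ⌊(2 : ℝ) ^ k * y j⌋ = ⌊(2 : ℝ) ^ k * x j⌋ := by
    intro j
    have hc : Continuous fun y : V => (2 : ℝ) ^ k * y j := continuous_const.mul (continuous_apply j)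
    have h2 : (⌊(2 : ℝ) ^ k * x j⌋ : ℝ) < (2 : ℝ) ^ k * x j :=
      lt_of_le_of_ne (Int.floor_le _) (h j _).symm
    have h3 := (hc.tendsto x) (Ioo_mem_nhds h2 (Int.lt_floor_add_one ((2 : ℝ) ^ k * x j)))
    filter_upwards [h3] with y hy
    rw [Int.floor_eq_iff]
    exact ⟨hy.1.le, hy.2⟩
  have h2 := eventually_all.2 h1
  filter_upwards [h2] with y hy
  exact funext hy

theorem cellF_local {k : ℕ} {S : K3 → ℝ} {g : V → ℝ} (hg : Van g) (x : V) :
    cellF k S g =ᶠ[𝓝 x] fun y => S (fl k x) * g ((2 : ℝ) ^ k • y) := by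
  by_cases h : ∀ j, ∀ m : ℤ, (2 : ℝ) ^ k * x j ≠ m
  · filter_upwards [fl_local h] with y hy
    rw [cellF, hy]
  · push Not at h
    obtain ⟨j, m, hm⟩ := h
    have hc : Continuous fun y : V => |(2 : ℝ) ^ k * y j - m| :=
      ((continuous_const.mul (continuous_apply j)).sub continuous_const).abs
    have h2 : |(2 : ℝ) ^ k * x j - m| < 1 / 32 := by rw [hm, sub_self, abs_zero]; norm_num
    have h3 := (hc.tendsto x) (Iio_mem_nhds h2)
    filter_upwards [h3] with y hy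
    have : g ((2 : ℝ) ^ k • y) = 0 := hg _ ⟨j, m, hy⟩
    rw [cellF, this, mul_zero, mul_zero]

theorem contDiff_scale {g : V → ℝ} (hg : ContDiff ℝ ∞ g) (k : ℕ) (c : ℝ) :
    ContDiff ℝ ∞ (fun y : V => c * g ((2 : ℝ) ^ k • y)) :=
  contDiff_const.mul (hg.comp (contDiff_const_smul ((2 : ℝ) ^ k)))

theorem smul_shift (k : ℕ) (x : V) (i : Fin 3) : (2 : ℝ) ^ k • (x + Pi.single i (1 : ℝ)) =
    (2 : ℝ) ^ k • x + fun j => (((Pi.single i (2 ^ k) : K3) j : ℤ) : ℝ) := by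
  funext j
  simp only [Pi.smul_apply, Pi.add_apply, smul_eq_mul, Pi.single_apply]
  split_ifs <;> push_cast <;> ring

theorem fl_shift (k : ℕ) (x : V) (i : Fin 3) :
    fl k (x + Pi.single i 1) = fl k x + Pi.single i (2 ^ k) := by
  funext j
  simp only [fl, Pi.add_apply, Pi.single_apply]
  split_ifs with h
  · have : (2 : ℝ) ^ k * (x j + 1) = 2 ^ k * x j + ((2 ^ k : ℤ) : ℝ) := by push_cast; ring
    rw [this, Int.floor_add_intCast]
  · simp

theorem cellF_per {k : ℕ} {S : K3 → ℝ} (hS : ∀ m i, S (m + Pi.single i (2 ^ k)) = S m) {g : V → ℝ}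
    (hg : Per g) : Per (cellF k S g) := by
  intro i x
  rw [cellF, fl_shift, hS, smul_shift, hg.int, cellF]

theorem cellF_sp {k : ℕ} {S : K3 → ℝ} (hS : ∀ m i, S (m + Pi.single i (2 ^ k)) = S m) {g : V → ℝ}
    (hg : SP g) (hv : Van g) : SP (cellF k S g) := by
  refine ⟨contDiff_iff_contDiffAt.2 fun x => ?_, cellF_per hS hg.per⟩
  exact (contDiff_scale hg.smooth k _).contDiffAt.congr_of_eventuallyEq (cellF_local hv x)

theorem pd_scale {g : V → ℝ} (hg : ContDiff ℝ ∞ g) (k : ℕ) (c : ℝ) (j : Fin 3) (x : V) :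
    pd j (fun y : V => c * g ((2 : ℝ) ^ k • y)) x = c * (2 ^ k * pd j g ((2 : ℝ) ^ k • x)) := by
  have h1 : HasFDerivAt g (fderiv ℝ g ((2 : ℝ) ^ k • x)) ((2 : ℝ) ^ k • x) :=
    (hg.differentiable (by norm_cast) _).hasFDerivAt
  have h2 : HasFDerivAt (fun y : V => (2 : ℝ) ^ k • y)
      ((2 : ℝ) ^ k • ContinuousLinearMap.id ℝ V) x := (hasFDerivAt_id x).const_smul ((2 : ℝ) ^ k)
  have h3 := (h1.comp x h2).const_mul c
  have h4 := h3.fderiv
  unfold pd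
  have h5 : (fun y : V => c * g ((2 : ℝ) ^ k • y)) =
    fun y => c * (g ∘ fun y : V => (2 : ℝ) ^ k • y) y := rfl
  rw [h5, h4]
  simp

theorem cellF_pd {k : ℕ} {S : K3 → ℝ} {g : V → ℝ} (hg : ContDiff ℝ ∞ g) (hv : Van g) (j : Fin 3)
    (x : V) : pd j (cellF k S g) x = 2 ^ k * cellF k S (pd j g) x := by
  have h1 := (cellF_local (k := k) (S := S) hv x).fderiv_eq (𝕜 := ℝ)
  have h2 : pd j (cellF k S g) x = pd j (fun y : V => S (fl k x) * g ((2 : ℝ) ^ k • y)) x := by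
    unfold pd
    rw [h1]
  rw [h2, pd_scale hg, cellF]
  ring

theorem cellF_fderiv {k : ℕ} {S : K3 → ℝ} {g : V → ℝ} (hg : ContDiff ℝ ∞ g) (hv : Van g) (x : V) :
    fderiv ℝ (cellF k S g) x = (2 ^ k * S (fl k x)) • fderiv ℝ g ((2 : ℝ) ^ k • x) := by
  have h1 := (cellF_local (k := k) (S := S) hv x).fderiv_eq (𝕜 := ℝ)
  have h1' : HasFDerivAt g (fderiv ℝ g ((2 : ℝ) ^ k • x)) ((2 : ℝ) ^ k • x) :=
    (hg.differentiable (by norm_cast) _).hasFDerivAt
  have h2 : HasFDerivAt (fun y : V => (2 : ℝ) ^ k • y)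
      ((2 : ℝ) ^ k • ContinuousLinearMap.id ℝ V) x := (hasFDerivAt_id x).const_smul ((2 : ℝ) ^ k)
  have h3 := (h1'.comp x h2).const_mul (S (fl k x))
  have h4 := h3.fderiv
  have h5 : (fun y : V => S (fl k x) * g ((2 : ℝ) ^ k • y)) =
    fun y => S (fl k x) * (g ∘ fun y : V => (2 : ℝ) ^ k • y) y := rfl
  rw [h1, h5, h4]
  ext w
  simp
  ring

/-! ### functions of one variable -/

theorem fract_local_int {F : ℝ → ℝ} {δ : ℝ} (hδ : 0 < δ)
    (h0 : ∀ s, s ≤ δ → F s = 0) (h1 : ∀ s, 1 - δ ≤ s → s < 1 → F s = 0) (m : ℤ) :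
    (fun s : ℝ => F (Int.fract s)) =ᶠ[𝓝 (m : ℝ)] fun _ => 0 := by
  have hδ' : 0 < min δ (1 / 2) := lt_min hδ (by norm_num)
  filter_upwards [Metric.ball_mem_nhds (m : ℝ) hδ'] with y hy
  rw [Metric.mem_ball, Real.dist_eq, abs_lt] at hy
  have hm1 := min_le_left δ (1 / 2)
  have hm2 := min_le_right δ (1 / 2)
  rcases le_or_gt (m : ℝ) y with hle | hlt
  · have hfl : ⌊y⌋ = m := by
      rw [Int.floor_eq_iff]
      exact ⟨hle, by linarith [hy.2]⟩
    apply h0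
    rw [Int.fract, hfl]
    linarith [hy.2]
  · have hfl : ⌊y⌋ = m - 1 := by
      rw [Int.floor_eq_iff]
      push_cast
      exact ⟨by linarith [hy.1], by linarith⟩
    apply h1 _ _ (Int.fract_lt_one y)
    rw [Int.fract, hfl]
    push_cast
    linarith [hy.1]

theorem fract_local_nonint {F : ℝ → ℝ} {s : ℝ} (h : ∀ m : ℤ, s ≠ m) :
    (fun s : ℝ => F (Int.fract s)) =ᶠ[𝓝 s] fun y => F (y - ⌊s⌋) := by
  have h2 : (⌊s⌋ : ℝ) < s := lt_of_le_of_ne (Int.floor_le _) (h _).symm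
  filter_upwards [Ioo_mem_nhds h2 (Int.lt_floor_add_one s)] with y hy
  have : ⌊y⌋ = ⌊s⌋ := by rw [Int.floor_eq_iff]; exact ⟨hy.1.le, hy.2⟩
  rw [Int.fract, this]

/-- the periodic extension of a smooth function which vanishes near `0` and `1` -/
theorem contDiff_fract {F : ℝ → ℝ} (hF : ContDiff ℝ ∞ F) {δ : ℝ} (hδ : 0 < δ)
    (h0 : ∀ s, s ≤ δ → F s = 0) (h1 : ∀ s, 1 - δ ≤ s → s < 1 → F s = 0) :
    ContDiff ℝ ∞ (fun s : ℝ => F (Int.fract s)) := by
  rw [contDiff_iff_contDiffAt]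
  intro s
  by_cases h : ∃ m : ℤ, s = m
  · obtain ⟨m, rfl⟩ := h
    exact contDiffAt_const.congr_of_eventuallyEq (fract_local_int hδ h0 h1 m)
  · push Not at h
    exact ((hF.comp (contDiff_id.sub contDiff_const)).contDiffAt).congr_of_eventuallyEq
      (fract_local_nonint h)

theorem hasDerivAt_fract {F : ℝ → ℝ} (hF : ContDiff ℝ ∞ F) {δ : ℝ} (hδ : 0 < δ)
    (h0 : ∀ s, s ≤ δ → F s = 0) (h1 : ∀ s, 1 - δ ≤ s → s < 1 → F s = 0) (s : ℝ) :
    HasDerivAt (fun s : ℝ => F (Int.fract s)) (deriv F (Int.fract s)) s := by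
  by_cases h : ∃ m : ℤ, s = m
  · obtain ⟨m, rfl⟩ := h
    have h2 : deriv F (Int.fract (m : ℝ)) = 0 := by
      rw [Int.fract_intCast]
      have : F =ᶠ[𝓝 0] fun _ => 0 := by
        filter_upwards [Iio_mem_nhds hδ] with y hy
        exact h0 y (le_of_lt hy)
      rw [this.deriv_eq]
      simp
    rw [h2]
    exact (hasDerivAt_const (m : ℝ) (0 : ℝ)).congr_of_eventuallyEq (fract_local_int hδ h0 h1 m)
  · push Not at h
    have hd : HasDerivAt F (deriv F (s - ⌊s⌋)) (s - ⌊s⌋) :=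
      (hF.differentiable (by norm_cast) _).hasDerivAt
    exact (hd.comp_sub_const s _).congr_of_eventuallyEq (fract_local_nonint h)

end Pool.Agent.N262.FX
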