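import Pool.Agent.H459R3.NS.Defs

/-!
# Kinematic dynamos on the torus: definitions

Vector fields on the torus `ℝ³ / ℤ³` are `1`-periodic functions `ℝ³ → ℝ³`; integrals over the torus
are integrals over the period cell `cube = [0, 1]³`.
-/

open MeasureTheory Set Filter Topology
open scoped ContDiff NNReal ENNReal
open H459R3.NS

namespace Pool.Agent.N262.FX

/-- The scalar product on `ℝ³`. -/
def dot (a b : V) : ℝ := ∑ i, a i * b i

/-- The curl of a vector field. -/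
noncomputable def curl (ψ : V → V) (x : V) : V :=
  ![pd 1 (fun y => ψ y 2) x - pd 2 (fun y => ψ y 1) x,
    pd 2 (fun y => ψ y 0) x - pd 0 (fun y => ψ y 2) x,
    pd 0 (fun y => ψ y 1) x - pd 1 (fun y => ψ y 0) x]

/-- The vector Laplacian. -/
noncomputable def vlap (ψ : V → V) (x : V) : V := fun i => lap (fun y => ψ y i) x

/-- `B ∈ L²(𝕋³; ℝ³)`: a `1`-periodic field which is square integrable over the period cell. -/
structure L2Field (B : V → V) : Prop where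
  per : Per B
  mem : MemLp B 2 (volume.restrict cube)

/-- The field `B` is divergence-free in the sense of distributions on the torus. -/
def DivFree (B : V → V) : Prop :=
  ∀ φ : V → ℝ, SP φ → ∫ x in cube, ∑ i, B x i * pd i φ x = 0

/-- The `L²(𝕋³)`-norm of a field. -/
noncomputable def l2norm (B : V → V) : ℝ := Real.sqrt (∫ x in cube, ∑ i, B x i ^ 2)

/-- Admissible velocity fields: `u(t, ·)` is a divergence-free field on the torus, `u` is periodic
in time and measurable, and `u ∈ L^∞_t W^{1,∞}_x`, that is, the fields `u(t, ·)` are bounded and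
Lipschitz, uniformly in `t`. -/
structure Admissible (u : ℝ → V → V) : Prop where
  per : ∀ t, Per (u t)
  time : ∃ P > 0, ∀ t x, u (t + P) x = u t x
  meas : Measurable (fun z : ℝ × V => u z.1 z.2)
  bdd : ∃ M : ℝ, ∀ t x, ‖u t x‖ ≤ M
  lip : ∃ L : ℝ≥0, ∀ t, LipschitzWith L (u t)
  div : ∀ t, DivFree (u t)

/-- `Φ` is the flow of the velocity field `u`: `d/dt Φ_t(x) = u(t, Φ_t(x))`, `Φ_0(x) = x`, in
integrated form. -/
structure IsFlow (u : ℝ → V → V) (Φ : ℝ → V → V) : Prop where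
  cont : ∀ x, ContinuousOn (fun t => Φ t x) (Ici 0)
  eq : ∀ x, ∀ t, 0 ≤ t → Φ t x = x + ∫ s in (0 : ℝ)..t, u s (Φ s x)

/-- The solution `B(t, x) = (DΦ_t B_in) ∘ Φ_t⁻¹ (x)` of the ideal equation (`ε = 0`). -/
noncomputable def ideal (Φ : ℝ → V → V) (Bin : V → V) (t : ℝ) (x : V) : V :=
  fderiv ℝ (Φ t) (Function.invFun (Φ t) x) (Bin (Function.invFun (Φ t) x))

/-- The flux `∫ B(t, x) · ψ(x) dx` of the ideal solution. -/
noncomputable def flux (Φ : ℝ → V → V) (Bin ψ : V → V) (t : ℝ) : ℝ :=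
  ∫ x in cube, dot (ideal Φ Bin t x) (ψ x)

/-- `Γ(ψ)`: the supremum over all divergence-free `B_in ∈ L²` of
`limsup_{t → ∞} (1/t) log |∫ B(t, x) · ψ(x) dx|` (with `log 0 = -∞`). -/
noncomputable def Gam (Φ : ℝ → V → V) (ψ : V → V) : EReal :=
  ⨆ Bin : {B : V → V // L2Field B ∧ DivFree B},
    limsup (fun t : ℝ => ENNReal.log ‖flux Φ Bin.1 ψ t‖ₑ / (t : EReal)) atTop

/-- `u` is a perfect dynamo: `Γ(ψ) > 0` for some smooth field `ψ` on the torus. -/
def PerfectDynamo (u : ℝ → V → V) : Prop :=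
  ∃ Φ, IsFlow u Φ ∧ ∃ ψ : V → V, SPV ψ ∧ 0 < Gam Φ ψ

/-- `B` is a (weak) solution, with `B(0) = B_in`, of the induction equation
`∂ₜB = ∇ × (u × B) + ε Δ B`, `∇ · B = 0`, on the torus, in the class
`L^∞_loc([0, ∞); L²) ∩ L²_loc([0, ∞); H¹)`: the equation is required in integrated form in time,
against smooth fields `ψ` in space, and `Q = DB` is the weak gradient of `B`. -/
structure IsSol (ε : ℝ) (u : ℝ → V → V) (Bin : V → V) (B : ℝ → V → V) : Prop where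
  meas : AEStronglyMeasurable (fun z : ℝ × V => B z.1 z.2) (volume.restrict (Ici 0 ×ˢ cube))
  l2 : ∀ t, 0 ≤ t → L2Field (B t)
  div : ∀ t, 0 ≤ t → DivFree (B t)
  bdd : ∀ T : ℝ, ∃ C : ℝ, ∀ t ∈ Icc 0 T, l2norm (B t) ≤ C
  grad : ∃ Q : Fin 3 → Fin 3 → ℝ → V → ℝ,
    (∀ i j, ∀ T : ℝ, MemLp (fun z : ℝ × V => Q i j z.1 z.2) 2
      (volume.restrict (Icc 0 T ×ˢ cube))) ∧
    ∀ᵐ t ∂(volume.restrict (Ici (0 : ℝ))), ∀ i j, ∀ φ : V → ℝ, SP φ →
      ∫ x in cube, B t x i * pd j φ x = -∫ x in cube, Q i j t x * φ x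
  weak : ∀ ψ : V → V, SPV ψ → ∀ t, 0 ≤ t →
    ∫ x in cube, dot (B t x) (ψ x) = (∫ x in cube, dot (Bin x) (ψ x)) +
      ∫ s in (0 : ℝ)..t, ∫ x in cube,
        (dot (crossProduct (u s x) (B s x)) (curl ψ x) + ε * dot (B s x) (vlap ψ x))

/-- `u` is a fast dynamo: there are `ε₀, c₀, γ₀ > 0` such that for every `ε ∈ (0, ε₀]` there is a
(nonzero) divergence-free `B_in ∈ L²` whose solution satisfies
`‖B(t)‖ ≥ c₀ exp(γ₀ t) ‖B_in‖` for all `t ≥ 0`. -/
def FastDynamo (u : ℝ → V → V) : Prop :=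
  ∃ ε₀ > 0, ∃ c₀ > 0, ∃ γ₀ > 0, ∀ ε : ℝ, 0 < ε → ε ≤ ε₀ →
    ∃ (Bin : V → V) (B : ℝ → V → V), L2Field Bin ∧ DivFree Bin ∧ 0 < l2norm Bin ∧
      IsSol ε u Bin B ∧ ∀ t, 0 ≤ t → c₀ * Real.exp (γ₀ * t) * l2norm Bin ≤ l2norm (B t)

end Pool.Agent.N262.FX
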