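import Pool.Agent.N262.FX.Defs
import Pool.Agent.TH811.SPD.Str2

/-!
# Kinematic dynamos on the torus: auxiliary definitions
-/

open MeasureTheory Set Filter Topology
open scoped ContDiff NNReal ENNReal
open H459R3.NS Pool.Agent.GR.Flow

namespace Pool.Agent.N262.FX

/-- smooth functions whose differences over the periods are constant -/
structure QP (f : V → ℝ) : Prop where
  smooth : ContDiff ℝ ∞ f
  qper : ∀ i : Fin 3, ∃ c : ℝ, ∀ x, f (x + Pi.single i 1) = f x + c

/-- the energy of the component `B · ∇ℓ` -/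
noncomputable def En (ℓ : V → ℝ) (B : V → V) : ℝ := ∫ x in cube, (∑ i, B x i * pd i ℓ x) ^ 2

/-- the gradients of the three functions are uniformly independent -/
def Nondeg (ℓ : Fin 3 → V → ℝ) : Prop :=
  ∃ c > 0, ∀ x b : V, c * ∑ i, b i ^ 2 ≤ ∑ m, (∑ i, b i * pd i (ℓ m) x) ^ 2

/-- `g` preserves the integrals of periodic functions over the period cell -/
def Pres (g : V → V) : Prop :=
  ∀ k : V → ℝ≥0∞, Measurable k → Per k → ∫⁻ x in cube, k (g x) = ∫⁻ x in cube, k x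

/-- the flux functional written with the flow -/
noncomputable def ell (Φ : ℝ → V → V) (ψ : V → V) (t : ℝ) (B : V → V) : ℝ :=
  ∫ x in cube, dot (fderiv ℝ (Φ t) x (B x)) (ψ (Φ t x))

/-! ### Fourier partial sums -/

/-- frequencies -/
noncomputable def fI (n : ℕ) : Finset K3 := Finset.Icc (fun _ => -(n : ℤ)) (fun _ => (n : ℤ))

noncomputable def cs (k : K3) (x : V) : ℝ := Real.cos (2 * Real.pi * ph k x)

noncomputable def sn (k : K3) (x : V) : ℝ := Real.sin (2 * Real.pi * ph k x)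

/-- Fourier partial sum of a real function -/
noncomputable def PP (n : ℕ) (f : V → ℝ) (x : V) : ℝ :=
  ∑ k ∈ fI n, (cs k x * (∫ y in cube, f y * cs k y) + sn k x * ∫ y in cube, f y * sn k y)

/-! ### Cell fields -/

/-- coordinates in the unit cell: `c + X / 8` with `c = (1/2, 1/2, 1/2)` -/
noncomputable def cp (X : V) : V := fun i => 1 / 2 + X i / 8

/-- The two cell fields: a linear strain and a shear in the core of the unit cell, both zero near
the boundary of the cell. -/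
structure CellFields (W₀ W₁ : V → V) : Prop where
  sp0 : ∀ i, SP (fun x => W₀ x i)
  sp1 : ∀ i, SP (fun x => W₁ x i)
  div0 : ∀ x, ∑ i, pd i (fun y => W₀ y i) x = 0
  div1 : ∀ x, ∑ i, pd i (fun y => W₁ y i) x = 0
  van0 : ∀ x : V, (∃ (j : Fin 3) (m : ℤ), |x j - m| < 1 / 32) → W₀ x = 0
  van1 : ∀ x : V, (∃ (j : Fin 3) (m : ℤ), |x j - m| < 1 / 32) → W₁ x = 0
  core0 : ∀ X : V, (∀ j, |X j| ≤ 3) →
    W₀ (cp X) = (1 / 8 : ℝ) • ![Real.log 4 * X 0, Real.log 4 * X 1, -2 * Real.log 4 * X 2]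
  core1 : ∀ X : V, (∀ j, |X j| ≤ 3) → ∀ σ : ℝ, (σ = 1 ∨ σ = -1) →
    2 / 5 ≤ σ * (X 1 / 2 + 2 * X 2) → W₁ (cp X) = (1 / 8 : ℝ) • ![0, -2 * σ, σ / 2]

/-! ### The horseshoe -/

/-- the affine horseshoe map -/
noncomputable def Hs (X : V) : V :=
  ![4 * X 0, 4 * X 1 - 2 * (if 0 < X 1 then 1 else -1), X 2 / 16 + (if 0 < X 1 then 1 else -1) / 2]

/-- cell coordinates in the `j`-th cell of the slab with cells of side `2⁻ᵏ` -/
noncomputable def pt (k j : ℕ) (X : V) : V :=
  fun i => ((![(j : ℝ) + 1 / 2, 11 / 2, 1 / 2] : V) i + X i / 8) / 2 ^ k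

/-- the region which stays in the horseshoe for `n` steps -/
def Reg : ℕ → Set V
  | 0 => {X | |X 0| < 1 ∧ |X 1| < 1 ∧ |X 2| < 3 / 4}
  | n + 1 => {X | |X 0| < 1 / 4 ∧ 1 / 4 < |X 1| ∧ |X 1| < 3 / 4 ∧ |X 2| < 3 / 4 ∧ Hs X ∈ Reg n}

/-- the field against which the flux is measured -/
noncomputable def psi0 (x : V) : V := ![Real.sin (2 * Real.pi * x 1), 0, 0]

end Pool.Agent.N262.FX
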