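import Pool.Agent.N262.FX.Ode

/-!
# Lagrangian coordinates: smooth identities
-/

open MeasureTheory Set Filter Topology
open scoped ContDiff NNReal ENNReal
open H459R3.NS Pool.Agent.GR.Flow Pool.Agent.TH811.SPD

namespace Pool.Agent.N262.FX

theorem QP.sp_pd {f : V → ℝ} (h : QP f) (j : Fin 3) : SP (pd j f) where
  smooth := (h.smooth.fderiv_right (m := ∞) (by norm_cast)).clm_apply contDiff_const
  per i x := by
    obtain ⟨c, hc⟩ := h.qper i
    unfold pd
    have h1 : (fun x => f (x + Pi.single i 1)) = fun x => f x + c := funext hc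
    have h2 := fderiv_comp_add_right (𝕜 := ℝ) (f := f) (x := x) (Pi.single i 1)
    rw [h1, fderiv_add_const] at h2
    rw [← h2]

theorem SP.qp {f : V → ℝ} (h : SP f) : QP f :=
  ⟨h.smooth, fun i => ⟨0, fun x => by rw [add_zero]; exact h.per i x⟩⟩

/-- the directional derivative -/
theorem sum_pd (f : V → ℝ) (x b : V) : ∑ i, b i * pd i f x = fderiv ℝ f x b := by
  have := adv_eq (fun _ => b) f x
  unfold adv at this
  exact this

theorem QP.flow {U : V → V} (hU : ∀ i, SP (fun y => U y i)) {G : ℝ → V → V} (hG : IsFlowOf U G)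
    {ℓ : V → ℝ} (hℓ : QP ℓ) (t : ℝ) : QP (fun x => ℓ (G t x)) where
  smooth := hℓ.smooth.comp ((flow_smooth hU hG).comp (contDiff_const.prodMk contDiff_id))
  qper i := by
    obtain ⟨c, hc⟩ := hℓ.qper i
    refine ⟨c, fun x => ?_⟩
    show ℓ (G t (x + Pi.single i 1)) = ℓ (G t x) + c
    rw [flow_per hU hG, hc]

theorem flow_diff {U : V → V} (hU : ∀ i, SP (fun y => U y i)) {G : ℝ → V → V}
    (hG : IsFlowOf U G) (t : ℝ) : ContDiff ℝ ∞ (G t) :=
  (flow_smooth hU hG).comp (contDiff_const.prodMk contDiff_id)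

theorem flow_fderiv_per {U : V → V} (hU : ∀ i, SP (fun y => U y i)) {G : ℝ → V → V}
    (hG : IsFlowOf U G) (t : ℝ) : Per (fderiv ℝ (G t)) := by
  intro i x
  have h1 : (fun x => G t (x + Pi.single i 1)) = fun x => G t x + Pi.single i 1 :=
    funext fun x => flow_per hU hG t x i
  have h2 := fderiv_comp_add_right (𝕜 := ℝ) (f := G t) (x := x) (Pi.single i 1)
  rw [h1, fderiv_add_const] at h2
  exact h2.symm

theorem Nondeg.flow {U : V → V} (hU : ∀ i, SP (fun y => U y i)) {G : ℝ → V → V}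
    (hG : IsFlowOf U G) {ℓ : Fin 3 → V → ℝ} (hℓ : ∀ m, QP (ℓ m)) (hn : Nondeg ℓ) (t : ℝ) :
    Nondeg (fun m x => ℓ m (G t x)) := by
  obtain ⟨c, hc, h⟩ := hn
  obtain ⟨C, hC⟩ := per_bound (flow_fderiv_per hU hG (-t))
    ((flow_diff hU hG (-t)).continuous_fderiv (by norm_cast))
  refine ⟨c / (3 * (C + 1) ^ 2), by positivity, fun x b => ?_⟩
  have hd : HasFDerivAt (G t) (fderiv ℝ (G t) x) x :=
    ((flow_diff hU hG t).differentiable (by norm_cast) x).hasFDerivAt
  set w := fderiv ℝ (G t) x b with hw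
  have e : ∀ m, ∑ i, b i * pd i (fun x => ℓ m (G t x)) x = ∑ i, w i * pd i (ℓ m) (G t x) := by
    intro m
    have h1 : HasFDerivAt (ℓ m) (fderiv ℝ (ℓ m) (G t x)) (G t x) :=
      ((hℓ m).smooth.differentiable (by norm_cast) _).hasFDerivAt
    have h2 := (h1.comp x hd).fderiv
    rw [sum_pd, sum_pd, show (fun x => ℓ m (G t x)) = ℓ m ∘ G t from rfl, h2]
    rfl
  simp_rw [e]
  refine le_trans ?_ (h (G t x) w)
  have hinv : b = fderiv ℝ (G (-t)) (G t x) w := by
    have h1 : HasFDerivAt (G (-t)) (fderiv ℝ (G (-t)) (G t x)) (G t x) :=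
      ((flow_diff hU hG (-t)).differentiable (by norm_cast) _).hasFDerivAt
    have h2 := (h1.comp x hd).fderiv
    have h3 : G (-t) ∘ G t = id := by
      funext y
      show G (-t) (G t y) = y
      rw [← flow_add hU hG, neg_add_cancel, hG.zero]
    rw [h3, fderiv_id] at h2
    have h4 := congrArg (fun L : V →L[ℝ] V => L b) h2
    simpa using h4
  have h1 : ‖b‖ ≤ (C + 1) * ‖w‖ := by
    calc ‖b‖ = ‖fderiv ℝ (G (-t)) (G t x) w‖ := by rw [← hinv]
      _ ≤ ‖fderiv ℝ (G (-t)) (G t x)‖ * ‖w‖ := ContinuousLinearMap.le_opNorm _ _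
      _ ≤ (C + 1) * ‖w‖ := by
        refine mul_le_mul_of_nonneg_right ?_ (norm_nonneg _)
        exact (hC _).trans (by linarith)
  have h2 : ∑ i, b i ^ 2 ≤ 3 * ‖b‖ ^ 2 := by
    have : ∀ i, b i ^ 2 ≤ ‖b‖ ^ 2 := fun i => by
      rw [← sq_abs (b i)]
      exact pow_le_pow_left₀ (abs_nonneg _) (norm_le_pi_norm b i) 2
    rw [Fin.sum_univ_three]
    linarith [this 0, this 1, this 2]
  have h3 : ‖w‖ ^ 2 ≤ ∑ i, w i ^ 2 := by
    have h0 : 0 ≤ ∑ i, w i ^ 2 := Finset.sum_nonneg fun i _ => sq_nonneg _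
    have : ‖w‖ ≤ Real.sqrt (∑ i, w i ^ 2) := by
      rw [pi_norm_le_iff_of_nonneg (Real.sqrt_nonneg _)]
      intro i
      rw [Real.norm_eq_abs, ← Real.sqrt_sq_eq_abs]
      exact Real.sqrt_le_sqrt (Finset.single_le_sum (f := fun i => w i ^ 2)
        (fun i _ => sq_nonneg _) (Finset.mem_univ i))
    calc ‖w‖ ^ 2 ≤ Real.sqrt (∑ i, w i ^ 2) ^ 2 := pow_le_pow_left₀ (norm_nonneg _) this 2
      _ = _ := Real.sq_sqrt h0
  have h4 : ‖b‖ ^ 2 ≤ (C + 1) ^ 2 * ‖w‖ ^ 2 := by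
    rw [← mul_pow]
    exact pow_le_pow_left₀ (norm_nonneg _) h1 2
  have hC0 : (0 : ℝ) < 3 * (C + 1) ^ 2 := by positivity
  rw [div_mul_eq_mul_div, div_le_iff₀ hC0]
  have h5 : ∑ i, b i ^ 2 ≤ 3 * (C + 1) ^ 2 * ∑ i, w i ^ 2 := by
    calc ∑ i, b i ^ 2 ≤ 3 * ((C + 1) ^ 2 * ‖w‖ ^ 2) := h2.trans (by linarith)
      _ ≤ 3 * ((C + 1) ^ 2 * ∑ i, w i ^ 2) := by gcongr
      _ = _ := by ring
  calc c * ∑ i, b i ^ 2 ≤ c * (3 * (C + 1) ^ 2 * ∑ i, w i ^ 2) :=
        mul_le_mul_of_nonneg_left h5 hc.le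
    _ = _ := by ring

/-- the gradient -/
noncomputable def grad (f : V → ℝ) (x : V) : V := fun i => pd i f x

/-- Lagrange's identity -/
theorem dot_cross (a b c d : V) : dot (crossProduct a b) (crossProduct c d)
    = dot a c * dot b d - dot a d * dot b c := by
  simp only [dot, cross_apply, Fin.sum_univ_three, Matrix.cons_val_zero, Matrix.cons_val_one,
    Matrix.cons_val]
  ring

/-- The smooth identity. -/
theorem smooth_identity {U B : V → V} (hU : ∀ i, SP (fun y => U y i))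
    (hUd : ∀ x, ∑ i, pd i (fun y => U y i) x = 0) (hB : ∀ i, SP (fun y => B y i))
    (hBd : ∀ x, ∑ i, pd i (fun y => B y i) x = 0) {p : V → ℝ} (hp : QP p) :
    (∫ x in cube, dot (crossProduct (U x) (B x))
      (crossProduct (grad (fun y => ∑ i, B y i * pd i p y) x) (grad p x))) +
    ∫ x in cube, (∑ i, B x i * pd i p x) *
      ∑ i, B x i * pd i (fun y => -∑ j, U y j * pd j p y) x = 0 := by
  set b : V → ℝ := fun y => ∑ i, B y i * pd i p y with hb
  set q : V → ℝ := fun y => -∑ j, U y j * pd j p y with hq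
  have hbs : SP b := SP.sum fun i _ => (hB i).mul (hp.sp_pd i)
  have hqs0 : SP (fun y => ∑ j, U y j * pd j p y) := SP.sum fun i _ => (hU i).mul (hp.sp_pd i)
  have hqs : SP q := ⟨hqs0.smooth.neg, fun i x => by
    exact congrArg Neg.neg (hqs0.per i x)⟩
  have advU : SP (fun x => adv U b x) := SP.sum fun i _ => (hU i).mul (hbs.pd i)
  have advB : SP (fun x => adv B b x) := SP.sum fun i _ => (hB i).mul (hbs.pd i)
  have e1 : ∀ x, dot (crossProduct (U x) (B x)) (crossProduct (grad b x) (grad p x))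
      = adv U b x * b x + adv B b x * q x := by
    intro x
    rw [dot_cross]
    simp only [dot, grad, adv, hq, hb]
    ring
  simp_rw [e1]
  rw [integral_add (advU.mul hbs).int (advB.mul hqs).int]
  have h1 := int_adv_mul hU hUd hbs hbs
  have h2 := int_adv_mul hB hBd hbs hqs
  have h3 : ∫ x in cube, adv U b x * b x = 0 := by
    have : ∫ x in cube, b x * adv U b x = ∫ x in cube, adv U b x * b x := by
      congr 1; funext x; ring
    rw [this] at h1
    linarith
  have h4 : ∫ x in cube, b x * ∑ i, B x i * pd i q x = ∫ x in cube, b x * adv B q x := rfl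
  rw [h3, h2, h4]
  ring

/-- commutation of the time derivative with the space derivatives -/
theorem hasDerivAt_pd {P : ℝ × V → ℝ} (hP : ContDiff ℝ ∞ P) (i : Fin 3) (s : ℝ) (x : V) :
    HasDerivAt (fun s => pd i (fun y => P (s, y)) x)
      (pd i (fun y => deriv (fun r => P (r, y)) s) x) s := by
  have hF : ContDiff ℝ ∞ (fderiv ℝ P) := hP.fderiv_right (m := ∞) (by norm_cast)
  have hd : ∀ z, HasFDerivAt P (fderiv ℝ P z) z := fun z =>
    (hP.differentiable (by norm_cast) z).hasFDerivAt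
  have hd2 : ∀ z, HasFDerivAt (fderiv ℝ P) (fderiv ℝ (fderiv ℝ P) z) z := fun z =>
    (hF.differentiable (by norm_cast) z).hasFDerivAt
  have e1 : ∀ s y, pd i (fun y => P (s, y)) y = fderiv ℝ P (s, y) (0, Pi.single i 1) := by
    intro s y
    have h1 : HasFDerivAt (fun y : V => ((s, y) : ℝ × V)) (ContinuousLinearMap.inr ℝ ℝ V) y :=
      hasFDerivAt_prodMk_right s y
    have h2 := ((hd (s, y)).comp y h1).fderiv
    unfold pd
    rw [show (fun y => P (s, y)) = P ∘ fun y => (s, y) from rfl, h2]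
    simp
  have e2 : ∀ s y, deriv (fun r => P (r, y)) s = fderiv ℝ P (s, y) (1, 0) := by
    intro s y
    have h1 : HasDerivAt (fun r : ℝ => ((r, y) : ℝ × V)) ((1, 0) : ℝ × V) s :=
      (hasDerivAt_id s).prodMk (hasDerivAt_const s y)
    exact ((hd (s, y)).comp_hasDerivAt s h1).deriv
  simp_rw [e1, e2]
  have h1 : HasDerivAt (fun r : ℝ => ((r, x) : ℝ × V)) ((1, 0) : ℝ × V) s :=
    (hasDerivAt_id s).prodMk (hasDerivAt_const s x)
  have h2 := (hd2 (s, x)).comp_hasDerivAt s h1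
  have h3 : HasDerivAt (fun r => fderiv ℝ P (r, x) (0, Pi.single i 1))
      (fderiv ℝ (fderiv ℝ P) (s, x) (1, 0) (0, Pi.single i 1)) s := by
    have := h2.clm_apply (hasDerivAt_const s ((0, Pi.single i 1) : ℝ × V))
    simpa using this
  have h4 : pd i (fun y => fderiv ℝ P (s, y) (1, 0)) x
      = fderiv ℝ (fderiv ℝ P) (s, x) (0, Pi.single i 1) (1, 0) := by
    have h5 : HasFDerivAt (fun y : V => ((s, y) : ℝ × V)) (ContinuousLinearMap.inr ℝ ℝ V) x :=
      hasFDerivAt_prodMk_right s x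
    have h6 := (hd2 (s, x)).comp x h5
    have h7 := h6.clm_apply (hasFDerivAt_const ((1, 0) : ℝ × V) x)
    unfold pd
    have h8 : (fun y => fderiv ℝ P (s, y) (1, 0)) =
      fun y => ((fderiv ℝ P ∘ fun y => (s, y)) y) (1, 0) := rfl
    rw [h8, h7.fderiv]
    simp
  rw [h4]
  have hsymm : IsSymmSndFDerivAt ℝ P (s, x) :=
    (hP.contDiffAt (x := (s, x))).isSymmSndFDerivAt (by
      rw [minSmoothness_of_isRCLikeNormedField]
      show ((2 : ℕ∞) : WithTop ℕ∞) ≤ ((⊤ : ℕ∞) : WithTop ℕ∞)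
      exact WithTop.coe_le_coe.2 le_top)
  have h9 := hsymm.eq (1, 0) (0, Pi.single i 1)
  rw [← h9]
  exact h3

/-- the transport equation for the Lagrangian coordinates -/
theorem lagr_deriv {U : V → V} (hU : ∀ i, SP (fun y => U y i)) {G : ℝ → V → V}
    (hG : IsFlowOf U G) {ℓ : V → ℝ} (hℓ : QP ℓ) (a s : ℝ) (x : V) :
    HasDerivAt (fun s => ℓ (G (-(s - a)) x))
      (-∑ j, U x j * pd j (fun y => ℓ (G (-(s - a)) y)) x) s := by
  -- the function `r ↦ ℓ (G (-(s - a)) (G r x))`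
  have hq := hℓ.flow hU hG (-(s - a))
  have h1 : HasDerivAt (fun r => ℓ (G (-(s - a)) (G r x)))
      (fderiv ℝ (fun y => ℓ (G (-(s - a)) y)) x (U x)) 0 := by
    have h2 : HasFDerivAt (fun y => ℓ (G (-(s - a)) y))
        (fderiv ℝ (fun y => ℓ (G (-(s - a)) y)) (G 0 x)) (G 0 x) :=
      (hq.smooth.differentiable (by norm_cast) _).hasFDerivAt
    have h3 := h2.comp_hasDerivAt (0 : ℝ) (hG.deriv x 0)
    rw [hG.zero] at h3
    exact h3
  have h4 : (fun r => ℓ (G (-(s - a)) (G r x))) = fun r => ℓ (G (-(s - a) + r) x) := by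
    funext r
    rw [flow_add hU hG]
  rw [h4] at h1
  rw [sum_pd (fun y => ℓ (G (-(s - a)) y)) x (U x)]
  have h5 : HasDerivAt (fun r : ℝ => -(r - s)) (-1) s := by
    exact ((hasDerivAt_id s).sub_const s).neg
  have h6 : HasDerivAt (fun r => ℓ (G (-(s - a) + r) x))
      (fderiv ℝ (fun y => ℓ (G (-(s - a)) y)) x (U x)) (-(s - s)) := by
    rw [sub_self, neg_zero]; exact h1
  have h7 := h6.comp s h5
  rw [mul_neg_one] at h7
  refine h7.congr_of_eventuallyEq (Filter.Eventually.of_forall fun r => ?_)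
  show ℓ (G (-(r - a)) x) = ℓ (G (-(s - a) + -(r - s)) x)
  congr 2
  ring

theorem lagr_smooth {U : V → V} (hU : ∀ i, SP (fun y => U y i)) {G : ℝ → V → V}
    (hG : IsFlowOf U G) {ℓ : V → ℝ} (hℓ : QP ℓ) (a : ℝ) :
    ContDiff ℝ ∞ (fun z : ℝ × V => ℓ (G (-(z.1 - a)) z.2)) :=
  hℓ.smooth.comp ((flow_smooth hU hG).comp
    (((contDiff_fst.sub contDiff_const).neg).prodMk contDiff_snd))

/-- the time derivative of the gradient of the Lagrangian coordinates -/
theorem lagr_pd_deriv {U : V → V} (hU : ∀ i, SP (fun y => U y i)) {G : ℝ → V → V}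
    (hG : IsFlowOf U G) {ℓ : V → ℝ} (hℓ : QP ℓ) (a : ℝ) (i : Fin 3) (s : ℝ) (x : V) :
    HasDerivAt (fun s => pd i (fun y => ℓ (G (-(s - a)) y)) x)
      (pd i (fun y => -∑ j, U y j * pd j (fun z => ℓ (G (-(s - a)) z)) y) x) s := by
  have h := hasDerivAt_pd (lagr_smooth hU hG hℓ a) i s x
  have e : (fun y => deriv (fun r => ℓ (G (-(r - a)) y)) s)
      = fun y => -∑ j, U y j * pd j (fun z => ℓ (G (-(s - a)) z)) y :=
    funext fun y => (lagr_deriv hU hG hℓ a s y).deriv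
  simp only at h
  rw [e] at h
  exact h

end Pool.Agent.N262.FX
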