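import Pool.Agent.N262.FX.EnA

/-!
# Absolutely continuous functions and the weak form of the induction equation
-/

open MeasureTheory Set Filter Topology
open scoped ContDiff NNReal ENNReal
open H459R3.NS Pool.Agent.GR.Flow Pool.Agent.TH811.SPD

namespace Pool.Agent.N262.FX

/-- `F` is a primitive of the integrable function `f` on `[a, b]` -/
structure Prim (a b : ℝ) (F f : ℝ → ℝ) : Prop where
  int : IntervalIntegrable f volume a b
  eq : ∀ t ∈ Icc a b, F t = F a + ∫ s in a..t, f s

namespace Prim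

variable {a b : ℝ}

theorem of_hasDerivAt {F f : ℝ → ℝ} (hd : ∀ t, HasDerivAt F (f t) t) (hc : Continuous f) :
    Prim a b F f where
  int := hc.intervalIntegrable _ _
  eq t _ := by
    rw [intervalIntegral.integral_eq_sub_of_hasDerivAt (fun s _ => hd s)
      (hc.intervalIntegrable _ _)]
    ring

theorem const (c : ℝ) : Prim a b (fun _ => c) (fun _ => 0) :=
  of_hasDerivAt (fun t => hasDerivAt_const t c) continuous_const

theorem mono_int {f : ℝ → ℝ} (hf : IntervalIntegrable f volume a b) {t : ℝ} (ht : t ∈ Icc a b) :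
    IntervalIntegrable f volume a t := by
  refine hf.mono_set ?_
  rw [uIcc_of_le ht.1, uIcc_of_le (ht.1.trans ht.2)]
  exact Icc_subset_Icc_right ht.2

theorem add {F G f g : ℝ → ℝ} (hF : Prim a b F f) (hG : Prim a b G g) :
    Prim a b (fun t => F t + G t) (fun t => f t + g t) where
  int := hF.int.add hG.int
  eq t ht := by
    rw [intervalIntegral.integral_add (mono_int hF.int ht) (mono_int hG.int ht), hF.eq t ht,
      hG.eq t ht]
    ring

theorem sum {ι : Type*} {S : Finset ι} {F f : ι → ℝ → ℝ} (h : ∀ i ∈ S, Prim a b (F i) (f i)) :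
    Prim a b (fun t => ∑ i ∈ S, F i t) (fun t => ∑ i ∈ S, f i t) := by
  classical
  induction S using Finset.induction_on with
  | empty => simpa using const (a := a) (b := b) 0
  | insert i S hi ih =>
    simp_rw [Finset.sum_insert hi]
    exact (h i (Finset.mem_insert_self _ _)).add (ih fun j hj => h j (Finset.mem_insert_of_mem hj))

theorem mul {F G f g : ℝ → ℝ} (hab : a ≤ b) (hF : Prim a b F f) (hG : Prim a b G g) :
    Prim a b (fun t => F t * G t) (fun t => f t * G t + F t * g t) := by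
  set F' : ℝ → ℝ := fun t => F a + ∫ s in a..t, f s with hF'
  set G' : ℝ → ℝ := fun t => G a + ∫ s in a..t, g s with hG'
  have eF : ∀ t ∈ Icc a b, F' t = F t := fun t ht => (hF.eq t ht).symm
  have eG : ∀ t ∈ Icc a b, G' t = G t := fun t ht => (hG.eq t ht).symm
  have acF : AbsolutelyContinuousOnInterval F' a b := by
    have h1 := hF.int.absolutelyContinuousOnInterval_intervalIntegral (c := a) (by simp)
    have h2 : AbsolutelyContinuousOnInterval (fun _ : ℝ => F a) a b :=
      (contDiff_const.contDiffOn (s := uIcc a b)).absolutelyContinuousOnInterval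
    exact h2.add h1
  have acG : AbsolutelyContinuousOnInterval G' a b := by
    have h1 := hG.int.absolutelyContinuousOnInterval_intervalIntegral (c := a) (by simp)
    have h2 : AbsolutelyContinuousOnInterval (fun _ : ℝ => G a) a b :=
      (contDiff_const.contDiffOn (s := uIcc a b)).absolutelyContinuousOnInterval
    exact h2.add h1
  have dF : ∀ᵐ t, t ∈ uIcc a b → HasDerivAt F' (f t) t := by
    filter_upwards [hF.int.ae_hasDerivAt_integral] with t ht hmem
    exact (ht hmem a (by simp)).const_add _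
  have dG : ∀ᵐ t, t ∈ uIcc a b → HasDerivAt G' (g t) t := by
    filter_upwards [hG.int.ae_hasDerivAt_integral] with t ht hmem
    exact (ht hmem a (by simp)).const_add _
  have cF : ContinuousOn F' (uIcc a b) := acF.continuousOn
  have cG : ContinuousOn G' (uIcc a b) := acG.continuousOn
  have ea : ∀ s ∈ uIcc a b, f s * G' s + F' s * g s = f s * G s + F s * g s := by
    intro s hs
    rw [uIcc_of_le hab] at hs
    rw [eF s hs, eG s hs]
  constructor
  · have h1 : IntervalIntegrable (fun s => f s * G' s + F' s * g s) volume a b :=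
      (hF.int.mul_continuousOn cG).add (hG.int.continuousOn_mul cF)
    refine h1.congr_ae ?_
    refine (ae_restrict_iff' measurableSet_uIoc).2 (ae_of_all _ fun s hs => ?_)
    exact ea s (uIoc_subset_uIcc hs)
  · intro t ht
    have hsub : uIcc a t ⊆ uIcc a b := by
      rw [uIcc_of_le ht.1, uIcc_of_le hab]; exact Icc_subset_Icc_right ht.2
    have h1 := (acF.mono hsub).integral_deriv_mul_eq_sub (acG.mono hsub)
    have h2 : ∫ s in a..t, (deriv F' s * G' s + F' s * deriv G' s)
        = ∫ s in a..t, (f s * G s + F s * g s) := by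
      refine intervalIntegral.integral_congr_ae ?_
      filter_upwards [dF, dG] with s h1 h2 hs
      have hs' : s ∈ uIcc a b := hsub (uIoc_subset_uIcc hs)
      rw [(h1 hs').deriv, (h2 hs').deriv, ea s hs']
    rw [h2, eF t ht, eG t ht, eF a (left_mem_Icc.2 hab), eG a (left_mem_Icc.2 hab)] at h1
    rw [h1]
    ring

theorem congr {F G f g : ℝ → ℝ} (hab : a ≤ b) (h : Prim a b F f) (hF : ∀ t ∈ Icc a b, F t = G t)
    (hf : ∀ t ∈ Icc a b, f t = g t) : Prim a b G g where
  int := by
    refine h.int.congr_ae ?_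
    refine (ae_restrict_iff' measurableSet_uIoc).2 (ae_of_all _ fun s hs => ?_)
    rw [uIoc_of_le hab] at hs
    exact hf s (Ioc_subset_Icc_self hs)
  eq t ht := by
    rw [← hF t ht, ← hF a (left_mem_Icc.2 hab), h.eq t ht]
    congr 1
    refine intervalIntegral.integral_congr fun s hs => ?_
    rw [uIcc_of_le ht.1] at hs
    exact hf s ⟨hs.1, hs.2.trans ht.2⟩

theorem const_mul {F f : ℝ → ℝ} (h : Prim a b F f) (c : ℝ) :
    Prim a b (fun t => c * F t) (fun t => c * f t) where
  int := h.int.const_mul c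
  eq t ht := by
    rw [intervalIntegral.integral_const_mul, h.eq t ht]
    ring

end Prim

/-! ### the functional -/

/-- the right side of the weak form -/
noncomputable def Lf (ε : ℝ) (u : ℝ → V → V) (B : ℝ → V → V) (s : ℝ) (ψ : V → V) : ℝ :=
  ∫ x in cube, (dot (crossProduct (u s x) (B s x)) (curl ψ x) + ε * dot (B s x) (vlap ψ x))

theorem SPV.sp {ψ : V → V} (h : SPV ψ) (i : Fin 3) : SP (fun x => ψ x i) :=
  ⟨(contDiff_apply ℝ ℝ i).comp h.1, fun j x => by rw [h.2 j x]⟩

theorem spv_of {ψ : V → V} (h : ∀ i, SP (fun x => ψ x i)) : SPV ψ :=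
  ⟨contDiff_pi.2 fun i => (h i).smooth, fun j x => funext fun i => (h i).per j x⟩

/-- a bounded measurable field -/
structure BddField (u : ℝ → V → V) : Prop where
  meas : Measurable (fun z : ℝ × V => u z.1 z.2)
  bdd : ∃ M : ℝ, ∀ t x, ‖u t x‖ ≤ M

theorem prod_cube (S : Set ℝ) : (volume.restrict S).prod (volume.restrict cube)
    = (volume : Measure (ℝ × V)).restrict (S ×ˢ cube) := Measure.prod_restrict _ _

theorem curl_cont {ψ : V → V} (h : SPV ψ) : Continuous (curl ψ) := by
  unfold curl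
  refine continuous_pi fun i => ?_
  have hc : ∀ i j, Continuous (pd j fun y => ψ y i) := fun i j => ((h.sp i).pd j).cont
  fin_cases i
  · exact (hc 2 1).sub (hc 1 2)
  · exact (hc 0 2).sub (hc 2 0)
  · exact (hc 1 0).sub (hc 0 1)

theorem vlap_cont {ψ : V → V} (h : SPV ψ) : Continuous (vlap ψ) :=
  continuous_pi fun i => (SP.lap (h.sp i)).cont

theorem curl_per {ψ : V → V} (h : SPV ψ) : Per (curl ψ) := by
  intro j x
  have hc : ∀ i k, pd k (fun y => ψ y i) (x + Pi.single j 1) = pd k (fun y => ψ y i) x :=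
    fun i k => ((h.sp i).pd k).per j x
  unfold curl
  simp only [hc]

theorem vlap_per {ψ : V → V} (h : SPV ψ) : Per (vlap ψ) := fun j x =>
  funext fun i => (SP.lap (h.sp i)).per j x

/-- the integrand of the functional is bounded by a multiple of `∑ |Bᵢ|` -/
theorem Lf_bound {ε : ℝ} {u : ℝ → V → V} (hu : BddField u) {ψ : V → V} (hψ : SPV ψ) :
    ∃ K : ℝ, 0 ≤ K ∧ ∀ s x (b : V),
      |dot (crossProduct (u s x) b) (curl ψ x) + ε * dot b (vlap ψ x)| ≤ K * ∑ i, |b i| := by
  obtain ⟨M, hM⟩ := hu.bdd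
  obtain ⟨C, hC⟩ := per_bound (curl_per hψ) (curl_cont hψ)
  obtain ⟨D, hD⟩ := per_bound (vlap_per hψ) (vlap_cont hψ)
  have hM0 : 0 ≤ M := (norm_nonneg _).trans (hM 0 0)
  refine ⟨2 * M * C + |ε| * D, by positivity, fun s x b => ?_⟩
  have h1 : ∀ i, |u s x i| ≤ M := fun i => (norm_le_pi_norm (u s x) i).trans (hM s x)
  have h2 : ∀ i, |curl ψ x i| ≤ C := fun i => (norm_le_pi_norm (curl ψ x) i).trans (hC x)
  have h3 : ∀ i, |vlap ψ x i| ≤ D := fun i => (norm_le_pi_norm (vlap ψ x) i).trans (hD x)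
  have k1 : ∀ i j k, |u s x i * b j * curl ψ x k| ≤ M * C * |b j| := by
    intro i j k
    rw [abs_mul, abs_mul]
    calc |u s x i| * |b j| * |curl ψ x k| ≤ M * |b j| * C :=
          mul_le_mul (mul_le_mul_of_nonneg_right (h1 i) (abs_nonneg _)) (h2 k) (abs_nonneg _)
            (by positivity)
      _ = _ := by ring
  have k2 : |dot b (vlap ψ x)| ≤ D * ∑ i, |b i| := by
    unfold dot
    rw [Finset.mul_sum]
    refine (Finset.abs_sum_le_sum_abs _ _).trans (Finset.sum_le_sum fun i _ => ?_)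
    rw [abs_mul, mul_comm]
    exact mul_le_mul_of_nonneg_right (h3 i) (abs_nonneg _)
  have k3 : |dot (crossProduct (u s x) b) (curl ψ x)| ≤ 2 * M * C * ∑ i, |b i| := by
    have e : dot (crossProduct (u s x) b) (curl ψ x) =
        (u s x 1 * b 2 * curl ψ x 0 - u s x 2 * b 1 * curl ψ x 0) +
        (u s x 2 * b 0 * curl ψ x 1 - u s x 0 * b 2 * curl ψ x 1) +
        (u s x 0 * b 1 * curl ψ x 2 - u s x 1 * b 0 * curl ψ x 2) := by
      simp only [dot, cross_apply, Fin.sum_univ_three, Matrix.cons_val_zero, Matrix.cons_val_one,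
        Matrix.cons_val]
      ring
    rw [e, Fin.sum_univ_three]
    have a1 := abs_le.1 (k1 1 2 0)
    have a2 := abs_le.1 (k1 2 1 0)
    have a3 := abs_le.1 (k1 2 0 1)
    have a4 := abs_le.1 (k1 0 2 1)
    have a5 := abs_le.1 (k1 0 1 2)
    have a6 := abs_le.1 (k1 1 0 2)
    rw [abs_le]
    constructor <;> linarith [a1.1, a1.2, a2.1, a2.2, a3.1, a3.2, a4.1, a4.2, a5.1, a5.2, a6.1, a6.2]
  calc _ ≤ |dot (crossProduct (u s x) b) (curl ψ x)| + |ε * dot b (vlap ψ x)| := abs_add_le _ _
    _ ≤ 2 * M * C * ∑ i, |b i| + |ε| * (D * ∑ i, |b i|) := by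
      refine add_le_add k3 ?_
      rw [abs_mul]
      exact mul_le_mul_of_nonneg_left k2 (abs_nonneg _)
    _ = _ := by ring

theorem L2Field.cp {B : V → V} (h : L2Field B) (i : Fin 3) :
    MemLp (fun x => B x i) 2 (volume.restrict cube) := h.mem.eval i

instance : IsFiniteMeasure (volume.restrict cube) := cube_finite

theorem dot_meas {α : Type*} [MeasurableSpace α] {μ : Measure α} {f g : α → V}
    (hf : AEStronglyMeasurable f μ) (hg : AEStronglyMeasurable g μ) :
    AEStronglyMeasurable (fun x => dot (f x) (g x)) μ := by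
  unfold dot
  have h1 : ∀ i, AEStronglyMeasurable (fun x => f x i) μ := fun i =>
    (continuous_apply i).comp_aestronglyMeasurable hf
  have h2 : ∀ i, AEStronglyMeasurable (fun x => g x i) μ := fun i =>
    (continuous_apply i).comp_aestronglyMeasurable hg
  simp only [Fin.sum_univ_three]
  exact (((h1 0).mul (h2 0)).add ((h1 1).mul (h2 1))).add ((h1 2).mul (h2 2))

theorem cross_meas {α : Type*} [MeasurableSpace α] {μ : Measure α} {f g : α → V}
    (hf : AEStronglyMeasurable f μ) (hg : AEStronglyMeasurable g μ) :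
    AEStronglyMeasurable (fun x => crossProduct (f x) (g x)) μ := by
  have hc : Continuous (fun p : V × V => crossProduct p.1 p.2) := by
    simp_rw [cross_apply]
    refine continuous_pi fun i => ?_
    fin_cases i
    · simp only [Fin.zero_eta, Matrix.cons_val_zero]; fun_prop
    · simp only [Fin.mk_one, Matrix.cons_val_one]; fun_prop
    · simp only [Fin.reduceFinMk, Matrix.cons_val]; fun_prop
  exact hc.comp_aestronglyMeasurable (hf.prodMk hg)

section sol

variable {ε : ℝ} {u : ℝ → V → V} {Bin : V → V} {B : ℝ → V → V}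

theorem Lf_meas (hu : BddField u) (hB : IsSol ε u Bin B) {ψ : V → V} (hψ : SPV ψ) {T : ℝ} :
    AEStronglyMeasurable (fun z : ℝ × V => dot (crossProduct (u z.1 z.2) (B z.1 z.2)) (curl ψ z.2)
      + ε * dot (B z.1 z.2) (vlap ψ z.2))
      ((volume.restrict (Icc 0 T)).prod (volume.restrict cube)) := by
  have h1 : AEStronglyMeasurable (fun z : ℝ × V => B z.1 z.2)
      ((volume.restrict (Icc 0 T)).prod (volume.restrict cube)) := by
    rw [prod_cube]
    exact hB.meas.mono_measure (Measure.restrict_mono (prod_mono_left Icc_subset_Ici_self) le_rfl)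
  have h2 : AEStronglyMeasurable (fun z : ℝ × V => u z.1 z.2)
      ((volume.restrict (Icc 0 T)).prod (volume.restrict cube)) := hu.meas.aestronglyMeasurable
  have h3 : AEStronglyMeasurable (fun z : ℝ × V => curl ψ z.2)
      ((volume.restrict (Icc 0 T)).prod (volume.restrict cube)) :=
    ((curl_cont hψ).comp continuous_snd).aestronglyMeasurable
  have h4 : AEStronglyMeasurable (fun z : ℝ × V => vlap ψ z.2)
      ((volume.restrict (Icc 0 T)).prod (volume.restrict cube)) :=
    ((vlap_cont hψ).comp continuous_snd).aestronglyMeasurable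
  exact (dot_meas (cross_meas h2 h1) h3).add ((dot_meas h1 h4).const_mul ε)

theorem sum_abs_le (b : V) : ∑ i, |b i| ≤ 3 + ∑ i, b i ^ 2 := by
  have : ∀ i, |b i| ≤ 1 + b i ^ 2 := fun i => by
    rw [abs_le]; constructor <;> nlinarith [sq_nonneg (b i - 1), sq_nonneg (b i + 1)]
  rw [Fin.sum_univ_three, Fin.sum_univ_three]
  linarith [this 0, this 1, this 2]

theorem int_sum_sq {b : V → V} (hb : L2Field b) :
    Integrable (fun x => ∑ i, b x i ^ 2) (volume.restrict cube) :=
  integrable_finsetSum _ fun i _ => (hb.cp i).integrable_sq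

theorem int_sum_abs {b : V → V} (hb : L2Field b) :
    Integrable (fun x => ∑ i, |b x i|) (volume.restrict cube) :=
  integrable_finsetSum _ fun i _ => ((hb.cp i).integrable one_le_two).abs

theorem Lf_integrand {s : ℝ} (hs : 0 ≤ s) (hu : BddField u) (hB : IsSol ε u Bin B) {ψ : V → V}
    (hψ : SPV ψ) : Integrable (fun x => dot (crossProduct (u s x) (B s x)) (curl ψ x)
      + ε * dot (B s x) (vlap ψ x)) (volume.restrict cube) := by
  obtain ⟨K, hK0, hK⟩ := Lf_bound (ε := ε) hu hψ
  have hm : AEStronglyMeasurable (fun x => dot (crossProduct (u s x) (B s x)) (curl ψ x)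
      + ε * dot (B s x) (vlap ψ x)) (volume.restrict cube) := by
    have h1 : AEStronglyMeasurable (fun x => B s x) (volume.restrict cube) := (hB.l2 s hs).mem.1
    have h2 : AEStronglyMeasurable (fun x => u s x) (volume.restrict cube) :=
      (hu.meas.comp (measurable_const.prodMk measurable_id)).aestronglyMeasurable
    exact (dot_meas (cross_meas h2 h1) (curl_cont hψ).aestronglyMeasurable).add
      ((dot_meas h1 (vlap_cont hψ).aestronglyMeasurable).const_mul ε)
  refine ((int_sum_abs (hB.l2 s hs)).const_mul K).mono' hm (ae_of_all _ fun x => ?_)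
  exact hK s x (B s x)

theorem Lf_le {T : ℝ} (hu : BddField u) (hB : IsSol ε u Bin B) {ψ : V → V} (hψ : SPV ψ) :
    ∃ K : ℝ, ∀ s ∈ Icc 0 T, |Lf ε u B s ψ| ≤ K := by
  obtain ⟨K, hK0, hK⟩ := Lf_bound (ε := ε) hu hψ
  obtain ⟨C, hC⟩ := hB.bdd T
  refine ⟨K * (3 + C ^ 2), fun s hs => ?_⟩
  have h2 := hB.l2 s hs.1
  have h0 : 0 ≤ l2norm (B s) := Real.sqrt_nonneg _
  have h3 : ∫ x in cube, ∑ i, B s x i ^ 2 ≤ C ^ 2 := by
    have h4 : l2norm (B s) ^ 2 = ∫ x in cube, ∑ i, B s x i ^ 2 := by
      unfold l2norm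
      exact Real.sq_sqrt (integral_nonneg fun x => Finset.sum_nonneg fun i _ => sq_nonneg _)
    rw [← h4]
    exact pow_le_pow_left₀ h0 (hC s hs) 2
  calc |Lf ε u B s ψ| ≤ ∫ x in cube, |dot (crossProduct (u s x) (B s x)) (curl ψ x)
      + ε * dot (B s x) (vlap ψ x)| := abs_integral_le_integral_abs
    _ ≤ ∫ x in cube, K * (3 + ∑ i, B s x i ^ 2) := by
      refine integral_mono (Lf_integrand hs.1 hu hB hψ).abs
        (((integrable_const 3).add (int_sum_sq h2)).const_mul K) fun x => ?_
      exact (hK s x (B s x)).trans (mul_le_mul_of_nonneg_left (sum_abs_le _) hK0)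
    _ = K * (3 + ∫ x in cube, ∑ i, B s x i ^ 2) := by
      rw [integral_const_mul, integral_add (integrable_const 3) (int_sum_sq h2)]
      simp [measureReal_def, volume_cube]
    _ ≤ K * (3 + C ^ 2) := by gcongr

theorem Lf_int (hu : BddField u) (hB : IsSol ε u Bin B) {ψ : V → V} (hψ : SPV ψ) {T : ℝ}
    (hT : 0 ≤ T) : IntervalIntegrable (fun s => Lf ε u B s ψ) volume 0 T := by
  rw [intervalIntegrable_iff_integrableOn_Icc_of_le hT]
  obtain ⟨K, hK⟩ := Lf_le (T := T) hu hB hψ
  have hm : AEStronglyMeasurable (fun s => Lf ε u B s ψ) (volume.restrict (Icc 0 T)) :=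
    (Lf_meas hu hB hψ).integral_prod_right'
  have hb : ∀ᵐ s ∂(volume.restrict (Icc 0 T)), ‖Lf ε u B s ψ‖ ≤ K :=
    (ae_restrict_iff' measurableSet_Icc).2 (ae_of_all _ fun s hs => hK s hs)
  exact Integrable.mono' (integrable_const K) hm hb

/-- the weak form as a statement about primitives -/
theorem weak_prim (hu : BddField u) (hB : IsSol ε u Bin B) {ψ : V → V} (hψ : SPV ψ) {a b : ℝ}
    (ha : 0 ≤ a) (hab : a ≤ b) :
    Prim a b (fun t => ∫ x in cube, dot (B t x) (ψ x)) (fun s => Lf ε u B s ψ) := by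
  have hb : 0 ≤ b := ha.trans hab
  have hi : ∀ {t : ℝ}, 0 ≤ t → IntervalIntegrable (fun s => Lf ε u B s ψ) volume 0 t := fun ht =>
    Lf_int hu hB hψ ht
  constructor
  · exact (hi ha).symm.trans (hi hb)
  · intro t ht
    have h1 := hB.weak ψ hψ t (ha.trans ht.1)
    have h2 := hB.weak ψ hψ a ha
    have h3 := intervalIntegral.integral_add_adjacent_intervals (hi ha)
      ((hi ha).symm.trans (hi (ha.trans ht.1)))
    rw [h1, h2]
    show _ = _ + ∫ s in a..t, Lf ε u B s ψ
    rw [add_assoc]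
    congr 1
    exact h3.symm

/-! ### linearity -/

theorem pd_add' {f g : V → ℝ} (hf : SP f) (hg : SP g) (j : Fin 3) (x : V) :
    pd j (fun y => f y + g y) x = pd j f x + pd j g x := by
  unfold pd
  rw [show (fun y => f y + g y) = f + g from rfl, fderiv_add (hf.diff x) (hg.diff x)]
  rfl

theorem pd_smul' {f : V → ℝ} (hf : SP f) (c : ℝ) (j : Fin 3) (x : V) :
    pd j (fun y => c * f y) x = c * pd j f x := by
  unfold pd
  rw [fderiv_const_mul (hf.diff x)]
  rfl

theorem SP.smul {f : V → ℝ} (hf : SP f) (c : ℝ) : SP (fun x => c * f x) :=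
  ⟨contDiff_const.mul hf.smooth, fun i x => by rw [hf.per i x]⟩

theorem curl_add {ψ φ : V → V} (hψ : SPV ψ) (hφ : SPV φ) (x : V) :
    curl (fun y => ψ y + φ y) x = curl ψ x + curl φ x := by
  have h : ∀ i j, pd j (fun y => (ψ y + φ y) i) x = pd j (fun y => ψ y i) x
      + pd j (fun y => φ y i) x := fun i j => pd_add' (hψ.sp i) (hφ.sp i) j x
  unfold curl
  simp only [h]
  funext i
  fin_cases i <;> simp <;> ring

theorem curl_smul {ψ : V → V} (hψ : SPV ψ) (c : ℝ) (x : V) :
    curl (fun y => c • ψ y) x = c • curl ψ x := by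
  have h : ∀ i j, pd j (fun y => (c • ψ y) i) x = c * pd j (fun y => ψ y i) x := fun i j =>
    pd_smul' (hψ.sp i) c j x
  unfold curl
  simp only [h]
  funext i
  fin_cases i <;> simp <;> ring

theorem vlap_add {ψ φ : V → V} (hψ : SPV ψ) (hφ : SPV φ) (x : V) :
    vlap (fun y => ψ y + φ y) x = vlap ψ x + vlap φ x := by
  funext i
  unfold vlap lap
  simp only [Pi.add_apply]
  rw [← Finset.sum_add_distrib]
  refine Finset.sum_congr rfl fun j _ => ?_
  have e : pd j (fun y => ψ y i + φ y i) = fun x => pd j (fun y => ψ y i) x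
      + pd j (fun y => φ y i) x := funext fun x => pd_add' (hψ.sp i) (hφ.sp i) j x
  rw [e, pd_add' ((hψ.sp i).pd j) ((hφ.sp i).pd j)]

theorem vlap_smul {ψ : V → V} (hψ : SPV ψ) (c : ℝ) (x : V) :
    vlap (fun y => c • ψ y) x = c • vlap ψ x := by
  funext i
  unfold vlap lap
  simp only [Pi.smul_apply, smul_eq_mul]
  rw [Finset.mul_sum]
  refine Finset.sum_congr rfl fun j _ => ?_
  have e : pd j (fun y => c * ψ y i) = fun x => c * pd j (fun y => ψ y i) x :=
    funext fun x => pd_smul' (hψ.sp i) c j x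
  rw [e, pd_smul' ((hψ.sp i).pd j)]

theorem dot_add_right (a b c : V) : dot a (b + c) = dot a b + dot a c := by
  simp only [dot, Pi.add_apply, mul_add, Finset.sum_add_distrib]

theorem dot_smul_right (a b : V) (c : ℝ) : dot a (c • b) = c * dot a b := by
  simp only [dot, Pi.smul_apply, smul_eq_mul, Finset.mul_sum]
  exact Finset.sum_congr rfl fun i _ => by ring

theorem Lf_add {s : ℝ} (hs : 0 ≤ s) (hu : BddField u) (hB : IsSol ε u Bin B) {ψ φ : V → V}
    (hψ : SPV ψ) (hφ : SPV φ) :
    Lf ε u B s (fun y => ψ y + φ y) = Lf ε u B s ψ + Lf ε u B s φ := by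
  unfold Lf
  rw [← integral_add (Lf_integrand hs hu hB hψ) (Lf_integrand hs hu hB hφ)]
  congr 1
  funext x
  rw [curl_add hψ hφ, vlap_add hψ hφ, dot_add_right, dot_add_right]
  ring

theorem Lf_smul {s : ℝ} (c : ℝ) {ψ : V → V} (hψ : SPV ψ) :
    Lf ε u B s (fun y => c • ψ y) = c * Lf ε u B s ψ := by
  unfold Lf
  rw [← integral_const_mul]
  congr 1
  funext x
  rw [curl_smul hψ, vlap_smul hψ, dot_smul_right, dot_smul_right]
  ring

theorem SPV.add {ψ φ : V → V} (hψ : SPV ψ) (hφ : SPV φ) : SPV (fun y => ψ y + φ y) :=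
  ⟨hψ.1.add hφ.1, fun i x => by
    show ψ (x + Pi.single i 1) + φ (x + Pi.single i 1) = ψ x + φ x
    rw [hψ.2 i x, hφ.2 i x]⟩

theorem SPV.smul {ψ : V → V} (hψ : SPV ψ) (c : ℝ) : SPV (fun y => c • ψ y) :=
  ⟨(contDiff_const (c := c)).smul hψ.1, fun i x => by
    show c • ψ (x + Pi.single i 1) = c • ψ x
    rw [hψ.2 i x]⟩

theorem SPV.sum {ι : Type*} {S : Finset ι} {ψ : ι → V → V} (h : ∀ i ∈ S, SPV (ψ i)) :
    SPV (fun y => ∑ i ∈ S, ψ i y) :=
  ⟨ContDiff.sum fun i hi => (h i hi).1, fun j x => Finset.sum_congr rfl fun i hi => (h i hi).2 j x⟩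

theorem spv_zero : SPV (fun _ : V => (0 : V)) := ⟨contDiff_const, fun _ _ => rfl⟩

theorem Lf_sum {s : ℝ} (hs : 0 ≤ s) (hu : BddField u) (hB : IsSol ε u Bin B) {ι : Type*}
    {S : Finset ι} {ψ : ι → V → V} (h : ∀ i ∈ S, SPV (ψ i)) :
    Lf ε u B s (fun y => ∑ i ∈ S, ψ i y) = ∑ i ∈ S, Lf ε u B s (ψ i) := by
  classical
  induction S using Finset.induction_on with
  | empty =>
    simp only [Finset.sum_empty]
    have := Lf_smul (ε := ε) (u := u) (B := B) (s := s) 0 spv_zero
    simpa using this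
  | insert i S hi ih =>
    simp_rw [Finset.sum_insert hi]
    rw [Lf_add hs hu hB (h i (Finset.mem_insert_self _ _))
      (SPV.sum fun j hj => h j (Finset.mem_insert_of_mem hj)),
      ih fun j hj => h j (Finset.mem_insert_of_mem hj)]

end sol

end Pool.Agent.N262.FX
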