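import Pool.Agent.N262.FX.Defs2

/-!
# Real Fourier partial sums on the period cell
-/

open MeasureTheory Set Filter Topology
open scoped ContDiff NNReal ENNReal
open H459R3.NS

namespace Pool.Agent.N262.FX

attribute [local instance] instMeasureSpaceUnitAddCircle

local instance : IsProbabilityMeasure (volume : Measure UnitAddCircle) :=
  inferInstanceAs (IsProbabilityMeasure AddCircle.haarAddCircle)

namespace Four

theorem ee_eq (k : K3) (x : V) : ee k x = (cs k x : ℂ) + (sn k x : ℂ) * Complex.I := by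
  have h1 : ee k x = Complex.exp (((2 * Real.pi * ph k x : ℝ) : ℂ) * Complex.I) := by
    rw [ee]; congr 1; push_cast; ring
  rw [h1, Complex.exp_mul_I, cs, sn, Complex.ofReal_cos, Complex.ofReal_sin]

theorem cs_eq (k : K3) (x : V) : cs k x = (ee k x).re := by
  rw [ee_eq]; simp

theorem sn_eq (k : K3) (x : V) : sn k x = (ee k x).im := by
  rw [ee_eq]; simp

theorem cs_sp (k : K3) : SP (cs k) := by
  have : cs k = fun x => (ee k x).re := funext fun x => cs_eq k x
  rw [this]
  exact Pool.Agent.TH811.SPD.smooth_re k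

theorem sn_sp (k : K3) : SP (sn k) := by
  have : sn k = fun x => (ee k x).im := funext fun x => sn_eq k x
  rw [this]
  exact Pool.Agent.TH811.SPD.smooth_im k

theorem sp_const_mul {f : V → ℝ} (hf : SP f) (c : ℝ) : SP (fun x => f x * c) :=
  ⟨hf.smooth.mul contDiff_const, fun i x => by simp only [hf.per i x]⟩

theorem pd_cs (k : K3) (j : Fin 3) (x : V) : pd j (cs k) x = -(2 * Real.pi * k j) * sn k x := by
  have h1 : HasFDerivAt (fun y => 2 * Real.pi * ph k y)
      ((2 * Real.pi) • (∑ i, (k i : ℝ) • (ContinuousLinearMap.proj i : V →L[ℝ] ℝ))) x :=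
    (hasFDerivAt_ph k x).const_mul (2 * Real.pi)
  have h2 : HasFDerivAt (cs k) _ x := h1.cos
  unfold pd
  rw [h2.fderiv]
  simp only [smul_apply, sum_apply,
    ContinuousLinearMap.proj_apply, smul_eq_mul, Pi.single_apply]
  rw [Finset.sum_eq_single j (fun b _ hb => by rw [if_neg hb, mul_zero])
    (fun h => absurd (Finset.mem_univ j) h), if_pos rfl]
  unfold sn
  ring

theorem pd_sn (k : K3) (j : Fin 3) (x : V) : pd j (sn k) x = 2 * Real.pi * k j * cs k x := by
  have h1 : HasFDerivAt (fun y => 2 * Real.pi * ph k y)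
      ((2 * Real.pi) • (∑ i, (k i : ℝ) • (ContinuousLinearMap.proj i : V →L[ℝ] ℝ))) x :=
    (hasFDerivAt_ph k x).const_mul (2 * Real.pi)
  have h2 : HasFDerivAt (sn k) _ x := h1.sin
  unfold pd
  rw [h2.fderiv]
  simp only [smul_apply, sum_apply,
    ContinuousLinearMap.proj_apply, smul_eq_mul, Pi.single_apply]
  rw [Finset.sum_eq_single j (fun b _ hb => by rw [if_neg hb, mul_zero])
    (fun h => absurd (Finset.mem_univ j) h), if_pos rfl]
  unfold cs
  ring

theorem abs_cs (k : K3) (x : V) : ‖cs k x‖ ≤ 1 := Real.abs_cos_le_one _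

theorem abs_sn (k : K3) (x : V) : ‖sn k x‖ ≤ 1 := Real.abs_sin_le_one _

theorem int_cs {f : V → ℝ} (hf : IntegrableOn f cube) (k : K3) :
    IntegrableOn (fun x => f x * cs k x) cube :=
  hf.mul_bdd (c := 1) (cs_sp k).cont.aestronglyMeasurable (ae_of_all _ (abs_cs k))

theorem int_sn {f : V → ℝ} (hf : IntegrableOn f cube) (k : K3) :
    IntegrableOn (fun x => f x * sn k x) cube :=
  hf.mul_bdd (c := 1) (sn_sp k).cont.aestronglyMeasurable (ae_of_all _ (abs_sn k))

theorem intOn {f : V → ℝ} (hf : MemLp f 2 (volume.restrict cube)) : IntegrableOn f cube := by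
  have := cube_finite
  exact hf.integrable (by norm_num)

end Four

open Four

theorem PP_sp (n : ℕ) (f : V → ℝ) : SP (PP n f) :=
  SP.sum fun k _ => (sp_const_mul (cs_sp k) _).add (sp_const_mul (sn_sp k) _)

theorem PP_add (n : ℕ) {f g : V → ℝ} (hf : MemLp f 2 (volume.restrict cube))
    (hg : MemLp g 2 (volume.restrict cube)) (x : V) :
    PP n (fun y => f y + g y) x = PP n f x + PP n g x := by
  unfold PP
  rw [← Finset.sum_add_distrib]
  refine Finset.sum_congr rfl fun k _ => ?_
  have e1 : ∫ y in cube, (f y + g y) * cs k y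
      = (∫ y in cube, f y * cs k y) + ∫ y in cube, g y * cs k y := by
    rw [← integral_add (int_cs (intOn hf) k) (int_cs (intOn hg) k)]
    exact integral_congr_ae (ae_of_all _ fun y => by ring)
  have e2 : ∫ y in cube, (f y + g y) * sn k y
      = (∫ y in cube, f y * sn k y) + ∫ y in cube, g y * sn k y := by
    rw [← integral_add (int_sn (intOn hf) k) (int_sn (intOn hg) k)]
    exact integral_congr_ae (ae_of_all _ fun y => by ring)
  rw [e1, e2]
  ring

theorem PP_const_mul (n : ℕ) (c : ℝ) (f : V → ℝ) (x : V) :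
    PP n (fun y => c * f y) x = c * PP n f x := by
  unfold PP
  rw [Finset.mul_sum]
  refine Finset.sum_congr rfl fun k _ => ?_
  simp only [mul_assoc, integral_const_mul]
  ring

theorem PP_symm (n : ℕ) {f g : V → ℝ} (hf : MemLp f 2 (volume.restrict cube))
    (hg : MemLp g 2 (volume.restrict cube)) :
    ∫ x in cube, PP n f x * g x = ∫ x in cube, f x * PP n g x := by
  have key : ∀ {f g : V → ℝ}, MemLp f 2 (volume.restrict cube) →
      MemLp g 2 (volume.restrict cube) → ∫ x in cube, PP n f x * g x =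
      ∑ k ∈ fI n, ((∫ y in cube, f y * cs k y) * (∫ y in cube, g y * cs k y) +
        (∫ y in cube, f y * sn k y) * ∫ y in cube, g y * sn k y) := by
    intro f g hf hg
    unfold PP
    simp only [Finset.sum_mul]
    rw [integral_finsetSum]
    · refine Finset.sum_congr rfl fun k _ => ?_
      have h1 := (int_cs (intOn hg) k).const_mul (∫ y in cube, f y * cs k y)
      have h2 := (int_sn (intOn hg) k).const_mul (∫ y in cube, f y * sn k y)
      rw [← integral_const_mul, ← integral_const_mul, ← integral_add h1 h2]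
      exact integral_congr_ae (ae_of_all _ fun y => by ring)
    · intro k _
      have h1 := (int_cs (intOn hg) k).const_mul (∫ y in cube, f y * cs k y)
      have h2 := (int_sn (intOn hg) k).const_mul (∫ y in cube, f y * sn k y)
      refine (h1.add h2).congr (ae_of_all _ fun y => ?_)
      simp only [Pi.add_apply]
      ring
  rw [key hf hg]
  have h2 : ∫ x in cube, f x * PP n g x = ∫ x in cube, PP n g x * f x :=
    integral_congr_ae (ae_of_all _ fun y => by ring)
  rw [h2, key hg hf]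
  refine Finset.sum_congr rfl fun k _ => ?_
  ring

theorem PP_pd (n : ℕ) (j : Fin 3) {f q : V → ℝ} (hf : MemLp f 2 (volume.restrict cube))
    (hq : MemLp q 2 (volume.restrict cube))
    (h : ∀ φ : V → ℝ, SP φ → ∫ x in cube, f x * pd j φ x = -∫ x in cube, q x * φ x) :
    pd j (PP n f) = PP n q := by
  funext x
  have e0 : PP n f = fun x => ∑ k ∈ fI n, (cs k x * (∫ y in cube, f y * cs k y) +
      sn k x * ∫ y in cube, f y * sn k y) := rfl
  have e1 : ∀ k : K3, ∫ y in cube, q y * cs k y
      = 2 * Real.pi * k j * ∫ y in cube, f y * sn k y := by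
    intro k
    have h1 := h (cs k) (cs_sp k)
    have h2 : ∫ x in cube, f x * pd j (cs k) x
        = -(2 * Real.pi * k j) * ∫ y in cube, f y * sn k y := by
      rw [← integral_const_mul]
      exact integral_congr_ae (ae_of_all _ fun y => by
        show f y * pd j (cs k) y = -(2 * Real.pi * k j) * (f y * sn k y)
        rw [pd_cs]; ring)
    rw [h2] at h1
    linarith
  have e2 : ∀ k : K3, ∫ y in cube, q y * sn k y
      = -(2 * Real.pi * k j) * ∫ y in cube, f y * cs k y := by
    intro k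
    have h1 := h (sn k) (sn_sp k)
    have h2 : ∫ x in cube, f x * pd j (sn k) x
        = (2 * Real.pi * k j) * ∫ y in cube, f y * cs k y := by
      rw [← integral_const_mul]
      exact integral_congr_ae (ae_of_all _ fun y => by
        show f y * pd j (sn k) y = (2 * Real.pi * k j) * (f y * cs k y)
        rw [pd_sn]; ring)
    rw [h2] at h1
    linarith
  have hsp : ∀ k ∈ fI n, SP (fun x => cs k x * (∫ y in cube, f y * cs k y) +
      sn k x * ∫ y in cube, f y * sn k y) := fun k _ =>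
    (sp_const_mul (cs_sp k) _).add (sp_const_mul (sn_sp k) _)
  rw [e0, pd_sum hsp j x]
  unfold PP
  refine Finset.sum_congr rfl fun k _ => ?_
  have h3 : pd j (fun x => cs k x * (∫ y in cube, f y * cs k y) +
      sn k x * ∫ y in cube, f y * sn k y) x
      = pd j (cs k) x * (∫ y in cube, f y * cs k y) +
        pd j (sn k) x * ∫ y in cube, f y * sn k y := by
    have d1 : HasFDerivAt (cs k) (fderiv ℝ (cs k) x) x := ((cs_sp k).diff x).hasFDerivAt
    have d2 : HasFDerivAt (sn k) (fderiv ℝ (sn k) x) x := ((sn_sp k).diff x).hasFDerivAt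
    have d3 := (d1.mul_const (∫ y in cube, f y * cs k y)).add
      (d2.mul_const (∫ y in cube, f y * sn k y))
    have d4 : HasFDerivAt (fun x => cs k x * (∫ y in cube, f y * cs k y) +
      sn k x * ∫ y in cube, f y * sn k y) _ x := d3
    unfold pd
    rw [d4.fderiv]
    simp only [add_apply, smul_apply, smul_eq_mul]
    ring
  rw [h3, pd_cs, pd_sn, e1 k, e2 k]
  ring

namespace Four

theorem sec_cov_ae : ∀ᵐ x ∂(volume.restrict cube), Pool.Agent.TH811.SPD.sec (cov x) = x := by
  rw [← Measure.restrict_congr_set cell_ae]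
  have hm : MeasurableSet ({x : V | ∀ i, x i ∈ Ioc ((0 : V) i) ((0 : V) i + 1)} : Set V) :=
    MeasurableSet.univ_pi' fun i => measurableSet_Ioc
  filter_upwards [ae_restrict_mem hm] with x hx
  funext i
  have h := AddCircle.equivIoc_coe_eq (p := (1 : ℝ)) (a := (0 : ℝ)) (x := x i) (by simpa using hx i)
  show ((AddCircle.equivIoc (1 : ℝ) 0 ((x i : ℝ) : UnitAddCircle)) : ℝ) = x i
  exact congrArg Subtype.val h

theorem mp_cov : MeasurePreserving cov (volume.restrict cube)
    (volume : Measure (UnitAddTorus (Fin 3))) := by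
  refine ⟨Pool.Agent.TH811.SPD.cov_cont.measurable, ?_⟩
  ext s hs
  rw [Measure.map_apply Pool.Agent.TH811.SPD.cov_cont.measurable hs]
  have h := UnitAddTorus.lintegral_preimage (s.indicator (fun _ => (1 : ℝ≥0∞))) (0 : V)
  rw [lintegral_indicator_const hs, one_mul, Measure.restrict_congr_set cell_ae] at h
  rw [h]
  have e : (fun x : V => s.indicator (fun _ => (1 : ℝ≥0∞)) (fun i => ((x i : ℝ) : UnitAddCircle)))
      = (cov ⁻¹' s).indicator (fun _ => 1) := by
    funext x
    rfl
  rw [e, lintegral_indicator_const (Pool.Agent.TH811.SPD.cov_cont.measurable hs), one_mul]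

theorem mp_sec : MeasurePreserving Pool.Agent.TH811.SPD.sec
    (volume : Measure (UnitAddTorus (Fin 3))) (volume.restrict cube) := by
  refine ⟨Pool.Agent.TH811.SPD.sec_meas, ?_⟩
  rw [← mp_cov.map_eq, Measure.map_map Pool.Agent.TH811.SPD.sec_meas mp_cov.measurable]
  rw [Measure.map_congr (g := id) (by filter_upwards [sec_cov_ae] with x hx using hx),
    Measure.map_id]

/-- the function on the torus -/
noncomputable def Fn (f : V → ℝ) (t : UnitAddTorus (Fin 3)) : ℂ :=
  ((f (Pool.Agent.TH811.SPD.sec t) : ℝ) : ℂ)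

theorem Fn_memLp {f : V → ℝ} (hf : MemLp f 2 (volume.restrict cube)) : MemLp (Fn f) 2 volume :=
  (hf.comp_measurePreserving mp_sec).ofReal

/-- the class of the function on the torus -/
noncomputable def Fl {f : V → ℝ} (hf : MemLp f 2 (volume.restrict cube)) :
    Lp ℂ 2 (volume : Measure (UnitAddTorus (Fin 3))) := (Fn_memLp hf).toLp

theorem Fl_coe {f : V → ℝ} (hf : MemLp f 2 (volume.restrict cube)) :
    (Fl hf : UnitAddTorus (Fin 3) → ℂ) =ᵐ[volume] Fn f := (Fn_memLp hf).coeFn_toLp

theorem coeff_Fl {f : V → ℝ} (hf : MemLp f 2 (volume.restrict cube)) (k : K3) :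
    UnitAddTorus.mFourierCoeff (Fl hf) k = fr f k := by
  have h1 : UnitAddTorus.mFourierCoeff (Fl hf) k = ∫ t, UnitAddTorus.mFourier (-k) t • Fn f t := by
    refine integral_congr_ae ?_
    filter_upwards [Fl_coe hf] with t ht
    rw [ht]
  rw [h1, integral_torus, fr, fc]
  refine integral_congr_ae ?_
  filter_upwards [sec_cov_ae] with x hx
  rw [mFourier_cov, Fn, hx, smul_eq_mul]

theorem fr_eq {f : V → ℝ} (hf : IntegrableOn f cube) (k : K3) :
    fr f k = ((∫ y in cube, f y * cs k y : ℝ) : ℂ)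
      - ((∫ y in cube, f y * sn k y : ℝ) : ℂ) * Complex.I := by
  have h1 : Integrable (fun y => ((f y * cs k y : ℝ) : ℂ)) (volume.restrict cube) :=
    (int_cs hf k).ofReal
  have h2 : Integrable (fun y => ((f y * sn k y : ℝ) : ℂ)) (volume.restrict cube) :=
    (int_sn hf k).ofReal
  rw [← integral_complex_ofReal, ← integral_complex_ofReal, ← integral_mul_const,
    ← integral_sub h1 (h2.mul_const _), fr, fc]
  refine integral_congr_ae (ae_of_all _ fun y => ?_)
  show ee (-k) y * (f y : ℂ) = ((f y * cs k y : ℝ) : ℂ) - ((f y * sn k y : ℝ) : ℂ) * Complex.I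
  rw [ee_neg, ee_eq, map_add, map_mul, Complex.conj_ofReal, Complex.conj_ofReal, Complex.conj_I]
  push_cast
  ring

/-- the complex partial sum -/
noncomputable def CP (n : ℕ) (f : V → ℝ) (x : V) : ℂ := ∑ k ∈ fI n, fr f k * ee k x

theorem CP_cont (n : ℕ) (f : V → ℝ) : Continuous (CP n f) :=
  continuous_finsetSum _ fun k _ => continuous_const.mul (ee_continuous k)

theorem PP_re (n : ℕ) {f : V → ℝ} (hf : IntegrableOn f cube) (x : V) :
    PP n f x = (CP n f x).re := by
  unfold PP CP
  rw [Complex.re_sum]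
  refine Finset.sum_congr rfl fun k _ => ?_
  rw [fr_eq hf k, ee_eq]
  simp
  ring

/-- the partial sum in `L²` of the torus -/
noncomputable def TP (n : ℕ) (f : V → ℝ) : C(UnitAddTorus (Fin 3), ℂ) :=
  ∑ k ∈ fI n, fr f k • UnitAddTorus.mFourier k

theorem TP_cov (n : ℕ) (f : V → ℝ) (x : V) : TP n f (cov x) = CP n f x := by
  unfold TP CP
  rw [ContinuousMap.sum_apply]
  refine Finset.sum_congr rfl fun k _ => ?_
  rw [ContinuousMap.smul_apply, mFourier_cov, smul_eq_mul]

theorem toLp_TP (n : ℕ) (f : V → ℝ) :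
    ContinuousMap.toLp (E := ℂ) 2 (volume : Measure (UnitAddTorus (Fin 3))) ℂ (TP n f)
      = ∑ k ∈ fI n, fr f k • UnitAddTorus.mFourierLp 2 k := by
  unfold TP
  rw [map_sum]
  refine Finset.sum_congr rfl fun k _ => ?_
  rw [map_smul]

theorem normsq (G : Lp ℂ 2 (volume : Measure (UnitAddTorus (Fin 3)))) :
    ‖G‖ ^ 2 = ∫ t, ‖G t‖ ^ 2 := by
  rw [← inner_self_eq_norm_sq (𝕜 := ℂ), L2.inner_def, ← integral_re (L2.integrable_inner G G)]
  refine integral_congr_ae (ae_of_all _ fun t => ?_)
  exact inner_self_eq_norm_sq (𝕜 := ℂ) (G t)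

theorem normsq_Fl {f : V → ℝ} (hf : MemLp f 2 (volume.restrict cube)) :
    ‖Fl hf‖ ^ 2 = ∫ x in cube, f x ^ 2 := by
  rw [normsq]
  have h1 : ∫ t, ‖(Fl hf) t‖ ^ 2 = ∫ t, ‖Fn f t‖ ^ 2 := by
    refine integral_congr_ae ?_
    filter_upwards [Fl_coe hf] with t ht
    rw [ht]
  rw [h1, integral_torus]
  refine integral_congr_ae ?_
  filter_upwards [sec_cov_ae] with x hx
  rw [Fn, hx, Complex.norm_real, Real.norm_eq_abs, sq_abs]

theorem normsq_TP (n : ℕ) (f : V → ℝ) :
    ‖ContinuousMap.toLp (E := ℂ) 2 (volume : Measure (UnitAddTorus (Fin 3))) ℂ (TP n f)‖ ^ 2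
      = ∫ x in cube, ‖CP n f x‖ ^ 2 := by
  rw [normsq]
  have h1 : ∫ t, ‖(ContinuousMap.toLp (E := ℂ) 2
      (volume : Measure (UnitAddTorus (Fin 3))) ℂ (TP n f)) t‖ ^ 2 = ∫ t, ‖TP n f t‖ ^ 2 := by
    refine integral_congr_ae ?_
    filter_upwards [ContinuousMap.coeFn_toLp (𝕜 := ℂ) (p := 2) volume (TP n f)] with t ht
    rw [ht]
  rw [h1, integral_torus]
  refine integral_congr_ae (ae_of_all _ fun x => ?_)
  show ‖TP n f (cov x)‖ ^ 2 = ‖CP n f x‖ ^ 2
  rw [TP_cov]

theorem normsq_diff (n : ℕ) {f : V → ℝ} (hf : MemLp f 2 (volume.restrict cube)) :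
    ‖ContinuousMap.toLp (E := ℂ) 2 (volume : Measure (UnitAddTorus (Fin 3))) ℂ (TP n f)
      - Fl hf‖ ^ 2 = ∫ x in cube, ‖CP n f x - (f x : ℂ)‖ ^ 2 := by
  rw [normsq]
  have h1 : ∫ t, ‖(ContinuousMap.toLp (E := ℂ) 2
      (volume : Measure (UnitAddTorus (Fin 3))) ℂ (TP n f) - Fl hf : Lp ℂ 2 _) t‖ ^ 2
      = ∫ t, ‖TP n f t - Fn f t‖ ^ 2 := by
    refine integral_congr_ae ?_
    filter_upwards [ContinuousMap.coeFn_toLp (𝕜 := ℂ) (p := 2) volume (TP n f), Fl_coe hf,
      Lp.coeFn_sub (ContinuousMap.toLp (E := ℂ) 2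
        (volume : Measure (UnitAddTorus (Fin 3))) ℂ (TP n f)) (Fl hf)] with t h1 h2 h3
    rw [h3, Pi.sub_apply, h1, h2]
  rw [h1, integral_torus]
  refine integral_congr_ae ?_
  filter_upwards [sec_cov_ae] with x hx
  rw [TP_cov, Fn, hx]

theorem bessel (n : ℕ) {f : V → ℝ} (hf : MemLp f 2 (volume.restrict cube)) :
    ‖ContinuousMap.toLp (E := ℂ) 2 (volume : Measure (UnitAddTorus (Fin 3))) ℂ (TP n f)‖ ^ 2
      ≤ ‖Fl hf‖ ^ 2 := by
  have h1 : ‖ContinuousMap.toLp (E := ℂ) 2 (volume : Measure (UnitAddTorus (Fin 3))) ℂ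
      (TP n f)‖ ^ 2 = ∑ k ∈ fI n, ‖fr f k‖ ^ 2 := by
    rw [toLp_TP, ← inner_self_eq_norm_sq (𝕜 := ℂ),
      (UnitAddTorus.orthonormal_mFourier (d := Fin 3)).inner_sum, map_sum]
    refine Finset.sum_congr rfl fun k _ => ?_
    rw [RCLike.conj_mul]
    norm_cast
  have h2 := UnitAddTorus.hasSum_sq_mFourierCoeff (Fl hf)
  rw [← normsq] at h2
  rw [h1]
  have h3 : ∀ k : K3, ‖UnitAddTorus.mFourierCoeff (Fl hf) k‖ ^ 2 = ‖fr f k‖ ^ 2 := fun k => by
    rw [coeff_Fl]
  simp only [h3] at h2
  exact sum_le_hasSum _ (fun k _ => by positivity) h2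

theorem fI_tendsto : Tendsto fI atTop atTop := by
  refine tendsto_atTop_finset_of_monotone (fun m n hmn => ?_) fun k => ?_
  · refine Finset.Icc_subset_Icc (fun i => ?_) (fun i => ?_)
    · show -(n : ℤ) ≤ -(m : ℤ)
      have : (m : ℤ) ≤ n := by exact_mod_cast hmn
      linarith
    · show (m : ℤ) ≤ (n : ℤ)
      exact_mod_cast hmn
  · refine ⟨∑ i, (k i).natAbs, ?_⟩
    rw [fI, Finset.mem_Icc]
    have h : ∀ i, (k i).natAbs ≤ ∑ i, (k i).natAbs := fun i =>
      Finset.single_le_sum (f := fun i => (k i).natAbs) (fun _ _ => Nat.zero_le _)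
        (Finset.mem_univ i)
    constructor <;> intro i <;> have := h i <;> simp only <;> omega

theorem tend (f : V → ℝ) (hf : MemLp f 2 (volume.restrict cube)) :
    Tendsto (fun n => ‖ContinuousMap.toLp (E := ℂ) 2
      (volume : Measure (UnitAddTorus (Fin 3))) ℂ (TP n f) - Fl hf‖ ^ 2) atTop (𝓝 0) := by
  have h1 := UnitAddTorus.hasSum_mFourier_series_L2 (Fl hf)
  simp only [coeff_Fl] at h1
  have h2 := h1.comp fI_tendsto
  have h3 := (h2.sub_const (Fl hf)).norm.pow 2
  simp only [sub_self, norm_zero, ne_eq, OfNat.ofNat_ne_zero, not_false_eq_true, zero_pow] at h3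
  refine h3.congr fun n => ?_
  rw [toLp_TP]
  rfl

end Four

theorem PP_le (n : ℕ) {f : V → ℝ} (hf : MemLp f 2 (volume.restrict cube)) :
    ∫ x in cube, PP n f x ^ 2 ≤ ∫ x in cube, f x ^ 2 := by
  have h1 : ∫ x in cube, PP n f x ^ 2 ≤ ∫ x in cube, ‖CP n f x‖ ^ 2 := by
    refine integral_mono (integrableOn_cube ((PP_sp n f).cont.pow 2))
      (integrableOn_cube ((CP_cont n f).norm.pow 2)) fun x => ?_
    show PP n f x ^ 2 ≤ ‖CP n f x‖ ^ 2
    rw [PP_re n (intOn hf) x, ← sq_abs]
    exact pow_le_pow_left₀ (abs_nonneg _) (Complex.abs_re_le_norm _) 2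
  rw [← normsq_TP] at h1
  rw [← normsq_Fl hf]
  exact h1.trans (bessel n hf)

theorem PP_tendsto {f : V → ℝ} (hf : MemLp f 2 (volume.restrict cube)) :
    Tendsto (fun n => ∫ x in cube, (PP n f x - f x) ^ 2) atTop (𝓝 0) := by
  have hfin := cube_finite
  refine squeeze_zero (fun n => integral_nonneg fun x => sq_nonneg _) (fun n => ?_) (tend f hf)
  rw [normsq_diff]
  have hm : MemLp (PP n f) 2 (volume.restrict cube) := by
    obtain ⟨C, hC⟩ := isCompact_Icc.exists_bound_of_continuousOn
      (s := cube) (PP_sp n f).cont.continuousOn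
    refine MemLp.of_bound (PP_sp n f).cont.aestronglyMeasurable C ?_
    exact (ae_restrict_mem measurableSet_Icc).mono hC
  have hc : MemLp (CP n f) 2 (volume.restrict cube) := by
    obtain ⟨C, hC⟩ := isCompact_Icc.exists_bound_of_continuousOn
      (s := cube) (CP_cont n f).continuousOn
    refine MemLp.of_bound (CP_cont n f).aestronglyMeasurable C ?_
    exact (ae_restrict_mem measurableSet_Icc).mono hC
  have i1 : Integrable (fun x => (PP n f x - f x) ^ 2) (volume.restrict cube) :=
    (hm.sub hf).integrable_sq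
  have i2 : Integrable (fun x => ‖CP n f x - (f x : ℂ)‖ ^ 2) (volume.restrict cube) :=
    ((hc.sub hf.ofReal).norm).integrable_sq
  refine integral_mono i1 i2 fun x => ?_
  show (PP n f x - f x) ^ 2 ≤ ‖CP n f x - (f x : ℂ)‖ ^ 2
  have e : PP n f x - f x = (CP n f x - (f x : ℂ)).re := by
    rw [Complex.sub_re, Complex.ofReal_re, PP_re n (intOn hf) x]
  rw [e, ← sq_abs]
  exact pow_le_pow_left₀ (abs_nonneg _) (Complex.abs_re_le_norm _) 2

/-- smooth periodic functions are square integrable over the period cell -/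
theorem SP_memLp {f : V → ℝ} (hf : SP f) : MemLp f 2 (volume.restrict cube) := by
  have hfin := cube_finite
  obtain ⟨C, hC⟩ := isCompact_Icc.exists_bound_of_continuousOn
    (s := cube) hf.cont.continuousOn
  refine MemLp.of_bound hf.cont.aestronglyMeasurable C ?_
  exact (ae_restrict_mem measurableSet_Icc).mono hC

end Pool.Agent.N262.FX
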