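import Pool.Agent.N262.FX.EnB
import Pool.Agent.N262.FX.Four
import Pool.Agent.N547.FX.EnB1

/-!
# The truncated energy identity
-/

open MeasureTheory Set Filter Topology
open scoped ContDiff NNReal ENNReal
open H459R3.NS Pool.Agent.GR.Flow Pool.Agent.TH811.SPD

namespace Pool.Agent.N262.FX

/-- the truncated field -/
noncomputable def Bn (n : ℕ) (B : V → V) (x : V) : V := fun i => PP n (fun y => B y i) x

/-- its component `Bₙ · ∇p` -/
noncomputable def bn (n : ℕ) (B : V → V) (p : V → ℝ) (x : V) : ℝ := ∑ i, Bn n B x i * pd i p x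

/-- the test field -/
noncomputable def psin (n : ℕ) (B : V → V) (p : V → ℝ) (x : V) : V :=
  fun i => PP n (fun y => bn n B p y * pd i p y) x

/-- the time derivative of the Lagrangian coordinate -/
noncomputable def trp (U : V → V) (p : V → ℝ) (x : V) : ℝ := -∑ j, U x j * pd j p x

/-- the time derivative of the truncated energy -/
noncomputable def hn (ε : ℝ) (n : ℕ) (w B U : V → V) (p : V → ℝ) : ℝ :=
  2 * (∫ x in cube, (dot (crossProduct (w x) (B x)) (curl (psin n B p) x)
    + ε * dot (B x) (vlap (psin n B p) x))) +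
  2 * ∫ x in cube, bn n B p x * ∑ i, Bn n B x i * pd i (trp U p) x

theorem Bn_sp (n : ℕ) (B : V → V) (i : Fin 3) : SP (fun x => Bn n B x i) := PP_sp n _

theorem bn_sp (n : ℕ) (B : V → V) {p : V → ℝ} (hp : QP p) : SP (bn n B p) :=
  SP.sum fun i _ => (Bn_sp n B i).mul (hp.sp_pd i)

theorem psin_spv (n : ℕ) (B : V → V) (p : V → ℝ) : SPV (psin n B p) :=
  spv_of fun i => PP_sp n _

theorem trp_sp {U : V → V} (hU : ∀ i, SP (fun y => U y i)) {p : V → ℝ} (hp : QP p) :
    SP (trp U p) := by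
  have h0 : SP (fun y => ∑ j, U y j * pd j p y) := SP.sum fun i _ => (hU i).mul (hp.sp_pd i)
  exact ⟨h0.smooth.neg, fun i x => congrArg Neg.neg (h0.per i x)⟩

/-- the trigonometric functions -/
noncomputable def trg (b : Bool) (k : K3) (x : V) : ℝ := if b then sn k x else cs k x

theorem trg_sp (b : Bool) (k : K3) : SP (trg b k) := by
  cases b
  · exact Four.cs_sp k
  · exact Four.sn_sp k

/-- the test field `trg e_i` -/
noncomputable def tfl (i : Fin 3) (b : Bool) (k : K3) (x : V) : V := Pi.single i (trg b k x)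

theorem tfl_spv (i : Fin 3) (b : Bool) (k : K3) : SPV (tfl i b k) := by
  refine spv_of fun j => ?_
  by_cases h : j = i
  · subst h
    have : (fun x => tfl j b k x j) = trg b k := by funext x; simp [tfl]
    rw [this]; exact trg_sp b k
  · have : (fun x => tfl i b k x j) = fun _ => 0 := by funext x; simp [tfl, h]
    rw [this]; exact ⟨contDiff_const, fun _ _ => rfl⟩

theorem dot_tfl (a : V) (i : Fin 3) (b : Bool) (k : K3) (x : V) :
    dot a (tfl i b k x) = a i * trg b k x := by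
  unfold dot tfl
  rw [Finset.sum_eq_single i]
  · simp
  · intro j _ hj; simp [hj]
  · simp

/-- the index set -/
noncomputable def IS (n : ℕ) : Finset (Fin 3 × Bool × K3) :=
  Finset.univ ×ˢ (Finset.univ ×ˢ fI n)

theorem sum_IS (n : ℕ) {M : Type*} [AddCommMonoid M] (F : Fin 3 × Bool × K3 → M) :
    ∑ I ∈ IS n, F I = ∑ i, ∑ k ∈ fI n, (F (i, false, k) + F (i, true, k)) := by
  unfold IS
  rw [Finset.sum_product]
  refine Finset.sum_congr rfl fun i _ => ?_
  rw [Finset.sum_product, Fintype.sum_bool, ← Finset.sum_add_distrib]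
  exact Finset.sum_congr rfl fun k _ => add_comm _ _

theorem PP_eq (n : ℕ) (f : V → ℝ) (x : V) : PP n f x = ∑ k ∈ fI n,
    ((∫ y in cube, f y * trg false k y) * trg false k x +
      (∫ y in cube, f y * trg true k y) * trg true k x) := by
  unfold PP
  refine Finset.sum_congr rfl fun k _ => ?_
  simp only [trg, if_true, Bool.false_eq_true, if_false]
  ring

section sol

variable {ε : ℝ} {u : ℝ → V → V} {Bin : V → V} {B : ℝ → V → V}

theorem trg_bound (b : Bool) (k : K3) (x : V) : |trg b k x| ≤ 1 := by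
  cases b
  · exact Four.abs_cs k x
  · exact Four.abs_sn k x

/-- the functional of the test field -/
theorem Lf_psin {s : ℝ} (hs : 0 ≤ s) (hu : BddField u) (hB : IsSol ε u Bin B) (n : ℕ)
    {p : V → ℝ} (hp : QP p) :
    ∫ x in cube, bn n (B s) p x * ∑ I ∈ IS n,
      Lf ε u B s (tfl I.1 I.2.1 I.2.2) * (trg I.2.1 I.2.2 x * pd I.1 p x)
      = Lf ε u B s (psin n (B s) p) := by
  have hb := bn_sp n (B s) hp
  have e1 : psin n (B s) p = fun x => ∑ I ∈ IS n,
      (∫ y in cube, (bn n (B s) p y * pd I.1 p y) * trg I.2.1 I.2.2 y) •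
        tfl I.1 I.2.1 I.2.2 x := by
    funext x i
    rw [Finset.sum_apply]
    simp only [Pi.smul_apply, smul_eq_mul]
    rw [sum_IS, Finset.sum_eq_single i]
    · show PP n _ x = _
      rw [PP_eq]
      refine Finset.sum_congr rfl fun k _ => ?_
      simp [tfl]
    · intro j _ hj
      refine Finset.sum_eq_zero fun k _ => ?_
      simp [tfl, Ne.symm hj]
    · simp
  rw [e1, Lf_sum hs hu hB fun I _ => SPV.smul (tfl_spv I.1 I.2.1 I.2.2) _]
  have e2 : ∀ I ∈ IS n, Lf ε u B s (fun x => (∫ y in cube, (bn n (B s) p y * pd I.1 p y) *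
      trg I.2.1 I.2.2 y) • tfl I.1 I.2.1 I.2.2 x) = ∫ x in cube, bn n (B s) p x *
        (Lf ε u B s (tfl I.1 I.2.1 I.2.2) * (trg I.2.1 I.2.2 x * pd I.1 p x)) := by
    intro I _
    rw [Lf_smul _ (tfl_spv I.1 I.2.1 I.2.2), ← integral_mul_const]
    congr 1
    funext x
    ring
  rw [Finset.sum_congr rfl e2, ← integral_finsetSum]
  · congr 1
    funext x
    rw [Finset.mul_sum]
  · intro I _
    have hc : Continuous fun x => bn n (B s) p x * (Lf ε u B s (tfl I.1 I.2.1 I.2.2) *
        (trg I.2.1 I.2.2 x * pd I.1 p x)) :=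
      hb.cont.mul (continuous_const.mul ((trg_sp _ _).cont.mul (hp.sp_pd _).cont))
    exact integrableOn_cube hc

/-- the truncated energy identity -/
theorem trunc_energy {U : V → V} (hU : ∀ i, SP (fun y => U y i)) {G : ℝ → V → V}
    (hG : IsFlowOf U G) {ℓ : V → ℝ} (hℓ : QP ℓ) (hu : BddField u) (hB : IsSol ε u Bin B)
    (n : ℕ) (a₀ : ℝ) {a t : ℝ} (ha : 0 ≤ a) (hat : a ≤ t) :
    IntervalIntegrable (fun s => hn ε n (u s) (B s) U (fun x => ℓ (G (-(s - a₀)) x))) volume a t ∧
    (∫ x in cube, bn n (B t) (fun x => ℓ (G (-(t - a₀)) x)) x ^ 2) -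
      (∫ x in cube, bn n (B a) (fun x => ℓ (G (-(a - a₀)) x)) x ^ 2)
      = ∫ s in a..t, hn ε n (u s) (B s) U (fun x => ℓ (G (-(s - a₀)) x)) := by
  set p : ℝ → V → ℝ := fun s x => ℓ (G (-(s - a₀)) x) with hpdef
  have hp : ∀ s, QP (p s) := fun s => hℓ.flow hU hG _
  have hP : ContDiff ℝ ∞ (fun z : ℝ × V => p z.1 z.2) := lagr_smooth hU hG hℓ a₀
  set P : ℝ × V → ℝ := fun z => p z.1 z.2 with hPdef
  -- the space derivatives
  have e1 : ∀ i s y, pd i (p s) y = fderiv ℝ P (s, y) (0, Pi.single i 1) := by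
    intro i s y
    have hd : HasFDerivAt P (fderiv ℝ P (s, y)) (s, y) :=
      (hP.differentiable (by norm_cast) (s, y)).hasFDerivAt
    have h1 : HasFDerivAt (fun y : V => ((s, y) : ℝ × V)) (ContinuousLinearMap.inr ℝ ℝ V) y :=
      hasFDerivAt_prodMk_right s y
    have h2 := (hd.comp y h1).fderiv
    unfold pd
    rw [show p s = P ∘ fun y => (s, y) from rfl, h2]
    simp
  have hsm : ∀ i, ContDiff ℝ ∞ (fun z : ℝ × V => fderiv ℝ P z (0, Pi.single i 1)) := fun i =>
    (hP.fderiv_right (m := ∞) (by norm_cast)).clm_apply contDiff_const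
  have hq : ∀ i, ContDiff ℝ ∞ (fun z : ℝ × V => pd i (p z.1) z.2) := fun i => by
    have : (fun z : ℝ × V => pd i (p z.1) z.2) = fun z => fderiv ℝ P z (0, Pi.single i 1) :=
      funext fun z => e1 i z.1 z.2
    rw [this]; exact hsm i
  have hder : ∀ i s x, HasDerivAt (fun s => pd i (p s) x) (pd i (trp U (p s)) x) s :=
    fun i s x => lagr_pd_deriv hU hG hℓ a₀ i s x
  have hq' : ∀ i, Continuous (fun z : ℝ × V => pd i (trp U (p z.1)) z.2) := by
    intro i
    have e2 : (fun z : ℝ × V => pd i (trp U (p z.1)) z.2) =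
        fun z => fderiv ℝ (fun z : ℝ × V => pd i (p z.1) z.2) z (1, 0) := by
      funext z
      have hd : HasFDerivAt (fun z : ℝ × V => pd i (p z.1) z.2)
          (fderiv ℝ (fun z : ℝ × V => pd i (p z.1) z.2) z) z :=
        ((hq i).differentiable (by norm_cast) z).hasFDerivAt
      have h1 : HasDerivAt (fun r : ℝ => ((r, z.2) : ℝ × V)) ((1, 0) : ℝ × V) z.1 :=
        (hasDerivAt_id z.1).prodMk (hasDerivAt_const z.1 z.2)
      have h2 := hd.comp_hasDerivAt z.1 h1
      exact (hder i z.1 z.2).unique h2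
    rw [e2]
    exact ((hq i).continuous_fderiv (by norm_cast)).clm_apply continuous_const
  -- the data
  have hA : ∀ I ∈ IS n, ∀ s ∈ Icc a t, (∫ y in cube, B s y I.1 * trg I.2.1 I.2.2 y)
      = (∫ y in cube, B a y I.1 * trg I.2.1 I.2.2 y)
        + ∫ x in a..s, Lf ε u B x (tfl I.1 I.2.1 I.2.2) := by
    intro I _ s hs
    have h := (weak_prim hu hB (tfl_spv I.1 I.2.1 I.2.2) ha hat).eq s hs
    simp only [dot_tfl] at h
    exact h
  have hR : ∀ I ∈ IS n, IntervalIntegrable (fun s => Lf ε u B s (tfl I.1 I.2.1 I.2.2))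
      volume a t := fun I _ => (weak_prim hu hB (tfl_spv I.1 I.2.1 I.2.2) ha hat).int
  have key := N547.FX.energy_abs (IS n) hat
    (A := fun I s => ∫ y in cube, B s y I.1 * trg I.2.1 I.2.2 y)
    (R := fun I s => Lf ε u B s (tfl I.1 I.2.1 I.2.2))
    (W := fun I s x => trg I.2.1 I.2.2 x * pd I.1 (p s) x)
    (W' := fun I s x => trg I.2.1 I.2.2 x * pd I.1 (trp U (p s)) x) hR hA
    (fun I _ => ((trg_sp _ _).cont.comp continuous_snd).mul (hq I.1).continuous)
    (fun I _ => ((trg_sp _ _).cont.comp continuous_snd).mul (hq' I.1))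
    (fun I _ s x => (hder I.1 s x).const_mul _)
  have e3 : ∀ s x (F : Fin 3 → ℝ), ∑ I ∈ IS n, (∫ y in cube, B s y I.1 * trg I.2.1 I.2.2 y) *
      (trg I.2.1 I.2.2 x * F I.1) = ∑ i, Bn n (B s) x i * F i := by
    intro s x F
    rw [sum_IS]
    refine Finset.sum_congr rfl fun i _ => ?_
    show _ = PP n (fun y => B s y i) x * F i
    rw [PP_eq, Finset.sum_mul]
    refine Finset.sum_congr rfl fun k _ => ?_
    ring
  have e4 : ∀ s ∈ Icc a t, ∫ x in cube, 2 * (∑ I ∈ IS n, (∫ y in cube, B s y I.1 *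
      trg I.2.1 I.2.2 y) * (trg I.2.1 I.2.2 x * pd I.1 (p s) x)) *
        ∑ I ∈ IS n, (Lf ε u B s (tfl I.1 I.2.1 I.2.2) * (trg I.2.1 I.2.2 x * pd I.1 (p s) x) +
          (∫ y in cube, B s y I.1 * trg I.2.1 I.2.2 y) *
            (trg I.2.1 I.2.2 x * pd I.1 (trp U (p s)) x)) = hn ε n (u s) (B s) U (p s) := by
    intro s hs
    have hs0 : 0 ≤ s := ha.trans hs.1
    have hb := bn_sp n (B s) (hp s)
    have f1 : ∀ x, ∑ I ∈ IS n, (∫ y in cube, B s y I.1 * trg I.2.1 I.2.2 y) *
        (trg I.2.1 I.2.2 x * pd I.1 (p s) x) = bn n (B s) (p s) x := fun x =>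
      e3 s x (fun i => pd i (p s) x)
    have f2 : ∀ x, ∑ I ∈ IS n, (∫ y in cube, B s y I.1 * trg I.2.1 I.2.2 y) *
        (trg I.2.1 I.2.2 x * pd I.1 (trp U (p s)) x)
          = ∑ i, Bn n (B s) x i * pd i (trp U (p s)) x := fun x =>
      e3 s x (fun i => pd i (trp U (p s)) x)
    simp_rw [Finset.sum_add_distrib, f1, f2]
    unfold hn
    have h1 := Lf_psin hs0 hu hB n (hp s)
    unfold Lf at h1
    unfold Lf
    rw [← h1, ← integral_const_mul, ← integral_const_mul, ← integral_add]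
    · congr 1
      funext x
      show 2 * bn n (B s) (p s) x * _ = _
      ring
    · refine Integrable.const_mul ?_ 2
      refine integrableOn_cube (hb.cont.mul (continuous_finsetSum _ fun I _ =>
        continuous_const.mul ((trg_sp _ _).cont.mul ((hp s).sp_pd _).cont)))
    · refine Integrable.const_mul ?_ 2
      refine integrableOn_cube (hb.cont.mul (continuous_finsetSum _ fun i _ =>
        (Bn_sp n (B s) i).cont.mul ((trp_sp hU (hp s)).pd i).cont))
  have e5 : ∀ s x, ∑ I ∈ IS n, (∫ y in cube, B s y I.1 * trg I.2.1 I.2.2 y) *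
      (trg I.2.1 I.2.2 x * pd I.1 (p s) x) = bn n (B s) (p s) x := fun s x =>
    e3 s x (fun i => pd i (p s) x)
  refine ⟨?_, ?_⟩
  · refine key.1.congr_ae ?_
    refine (ae_restrict_iff' measurableSet_uIoc).2 (ae_of_all _ fun s hs => ?_)
    rw [uIoc_of_le hat] at hs
    exact e4 s (Ioc_subset_Icc_self hs)
  · have h2 := key.2
    simp only [e5] at h2
    rw [h2]
    refine intervalIntegral.integral_congr fun s hs => ?_
    rw [uIcc_of_le hat] at hs
    have h4 := e4 s hs
    simp only [e5] at h4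
    exact h4

end sol

end Pool.Agent.N262.FX
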