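import Pool.Agent.N262.FX.EnN

/-!
# The limit of the truncated energy identity at a fixed time
-/

open MeasureTheory Set Filter Topology
open scoped ContDiff NNReal ENNReal
open H459R3.NS Pool.Agent.GR.Flow Pool.Agent.TH811.SPD

namespace Pool.Agent.N262.FX

/-- the gradient of `B · ∇p` -/
noncomputable def be (B : V → V) (Q : Fin 3 → Fin 3 → V → ℝ) (p : V → ℝ) (x : V) : V :=
  fun j => ∑ i, (Q i j x * pd i p x + B x i * pd j (pd i p) x)

/-- the gradient of `(B · ∇p) ∇p` -/
noncomputable def EE (B : V → V) (Q : Fin 3 → Fin 3 → V → ℝ) (p : V → ℝ) (i j : Fin 3) (x : V) :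
    ℝ := be B Q p x j * pd i p x + (∑ k, B x k * pd k p x) * pd j (pd i p) x

/-- the time derivative of the energy -/
noncomputable def hlim (ε : ℝ) (w B U : V → V) (Q : Fin 3 → Fin 3 → V → ℝ) (p : V → ℝ) : ℝ :=
  2 * ((∫ x in cube, dot (crossProduct (w x - U x) (B x)) (crossProduct (be B Q p x) (grad p x)))
    - ε * ∫ x in cube, ∑ i, ∑ j, Q i j x * EE B Q p i j x)

/-- data at a fixed time -/
structure FT (R : ℝ) (w B U : V → V) (Q : Fin 3 → Fin 3 → V → ℝ) (p : V → ℝ) : Prop where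
  l2 : L2Field B
  div : DivFree B
  q2 : ∀ i j, L2 (Q i j)
  wk : ∀ i j, ∀ φ : V → ℝ, SP φ → ∫ x in cube, B x i * pd j φ x = -∫ x in cube, Q i j x * φ x
  qp : QP p
  us : ∀ i, SP (fun x => U x i)
  ud : ∀ x, ∑ i, pd i (fun y => U y i) x = 0
  R0 : 0 ≤ R
  w1 : ∀ i, Mlt R (fun x => w x i)
  u1 : ∀ i x, |U x i| ≤ R
  p1 : ∀ i x, |pd i p x| ≤ R
  p2 : ∀ i j x, |pd j (pd i p) x| ≤ R
  r1 : ∀ i x, |pd i (trp U p) x| ≤ R

theorem cross_i (a b : V) (i : Fin 3) :
    crossProduct a b i = a (i + 1) * b (i + 2) - a (i + 2) * b (i + 1) := by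
  rw [cross_apply]
  fin_cases i <;> rfl

theorem curl_i (ψ : V → V) (x : V) (i : Fin 3) : curl ψ x i
    = pd (i + 1) (fun y => ψ y (i + 2)) x - pd (i + 2) (fun y => ψ y (i + 1)) x := by
  unfold curl
  fin_cases i <;> rfl

theorem pd_comm_qp {f : V → ℝ} (hf : QP f) (i j : Fin 3) : pd i (pd j f) = pd j (pd i f) := by
  funext x
  have h2 : ContDiff ℝ 2 f := hf.smooth.of_le (by norm_cast)
  have hs : IsSymmSndFDerivAt ℝ f x := h2.contDiffAt.isSymmSndFDerivAt (by simp)
  have hd : DifferentiableAt ℝ (fderiv ℝ f) x :=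
    ((hf.smooth.fderiv_right (m := ∞) (by norm_cast)).differentiable (by norm_cast)) x
  have h : ∀ k l : Fin 3, pd k (pd l f) x
      = fderiv ℝ (fderiv ℝ f) x (Pi.single k 1) (Pi.single l 1) := by
    intro k l
    unfold pd
    have h3 := hd.hasFDerivAt.clm_apply (hasFDerivAt_const (Pi.single l (1 : ℝ) : V) x)
    rw [h3.fderiv]
    simp
  rw [h, h]
  exact hs.eq _ _

theorem mlt_cont {g : V → ℝ} {R : ℝ} (hg : Continuous g) (h : ∀ x, |g x| ≤ R) : Mlt R g :=
  ⟨hg.aestronglyMeasurable, h⟩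

section cross

variable {a : V → V} {R : ℝ}

theorem cross_l2 (ha : ∀ i, Mlt R (fun x => a x i)) {b : V → V} (hb : ∀ i, L2 (fun x => b x i))
    (i : Fin 3) : L2 (fun x => crossProduct (a x) (b x) i) := by
  simp only [cross_i]
  exact ((hb _).mlt (ha _)).sub ((hb _).mlt (ha _))

theorem nr_le_sum (b : V → V) (i : Fin 3) : nr (fun x => b x i) ≤ ∑ j, nr (fun x => b x j) :=
  Finset.single_le_sum (f := fun j => nr (fun x => b x j)) (fun j _ => nr_nonneg _)
    (Finset.mem_univ i)

theorem cross_nr (hR : 0 ≤ R) (ha : ∀ i, Mlt R (fun x => a x i)) {b : V → V}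
    (hb : ∀ i, L2 (fun x => b x i)) (i : Fin 3) :
    nr (fun x => crossProduct (a x) (b x) i) ≤ 2 * R * ∑ j, nr (fun x => b x j) := by
  simp only [cross_i]
  refine (nr_sub ((hb _).mlt (ha _)) ((hb _).mlt (ha _))).trans ?_
  have h1 := nr_mlt hR (ha (i + 1)) (hb (i + 2))
  have h2 := nr_mlt hR (ha (i + 2)) (hb (i + 1))
  have h3 := mul_le_mul_of_nonneg_left (nr_le_sum b (i + 2)) hR
  have h4 := mul_le_mul_of_nonneg_left (nr_le_sum b (i + 1)) hR
  linarith

theorem cross_cv (hR : 0 ≤ R) (ha : ∀ i, Mlt R (fun x => a x i)) {F : ℕ → V → V} {b : V → V}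
    (hb : ∀ i, Cv (fun n x => F n x i) (fun x => b x i)) (i : Fin 3) :
    Cv (fun n x => crossProduct (a x) (F n x) i) (fun x => crossProduct (a x) (b x) i) := by
  simp only [cross_i]
  exact ((hb _).mlt hR (ha _)).sub ((hb _).mlt hR (ha _))

theorem cross_cv' (hR : 0 ≤ R) (ha : ∀ i, Mlt R (fun x => a x i)) {F : ℕ → V → V} {b : V → V}
    (hb : ∀ i, Cv (fun n x => F n x i) (fun x => b x i)) (i : Fin 3) :
    Cv (fun n x => crossProduct (F n x) (a x) i) (fun x => crossProduct (b x) (a x) i) := by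
  have h := cross_cv hR ha hb i
  have e : ∀ x y : V, crossProduct x y i = -1 * crossProduct y x i := fun x y => by
    rw [cross_i, cross_i]; ring
  have e1 : (fun n x => crossProduct (F n x) (a x) i)
      = fun n x => (-1 : ℝ) * crossProduct (a x) (F n x) i := by funext n x; exact e _ _
  have e2 : (fun x => crossProduct (b x) (a x) i)
      = fun x => (-1 : ℝ) * crossProduct (a x) (b x) i := by funext x; exact e _ _
  rw [e1, e2]
  exact h.mlt (R := 1) zero_le_one ⟨aestronglyMeasurable_const, fun _ => by simp⟩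

end cross

/-- the gradient of `Bₙ · ∇p` -/
noncomputable def ben (n : ℕ) (B : V → V) (Q : Fin 3 → Fin 3 → V → ℝ) (p : V → ℝ) (x : V) : V :=
  fun j => ∑ i, (PP n (Q i j) x * pd i p x + Bn n B x i * pd j (pd i p) x)

/-- the gradient of `(Bₙ · ∇p) ∇p` -/
noncomputable def EEn (n : ℕ) (B : V → V) (Q : Fin 3 → Fin 3 → V → ℝ) (p : V → ℝ) (i j : Fin 3)
    (x : V) : ℝ := ben n B Q p x j * pd i p x + bn n B p x * pd j (pd i p) x

namespace FT

variable {R ε : ℝ} {w B U : V → V} {Q : Fin 3 → Fin 3 → V → ℝ} {p : V → ℝ}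

theorem bc (h : FT R w B U Q p) (i : Fin 3) : L2 (fun x => B x i) := h.l2.cp i

theorem m1 (h : FT R w B U Q p) (i : Fin 3) : Mlt R (pd i p) :=
  mlt_cont (h.qp.sp_pd i).cont (h.p1 i)

theorem m2 (h : FT R w B U Q p) (i j : Fin 3) : Mlt R (pd j (pd i p)) :=
  mlt_cont ((h.qp.sp_pd i).pd j).cont (h.p2 i j)

theorem mu (h : FT R w B U Q p) (i : Fin 3) : Mlt R (fun x => U x i) :=
  mlt_cont (h.us i).cont (h.u1 i)

theorem mr (h : FT R w B U Q p) (i : Fin 3) : Mlt R (pd i (trp U p)) :=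
  mlt_cont ((trp_sp h.us h.qp).pd i).cont (h.r1 i)

theorem pd_Bn (h : FT R w B U Q p) (n : ℕ) (i j : Fin 3) :
    pd j (fun x => Bn n B x i) = PP n (Q i j) :=
  PP_pd n j (h.bc i) (h.q2 i j) (h.wk i j)

theorem pd_bn (h : FT R w B U Q p) (n : ℕ) (j : Fin 3) (x : V) :
    pd j (bn n B p) x = ben n B Q p x j := by
  unfold bn
  rw [pd_sum fun i _ => (Bn_sp n B i).mul (h.qp.sp_pd i)]
  show _ = ∑ i, _
  refine Finset.sum_congr rfl fun i _ => ?_
  rw [pd_mul (Bn_sp n B i) (h.qp.sp_pd i), h.pd_Bn n i j]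
  ring

theorem sp_ben (h : FT R w B U Q p) (n : ℕ) (j : Fin 3) : SP (fun x => ben n B Q p x j) := by
  have : (fun x => ben n B Q p x j) = pd j (bn n B p) := funext fun x => (h.pd_bn n j x).symm
  rw [this]; exact (bn_sp n B h.qp).pd j

theorem pd_psin (h : FT R w B U Q p) (n : ℕ) (i j : Fin 3) :
    pd j (fun x => psin n B p x i) = PP n (EEn n B Q p i j) := by
  have hf : SP (fun y => bn n B p y * pd i p y) := (bn_sp n B h.qp).mul (h.qp.sp_pd i)
  have e : EEn n B Q p i j = pd j (fun y => bn n B p y * pd i p y) := by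
    funext x
    rw [pd_mul (bn_sp n B h.qp) (h.qp.sp_pd i), h.pd_bn n j x]
    unfold EEn; ring
  rw [e]
  refine PP_pd n j (sp_l2 hf) (sp_l2 (hf.pd j)) fun φ hφ => ?_
  rw [ibp hf hφ j, neg_neg]

theorem div_Bn (h : FT R w B U Q p) (n : ℕ) (x : V) :
    ∑ i, pd i (fun y => Bn n B y i) x = 0 := by
  have key : ∀ φ : V → ℝ, SP φ → ∑ i, ∫ x in cube, Q i i x * φ x = 0 := by
    intro φ hφ
    have h1 := h.div φ hφ
    rw [integral_finsetSum _ fun i _ => (h.bc i).mul_int (sp_l2 (hφ.pd i))] at h1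
    simp_rw [h.wk _ _ φ hφ] at h1
    rw [Finset.sum_neg_distrib] at h1
    linarith
  simp_rw [h.pd_Bn n]
  unfold PP
  rw [Finset.sum_comm]
  refine Finset.sum_eq_zero fun k _ => ?_
  rw [Finset.sum_add_distrib, ← Finset.mul_sum, ← Finset.mul_sum, key _ (Four.cs_sp k),
    key _ (Four.sn_sp k)]
  ring

/-- the first part of the derivative of the truncated energy -/
theorem part_one (h : FT R w B U Q p) (n : ℕ) :
    ∫ x in cube, (dot (crossProduct (w x) (B x)) (curl (psin n B p) x)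
      + ε * dot (B x) (vlap (psin n B p) x))
      = (∑ i, ∫ x in cube, crossProduct (w x) (B x) i * (PP n (EEn n B Q p (i + 2) (i + 1)) x
        - PP n (EEn n B Q p (i + 1) (i + 2)) x))
        - ε * ∑ i, ∑ j, ∫ x in cube, Q i j x * PP n (EEn n B Q p i j) x := by
  have hs : ∀ i, SP (fun x => psin n B p x i) := fun i => PP_sp n _
  have hc : ∀ x i, curl (psin n B p) x i = PP n (EEn n B Q p (i + 2) (i + 1)) x
        - PP n (EEn n B Q p (i + 1) (i + 2)) x := fun x i => by
    rw [curl_i, h.pd_psin, h.pd_psin]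
  have i1 : ∀ i, Integrable (fun x => crossProduct (w x) (B x) i *
      (PP n (EEn n B Q p (i + 2) (i + 1)) x - PP n (EEn n B Q p (i + 1) (i + 2)) x))
      (volume.restrict cube) := fun i =>
    (cross_l2 h.w1 h.bc i).mul_int ((sp_l2 (PP_sp n _)).sub (sp_l2 (PP_sp n _)))
  have i2 : ∀ i j, Integrable (fun x => B x i * pd j (pd j fun x => psin n B p x i) x)
      (volume.restrict cube) := fun i j => (h.bc i).mul_int (sp_l2 (((hs i).pd j).pd j))
  have e1 : ∀ x, dot (crossProduct (w x) (B x)) (curl (psin n B p) x)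
      = ∑ i, crossProduct (w x) (B x) i * (PP n (EEn n B Q p (i + 2) (i + 1)) x
        - PP n (EEn n B Q p (i + 1) (i + 2)) x) := fun x => by
    unfold dot
    exact Finset.sum_congr rfl fun i _ => by rw [hc]
  have e2 : ∀ x, dot (B x) (vlap (psin n B p) x)
      = ∑ i, ∑ j, B x i * pd j (pd j fun x => psin n B p x i) x := fun x => by
    unfold dot vlap lap
    exact Finset.sum_congr rfl fun i _ => by rw [Finset.mul_sum]
  simp_rw [e1, e2]
  rw [integral_add (integrable_finsetSum _ fun i _ => i1 i)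
    ((integrable_finsetSum _ fun i _ => integrable_finsetSum _ fun j _ => i2 i j).const_mul _),
    integral_const_mul, integral_finsetSum _ fun i _ => i1 i,
    integral_finsetSum _ fun i _ => integrable_finsetSum _ fun j _ => i2 i j]
  simp_rw [integral_finsetSum Finset.univ fun j _ => i2 _ j]
  have e3 : ∀ i j, ∫ x in cube, B x i * pd j (pd j fun x => psin n B p x i) x
      = -∫ x in cube, Q i j x * PP n (EEn n B Q p i j) x := fun i j => by
    rw [h.wk i j _ ((hs i).pd j), h.pd_psin]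
  simp_rw [e3, Finset.sum_neg_distrib]
  ring

/-- the second part of the derivative of the truncated energy -/
theorem part_two (h : FT R w B U Q p) (n : ℕ) :
    ∫ x in cube, bn n B p x * ∑ i, Bn n B x i * pd i (trp U p) x
      = -∑ i, ∫ x in cube, crossProduct (U x) (Bn n B x) i *
        crossProduct (ben n B Q p x) (grad p x) i := by
  have h1 := smooth_identity h.us h.ud (B := Bn n B) (Bn_sp n B) (h.div_Bn n) h.qp
  have e1 : ∀ x, grad (fun y => ∑ i, Bn n B y i * pd i p y) x = ben n B Q p x := fun x =>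
    funext fun j => h.pd_bn n j x
  simp_rw [e1] at h1
  have e2 : ∀ x, dot (crossProduct (U x) (Bn n B x)) (crossProduct (ben n B Q p x) (grad p x))
      = ∑ i, crossProduct (U x) (Bn n B x) i * crossProduct (ben n B Q p x) (grad p x) i :=
    fun x => rfl
  simp_rw [e2] at h1
  have c1 : ∀ i, L2 (fun x => crossProduct (U x) (Bn n B x) i) := fun i =>
    cross_l2 h.mu (fun i => sp_l2 (Bn_sp n B i)) i
  have c2 : ∀ i, L2 (fun x => crossProduct (ben n B Q p x) (grad p x) i) := fun i => by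
    simp only [cross_i]
    exact (sp_l2 ((h.sp_ben n _).mul (h.qp.sp_pd _))).sub
      (sp_l2 ((h.sp_ben n _).mul (h.qp.sp_pd _)))
  rw [integral_finsetSum _ fun i _ => (c1 i).mul_int (c2 i)] at h1
  have h2 : ∫ x in cube, bn n B p x * ∑ i, Bn n B x i * pd i (trp U p) x
    = ∫ x in cube, (∑ i, Bn n B x i * pd i p x) *
      ∑ i, Bn n B x i * pd i (fun y => -∑ j, U y j * pd j p y) x := rfl
  rw [h2]
  linarith

/-! ### convergence -/

theorem cv_Bn (h : FT R w B U Q p) (i : Fin 3) : Cv (fun n x => Bn n B x i) (fun x => B x i) :=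
  (Cv.const (h.bc i)).PP

theorem cv_Q (h : FT R w B U Q p) (i j : Fin 3) : Cv (fun n x => PP n (Q i j) x) (Q i j) :=
  (Cv.const (h.q2 i j)).PP

theorem cv_ben (h : FT R w B U Q p) (j : Fin 3) :
    Cv (fun n x => ben n B Q p x j) (fun x => be B Q p x j) := by
  show Cv (fun n x => ∑ i, (PP n (Q i j) x * pd i p x + Bn n B x i * pd j (pd i p) x))
    (fun x => ∑ i, (Q i j x * pd i p x + B x i * pd j (pd i p) x))
  refine Cv.sum fun i _ => ?_
  simp_rw [mul_comm _ (pd i p _), mul_comm _ (pd j (pd i p) _)]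
  exact ((h.cv_Q i j).mlt h.R0 (h.m1 i)).add ((h.cv_Bn i).mlt h.R0 (h.m2 i j))

theorem cv_bn (h : FT R w B U Q p) :
    Cv (fun n x => bn n B p x) (fun x => ∑ k, B x k * pd k p x) := by
  show Cv (fun n x => ∑ i, Bn n B x i * pd i p x) (fun x => ∑ k, B x k * pd k p x)
  refine Cv.sum fun i _ => ?_
  simp_rw [mul_comm _ (pd i p _)]
  exact (h.cv_Bn i).mlt h.R0 (h.m1 i)

theorem cv_EEn (h : FT R w B U Q p) (i j : Fin 3) :
    Cv (fun n x => EEn n B Q p i j x) (EE B Q p i j) := by
  show Cv (fun n x => ben n B Q p x j * pd i p x + bn n B p x * pd j (pd i p) x)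
    (fun x => be B Q p x j * pd i p x + (∑ k, B x k * pd k p x) * pd j (pd i p) x)
  simp_rw [mul_comm _ (pd i p _), mul_comm _ (pd j (pd i p) _)]
  have := ((h.cv_ben j).mlt h.R0 (h.m1 i)).add (h.cv_bn.mlt h.R0 (h.m2 i j))
  simp_rw [mul_comm _ (pd _ p _)] at this ⊢
  exact this

theorem l2_EE (h : FT R w B U Q p) (i j : Fin 3) : L2 (EE B Q p i j) := (h.cv_EEn i j).lim

theorem l2_be (h : FT R w B U Q p) (j : Fin 3) : L2 (fun x => be B Q p x j) := (h.cv_ben j).lim

theorem l2_bq (h : FT R w B U Q p) (i : Fin 3) :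
    L2 (fun x => crossProduct (be B Q p x) (grad p x) i) :=
  (cross_cv' h.R0 (a := grad p) (fun i => h.m1 i) h.cv_ben i).lim

theorem cross_be (h : FT R w B U Q p) (i : Fin 3) (x : V) :
    EE B Q p (i + 2) (i + 1) x - EE B Q p (i + 1) (i + 2) x
      = crossProduct (be B Q p x) (grad p x) i := by
  rw [cross_i]
  unfold EE grad
  rw [pd_comm_qp h.qp (i + 1) (i + 2)]
  ring

/-- the energies converge -/
theorem lim_energy (h : FT R w B U Q p) :
    Tendsto (fun n => ∫ x in cube, bn n B p x ^ 2) atTop (𝓝 (En p B)) := by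
  have h1 := h.cv_bn.inner h.cv_bn
  unfold En
  simp_rw [← sq] at h1
  exact h1

/-- the derivatives converge -/
theorem lim (h : FT R w B U Q p) :
    Tendsto (fun n => hn ε n w B U p) atTop (𝓝 (hlim ε w B U Q p)) := by
  have t1 : ∀ i, Tendsto (fun n => ∫ x in cube, crossProduct (w x) (B x) i *
      (PP n (EEn n B Q p (i + 2) (i + 1)) x - PP n (EEn n B Q p (i + 1) (i + 2)) x)) atTop
      (𝓝 (∫ x in cube, crossProduct (w x) (B x) i *
        crossProduct (be B Q p x) (grad p x) i)) := by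
    intro i
    have hc := (h.cv_EEn (i + 2) (i + 1)).PP.sub (h.cv_EEn (i + 1) (i + 2)).PP
    have h1 := (Cv.const (cross_l2 h.w1 h.bc i)).inner hc
    simp_rw [h.cross_be i] at h1
    exact h1
  have t2 : ∀ i j, Tendsto (fun n => ∫ x in cube, Q i j x * PP n (EEn n B Q p i j) x) atTop
      (𝓝 (∫ x in cube, Q i j x * EE B Q p i j x)) := fun i j =>
    (Cv.const (h.q2 i j)).inner (h.cv_EEn i j).PP
  have t3 : ∀ i, Tendsto (fun n => ∫ x in cube, crossProduct (U x) (Bn n B x) i *
        crossProduct (ben n B Q p x) (grad p x) i) atTop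
      (𝓝 (∫ x in cube, crossProduct (U x) (B x) i *
        crossProduct (be B Q p x) (grad p x) i)) := fun i =>
    (cross_cv h.R0 h.mu h.cv_Bn i).inner
      (cross_cv' h.R0 (a := grad p) (fun i => h.m1 i) h.cv_ben i)
  have e : hlim ε w B U Q p = 2 * ((∑ i, ∫ x in cube, crossProduct (w x) (B x) i *
        crossProduct (be B Q p x) (grad p x) i)
      - ε * ∑ i, ∑ j, ∫ x in cube, Q i j x * EE B Q p i j x)
      + 2 * -∑ i, ∫ x in cube, crossProduct (U x) (B x) i *
        crossProduct (be B Q p x) (grad p x) i := by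
    unfold hlim
    have e1 : ∀ x, dot (crossProduct (w x - U x) (B x)) (crossProduct (be B Q p x) (grad p x))
        = ∑ i, (crossProduct (w x) (B x) i * crossProduct (be B Q p x) (grad p x) i
          - crossProduct (U x) (B x) i * crossProduct (be B Q p x) (grad p x) i) := by
      intro x
      unfold dot
      refine Finset.sum_congr rfl fun i _ => ?_
      rw [cross_i (w x - U x), cross_i (w x), cross_i (U x)]
      simp only [Pi.sub_apply]
      ring
    simp_rw [e1]
    have i0 : ∀ i, Integrable (fun x => crossProduct (w x) (B x) i *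
        crossProduct (be B Q p x) (grad p x) i
          - crossProduct (U x) (B x) i * crossProduct (be B Q p x) (grad p x) i)
        (volume.restrict cube) := fun i =>
      ((cross_l2 h.w1 h.bc i).mul_int (h.l2_bq i)).sub
        ((cross_l2 h.mu h.bc i).mul_int (h.l2_bq i))
    rw [integral_finsetSum _ fun i _ => i0 i,
      integral_finsetSum _ fun i _ => integrable_finsetSum _ fun j _ =>
        (h.q2 i j).mul_int (h.l2_EE i j)]
    simp_rw [integral_finsetSum Finset.univ fun j _ => (h.q2 _ j).mul_int (h.l2_EE _ j)]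
    simp_rw [integral_sub ((cross_l2 h.w1 h.bc _).mul_int (h.l2_bq _))
      ((cross_l2 h.mu h.bc _).mul_int (h.l2_bq _))]
    rw [Finset.sum_sub_distrib]
    ring
  rw [e]
  have hh : ∀ n, hn ε n w B U p = 2 * ((∑ i, ∫ x in cube, crossProduct (w x) (B x) i *
      (PP n (EEn n B Q p (i + 2) (i + 1)) x - PP n (EEn n B Q p (i + 1) (i + 2)) x))
        - ε * ∑ i, ∑ j, ∫ x in cube, Q i j x * PP n (EEn n B Q p i j) x)
      + 2 * -∑ i, ∫ x in cube, crossProduct (U x) (Bn n B x) i *
        crossProduct (ben n B Q p x) (grad p x) i := by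
    intro n
    unfold hn
    rw [h.part_one n, h.part_two n]
  simp_rw [hh]
  exact (((tendsto_finsetSum _ fun i _ => t1 i).sub ((tendsto_finsetSum _ fun i _ =>
    tendsto_finsetSum _ fun j _ => t2 i j).const_mul ε)).const_mul 2).add
    ((tendsto_finsetSum _ fun i _ => t3 i).neg.const_mul 2)

end FT

end Pool.Agent.N262.FX
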