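import Pool.Agent.N262.FX.EnL

/-!
# The limit of the truncated energy identity: domination
-/

open MeasureTheory Set Filter Topology
open scoped ContDiff NNReal ENNReal
open H459R3.NS Pool.Agent.GR.Flow Pool.Agent.TH811.SPD

namespace Pool.Agent.N262.FX

/-- the size of the data -/
noncomputable def XX (B : V → V) (Q : Fin 3 → Fin 3 → V → ℝ) : ℝ :=
  (∑ j, nr fun x => B x j) + ∑ i, ∑ j, nr (Q i j)

theorem XX_sq {B : V → V} {Q : Fin 3 → Fin 3 → V → ℝ} (hB : L2Field B)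
    (hQ : ∀ i j, L2 (Q i j)) : XX B Q ^ 2 ≤ 12 * ((∫ x in cube, ∑ i, B x i ^ 2) +
      ∫ x in cube, ∑ i, ∑ j, Q i j x ^ 2) := by
  have e1 : ∫ x in cube, ∑ i, B x i ^ 2 = ∑ i, nr (fun x => B x i) ^ 2 := by
    rw [integral_finsetSum _ fun i _ => (hB.cp i).integrable_sq]
    exact Finset.sum_congr rfl fun i _ => (nr_sq _).symm
  have e2 : ∫ x in cube, ∑ i, ∑ j, Q i j x ^ 2 = ∑ i, ∑ j, nr (Q i j) ^ 2 := by
    rw [integral_finsetSum _ fun i _ => integrable_finsetSum _ fun j _ => (hQ i j).sq_int]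
    refine Finset.sum_congr rfl fun i _ => ?_
    rw [integral_finsetSum _ fun j _ => (hQ i j).sq_int]
    exact Finset.sum_congr rfl fun j _ => (nr_sq _).symm
  rw [e1, e2]
  unfold XX
  set a := fun j => nr (fun x => B x j) with ha
  set q := fun i j => nr (Q i j) with hq
  have h1 : (∑ j, a j) ^ 2 ≤ 3 * ∑ j, a j ^ 2 := by
    have := sq_sum_le_card_mul_sum_sq (s := (Finset.univ : Finset (Fin 3))) (f := a)
    simpa using this
  have h2 : (∑ i, ∑ j, q i j) ^ 2 ≤ 9 * ∑ i, ∑ j, q i j ^ 2 := by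
    have h3 := sq_sum_le_card_mul_sum_sq (s := (Finset.univ : Finset (Fin 3 × Fin 3)))
      (f := fun z => q z.1 z.2)
    rw [Fintype.sum_prod_type, Fintype.sum_prod_type] at h3
    simpa using h3
  have h0 : 0 ≤ ∑ j, a j ^ 2 := Finset.sum_nonneg fun j _ => sq_nonneg _
  have h00 : 0 ≤ ∑ i, ∑ j, q i j ^ 2 :=
    Finset.sum_nonneg fun i _ => Finset.sum_nonneg fun j _ => sq_nonneg _
  -- `(s + t)² ≤ 12 (A + C)` if `s² ≤ 3A`, `t² ≤ 9C`
  set s := ∑ j, a j
  set t := ∑ i, ∑ j, q i j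
  nlinarith [sq_nonneg (3 * s - t)]

theorem XX_nonneg (B : V → V) (Q : Fin 3 → Fin 3 → V → ℝ) : 0 ≤ XX B Q :=
  add_nonneg (Finset.sum_nonneg fun j _ => nr_nonneg _)
    (Finset.sum_nonneg fun i _ => Finset.sum_nonneg fun j _ => nr_nonneg _)

namespace FT

variable {R ε : ℝ} {w B U : V → V} {Q : Fin 3 → Fin 3 → V → ℝ} {p : V → ℝ}

theorem b_le (_h : FT R w B U Q p) : (∑ j, nr fun x => B x j) ≤ XX B Q :=
  le_add_of_nonneg_right (Finset.sum_nonneg fun i _ => Finset.sum_nonneg fun j _ => nr_nonneg _)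

theorem q_le (_h : FT R w B U Q p) : (∑ i, ∑ j, nr (Q i j)) ≤ XX B Q :=
  le_add_of_nonneg_left (Finset.sum_nonneg fun j _ => nr_nonneg _)

theorem qc_le (_h : FT R w B U Q p) (j : Fin 3) :
    (∑ i, nr (Q i j)) + (∑ i, nr fun x => B x i) ≤ XX B Q := by
  unfold XX
  have : (∑ i, nr (Q i j)) ≤ ∑ i, ∑ j, nr (Q i j) :=
    Finset.sum_le_sum fun i _ => Finset.single_le_sum (f := fun j => nr (Q i j))
      (fun j _ => nr_nonneg _) (Finset.mem_univ j)
  linarith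

theorem q1_le (h : FT R w B U Q p) (i j : Fin 3) : nr (Q i j) ≤ XX B Q := by
  have h1 : nr (Q i j) ≤ ∑ j, nr (Q i j) := Finset.single_le_sum (f := fun j => nr (Q i j))
      (fun j _ => nr_nonneg _) (Finset.mem_univ j)
  have h2 : ∑ j, nr (Q i j) ≤ ∑ i, ∑ j, nr (Q i j) :=
    Finset.single_le_sum (f := fun i => ∑ j, nr (Q i j))
      (fun i _ => Finset.sum_nonneg fun j _ => nr_nonneg _) (Finset.mem_univ i)
  exact (h1.trans h2).trans h.q_le

theorem sBn_le (h : FT R w B U Q p) (n : ℕ) : (∑ j, nr fun x => Bn n B x j) ≤ XX B Q :=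
  (Finset.sum_le_sum fun j _ => nr_PP n (h.bc j)).trans h.b_le

theorem ben_le (h : FT R w B U Q p) (n : ℕ) (j : Fin 3) :
    nr (fun x => ben n B Q p x j) ≤ R * XX B Q := by
  have h1 : ∀ i, L2 (fun x => PP n (Q i j) x * pd i p x) := fun i =>
    sp_l2 ((PP_sp n _).mul (h.qp.sp_pd i))
  have h2 : ∀ i, L2 (fun x => Bn n B x i * pd j (pd i p) x) := fun i =>
    sp_l2 ((PP_sp n _).mul ((h.qp.sp_pd i).pd j))
  show nr (fun x => ∑ i, (PP n (Q i j) x * pd i p x + Bn n B x i * pd j (pd i p) x)) ≤ _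
  refine (nr_sum fun i _ => (h1 i).add (h2 i)).trans ?_
  have h3 : ∀ i, nr (fun x => PP n (Q i j) x * pd i p x + Bn n B x i * pd j (pd i p) x)
      ≤ R * (nr (Q i j)) + R * nr (fun x => B x i) := by
    intro i
    refine (nr_add (h1 i) (h2 i)).trans (add_le_add ?_ ?_)
    · simp_rw [mul_comm _ (pd i p _)]
      exact (nr_mlt h.R0 (h.m1 i) (sp_l2 (PP_sp n _))).trans
        (mul_le_mul_of_nonneg_left (nr_PP n (h.q2 i j)) h.R0)
    · simp_rw [mul_comm _ (pd j (pd i p) _)]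
      exact (nr_mlt h.R0 (h.m2 i j) (sp_l2 (PP_sp n _))).trans
        (mul_le_mul_of_nonneg_left (nr_PP n (h.bc i)) h.R0)
  refine (Finset.sum_le_sum fun i _ => h3 i).trans ?_
  rw [Finset.sum_add_distrib, ← Finset.mul_sum, ← Finset.mul_sum, ← mul_add]
  exact mul_le_mul_of_nonneg_left (h.qc_le j) h.R0

theorem bn_le (h : FT R w B U Q p) (n : ℕ) : nr (bn n B p) ≤ R * XX B Q := by
  show nr (fun x => ∑ i, Bn n B x i * pd i p x) ≤ _
  refine (nr_sum fun i _ => sp_l2 ((Bn_sp n B i).mul (h.qp.sp_pd i))).trans ?_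
  have h3 : ∀ i, nr (fun x => Bn n B x i * pd i p x) ≤ R * nr (fun x => B x i) := by
    intro i
    simp_rw [mul_comm _ (pd i p _)]
    exact (nr_mlt h.R0 (h.m1 i) (sp_l2 (PP_sp n _))).trans
      (mul_le_mul_of_nonneg_left (nr_PP n (h.bc i)) h.R0)
  refine (Finset.sum_le_sum fun i _ => h3 i).trans ?_
  rw [← Finset.mul_sum]
  exact mul_le_mul_of_nonneg_left h.b_le h.R0

theorem EEn_le (h : FT R w B U Q p) (n : ℕ) (i j : Fin 3) :
    nr (EEn n B Q p i j) ≤ 2 * R ^ 2 * XX B Q := by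
  show nr (fun x => ben n B Q p x j * pd i p x + bn n B p x * pd j (pd i p) x) ≤ _
  have h1 : nr (fun x => ben n B Q p x j * pd i p x) ≤ R * (R * XX B Q) := by
    simp_rw [mul_comm _ (pd i p _)]
    exact (nr_mlt h.R0 (h.m1 i) (sp_l2 (h.sp_ben n j))).trans
      (mul_le_mul_of_nonneg_left (h.ben_le n j) h.R0)
  have h2 : nr (fun x => bn n B p x * pd j (pd i p) x) ≤ R * (R * XX B Q) := by
    simp_rw [mul_comm _ (pd j (pd i p) _)]
    exact (nr_mlt h.R0 (h.m2 i j) (sp_l2 (bn_sp n B h.qp))).trans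
      (mul_le_mul_of_nonneg_left (h.bn_le n) h.R0)
  refine (nr_add (sp_l2 ((h.sp_ben n j).mul (h.qp.sp_pd i)))
    (sp_l2 ((bn_sp n B h.qp).mul ((h.qp.sp_pd i).pd j)))).trans ?_
  nlinarith

theorem PEEn_le (h : FT R w B U Q p) (n : ℕ) (i j : Fin 3) :
    nr (PP n (EEn n B Q p i j)) ≤ 2 * R ^ 2 * XX B Q :=
  (nr_PP n (sp_l2 (((h.sp_ben n j).mul (h.qp.sp_pd i)).add
    ((bn_sp n B h.qp).mul ((h.qp.sp_pd i).pd j))))).trans (h.EEn_le n i j)

theorem benq_le (h : FT R w B U Q p) (n : ℕ) (i : Fin 3) :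
    nr (fun x => crossProduct (ben n B Q p x) (grad p x) i) ≤ 2 * R ^ 2 * XX B Q := by
  simp only [cross_i]
  have h1 : ∀ k l, nr (fun x => ben n B Q p x k * pd l p x) ≤ R * (R * XX B Q) := by
    intro k l
    simp_rw [mul_comm _ (pd l p _)]
    exact (nr_mlt h.R0 (h.m1 l) (sp_l2 (h.sp_ben n k))).trans
      (mul_le_mul_of_nonneg_left (h.ben_le n k) h.R0)
  refine (nr_sub (sp_l2 ((h.sp_ben n _).mul (h.qp.sp_pd _)))
    (sp_l2 ((h.sp_ben n _).mul (h.qp.sp_pd _)))).trans ?_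
  have h2 := h1 (i + 1) (i + 2)
  have h3 := h1 (i + 2) (i + 1)
  nlinarith

theorem sum3_le {f : Fin 3 → ℝ} {K : ℝ} (hf : ∀ i, |f i| ≤ K) : |∑ i, f i| ≤ 3 * K := by
  refine (Finset.abs_sum_le_sum_abs _ _).trans ?_
  refine (Finset.sum_le_sum fun i _ => hf i).trans ?_
  simp

/-- the derivatives are dominated -/
theorem hn_le (h : FT R w B U Q p) (n : ℕ) : |hn ε n w B U p| ≤
    (12 * (72 * R ^ 3 + 36 * |ε| * R ^ 2)) * ((∫ x in cube, ∑ i, B x i ^ 2) +
      ∫ x in cube, ∑ i, ∑ j, Q i j x ^ 2) := by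
  set X := XX B Q with hX
  have hX0 : 0 ≤ X := XX_nonneg B Q
  have hR := h.R0
  have a1 : ∀ i, |∫ x in cube, crossProduct (w x) (B x) i * (PP n (EEn n B Q p (i + 2) (i + 1)) x
        - PP n (EEn n B Q p (i + 1) (i + 2)) x)| ≤ (2 * R * X) * (2 * (2 * R ^ 2 * X)) := by
    intro i
    refine (inner_le (cross_l2 h.w1 h.bc i)
      ((sp_l2 (PP_sp n _)).sub (sp_l2 (PP_sp n _)))).trans ?_
    refine mul_le_mul ?_ ?_ (nr_nonneg _) (by positivity)
    · exact (cross_nr hR h.w1 h.bc i).trans (mul_le_mul_of_nonneg_left h.b_le (by positivity))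
    · refine (nr_sub (sp_l2 (PP_sp n _)) (sp_l2 (PP_sp n _))).trans ?_
      have h1 := h.PEEn_le n (i + 2) (i + 1)
      have h2 := h.PEEn_le n (i + 1) (i + 2)
      linarith
  have a2 : ∀ i j, |∫ x in cube, Q i j x * PP n (EEn n B Q p i j) x| ≤ X * (2 * R ^ 2 * X) := by
    intro i j
    refine (inner_le (h.q2 i j) (sp_l2 (PP_sp n _))).trans ?_
    exact mul_le_mul (h.q1_le i j) (h.PEEn_le n i j) (nr_nonneg _) hX0
  have a3 : ∀ i, |∫ x in cube, crossProduct (U x) (Bn n B x) i *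
        crossProduct (ben n B Q p x) (grad p x) i| ≤ (2 * R * X) * (2 * R ^ 2 * X) := by
    intro i
    have c2 : L2 (fun x => crossProduct (ben n B Q p x) (grad p x) i) := by
      simp only [cross_i]
      exact (sp_l2 ((h.sp_ben n _).mul (h.qp.sp_pd _))).sub
        (sp_l2 ((h.sp_ben n _).mul (h.qp.sp_pd _)))
    refine (inner_le (cross_l2 h.mu (fun i => sp_l2 (Bn_sp n B i)) i) c2).trans ?_
    refine mul_le_mul ?_ (h.benq_le n i) (nr_nonneg _) (by positivity)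
    exact (cross_nr hR h.mu (fun i => sp_l2 (Bn_sp n B i)) i).trans
      (mul_le_mul_of_nonneg_left (h.sBn_le n) (by positivity))
  have b1 := sum3_le a1
  have b2 : |∑ i, ∑ j, ∫ x in cube, Q i j x * PP n (EEn n B Q p i j) x|
      ≤ 3 * (3 * (X * (2 * R ^ 2 * X))) := sum3_le fun i => sum3_le (a2 i)
  have b3 := sum3_le a3
  have hh : |hn ε n w B U p| ≤ 2 * (3 * ((2 * R * X) * (2 * (2 * R ^ 2 * X)))
      + |ε| * (3 * (3 * (X * (2 * R ^ 2 * X))))) + 2 * (3 * ((2 * R * X) * (2 * R ^ 2 * X))) := by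
    unfold hn
    rw [h.part_one n, h.part_two n]
    refine (abs_add_le _ _).trans (add_le_add ?_ ?_)
    · rw [abs_mul, abs_of_pos (two_pos : (0 : ℝ) < 2)]
      refine mul_le_mul_of_nonneg_left ?_ two_pos.le
      refine (abs_sub _ _).trans (add_le_add b1 ?_)
      rw [abs_mul]
      exact mul_le_mul_of_nonneg_left b2 (abs_nonneg _)
    · rw [abs_mul, abs_of_pos (two_pos : (0 : ℝ) < 2), abs_neg]
      exact mul_le_mul_of_nonneg_left b3 two_pos.le
  have hsq := XX_sq h.l2 h.q2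
  rw [← hX] at hsq
  have e : 2 * (3 * ((2 * R * X) * (2 * (2 * R ^ 2 * X)))
      + |ε| * (3 * (3 * (X * (2 * R ^ 2 * X))))) + 2 * (3 * ((2 * R * X) * (2 * R ^ 2 * X)))
      = (72 * R ^ 3 + 36 * |ε| * R ^ 2) * X ^ 2 := by ring
  rw [e] at hh
  have hc : 0 ≤ 72 * R ^ 3 + 36 * |ε| * R ^ 2 := by positivity
  have := mul_le_mul_of_nonneg_left hsq hc
  linarith

end FT

end Pool.Agent.N262.FX
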