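import Pool.Agent.N262.FX.EnC

/-!
# The limit of the truncated energy identity: norms
-/

open MeasureTheory Set Filter Topology
open scoped ContDiff NNReal ENNReal
open H459R3.NS Pool.Agent.GR.Flow Pool.Agent.TH811.SPD

namespace Pool.Agent.N262.FX

/-- square integrable functions on the cell -/
def L2 (f : V → ℝ) : Prop := MemLp f 2 (volume.restrict cube)

/-- the norm -/
noncomputable def nr (f : V → ℝ) : ℝ := Real.sqrt (∫ x in cube, f x ^ 2)

theorem nr_nonneg (f : V → ℝ) : 0 ≤ nr f := Real.sqrt_nonneg _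

theorem nr_sq (f : V → ℝ) : nr f ^ 2 = ∫ x in cube, f x ^ 2 :=
  Real.sq_sqrt (integral_nonneg fun x => sq_nonneg _)

theorem L2.mul_int {f g : V → ℝ} (hf : L2 f) (hg : L2 g) :
    Integrable (fun x => f x * g x) (volume.restrict cube) :=
  MemLp.integrable_mul hf hg

theorem L2.sq_int {f : V → ℝ} (hf : L2 f) :
    Integrable (fun x => f x ^ 2) (volume.restrict cube) := hf.integrable_sq

theorem L2.add {f g : V → ℝ} (hf : L2 f) (hg : L2 g) : L2 (fun x => f x + g x) :=
  MemLp.add hf hg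

theorem L2.sub {f g : V → ℝ} (hf : L2 f) (hg : L2 g) : L2 (fun x => f x - g x) :=
  MemLp.sub hf hg

theorem L2.cmul {f : V → ℝ} (hf : L2 f) (c : ℝ) : L2 (fun x => c * f x) :=
  MemLp.const_mul hf c

theorem L2.sum {ι : Type*} {S : Finset ι} {f : ι → V → ℝ} (h : ∀ i ∈ S, L2 (f i)) :
    L2 (fun x => ∑ i ∈ S, f i x) :=
  memLp_finsetSum S h

theorem sp_l2 {f : V → ℝ} (h : SP f) : L2 f := SP_memLp h

/-- bounded measurable multipliers -/
structure Mlt (R : ℝ) (g : V → ℝ) : Prop where
  meas : AEStronglyMeasurable g (volume.restrict cube)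
  le : ∀ x, |g x| ≤ R

theorem L2.mlt {f g : V → ℝ} {R : ℝ} (hg : Mlt R g) (hf : L2 f) : L2 (fun x => g x * f x) := by
  refine MemLp.of_le_mul (c := R) hf (hg.meas.mul hf.1) (ae_of_all _ fun x => ?_)
  rw [Real.norm_eq_abs, Real.norm_eq_abs, abs_mul]
  exact mul_le_mul_of_nonneg_right (hg.le x) (abs_nonneg _)

/-- Cauchy-Schwarz -/
theorem inner_le {f g : V → ℝ} (hf : L2 f) (hg : L2 g) :
    |∫ x in cube, f x * g x| ≤ nr f * nr g := by
  have h1 : ∀ t : ℝ, 0 ≤ nr g ^ 2 * (t * t) + (2 * ∫ x in cube, f x * g x) * t + nr f ^ 2 := by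
    intro t
    have h2 : 0 ≤ ∫ x in cube, (f x + t * g x) ^ 2 := integral_nonneg fun x => sq_nonneg _
    have h3 : ∫ x in cube, (f x + t * g x) ^ 2 = (∫ x in cube, f x ^ 2)
        + (2 * t * (∫ x in cube, f x * g x) + t ^ 2 * ∫ x in cube, g x ^ 2) := by
      rw [← integral_const_mul, ← integral_const_mul, ← integral_add, ← integral_add]
      · congr 1; funext x; ring
      · exact hf.sq_int
      · exact ((hf.mul_int hg).const_mul _).add (hg.sq_int.const_mul _)
      · exact (hf.mul_int hg).const_mul _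
      · exact hg.sq_int.const_mul _
    rw [h3, ← nr_sq, ← nr_sq] at h2
    linarith
  have h4 := discrim_le_zero h1
  unfold discrim at h4
  have h5 : (∫ x in cube, f x * g x) ^ 2 ≤ (nr f * nr g) ^ 2 := by nlinarith
  exact abs_le_of_sq_le_sq h5 (mul_nonneg (nr_nonneg _) (nr_nonneg _))

theorem nr_add {f g : V → ℝ} (hf : L2 f) (hg : L2 g) :
    nr (fun x => f x + g x) ≤ nr f + nr g := by
  have h1 : nr (fun x => f x + g x) ^ 2 ≤ (nr f + nr g) ^ 2 := by
    have h2 : nr (fun x => f x + g x) ^ 2 = nr f ^ 2 + (2 * (∫ x in cube, f x * g x) + nr g ^ 2) := by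
      rw [nr_sq, nr_sq, nr_sq, ← integral_const_mul, ← integral_add, ← integral_add]
      · congr 1; funext x; ring
      · exact hf.sq_int
      · exact ((hf.mul_int hg).const_mul _).add hg.sq_int
      · exact (hf.mul_int hg).const_mul _
      · exact hg.sq_int
    have h3 := (abs_le.1 (inner_le hf hg)).2
    rw [h2]; nlinarith
  exact (pow_le_pow_iff_left₀ (nr_nonneg _) (add_nonneg (nr_nonneg _) (nr_nonneg _))
    two_ne_zero).1 h1

theorem nr_cmul (f : V → ℝ) (c : ℝ) : nr (fun x => c * f x) = |c| * nr f := by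
  unfold nr
  have : (∫ x in cube, (c * f x) ^ 2) = c ^ 2 * ∫ x in cube, f x ^ 2 := by
    rw [← integral_const_mul]; congr 1; funext x; ring
  rw [this, Real.sqrt_mul (sq_nonneg _), Real.sqrt_sq_eq_abs]

theorem nr_sub {f g : V → ℝ} (hf : L2 f) (hg : L2 g) :
    nr (fun x => f x - g x) ≤ nr f + nr g := by
  have h := nr_add hf (hg.cmul (-1))
  rw [nr_cmul, abs_neg, abs_one, one_mul] at h
  have e : (fun x => f x - g x) = fun x => f x + -1 * g x := by funext x; ring
  rw [e]; exact h

theorem nr_sum {ι : Type*} {S : Finset ι} {f : ι → V → ℝ} (h : ∀ i ∈ S, L2 (f i)) :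
    nr (fun x => ∑ i ∈ S, f i x) ≤ ∑ i ∈ S, nr (f i) := by
  classical
  induction S using Finset.induction_on with
  | empty => simp [nr]
  | insert i S hi ih =>
    simp_rw [Finset.sum_insert hi]
    refine (nr_add (h i (Finset.mem_insert_self _ _))
      (L2.sum fun j hj => h j (Finset.mem_insert_of_mem hj))).trans ?_
    exact add_le_add le_rfl (ih fun j hj => h j (Finset.mem_insert_of_mem hj))

theorem nr_mlt {f g : V → ℝ} {R : ℝ} (hR : 0 ≤ R) (hg : Mlt R g) (hf : L2 f) :
    nr (fun x => g x * f x) ≤ R * nr f := by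
  have h1 : nr (fun x => g x * f x) ^ 2 ≤ (R * nr f) ^ 2 := by
    rw [nr_sq, mul_pow, nr_sq, ← integral_const_mul]
    refine integral_mono (L2.sq_int (L2.mlt hg hf)) (hf.sq_int.const_mul _) fun x => ?_
    show (g x * f x) ^ 2 ≤ R ^ 2 * f x ^ 2
    rw [mul_pow]
    refine mul_le_mul_of_nonneg_right ?_ (sq_nonneg _)
    rw [← sq_abs]
    exact pow_le_pow_left₀ (abs_nonneg _) (hg.le x) 2
  exact (pow_le_pow_iff_left₀ (nr_nonneg _) (mul_nonneg hR (nr_nonneg _)) two_ne_zero).1 h1

theorem nr_PP (n : ℕ) {f : V → ℝ} (hf : L2 f) : nr (PP n f) ≤ nr f :=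
  Real.sqrt_le_sqrt (PP_le n hf)

/-- convergence in the norm -/
structure Cv (F : ℕ → V → ℝ) (f : V → ℝ) : Prop where
  mem : ∀ n, L2 (F n)
  lim : L2 f
  tend : Tendsto (fun n => nr (fun x => F n x - f x)) atTop (𝓝 0)

namespace Cv

variable {F G : ℕ → V → ℝ} {f g : V → ℝ}

theorem of_le (hm : ∀ n, L2 (F n)) (hl : L2 f) {e : ℕ → ℝ} (he : Tendsto e atTop (𝓝 0))
    (h : ∀ n, nr (fun x => F n x - f x) ≤ e n) : Cv F f :=
  ⟨hm, hl, squeeze_zero (fun _ => nr_nonneg _) h he⟩

theorem add (hF : Cv F f) (hG : Cv G g) : Cv (fun n x => F n x + G n x) (fun x => f x + g x) := by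
  have h := hF.tend.add hG.tend
  rw [add_zero] at h
  refine of_le (fun n => (hF.mem n).add (hG.mem n)) (hF.lim.add hG.lim) h fun n => ?_
  have e : (fun x => F n x + G n x - (f x + g x)) = fun x => (F n x - f x) + (G n x - g x) := by
    funext x; ring
  rw [e]
  exact nr_add ((hF.mem n).sub hF.lim) ((hG.mem n).sub hG.lim)

theorem sub (hF : Cv F f) (hG : Cv G g) : Cv (fun n x => F n x - G n x) (fun x => f x - g x) := by
  have h := hF.tend.add hG.tend
  rw [add_zero] at h
  refine of_le (fun n => (hF.mem n).sub (hG.mem n)) (hF.lim.sub hG.lim) h fun n => ?_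
  have e : (fun x => F n x - G n x - (f x - g x)) = fun x => (F n x - f x) - (G n x - g x) := by
    funext x; ring
  rw [e]
  exact nr_sub ((hF.mem n).sub hF.lim) ((hG.mem n).sub hG.lim)

theorem zero : Cv (fun _ _ => 0) (fun _ => 0) := by
  have h0 : L2 (fun _ : V => (0 : ℝ)) := MemLp.zero'
  refine ⟨fun _ => h0, h0, ?_⟩
  simp [nr]

theorem sum {ι : Type*} {S : Finset ι} {F : ι → ℕ → V → ℝ} {f : ι → V → ℝ}
    (h : ∀ i ∈ S, Cv (F i) (f i)) : Cv (fun n x => ∑ i ∈ S, F i n x) (fun x => ∑ i ∈ S, f i x) := by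
  classical
  induction S using Finset.induction_on with
  | empty => simpa using zero
  | insert i S hi ih =>
    simp_rw [Finset.sum_insert hi]
    exact (h i (Finset.mem_insert_self _ _)).add (ih fun j hj => h j (Finset.mem_insert_of_mem hj))

theorem mlt {R : ℝ} (hR : 0 ≤ R) {m : V → ℝ} (hm : Mlt R m) (hF : Cv F f) :
    Cv (fun n x => m x * F n x) (fun x => m x * f x) := by
  have h := hF.tend.const_mul R
  rw [mul_zero] at h
  refine of_le (fun n => (hF.mem n).mlt hm) (hF.lim.mlt hm) h fun n => ?_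
  have e : (fun x => m x * F n x - m x * f x) = fun x => m x * (F n x - f x) := by
    funext x; ring
  rw [e]
  exact nr_mlt hR hm ((hF.mem n).sub hF.lim)

theorem PP (hF : Cv F f) : Cv (fun n => FX.PP n (F n)) f := by
  have h1 : Tendsto (fun n => nr (fun x => FX.PP n f x - f x)) atTop (𝓝 0) := by
    have h2 := (PP_tendsto hF.lim).sqrt
    rw [Real.sqrt_zero] at h2
    exact h2
  have h := hF.tend.add h1
  rw [add_zero] at h
  refine of_le (fun n => (sp_l2 (PP_sp n _))) hF.lim h fun n => ?_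
  have e1 : ∀ x, FX.PP n (F n) x = FX.PP n f x + FX.PP n (fun y => F n y - f y) x := by
    intro x
    rw [← PP_add n hF.lim ((hF.mem n).sub hF.lim)]
    congr 1
    funext y; ring
  have e : (fun x => FX.PP n (F n) x - f x) = fun x =>
      FX.PP n (fun y => F n y - f y) x + (FX.PP n f x - f x) := by
    funext x; rw [e1]; ring
  rw [e]
  refine (nr_add (sp_l2 (PP_sp n _)) ((sp_l2 (PP_sp n _)).sub hF.lim)).trans ?_
  exact add_le_add (nr_PP n ((hF.mem n).sub hF.lim)) le_rfl

theorem const (hf : L2 f) : Cv (fun _ => f) f := by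
  refine ⟨fun _ => hf, hf, ?_⟩
  simp [nr]

theorem inner (hF : Cv F f) (hG : Cv G g) :
    Tendsto (fun n => ∫ x in cube, F n x * G n x) atTop (𝓝 (∫ x in cube, f x * g x)) := by
  rw [tendsto_iff_norm_sub_tendsto_zero]
  have h : Tendsto (fun n => nr (fun x => F n x - f x) * (nr (fun x => G n x - g x) + nr g)
      + nr f * nr (fun x => G n x - g x)) atTop (𝓝 0) := by
    have := (hF.tend.mul (hG.tend.add_const (nr g))).add (hG.tend.const_mul (nr f))
    simpa using this
  refine squeeze_zero (fun _ => norm_nonneg _) (fun n => ?_) h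
  have dF := (hF.mem n).sub hF.lim
  have dG := (hG.mem n).sub hG.lim
  have e : (∫ x in cube, F n x * G n x) - ∫ x in cube, f x * g x
      = (∫ x in cube, (F n x - f x) * G n x) + ∫ x in cube, f x * (G n x - g x) := by
    rw [← integral_sub ((hF.mem n).mul_int (hG.mem n)) (hF.lim.mul_int hG.lim),
      ← integral_add (dF.mul_int (hG.mem n)) (hF.lim.mul_int dG)]
    congr 1; funext x; ring
  have h1 : nr (G n) ≤ nr (fun x => G n x - g x) + nr g := by
    have := nr_add dG hG.lim
    simpa using this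
  rw [e, Real.norm_eq_abs]
  refine (abs_add_le _ _).trans (add_le_add ((inner_le dF (hG.mem n)).trans ?_)
    (inner_le hF.lim dG))
  exact mul_le_mul_of_nonneg_left h1 (nr_nonneg _)

end Cv

end Pool.Agent.N262.FX
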