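import Pool.Agent.N262.FX.EnM
import Pool.Agent.N547.FX.EnD

/-!
# The energy inequality on a unit time window
-/

open MeasureTheory Set Filter Topology
open scoped ContDiff NNReal ENNReal
open H459R3.NS Pool.Agent.GR.Flow Pool.Agent.TH811.SPD

namespace Pool.Agent.N262.FX

theorem per_bound2 {f : ℝ × V → ℝ} (hp : ∀ t, Per (fun x => f (t, x))) (hc : Continuous f)
    (a b : ℝ) : ∃ C : ℝ, 0 ≤ C ∧ ∀ t ∈ Icc a b, ∀ x, |f (t, x)| ≤ C := by
  have hK : IsCompact (Icc a b ×ˢ (cube : Set V)) := isCompact_Icc.prod isCompact_Icc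
  obtain ⟨C, hC⟩ := hK.exists_bound_of_continuousOn hc.continuousOn
  refine ⟨|C|, abs_nonneg _, fun t ht x => ?_⟩
  obtain ⟨y, hy, m, rfl⟩ := exists_cube x
  have h1 := (hp t).int m y
  rw [h1]
  exact (hC (t, y) ⟨ht, hy⟩).trans (le_abs_self C)

theorem pd_joint {F : ℝ × V → ℝ} (hF : ContDiff ℝ ∞ F) (j : Fin 3) :
    ContDiff ℝ ∞ (fun z : ℝ × V => pd j (fun y => F (z.1, y)) z.2) := by
  have e : (fun z : ℝ × V => pd j (fun y => F (z.1, y)) z.2)
      = fun z => fderiv ℝ F z (0, Pi.single j 1) := by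
    funext z
    have hd : HasFDerivAt F (fderiv ℝ F (z.1, z.2)) (z.1, z.2) :=
      (hF.differentiable (by norm_cast) z).hasFDerivAt
    have h1 : HasFDerivAt (fun y : V => ((z.1, y) : ℝ × V)) (ContinuousLinearMap.inr ℝ ℝ V) z.2 :=
      hasFDerivAt_prodMk_right z.1 z.2
    have h2 := (hd.comp z.2 h1).fderiv
    unfold pd
    rw [show (fun y => F (z.1, y)) = F ∘ fun y => (z.1, y) from rfl, h2]
    simp
  rw [e]
  exact (hF.fderiv_right (m := ∞) (by norm_cast)).clm_apply contDiff_const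

theorem lim_energy' {B : V → V} (hB : L2Field B) {p : V → ℝ} (hp : QP p) :
    Tendsto (fun n => ∫ x in cube, bn n B p x ^ 2) atTop (𝓝 (En p B)) := by
  have h0 : Cv (fun n x => bn n B p x) (fun x => ∑ k, B x k * pd k p x) := by
    show Cv (fun n x => ∑ i, Bn n B x i * pd i p x) (fun x => ∑ k, B x k * pd k p x)
    refine Cv.sum fun i _ => ?_
    simp_rw [mul_comm _ (pd i p _)]
    obtain ⟨C, hC⟩ := per_bound (hp.sp_pd i).per (hp.sp_pd i).cont
    have h1 : Cv (fun n x => Bn n B x i) (fun x => B x i) := (Cv.const (hB.cp i)).PP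
    exact h1.mlt C.2 (mlt_cont (hp.sp_pd i).cont hC)
  have h1 := h0.inner h0
  unfold En
  simp_rw [← sq] at h1
  exact h1

section window

variable {U : V → V} {G : ℝ → V → V}

/-- joint smoothness of the Lagrangian coordinates -/
theorem ljs (hU : ∀ i, SP (fun y => U y i)) (hG : IsFlowOf U G) {ℓ : V → ℝ} (hℓ : QP ℓ) :
    ContDiff ℝ ∞ (fun z : ℝ × V => ℓ (G (-z.1) z.2)) :=
  hℓ.smooth.comp ((flow_smooth hU hG).comp (contDiff_fst.neg.prodMk contDiff_snd))

/-- uniform bounds -/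
theorem unif_bounds (hU : ∀ i, SP (fun y => U y i)) (hG : IsFlowOf U G) {ℓ : V → ℝ}
    (hℓ : QP ℓ) : ∃ R : ℝ, 0 ≤ R ∧ ∀ τ ∈ Icc (0 : ℝ) 1, ∀ x,
      (∀ i, |U x i| ≤ R) ∧ (∀ i, |pd i (fun x => ℓ (G (-τ) x)) x| ≤ R) ∧
      (∀ i j, |pd j (pd i fun x => ℓ (G (-τ) x)) x| ≤ R) ∧
      ∀ i, |pd i (trp U fun x => ℓ (G (-τ) x)) x| ≤ R := by
  have hp : ∀ τ, QP (fun x => ℓ (G (-τ) x)) := fun τ => hℓ.flow hU hG _
  have s0 := ljs hU hG hℓ
  have s1 : ∀ i, ContDiff ℝ ∞ (fun z : ℝ × V => pd i (fun x => ℓ (G (-z.1) x)) z.2) := fun i =>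
    pd_joint s0 i
  have s2 : ∀ i j, ContDiff ℝ ∞ (fun z : ℝ × V => pd j (pd i fun x => ℓ (G (-z.1) x)) z.2) :=
    fun i j => pd_joint (s1 i) j
  have s3 : ContDiff ℝ ∞ (fun z : ℝ × V => trp U (fun x => ℓ (G (-z.1) x)) z.2) := by
    unfold trp
    exact (ContDiff.sum fun j _ => ((hU j).smooth.comp contDiff_snd).mul (s1 j)).neg
  have s4 : ∀ i, ContDiff ℝ ∞ (fun z : ℝ × V => pd i (trp U fun x => ℓ (G (-z.1) x)) z.2) :=
    fun i => pd_joint s3 i
  have b1 : ∀ i, ∃ C : ℝ, 0 ≤ C ∧ ∀ τ ∈ Icc (0 : ℝ) 1, ∀ x, |U x i| ≤ C := fun i =>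
    per_bound2 (f := fun z => U z.2 i) (fun t => (hU i).per) ((hU i).cont.comp continuous_snd) 0 1
  have b2 : ∀ i, ∃ C : ℝ, 0 ≤ C ∧ ∀ τ ∈ Icc (0 : ℝ) 1, ∀ x,
      |pd i (fun x => ℓ (G (-τ) x)) x| ≤ C := fun i =>
    per_bound2 (fun t => ((hp t).sp_pd i).per) (s1 i).continuous 0 1
  have b3 : ∀ i j, ∃ C : ℝ, 0 ≤ C ∧ ∀ τ ∈ Icc (0 : ℝ) 1, ∀ x,
      |pd j (pd i fun x => ℓ (G (-τ) x)) x| ≤ C := fun i j =>
    per_bound2 (fun t => (((hp t).sp_pd i).pd j).per) (s2 i j).continuous 0 1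
  have b4 : ∀ i, ∃ C : ℝ, 0 ≤ C ∧ ∀ τ ∈ Icc (0 : ℝ) 1, ∀ x,
      |pd i (trp U fun x => ℓ (G (-τ) x)) x| ≤ C := fun i =>
    per_bound2 (fun t => ((trp_sp hU (hp t)).pd i).per) (s4 i).continuous 0 1
  choose c1 c1n h1 using b1
  choose c2 c2n h2 using b2
  choose c3 c3n h3 using b3
  choose c4 c4n h4 using b4
  refine ⟨(∑ i, c1 i) + (∑ i, c2 i) + (∑ i, ∑ j, c3 i j) + ∑ i, c4 i, ?_, ?_⟩
  · have e1 : 0 ≤ ∑ i, c1 i := Finset.sum_nonneg fun i _ => c1n i
    have e2 : 0 ≤ ∑ i, c2 i := Finset.sum_nonneg fun i _ => c2n i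
    have e3 : 0 ≤ ∑ i, ∑ j, c3 i j := Finset.sum_nonneg fun i _ =>
      Finset.sum_nonneg fun j _ => c3n i j
    have e4 : 0 ≤ ∑ i, c4 i := Finset.sum_nonneg fun i _ => c4n i
    positivity
  · have e1 : 0 ≤ ∑ i, c1 i := Finset.sum_nonneg fun i _ => c1n i
    have e2 : 0 ≤ ∑ i, c2 i := Finset.sum_nonneg fun i _ => c2n i
    have e3 : 0 ≤ ∑ i, ∑ j, c3 i j := Finset.sum_nonneg fun i _ =>
      Finset.sum_nonneg fun j _ => c3n i j
    have e4 : 0 ≤ ∑ i, c4 i := Finset.sum_nonneg fun i _ => c4n i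
    intro τ hτ x
    refine ⟨fun i => ?_, fun i => ?_, fun i j => ?_, fun i => ?_⟩
    · have := Finset.single_le_sum (f := c1) (fun i _ => c1n i) (Finset.mem_univ i)
      linarith [h1 i τ hτ x]
    · have := Finset.single_le_sum (f := c2) (fun i _ => c2n i) (Finset.mem_univ i)
      linarith [h2 i τ hτ x]
    · have f1 := Finset.single_le_sum (f := c3 i) (fun j _ => c3n i j) (Finset.mem_univ j)
      have f2 := Finset.single_le_sum (f := fun i => ∑ j, c3 i j)
        (fun i _ => Finset.sum_nonneg fun j _ => c3n i j) (Finset.mem_univ i)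
      linarith [h3 i j τ hτ x]
    · have := Finset.single_le_sum (f := c4) (fun i _ => c4n i) (Finset.mem_univ i)
      linarith [h4 i τ hτ x]

/-- uniform independence of the gradients -/
theorem unif_nondeg (hU : ∀ i, SP (fun y => U y i)) (hG : IsFlowOf U G) {ℓ : Fin 3 → V → ℝ}
    (hℓ : ∀ m, QP (ℓ m)) (hn : Nondeg ℓ) : ∃ g : ℝ, 0 < g ∧ ∀ τ ∈ Icc (0 : ℝ) 1, ∀ x b : V,
      g * ∑ i, b i ^ 2 ≤ ∑ m, (∑ i, b i * pd i (fun x => ℓ m (G (-τ) x)) x) ^ 2 := by
  set Sp : Set V := {b : V | ∑ i, b i ^ 2 = 1} with hSp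
  have hSc : IsCompact Sp := by
    refine IsCompact.of_isClosed_subset (isCompact_Icc (a := (fun _ => -1 : V)) (b := fun _ => 1))
      (isClosed_eq (by fun_prop) continuous_const) fun b hb => ?_
    have h1 : ∀ i, b i ^ 2 ≤ 1 := fun i => by
      have h2 : ∑ i, b i ^ 2 = 1 := hb
      rw [← h2]
      exact Finset.single_le_sum (f := fun i => b i ^ 2) (fun i _ => sq_nonneg _)
        (Finset.mem_univ i)
    refine ⟨fun i => ?_, fun i => ?_⟩
    · exact (abs_le.1 ((sq_le_one_iff_abs_le_one _).1 (h1 i))).1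
    · exact (abs_le.1 ((sq_le_one_iff_abs_le_one _).1 (h1 i))).2
  set Φ : (ℝ × V) × V → ℝ := fun z =>
    ∑ m, (∑ i, z.2 i * pd i (fun x => ℓ m (G (-z.1.1) x)) z.1.2) ^ 2 with hΦ
  have hc : Continuous Φ := by
    refine continuous_finsetSum _ fun m _ => (continuous_finsetSum _ fun i _ => ?_).pow 2
    exact ((continuous_apply i).comp continuous_snd).mul
      (((pd_joint (ljs hU hG (hℓ m)) i).continuous).comp continuous_fst)
  have hK : IsCompact ((Icc (0 : ℝ) 1 ×ˢ (cube : Set V)) ×ˢ Sp) :=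
    (isCompact_Icc.prod isCompact_Icc).prod hSc
  have hne : ((Icc (0 : ℝ) 1 ×ˢ (cube : Set V)) ×ˢ Sp).Nonempty := by
    refine ⟨((0, 0), Pi.single 0 1), ⟨⟨by simp, ?_⟩, ?_⟩⟩
    · exact ⟨le_rfl, fun i => zero_le_one⟩
    · show ∑ i, (Pi.single (0 : Fin 3) (1 : ℝ) : V) i ^ 2 = 1
      simp [Fin.sum_univ_three]
  obtain ⟨z₀, hz₀, hmin⟩ := hK.exists_isMinOn hne hc.continuousOn
  have hpos : 0 < Φ z₀ := by
    obtain ⟨c, hc0, hcc⟩ := hn.flow hU hG hℓ (-z₀.1.1)
    have h1 := hcc z₀.1.2 z₀.2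
    have h2 : ∑ i, z₀.2 i ^ 2 = 1 := hz₀.2
    rw [h2, mul_one] at h1
    exact hc0.trans_le h1
  refine ⟨Φ z₀, hpos, fun τ hτ x b => ?_⟩
  -- periodicity
  obtain ⟨y, hy, k, rfl⟩ := exists_cube x
  have hper : ∀ m i, pd i (fun x => ℓ m (G (-τ) x)) (y + fun i => (k i : ℝ))
      = pd i (fun x => ℓ m (G (-τ) x)) y := fun m i =>
    (((hℓ m).flow hU hG (-τ)).sp_pd i).per.int k y
  simp_rw [hper]
  -- scaling
  by_cases hb : ∑ i, b i ^ 2 = 0
  · rw [hb, mul_zero]
    exact Finset.sum_nonneg fun m _ => sq_nonneg _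
  have hb0 : 0 < ∑ i, b i ^ 2 :=
    lt_of_le_of_ne (Finset.sum_nonneg fun i _ => sq_nonneg _) (Ne.symm hb)
  set r := Real.sqrt (∑ i, b i ^ 2) with hr
  have hr0 : 0 < r := Real.sqrt_pos.2 hb0
  have hr2 : r ^ 2 = ∑ i, b i ^ 2 := Real.sq_sqrt hb0.le
  have h1 : Φ z₀ ≤ Φ ((τ, y), fun i => b i / r) := by
    refine hmin ⟨⟨hτ, hy⟩, ?_⟩
    show ∑ i, (b i / r) ^ 2 = 1
    simp_rw [div_pow]
    rw [← Finset.sum_div, ← hr2, div_self (pow_ne_zero 2 hr0.ne')]
  have h2 : Φ ((τ, y), fun i => b i / r)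
      = (∑ m, (∑ i, b i * pd i (fun x => ℓ m (G (-τ) x)) y) ^ 2) / r ^ 2 := by
    simp only [hΦ]
    rw [Finset.sum_div]
    refine Finset.sum_congr rfl fun m _ => ?_
    rw [← div_pow, Finset.sum_div]
    congr 1
    refine Finset.sum_congr rfl fun i _ => ?_
    ring
  rw [h2, le_div_iff₀ (by positivity), hr2] at h1
  exact h1

variable {ε : ℝ} {u : ℝ → V → V} {Bin : V → V} {B : ℝ → V → V}

/-- the energy identity -/
theorem energy_prim (hU : ∀ i, SP (fun y => U y i)) (hdiv : ∀ x, ∑ i, pd i (fun y => U y i) x = 0)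
    (hG : IsFlowOf U G) {ℓ : V → ℝ} (hℓ : QP ℓ) (hu : BddField u) (hB : IsSol ε u Bin B)
    {Q : Fin 3 → Fin 3 → ℝ → V → ℝ}
    (hQ : ∀ i j, ∀ T : ℝ, MemLp (fun z : ℝ × V => Q i j z.1 z.2) 2
      (volume.restrict (Icc 0 T ×ˢ cube)))
    (hQw : ∀ᵐ t ∂(volume.restrict (Ici (0 : ℝ))), ∀ i j, ∀ φ : V → ℝ, SP φ →
      ∫ x in cube, B t x i * pd j φ x = -∫ x in cube, Q i j t x * φ x) {a : ℝ} (ha : 0 ≤ a) :
    Prim a (a + 1) (fun t => En (fun x => ℓ (G (-(t - a)) x)) (B t))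
      (fun s => hlim ε (u s) (B s) U (fun i j x => Q i j s x) (fun x => ℓ (G (-(s - a)) x))) := by
  have hab : a ≤ a + 1 := by linarith
  obtain ⟨R₀, hR0, hbd⟩ := unif_bounds hU hG hℓ
  obtain ⟨M, hM⟩ := hu.bdd
  have hM0 : 0 ≤ M := (norm_nonneg _).trans (hM 0 0)
  set R := R₀ + M with hR
  -- the sections of Q
  have hQT : ∀ i j, MemLp (fun z : ℝ × V => Q i j z.1 z.2) 2
      ((volume.restrict (Icc 0 (a + 1))).prod (volume.restrict cube)) := fun i j => by
    rw [prod_cube]; exact hQ i j (a + 1)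
  have hQs : ∀ᵐ s ∂(volume.restrict (Icc a (a + 1))), ∀ i j, L2 (Q i j s) := by
    have h1 : ∀ i j, ∀ᵐ s ∂(volume.restrict (Icc 0 (a + 1))), L2 (Q i j s) := by
      intro i j
      have h2 : ∀ᵐ s ∂(volume.restrict (Icc 0 (a + 1))),
          AEStronglyMeasurable (fun x => Q i j s x) (volume.restrict cube) :=
        (hQT i j).1.prodMk_left
      have h3 : ∀ᵐ s ∂(volume.restrict (Icc 0 (a + 1))),
          Integrable (fun x => Q i j s x ^ 2) (volume.restrict cube) :=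
        (hQT i j).integrable_sq.prod_right_ae
      filter_upwards [h2, h3] with s hs2 hs3
      exact (memLp_two_iff_integrable_sq hs2).2 hs3
    have h4 := ae_all_iff.2 fun i => ae_all_iff.2 (h1 i)
    exact ae_mono (Measure.restrict_mono (Icc_subset_Icc_left ha) le_rfl) h4
  have hQw' : ∀ᵐ s ∂(volume.restrict (Icc a (a + 1))), ∀ i j, ∀ φ : V → ℝ, SP φ →
      ∫ x in cube, B s x i * pd j φ x = -∫ x in cube, Q i j s x * φ x :=
    ae_mono (Measure.restrict_mono (fun s hs => ha.trans hs.1) le_rfl) hQw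
  have hmem : ∀ᵐ s ∂(volume.restrict (Icc a (a + 1))), s ∈ Icc a (a + 1) :=
    ae_restrict_mem measurableSet_Icc
  have hFT : ∀ᵐ s ∂(volume.restrict (Icc a (a + 1))), FT R (u s) (B s) U
      (fun i j x => Q i j s x) (fun x => ℓ (G (-(s - a)) x)) := by
    filter_upwards [hQs, hQw', hmem] with s h1 h2 h3
    have hτ : s - a ∈ Icc (0 : ℝ) 1 := ⟨by linarith [h3.1], by linarith [h3.2]⟩
    have hb := hbd (s - a) hτ
    refine ⟨hB.l2 s (ha.trans h3.1), hB.div s (ha.trans h3.1), h1, h2, hℓ.flow hU hG _, hU, hdiv,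
      by positivity, fun i => ⟨?_, fun x => ?_⟩, fun i x => ?_, fun i x => ?_, fun i j x => ?_,
      fun i x => ?_⟩
    · have h4 : Measurable (fun x => u s x) := hu.meas.comp (measurable_const.prodMk measurable_id)
      exact ((measurable_pi_apply i).comp h4).aestronglyMeasurable
    · exact ((norm_le_pi_norm (u s x) i).trans (hM s x)).trans (by linarith)
    · exact ((hb x).1 i).trans (by linarith)
    · exact ((hb x).2.1 i).trans (by linarith)
    · exact ((hb x).2.2.1 i j).trans (by linarith)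
    · exact ((hb x).2.2.2 i).trans (by linarith)
  -- the dominating function
  obtain ⟨C, hC⟩ := hB.bdd (a + 1)
  set D := 12 * (72 * R ^ 3 + 36 * |ε| * R ^ 2) with hD
  have hD0 : 0 ≤ D := by positivity
  set bound : ℝ → ℝ := fun s => D * (C ^ 2 + ∫ x in cube, ∑ i, ∑ j, Q i j s x ^ 2) with hbound
  have hbi : Integrable bound (volume.restrict (Icc a (a + 1))) := by
    have h1 : Integrable (fun s => ∫ x in cube, ∑ i, ∑ j, Q i j s x ^ 2)
        (volume.restrict (Icc 0 (a + 1))) := by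
      have h2 : Integrable (fun z : ℝ × V => ∑ i, ∑ j, Q i j z.1 z.2 ^ 2)
          ((volume.restrict (Icc 0 (a + 1))).prod (volume.restrict cube)) :=
        integrable_finsetSum _ fun i _ => integrable_finsetSum _ fun j _ =>
          (hQT i j).integrable_sq
      exact h2.integral_prod_left
    have h3 : Integrable (fun s => ∫ x in cube, ∑ i, ∑ j, Q i j s x ^ 2)
        (volume.restrict (Icc a (a + 1))) :=
      h1.mono_measure (Measure.restrict_mono (Icc_subset_Icc_left ha) le_rfl)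
    exact ((integrable_const _).add h3).const_mul D
  have hBs : ∀ s ∈ Icc a (a + 1), ∫ x in cube, ∑ i, B s x i ^ 2 ≤ C ^ 2 := by
    intro s hs
    have h0 : 0 ≤ l2norm (B s) := Real.sqrt_nonneg _
    have h4 : l2norm (B s) ^ 2 = ∫ x in cube, ∑ i, B s x i ^ 2 := by
      unfold l2norm
      exact Real.sq_sqrt (integral_nonneg fun x => Finset.sum_nonneg fun i _ => sq_nonneg _)
    rw [← h4]
    exact pow_le_pow_left₀ h0 (hC s ⟨ha.trans hs.1, hs.2⟩) 2
  set H : ℕ → ℝ → ℝ := fun n s => hn ε n (u s) (B s) U (fun x => ℓ (G (-(s - a)) x)) with hH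
  set L : ℝ → ℝ := fun s => hlim ε (u s) (B s) U (fun i j x => Q i j s x)
    (fun x => ℓ (G (-(s - a)) x)) with hL
  have hle : ∀ n, ∀ᵐ s ∂(volume.restrict (Icc a (a + 1))), ‖H n s‖ ≤ bound s := by
    intro n
    filter_upwards [hFT, hmem] with s h1 h2
    refine (h1.hn_le (ε := ε) n).trans ?_
    exact mul_le_mul_of_nonneg_left (add_le_add (hBs s h2) le_rfl) hD0
  have hlimae : ∀ᵐ s ∂(volume.restrict (Icc a (a + 1))),
      Tendsto (fun n => H n s) atTop (𝓝 (L s)) := by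
    filter_upwards [hFT] with s h1
    exact h1.lim
  have hTE := fun n (t : ℝ) (ht : a ≤ t) => trunc_energy hU hG hℓ hu hB n a ha ht
  have hHi : ∀ n, Integrable (H n) (volume.restrict (Icc a (a + 1))) := fun n =>
    (intervalIntegrable_iff_integrableOn_Icc_of_le hab).1 (hTE n (a + 1) hab).1
  have hLm : AEStronglyMeasurable L (volume.restrict (Icc a (a + 1))) :=
    aestronglyMeasurable_of_tendsto_ae atTop (fun n => (hHi n).1) hlimae
  have hLi : Integrable L (volume.restrict (Icc a (a + 1))) := by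
    refine Integrable.mono' hbi hLm ?_
    filter_upwards [hlimae, ae_all_iff.2 hle] with s h1 h2
    exact le_of_tendsto h1.norm (Eventually.of_forall h2)
  refine ⟨(intervalIntegrable_iff_integrableOn_Icc_of_le hab).2 hLi, fun t ht => ?_⟩
  -- the limit of the identities
  have h1 : Tendsto (fun n => ∫ s in a..t, H n s) atTop (𝓝 (∫ s in a..t, L s)) := by
    have hsub : Icc a t ⊆ Icc a (a + 1) := Icc_subset_Icc_right ht.2
    have hmono : ∀ {P : ℝ → Prop}, (∀ᵐ s ∂(volume.restrict (Icc a (a + 1))), P s) →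
        ∀ᵐ s ∂(volume.restrict (Icc a t)), P s := fun h =>
      ae_mono (Measure.restrict_mono hsub le_rfl) h
    simp_rw [intervalIntegral.integral_of_le ht.1, ← integral_Icc_eq_integral_Ioc]
    refine tendsto_integral_of_dominated_convergence bound
      (fun n => (hHi n).1.mono_measure (Measure.restrict_mono hsub le_rfl))
      (hbi.mono_measure (Measure.restrict_mono hsub le_rfl)) (fun n => hmono (hle n))
      (hmono hlimae)
  have h2 : Tendsto (fun n => (∫ x in cube, bn n (B t) (fun x => ℓ (G (-(t - a)) x)) x ^ 2) -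
      ∫ x in cube, bn n (B a) (fun x => ℓ (G (-(a - a)) x)) x ^ 2) atTop
      (𝓝 (En (fun x => ℓ (G (-(t - a)) x)) (B t) - En (fun x => ℓ (G (-(a - a)) x)) (B a))) :=
    (lim_energy' (hB.l2 t (ha.trans ht.1)) (hℓ.flow hU hG _)).sub
      (lim_energy' (hB.l2 a ha) (hℓ.flow hU hG _))
  have h3 : (fun n => (∫ x in cube, bn n (B t) (fun x => ℓ (G (-(t - a)) x)) x ^ 2) -
      ∫ x in cube, bn n (B a) (fun x => ℓ (G (-(a - a)) x)) x ^ 2)
      = fun n => ∫ s in a..t, H n s := funext fun n => (hTE n t ht.1).2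
  rw [h3] at h2
  have h4 := tendsto_nhds_unique h2 h1
  linarith

end window

theorem window {U : V → V} (hU : ∀ i, SP (fun y => U y i))
    (hdiv : ∀ x, ∑ i, pd i (fun y => U y i) x = 0) {G : ℝ → V → V} (hG : IsFlowOf U G)
    {ℓ : Fin 3 → V → ℝ} (hℓ : ∀ m, QP (ℓ m)) (hn : Nondeg ℓ) :
    ∃ C : ℝ, 0 ≤ C ∧ ∀ (ε : ℝ), 0 < ε → ε ≤ 1 → ∀ (u : ℝ → V → V) (Bin : V → V) (B : ℝ → V → V),
      Measurable (fun z : ℝ × V => u z.1 z.2) → (∃ M : ℝ, ∀ t x, ‖u t x‖ ≤ M) →
      IsSol ε u Bin B → ∀ a : ℝ, 0 ≤ a →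
      (∀ s ∈ Ico a (a + 1), ∀ x, ‖u s x - U x‖ ≤ ε) →
      ∑ m, En (fun x => ℓ m (G (-1) x)) (B (a + 1)) ≤ Real.exp (C * ε) * ∑ m, En (ℓ m) (B a) := by
  obtain ⟨g, hg, hnd⟩ := unif_nondeg hU hG hℓ hn
  choose K₀ hK0 hKb using fun m => unif_bounds hU hG (hℓ m)
  set K := ∑ m, K₀ m with hK
  have hKle : ∀ m, K₀ m ≤ K := fun m =>
    Finset.single_le_sum (f := K₀) (fun m _ => hK0 m) (Finset.mem_univ m)
  set C₀ := 162 * K ^ 2 + 3038 * K ^ 4 / g with hC₀
  have hC₀0 : 0 ≤ C₀ := by positivity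
  refine ⟨C₀ / g, by positivity, fun ε hε hε1 u Bin B hum hub hB a ha hv => ?_⟩
  have hu : BddField u := ⟨hum, hub⟩
  obtain ⟨Q, hQ, hQw⟩ := hB.grad
  have hP := fun m => energy_prim hU hdiv hG (hℓ m) hu hB hQ hQw ha
  have hS : Prim a (a + 1) (fun t => ∑ m, En (fun x => ℓ m (G (-(t - a)) x)) (B t))
      (fun s => ∑ m, hlim ε (u s) (B s) U (fun i j x => Q i j s x)
        (fun x => ℓ m (G (-(s - a)) x))) := Prim.sum fun m _ => hP m
  have hQs : ∀ᵐ s, s ∈ Ioo a (a + 1) → ∀ i j, L2 (Q i j s) := by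
    have h1 : ∀ i j, ∀ᵐ s ∂(volume.restrict (Icc 0 (a + 1))), L2 (Q i j s) := by
      intro i j
      have hQT : MemLp (fun z : ℝ × V => Q i j z.1 z.2) 2
          ((volume.restrict (Icc 0 (a + 1))).prod (volume.restrict cube)) := by
        rw [prod_cube]; exact hQ i j (a + 1)
      have h2 : ∀ᵐ s ∂(volume.restrict (Icc 0 (a + 1))),
          AEStronglyMeasurable (fun x => Q i j s x) (volume.restrict cube) := hQT.1.prodMk_left
      have h3 : ∀ᵐ s ∂(volume.restrict (Icc 0 (a + 1))),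
          Integrable (fun x => Q i j s x ^ 2) (volume.restrict cube) :=
        hQT.integrable_sq.prod_right_ae
      filter_upwards [h2, h3] with s hs2 hs3
      exact (memLp_two_iff_integrable_sq hs2).2 hs3
    have h4 := (ae_restrict_iff' measurableSet_Icc).1 (ae_all_iff.2 fun i => ae_all_iff.2 (h1 i))
    filter_upwards [h4] with s hs h5
    exact hs ⟨ha.trans h5.1.le, h5.2.le⟩
  have key := gronwall_int (E := fun t => ∑ m, En (fun x => ℓ m (G (-(t - a)) x)) (B t))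
    (κ := C₀ / g * ε) hS.int hS.eq (by
      filter_upwards [hQs] with s hs hmem
      have hs' := hs hmem
      have hτ : s - a ∈ Icc (0 : ℝ) 1 := ⟨by linarith [hmem.1], by linarith [hmem.2]⟩
      have hs0 : 0 ≤ s := ha.trans hmem.1.le
      have hq : ∀ m, QP (fun x => ℓ m (G (-(s - a)) x)) := fun m => (hℓ m).flow hU hG _
      have hB2 := hB.l2 s hs0
      have hineq := energy_ineq (K := K) (g := g) (ε := ε) hg hε.le
        (v := fun x => u s x - U x) (B := B s) (Q := fun i j x => Q i j s x)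
        (p1 := fun m x => grad (fun x => ℓ m (G (-(s - a)) x)) x)
        (p2 := fun m i j x => pd j (pd i fun x => ℓ m (G (-(s - a)) x)) x)
        (fun i => hB2.cp i) hs'
        (fun i => by
          have h4 : Measurable (fun x => u s x) :=
            hum.comp (measurable_const.prodMk measurable_id)
          exact (((measurable_pi_apply i).comp h4).aestronglyMeasurable).sub
            (hU i).cont.aestronglyMeasurable)
        (fun x i => (norm_le_pi_norm (u s x - U x) i).trans (hv s ⟨hmem.1.le, hmem.2⟩ x))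
        (fun m i => ((hq m).sp_pd i).cont) (fun m i j => (((hq m).sp_pd i).pd j).cont)
        (fun m x i => ((hKb m (s - a) hτ x).2.1 i).trans (hKle m))
        (fun m i j x => ((hKb m (s - a) hτ x).2.2.1 i j).trans (hKle m))
        (hnd (s - a) hτ)
      have hBE : g * ∫ x in cube, ∑ i, B s x i ^ 2
          ≤ ∑ m, En (fun x => ℓ m (G (-(s - a)) x)) (B s) := by
        unfold En
        rw [← integral_finsetSum, ← integral_const_mul]
        · refine integral_mono ((int_sum_sq hB2).const_mul g) ?_ fun x =>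
            hnd (s - a) hτ x (B s x)
          refine integrable_finsetSum _ fun m _ => ?_
          have h5 : L2 (fun x => ∑ i, B s x i * pd i (fun x => ℓ m (G (-(s - a)) x)) x) := by
            refine L2.sum fun i _ => ?_
            simp_rw [mul_comm _ (pd i (fun x => ℓ m (G (-(s - a)) x)) _)]
            exact L2.mlt (R := K) (mlt_cont ((hq m).sp_pd i).cont fun x =>
              ((hKb m (s - a) hτ x).2.1 i).trans (hKle m)) (hB2.cp i)
          exact h5.sq_int
        · intro m _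
          have h5 : L2 (fun x => ∑ i, B s x i * pd i (fun x => ℓ m (G (-(s - a)) x)) x) := by
            refine L2.sum fun i _ => ?_
            simp_rw [mul_comm _ (pd i (fun x => ℓ m (G (-(s - a)) x)) _)]
            exact L2.mlt (R := K) (mlt_cont ((hq m).sp_pd i).cont fun x =>
              ((hKb m (s - a) hτ x).2.1 i).trans (hKle m)) (hB2.cp i)
          exact h5.sq_int
      refine le_trans hineq ?_
      have h6 : 0 ≤ C₀ * ε / g := by positivity
      have h7 := mul_le_mul_of_nonneg_left hBE h6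
      calc C₀ * ε * ∫ x in cube, ∑ i, B s x i ^ 2
          = C₀ * ε / g * (g * ∫ x in cube, ∑ i, B s x i ^ 2) := by
            field_simp
        _ ≤ _ := h7
        _ = _ := by ring)
  have e1 : ∀ m, (fun x => ℓ m (G (-(a - a)) x)) = ℓ m := fun m => by
    funext x
    rw [sub_self, neg_zero, hG.zero]
  have e2 : ∀ m, (fun x => ℓ m (G (-(a + 1 - a)) x)) = fun x => ℓ m (G (-1) x) := fun m => by
    funext x
    rw [add_sub_cancel_left]
  simp only [e1, e2] at key
  exact key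

end Pool.Agent.N262.FX
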