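import Pool.Agent.N262.FX.Slab

/-!
# The fields with active slabs in a set `S` and their flows
-/

open MeasureTheory Set Filter Topology
open scoped ContDiff NNReal ENNReal
open H459R3.NS Pool.Agent.GR.Flow

namespace Pool.Agent.N262.FX

/-- the cell fields with their flows -/
structure Sys where
  W₀ : V → V
  W₁ : V → V
  Ψ₀ : ℝ → V → V
  Ψ₁ : ℝ → V → V
  cf : CellFields W₀ W₁
  f0 : IsFlowOf W₀ Ψ₀
  f1 : IsFlowOf W₁ Ψ₁

namespace Sys

variable (s : Sys)

theorem c0 : CF s.W₀ := ⟨s.cf.sp0, s.cf.div0, s.cf.van0⟩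
theorem c1 : CF s.W₁ := ⟨s.cf.sp1, s.cf.div1, s.cf.van1⟩

/-- the field of the window `i` in the slab `k` -/
noncomputable def vv (k : ℕ) (i : Fin 3) : V → V :=
  if i = 0 then vf k s.W₀ s.W₁ else if i = 1 then vf k s.W₁ s.W₀ else dr k

theorem vv_cases {p : (V → V) → Prop} (k : ℕ) (i : Fin 3) (h0 : p (vf k s.W₀ s.W₁))
    (h1 : p (vf k s.W₁ s.W₀)) (h2 : p (dr k)) : p (s.vv k i) := by
  unfold vv
  split_ifs <;> assumption

theorem vv_sp (k : ℕ) (i : Fin 3) : ∀ j, SP (fun x => s.vv k i x j) :=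
  s.vv_cases (p := fun v => ∀ j, SP (fun x => v x j)) k i (vf_sp s.c0 s.c1) (vf_sp s.c1 s.c0)
    (dr_sp k)

theorem vv_div (k : ℕ) (i : Fin 3) : ∀ x, ∑ j, pd j (fun y => s.vv k i y j) x = 0 :=
  s.vv_cases (p := fun v => ∀ x, ∑ j, pd j (fun y => v y j) x = 0) k i (vf_div s.c0 s.c1)
    (vf_div s.c1 s.c0) (dr_div k)

theorem vv_not_slab {k : ℕ} {i : Fin 3} {x : V} (h : ¬ slab k x) : s.vv k i x = 0 :=
  s.vv_cases (p := fun v => v x = 0) k i (vf_not_slab h) (vf_not_slab h) (dr_not_slab h)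

theorem vv_per (k : ℕ) (i : Fin 3) : Per (s.vv k i) := fun j x =>
  funext fun m => (s.vv_sp k i m).per j x

theorem exists_M : ∃ M : ℝ, 0 ≤ M ∧ ∀ k i x, ‖s.vv k i x‖ ≤ M / 2 ^ k := by
  obtain ⟨C, h0, hC⟩ := vf_bound s.c0 s.c1
  obtain ⟨C', h0', hC'⟩ := vf_bound s.c1 s.c0
  refine ⟨C + C' + 1, by positivity, fun k i x => ?_⟩
  have h2 : (0 : ℝ) < 2 ^ k := by positivity
  refine s.vv_cases (p := fun v => ‖v x‖ ≤ (C + C' + 1) / 2 ^ k) k i ?_ ?_ ?_
  · exact (hC k x).trans ((div_le_div_iff_of_pos_right h2).2 (by linarith))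
  · exact (hC' k x).trans ((div_le_div_iff_of_pos_right h2).2 (by linarith))
  · exact (dr_bound k x).trans ((div_le_div_iff_of_pos_right h2).2 (by linarith))

theorem exists_L : ∃ L : ℝ≥0, ∀ k i, LipschitzWith L (s.vv k i) := by
  obtain ⟨C, hC⟩ := vf_lip s.c0 s.c1
  obtain ⟨C', hC'⟩ := vf_lip s.c1 s.c0
  obtain ⟨C'', hC''⟩ := dr_lip
  refine ⟨max C (max C' C''), fun k i => ?_⟩
  refine s.vv_cases (p := fun v => LipschitzWith (max C (max C' C'')) v) k i ?_ ?_ ?_
  · exact (hC k).weaken (le_max_left _ _)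
  · exact (hC' k).weaken ((le_max_left _ _).trans (le_max_right _ _))
  · exact (hC'' k).weaken ((le_max_right _ _).trans (le_max_right _ _))

/-- the bound of the fields -/
noncomputable def M : ℝ := s.exists_M.choose
theorem M_nonneg : 0 ≤ s.M := s.exists_M.choose_spec.1
theorem vv_le (k : ℕ) (i : Fin 3) (x : V) : ‖s.vv k i x‖ ≤ s.M / 2 ^ k :=
  s.exists_M.choose_spec.2 k i x

/-- the Lipschitz constant of the fields -/
noncomputable def L : ℝ≥0 := s.exists_L.choose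
theorem vv_lip (k : ℕ) (i : Fin 3) : LipschitzWith s.L (s.vv k i) := s.exists_L.choose_spec k i

open Classical in
/-- the field of the window `i` with active slabs in the set `S` -/
noncomputable def us (S : Set ℕ) (i : Fin 3) (x : V) : V :=
  if h : ∃ k ∈ S, slab k x then s.vv h.choose i x else 0

theorem us_of_mem {S : Set ℕ} {i : Fin 3} {x : V} {k : ℕ} (hk : k ∈ S) (h : slab k x) :
    s.us S i x = s.vv k i x := by
  have he : ∃ k ∈ S, slab k x := ⟨k, hk, h⟩
  have : he.choose = k := slab_unique he.choose_spec.2 h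
  rw [us, dif_pos he, this]

theorem us_of_not {S : Set ℕ} {i : Fin 3} {x : V} (h : ∀ k ∈ S, ¬ slab k x) :
    s.us S i x = 0 := by
  have he : ¬ ∃ k ∈ S, slab k x := fun ⟨k, hk, hs⟩ => h k hk hs
  rw [us, dif_neg he]

theorem us_cases (S : Set ℕ) (i : Fin 3) (x : V) :
    (∃ k ∈ S, slab k x ∧ s.us S i x = s.vv k i x) ∨ ((∀ k ∈ S, ¬ slab k x) ∧ s.us S i x = 0) := by
  by_cases h : ∃ k ∈ S, slab k x
  · obtain ⟨k, hk, hs⟩ := h
    exact Or.inl ⟨k, hk, hs, s.us_of_mem hk hs⟩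
  · push Not at h
    exact Or.inr ⟨h, s.us_of_not h⟩

theorem us_bound (S : Set ℕ) (i : Fin 3) (x : V) : ‖s.us S i x‖ ≤ s.M := by
  rcases s.us_cases S i x with ⟨k, _, _, h⟩ | ⟨_, h⟩
  · rw [h]
    refine (s.vv_le k i x).trans ?_
    exact div_le_self s.M_nonneg (one_le_pow₀ (by norm_num))
  · rw [h, norm_zero]; exact s.M_nonneg

/-- if two sets agree below `K` then the fields are close -/
theorem us_close {S S' : Set ℕ} {K : ℕ} (h : ∀ k, k < K → (k ∈ S ↔ k ∈ S')) (i : Fin 3) (x : V) :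
    ‖s.us S i x - s.us S' i x‖ ≤ s.M / 2 ^ K := by
  have key : ∀ k, K ≤ k → s.M / 2 ^ k ≤ s.M / 2 ^ K := fun k hk =>
    div_le_div_of_nonneg_left s.M_nonneg (by positivity)
      (pow_le_pow_right₀ (by norm_num) hk)
  have h0 : (0 : ℝ) ≤ s.M / 2 ^ K := div_nonneg s.M_nonneg (by positivity)
  by_cases hx : ∃ k, slab k x
  · obtain ⟨k, hk⟩ := hx
    have e : ∀ S : Set ℕ, k ∉ S → s.us S i x = 0 := fun S hS =>
      s.us_of_not fun l hl hs => hS (slab_unique hs hk ▸ hl)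
    by_cases h1 : k ∈ S <;> by_cases h2 : k ∈ S'
    · rw [s.us_of_mem h1 hk, s.us_of_mem h2 hk, sub_self, norm_zero]; exact h0
    · rw [s.us_of_mem h1 hk, e S' h2, sub_zero]
      refine (s.vv_le k i x).trans (key k ?_)
      by_contra hcon
      exact h2 ((h k (not_le.1 hcon)).1 h1)
    · rw [s.us_of_mem h2 hk, e S h1, zero_sub, norm_neg]
      refine (s.vv_le k i x).trans (key k ?_)
      by_contra hcon
      exact h1 ((h k (not_le.1 hcon)).2 h2)
    · rw [e S h1, e S' h2, sub_self, norm_zero]; exact h0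
  · push Not at hx
    rw [s.us_of_not fun k _ => hx k, s.us_of_not fun k _ => hx k, sub_self, norm_zero]
    exact h0

/-- `us S i` is Lipschitz, uniformly in `S` -/
theorem us_lip (S : Set ℕ) (i : Fin 3) : LipschitzWith (2 * s.L) (s.us S i) := by
  refine LipschitzWith.of_dist_le_mul fun x y => ?_
  have hd : (0 : ℝ) ≤ s.L * dist x y := by positivity
  have h2 : ((2 * s.L : ℝ≥0) : ℝ) * dist x y = s.L * dist x y + s.L * dist x y := by
    push_cast; ring
  rw [h2]
  rcases s.us_cases S i x with ⟨k, hkS, hk, e⟩ | ⟨hx, e⟩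
  · rcases s.us_cases S i y with ⟨l, hlS, hl, e'⟩ | ⟨hy, e'⟩
    · rw [e, e']
      by_cases hkl : k = l
      · subst hkl
        exact ((s.vv_lip k i).dist_le_mul x y).trans (by linarith)
      · have h3 : s.vv k i y = 0 := s.vv_not_slab fun h => hkl (slab_unique h hl)
        have h4 : s.vv l i x = 0 := s.vv_not_slab fun h => hkl (slab_unique hk h)
        have h5 := (s.vv_lip k i).dist_le_mul x y
        have h6 := (s.vv_lip l i).dist_le_mul x y
        rw [h3] at h5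
        rw [h4] at h6
        exact (dist_triangle _ 0 _).trans (add_le_add h5 h6)
    · rw [e, e']
      have h3 : s.vv k i y = 0 := s.vv_not_slab (hy k hkS)
      have h5 := (s.vv_lip k i).dist_le_mul x y
      rw [h3] at h5
      exact h5.trans (by linarith)
  · rcases s.us_cases S i y with ⟨l, hlS, hl, e'⟩ | ⟨hy, e'⟩
    · rw [e, e']
      have h3 : s.vv l i x = 0 := s.vv_not_slab (hx l hlS)
      have h5 := (s.vv_lip l i).dist_le_mul x y
      rw [h3] at h5
      exact h5.trans (by linarith)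
    · rw [e, e', dist_self]; positivity

theorem slab_shift {k : ℕ} {x : V} {j : Fin 3} : slab k (x + Pi.single j 1) ↔ slab k x := by
  unfold slab
  have : Int.fract ((x + Pi.single j 1 : V) 1) = Int.fract (x 1) := by
    rw [Pi.add_apply, Pi.single_apply]
    split_ifs
    · rw [Int.fract_add_one]
    · rw [add_zero]
  rw [this]

theorem us_per (S : Set ℕ) (i : Fin 3) : Per (s.us S i) := by
  intro j x
  rcases s.us_cases S i x with ⟨k, hkS, hk, e⟩ | ⟨hx, e⟩
  · rw [e, s.us_of_mem hkS (slab_shift.2 hk), s.vv_per]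
  · rw [e, s.us_of_not fun k hk h => hx k hk (slab_shift.1 h)]

theorem us_finset (F : Finset ℕ) (i : Fin 3) (x : V) :
    s.us (F : Set ℕ) i x = ∑ k ∈ F, s.vv k i x := by
  rcases s.us_cases F i x with ⟨k, hkS, hk, e⟩ | ⟨hx, e⟩
  · rw [e]
    have := Finset.sum_eq_single_of_mem (f := fun k => s.vv k i x) k (Finset.mem_coe.1 hkS)
      (fun l _ hl => s.vv_not_slab fun h => hl (slab_unique h hk))
    exact this.symm
  · rw [e]
    exact (Finset.sum_eq_zero fun l hl => s.vv_not_slab (hx l hl)).symm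

theorem us_sp (F : Finset ℕ) (i j : Fin 3) : SP (fun x => s.us (F : Set ℕ) i x j) := by
  have : (fun x => s.us (F : Set ℕ) i x j) = fun x => ∑ k ∈ F, s.vv k i x j := by
    funext x
    rw [us_finset, Finset.sum_apply]
  rw [this]
  exact SP.sum fun k _ => s.vv_sp k i j

theorem us_div (F : Finset ℕ) (i : Fin 3) (x : V) :
    ∑ j, pd j (fun y => s.us (F : Set ℕ) i y j) x = 0 := by
  have : ∀ j, pd j (fun y => s.us (F : Set ℕ) i y j) x
      = ∑ k ∈ F, pd j (fun y => s.vv k i y j) x := by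
    intro j
    have e : (fun x => s.us (F : Set ℕ) i x j) = fun x => ∑ k ∈ F, s.vv k i x j := by
      funext x
      rw [us_finset, Finset.sum_apply]
    rw [e]
    exact pd_sum (fun k _ => s.vv_sp k i j) j x
  rw [Finset.sum_congr rfl fun j _ => this j, Finset.sum_comm]
  exact Finset.sum_eq_zero fun k _ => s.vv_div k i x

/-! ### the flows -/

/-- the flow of the action window in the slab `k` -/
noncomputable def ga (k : ℕ) (Ψ Ψ' : ℝ → V → V) (t : ℝ) (x : V) : V :=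
  if isP k (fl k x) then ((2 : ℝ) ^ k)⁻¹ • Ψ t ((2 : ℝ) ^ k • x)
  else if isM k (fl k x) then ((2 : ℝ) ^ k)⁻¹ • Ψ' (-t) ((2 : ℝ) ^ k • x)
  else x

/-- the flow of the drift window in the slab `k` -/
noncomputable def gd (k : ℕ) (t : ℝ) (x : V) : V :=
  x + Pi.single 0 (t * (((2 : ℝ) ^ k)⁻¹ * chk k (x 1)))

theorem cf_lip {W : V → V} (h : CF W) : ∃ K : ℝ≥0, LipschitzWith K W :=
  Pool.Agent.TH811.SPD.v_lip h.sp

theorem cf_floor {W : V → V} (h : CF W) {Ψ : ℝ → V → V} (hΨ : IsFlowOf W Ψ) (x : V) (j : Fin 3)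
    (t : ℝ) : ⌊Ψ t x j⌋ = ⌊x j⌋ := by
  obtain ⟨K, hK⟩ := cf_lip h
  have := flow_floor hK hΨ (N := 1) one_pos (fun z hz => h.zero (by simpa using hz)) x j t
  simpa using this

theorem fl_scaled {W : V → V} (h : CF W) {Ψ : ℝ → V → V} (hΨ : IsFlowOf W Ψ) (k : ℕ) (x : V)
    (t : ℝ) : fl k (((2 : ℝ) ^ k)⁻¹ • Ψ t ((2 : ℝ) ^ k • x)) = fl k x := by
  funext j
  have h1 := cf_floor h hΨ ((2 : ℝ) ^ k • x) j t
  have h2 : (2 : ℝ) ^ k * ((((2 : ℝ) ^ k)⁻¹ • Ψ t ((2 : ℝ) ^ k • x)) j)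
      = Ψ t ((2 : ℝ) ^ k • x) j := by
    rw [Pi.smul_apply, smul_eq_mul]; field_simp
  show ⌊_⌋ = ⌊_⌋
  rw [h2, h1]
  rfl

theorem fl_ga {W W' : V → V} (h : CF W) (h' : CF W') {Ψ Ψ' : ℝ → V → V} (hΨ : IsFlowOf W Ψ)
    (hΨ' : IsFlowOf W' Ψ') (k : ℕ) (t : ℝ) (x : V) : fl k (ga k Ψ Ψ' t x) = fl k x := by
  unfold ga
  split_ifs
  · exact fl_scaled h hΨ k x t
  · exact fl_scaled h' hΨ' k x (-t)
  · rfl

theorem ga_flow {W W' : V → V} (h : CF W) (h' : CF W') {Ψ Ψ' : ℝ → V → V} (hΨ : IsFlowOf W Ψ)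
    (hΨ' : IsFlowOf W' Ψ') (k : ℕ) : IsFlowOf (vf k W W') (ga k Ψ Ψ') where
  zero x := by
    have h2 : (2 : ℝ) ^ k ≠ 0 := by positivity
    unfold ga
    split_ifs
    · rw [hΨ.zero, smul_smul, inv_mul_cancel₀ h2, one_smul]
    · rw [neg_zero, hΨ'.zero, smul_smul, inv_mul_cancel₀ h2, one_smul]
    · rfl
  deriv x t := by
    have hf := fl_ga h h' hΨ hΨ' k t x
    by_cases hP : isP k (fl k x)
    · have e : (fun t => ga k Ψ Ψ' t x) = fun t => ((2 : ℝ) ^ k)⁻¹ • Ψ t ((2 : ℝ) ^ k • x) := by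
        funext t; rw [ga, if_pos hP]
      rw [vf_P (by rw [hf]; exact hP), congrFun e t, e, smul_smul,
        mul_inv_cancel₀ (by positivity), one_smul]
      exact (hΨ.deriv _ t).const_smul ((2 : ℝ) ^ k)⁻¹
    · by_cases hM : isM k (fl k x)
      · have e : (fun t => ga k Ψ Ψ' t x)
            = fun t => ((2 : ℝ) ^ k)⁻¹ • Ψ' (-t) ((2 : ℝ) ^ k • x) := by
          funext t; rw [ga, if_neg hP, if_pos hM]
        rw [vf_M (by rw [hf]; exact hM), congrFun e t, e, smul_smul,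
          mul_inv_cancel₀ (by positivity), one_smul, ← smul_neg]
        exact ((neg_flow hΨ').deriv ((2 : ℝ) ^ k • x) t).const_smul ((2 : ℝ) ^ k)⁻¹
      · have e : (fun t => ga k Ψ Ψ' t x) = fun t => x := by
          funext t; rw [ga, if_neg hP, if_neg hM]
        rw [vf_0 (by rw [hf]; exact hP) (by rw [hf]; exact hM), e]
        exact hasDerivAt_const t x

theorem gd_apply_one (k : ℕ) (t : ℝ) (x : V) : gd k t x 1 = x 1 := by
  simp [gd]

theorem gd_flow (k : ℕ) : IsFlowOf (dr k) (gd k) where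
  zero x := by simp [gd]
  deriv x t := by
    have e : dr k (gd k t x) = Pi.single 0 (((2 : ℝ) ^ k)⁻¹ * chk k (x 1)) := by
      funext i
      simp only [dr, gd_apply_one, Pi.single_apply]
    rw [e, hasDerivAt_pi]
    intro i
    by_cases hi : i = 0
    · subst hi
      simp only [gd, Pi.add_apply, Pi.single_eq_same]
      have := ((hasDerivAt_id t).mul_const (((2 : ℝ) ^ k)⁻¹ * chk k (x 1))).const_add (x 0)
      rw [one_mul] at this
      exact this
    · simp only [gd, Pi.add_apply, Pi.single_apply, if_neg hi, add_zero]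
      exact hasDerivAt_const t (x i)

/-- the flow of the window `i` in the slab `k` -/
noncomputable def gg (k : ℕ) (i : Fin 3) : ℝ → V → V :=
  if i = 0 then ga k s.Ψ₀ s.Ψ₁ else if i = 1 then ga k s.Ψ₁ s.Ψ₀ else gd k

theorem gg_flow (k : ℕ) (i : Fin 3) : IsFlowOf (s.vv k i) (s.gg k i) := by
  unfold vv gg
  split_ifs
  · exact ga_flow s.c0 s.c1 s.f0 s.f1 k
  · exact ga_flow s.c1 s.c0 s.f1 s.f0 k
  · exact gd_flow k

theorem ga_slab {W W' : V → V} (h : CF W) (h' : CF W') {Ψ Ψ' : ℝ → V → V} (hΨ : IsFlowOf W Ψ)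
    (hΨ' : IsFlowOf W' Ψ') {k : ℕ} {x : V} (hx : slab k x) (t : ℝ) : slab k (ga k Ψ Ψ' t x) := by
  by_cases hc : fl k x 1 % 2 ^ k = 5
  · apply slab_of_core
    rw [fl_ga h h' hΨ hΨ']
    exact hc
  · have : ga k Ψ Ψ' t x = x := by
      unfold ga
      rw [if_neg fun h => hc h.1, if_neg fun h => hc h.1]
    rw [this]
    exact hx

theorem gg_slab {k : ℕ} {x : V} (hx : slab k x) (i : Fin 3) (t : ℝ) : slab k (s.gg k i t x) := by
  unfold gg
  split_ifs
  · exact ga_slab s.c0 s.c1 s.f0 s.f1 hx t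
  · exact ga_slab s.c1 s.c0 s.f1 s.f0 hx t
  · unfold slab
    rw [gd_apply_one]
    exact hx

open Classical in
/-- the flow of the window `i` -/
noncomputable def G (S : Set ℕ) (i : Fin 3) (t : ℝ) (x : V) : V :=
  if h : ∃ k ∈ S, slab k x then s.gg h.choose i t x else x

theorem G_of_mem {S : Set ℕ} {i : Fin 3} {x : V} {k : ℕ} (hk : k ∈ S) (h : slab k x) (t : ℝ) :
    s.G S i t x = s.gg k i t x := by
  have he : ∃ k ∈ S, slab k x := ⟨k, hk, h⟩
  have : he.choose = k := slab_unique he.choose_spec.2 h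
  rw [G, dif_pos he, this]

theorem G_of_not {S : Set ℕ} {i : Fin 3} {x : V} (h : ∀ k ∈ S, ¬ slab k x) (t : ℝ) :
    s.G S i t x = x := by
  have he : ¬ ∃ k ∈ S, slab k x := fun ⟨k, hk, hs⟩ => h k hk hs
  rw [G, dif_neg he]

theorem G_slab {S : Set ℕ} {i : Fin 3} {x : V} {k : ℕ} (hk : k ∈ S) (h : slab k x) (t : ℝ) :
    slab k (s.G S i t x) := by
  rw [s.G_of_mem hk h]
  exact s.gg_slab h i t

theorem G_flow (S : Set ℕ) (i : Fin 3) : IsFlowOf (s.us S i) (s.G S i) where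
  zero x := by
    by_cases h : ∃ k ∈ S, slab k x
    · obtain ⟨k, hk, hs⟩ := h
      rw [s.G_of_mem hk hs, (s.gg_flow k i).zero]
    · push Not at h
      rw [s.G_of_not h]
  deriv x t := by
    by_cases h : ∃ k ∈ S, slab k x
    · obtain ⟨k, hk, hs⟩ := h
      rw [s.us_of_mem hk (s.G_slab hk hs t), s.G_of_mem hk hs]
      have e : (fun t => s.G S i t x) = fun t => s.gg k i t x := by
        funext t; rw [s.G_of_mem hk hs]
      rw [e]
      exact (s.gg_flow k i).deriv x t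
    · push Not at h
      have e : (fun t => s.G S i t x) = fun t => x := by
        funext t; rw [s.G_of_not h]
      rw [s.G_of_not h, s.us_of_not h, e]
      exact hasDerivAt_const t x

end Sys

end Pool.Agent.N262.FX
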