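import Pool.Agent.N262.FX.Defs2

/-!
# Change of variables for measure preserving maps of the torus
-/

open MeasureTheory Set Filter Topology
open scoped ContDiff NNReal ENNReal
open H459R3.NS Pool.Agent.GR.Flow Pool.Agent.TH811.SPD

namespace Pool.Agent.N262.FX

theorem cov_per (x : V) (i : Fin 3) : cov (x + Pi.single i 1) = cov x := by
  funext j
  show (((x + Pi.single i 1 : V) j : ℝ) : UnitAddCircle) = (x j : UnitAddCircle)
  by_cases h : j = i
  · subst h
    rw [Pi.add_apply, Pi.single_eq_same]
    exact AddCircle.coe_add_period 1 (x j)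
  · rw [Pi.add_apply, Pi.single_eq_of_ne h, add_zero]

theorem Pres.map {g : V → V} (hg : Pres g) (hm : Measurable g) :
    (volume.restrict cube).map (fun x => cov (g x)) = (volume.restrict cube).map cov := by
  have hc1 : Measurable (fun x => cov (g x)) := cov_cont.measurable.comp hm
  ext s hs
  rw [Measure.map_apply hc1 hs, Measure.map_apply cov_cont.measurable hs]
  have hk : Measurable (fun x : V => s.indicator (1 : UnitAddTorus (Fin 3) → ℝ≥0∞) (cov x)) :=
    (measurable_one.indicator hs).comp cov_cont.measurable
  have h := hg _ hk (fun i x => by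
    show s.indicator 1 (cov (x + Pi.single i 1)) = s.indicator 1 (cov x)
    rw [cov_per])
  have e1 : ∫⁻ x in cube, s.indicator (1 : UnitAddTorus (Fin 3) → ℝ≥0∞) (cov (g x))
      = (volume.restrict cube) ((fun x => cov (g x)) ⁻¹' s) := by
    rw [← lintegral_indicator_one (hc1 hs)]
    rfl
  have e2 : ∫⁻ x in cube, s.indicator (1 : UnitAddTorus (Fin 3) → ℝ≥0∞) (cov x)
      = (volume.restrict cube) (cov ⁻¹' s) := by
    rw [← lintegral_indicator_one (cov_cont.measurable hs)]
    rfl
  rw [← e1, ← e2]
  exact h

theorem Pres.integral {g : V → V} (hg : Pres g) (hm : Measurable g)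
    (_hper : ∀ x (i : Fin 3), g (x + Pi.single i 1) = g x + Pi.single i 1)
    {k : V → ℝ} (hk : Measurable k) (hp : Per k) :
    ∫ x in cube, k (g x) = ∫ x in cube, k x := by
  have hc1 : Measurable (fun x => cov (g x)) := cov_cont.measurable.comp hm
  have hks : Measurable fun y => k (sec y) := hk.comp sec_meas
  have e1 : ∫ x in cube, k (g x) = ∫ y, k (sec y) ∂((volume.restrict cube).map
      (fun x => cov (g x))) := by
    rw [integral_map hc1.aemeasurable hks.aestronglyMeasurable]
    refine integral_congr_ae (ae_of_all _ fun x => ?_)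
    show k (g x) = k (sec (cov (g x)))
    rw [sec_cov hp]
  have e2 : ∫ x in cube, k x = ∫ y, k (sec y) ∂((volume.restrict cube).map cov) := by
    rw [integral_map cov_cont.measurable.aemeasurable hks.aestronglyMeasurable]
    refine integral_congr_ae (ae_of_all _ fun x => ?_)
    show k x = k (sec (cov x))
    rw [sec_cov hp]
  rw [e1, e2, hg.map hm]

theorem flux_eq {Φ : ℝ → V → V} {t : ℝ} (hb : Function.Bijective (Φ t)) (hc : Continuous (Φ t))
    (hci : Continuous (Function.invFun (Φ t)))
    (hper : ∀ x (i : Fin 3), Φ t (x + Pi.single i 1) = Φ t x + Pi.single i 1)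
    (hp : Pres (Φ t)) {Bin ψ : V → V} (hB : Measurable Bin) (hBp : Per Bin) (hψ : SPV ψ) :
    flux Φ Bin ψ t = ell Φ ψ t Bin := by
  have hinv : ∀ x, Function.invFun (Φ t) (Φ t x) = x := Function.leftInverse_invFun hb.1
  have hinv' : ∀ x, Φ t (Function.invFun (Φ t) x) = x := Function.rightInverse_invFun hb.2
  have hiper : ∀ x (i : Fin 3), Function.invFun (Φ t) (x + Pi.single i 1)
      = Function.invFun (Φ t) x + Pi.single i 1 := by
    intro x i
    apply hb.1
    rw [hper, hinv', hinv']
  have hdper : ∀ (i : Fin 3) x, fderiv ℝ (Φ t) (x + Pi.single i 1) = fderiv ℝ (Φ t) x := by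
    intro i x
    have h1 : (fun x => Φ t (x + Pi.single i 1)) = fun x => Φ t x + Pi.single i 1 :=
      funext fun x => hper x i
    have h2 := fderiv_comp_add_right (𝕜 := ℝ) (f := Φ t) (x := x) (Pi.single i 1)
    rw [h1, fderiv_add_const] at h2
    exact h2.symm
  set k : V → ℝ := fun x => dot (ideal Φ Bin t x) (ψ x) with hk
  have hkm : Measurable k := by
    have hbi : Measurable (fun x => Bin (Function.invFun (Φ t) x)) := hB.comp hci.measurable
    have hexp : ∀ x, ideal Φ Bin t x = ∑ j, Bin (Function.invFun (Φ t) x) j •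
        fderiv ℝ (Φ t) (Function.invFun (Φ t) x) (Pi.single j 1) := by
      intro x
      unfold ideal
      conv_lhs => rw [pi_eq_sum_univ' (Bin (Function.invFun (Φ t) x))]
      rw [map_sum]
      refine Finset.sum_congr rfl fun j _ => ?_
      rw [map_smul]
    have hid : Measurable (ideal Φ Bin t) := by
      have e : ideal Φ Bin t = fun x => ∑ j, Bin (Function.invFun (Φ t) x) j •
        fderiv ℝ (Φ t) (Function.invFun (Φ t) x) (Pi.single j 1) := funext hexp
      rw [e]
      refine Finset.measurable_sum _ fun j _ => ?_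
      exact ((measurable_pi_apply j).comp hbi).smul
        ((measurable_fderiv_apply_const ℝ (Φ t) (Pi.single j 1)).comp hci.measurable)
    simp only [hk, dot]
    refine Finset.measurable_sum _ fun i _ => ?_
    exact ((measurable_pi_apply i).comp hid).mul
      ((measurable_pi_apply i).comp hψ.1.continuous.measurable)
  have hkp : Per k := by
    intro i x
    simp only [hk, ideal]
    rw [hiper, hdper, hBp i, hψ.2 i]
  have h := hp.integral hc.measurable hper hkm hkp
  unfold flux ell
  rw [← h]
  refine integral_congr_ae (ae_of_all _ fun x => ?_)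
  simp only [hk, ideal]
  rw [hinv]

end Pool.Agent.N262.FX
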