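import Pool.Agent.N262.FX.Defs2
import Pool.Agent.N262.FX.Cell

/-!
# Exponential gain of the flux in the affine horseshoe
-/

set_option autoImplicit false

open MeasureTheory Set Filter Topology
open scoped ContDiff NNReal
open H459R3.NS

namespace Pool.Agent.N262.FX.Gain

/-! ### the transfer operator of the map `s ↦ 4 s ∓ 2` -/

/-- continuous functions vanishing outside `(-1, 1)` -/
structure Cs (f : ℝ → ℝ) : Prop where
  cont : Continuous f
  zero : ∀ s, 1 ≤ |s| → f s = 0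

theorem Cs.integrable {f : ℝ → ℝ} (hf : Cs f) : Integrable f := by
  apply hf.cont.integrable_of_hasCompactSupport
  apply HasCompactSupport.intro (isCompact_Icc (a := (-1 : ℝ)) (b := 1))
  intro x hx
  apply hf.zero
  by_contra h
  apply hx
  rw [not_le, abs_lt] at h
  exact ⟨h.1.le, h.2.le⟩

theorem Cs.mul_right {f g : ℝ → ℝ} (hf : Cs f) (hg : Continuous g) : Cs (fun s => f s * g s) where
  cont := hf.cont.mul hg
  zero := fun s hs => by rw [hf.zero s hs, zero_mul]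

/-- the transfer operator -/
noncomputable def T (f : ℝ → ℝ) (s : ℝ) : ℝ := f (4 * s - 2) + f (4 * s + 2)

/-- the expanding map -/
noncomputable def Y (s : ℝ) : ℝ := 4 * s - 2 * (if 0 < s then 1 else -1)

theorem one_le_abs_of_nonpos {s : ℝ} (hs : s ≤ 0) : 1 ≤ |4 * s - 2| := by
  rw [abs_of_neg (by linarith)]; linarith

theorem one_le_abs_of_nonneg {s : ℝ} (hs : 0 ≤ s) : 1 ≤ |4 * s + 2| := by
  rw [abs_of_pos (by linarith)]; linarith

theorem T_pos {f : ℝ → ℝ} (hf : ∀ s, 1 ≤ |s| → f s = 0) {s : ℝ} (hs : 0 < s) :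
    T f s = f (4 * s - 2) := by
  unfold T
  rw [hf (4 * s + 2) (one_le_abs_of_nonneg hs.le), add_zero]

theorem T_neg {f : ℝ → ℝ} (hf : ∀ s, 1 ≤ |s| → f s = 0) {s : ℝ} (hs : s ≤ 0) :
    T f s = f (4 * s + 2) := by
  unfold T
  rw [hf (4 * s - 2) (one_le_abs_of_nonpos hs), zero_add]

theorem T_eq {f : ℝ → ℝ} (hf : ∀ s, 1 ≤ |s| → f s = 0) (s : ℝ) : T f s = f (Y s) := by
  unfold Y
  by_cases hs : 0 < s
  · rw [T_pos hf hs, if_pos hs]; congr 1; ring
  · rw [T_neg hf (not_lt.1 hs), if_neg hs]; congr 1; ring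

theorem T_zero {f : ℝ → ℝ} (hf : ∀ s, 1 ≤ |s| → f s = 0) {s : ℝ} (hs : 1 ≤ |s|) : T f s = 0 := by
  unfold T
  rcases le_abs.1 hs with h | h
  · rw [hf _ (by rw [abs_of_pos (by linarith)]; linarith),
      hf _ (by rw [abs_of_pos (by linarith)]; linarith), add_zero]
  · rw [hf _ (by rw [abs_of_neg (by linarith)]; linarith),
      hf _ (by rw [abs_of_neg (by linarith)]; linarith), add_zero]

/-- where `T f` does not vanish -/
theorem T_supp {f : ℝ → ℝ} (hf : ∀ s, 1 ≤ |s| → f s = 0) {s : ℝ} (hs : T f s ≠ 0) :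
    1 / 4 < |s| ∧ |s| < 3 / 4 := by
  rw [T_eq hf] at hs
  have h1 : |Y s| < 1 := by
    by_contra h
    exact hs (hf _ (not_lt.1 h))
  unfold Y at h1
  rw [abs_lt] at h1
  by_cases h0 : 0 < s
  · rw [if_pos h0] at h1
    rw [abs_of_pos h0]
    constructor <;> linarith
  · rw [if_neg h0] at h1
    rw [abs_of_nonpos (not_lt.1 h0)]
    constructor <;> linarith

theorem Cs.T {f : ℝ → ℝ} (hf : Cs f) : Cs (T f) where
  cont := by
    unfold Gain.T
    exact (hf.cont.comp (by fun_prop)).add (hf.cont.comp (by fun_prop))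
  zero := fun s hs => T_zero hf.zero hs

theorem integral_aff (f : ℝ → ℝ) {a : ℝ} (ha : 0 < a) (b : ℝ) :
    ∫ s, f (a * s - b) = (1 / a) * ∫ s, f s := by
  have h1 := Measure.integral_comp_mul_left (fun y : ℝ => f (y - b)) a
  rw [h1, integral_sub_right_eq_self, smul_eq_mul, abs_of_pos (by positivity), one_div]

theorem integrable_aff {f : ℝ → ℝ} (hf : Integrable f) {a : ℝ} (ha : a ≠ 0) (b : ℝ) :
    Integrable (fun s => f (a * s - b)) := by
  exact (hf.comp_sub_right b).comp_mul_left' ha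

theorem integral_T {f : ℝ → ℝ} (hf : Cs f) : ∫ s, T f s = (1 / 2) * ∫ s, f s := by
  have e : T f = fun s => f (4 * s - 2) + f (4 * s - (-2)) := by
    funext s
    unfold T
    rw [sub_neg_eq_add]
  rw [e, integral_add (integrable_aff hf.integrable (by norm_num) _)
    (integrable_aff hf.integrable (by norm_num) _), integral_aff f (by norm_num),
    integral_aff f (by norm_num)]
  ring

theorem Tn_cs {f : ℝ → ℝ} (hf : Cs f) (n : ℕ) : Cs (T^[n] f) := by
  induction n with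
  | zero => exact hf
  | succ n ih => rw [Function.iterate_succ_apply']; exact ih.T

theorem Tn_zero {f : ℝ → ℝ} (hf : ∀ s, 1 ≤ |s| → f s = 0) (n : ℕ) (s : ℝ) (hs : 1 ≤ |s|) :
    T^[n] f s = 0 := by
  induction n generalizing s with
  | zero => exact hf s hs
  | succ n ih => rw [Function.iterate_succ_apply']; exact T_zero (fun s hs => ih s hs) hs

theorem Tn_int {f : ℝ → ℝ} (hf : Cs f) (n : ℕ) :
    ∫ s, T^[n] f s = (1 / 2) ^ n * ∫ s, f s := by
  induction n with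
  | zero => simp
  | succ n ih =>
    rw [Function.iterate_succ_apply', integral_T (Tn_cs hf n), ih]
    ring

theorem Tn_eq {f : ℝ → ℝ} (hf : ∀ s, 1 ≤ |s| → f s = 0) (n : ℕ) (s : ℝ) :
    T^[n] f s = f (Y^[n] s) := by
  induction n generalizing s with
  | zero => rfl
  | succ n ih =>
    rw [Function.iterate_succ_apply', T_eq (Tn_zero hf n), ih, Function.iterate_succ_apply]

theorem Tn_mul {f : ℝ → ℝ} (hf : ∀ s, 1 ≤ |s| → f s = 0) (G : ℝ → ℝ) (n : ℕ) (s : ℝ) :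
    T^[n] f s * G (Y^[n] s) = T^[n] (fun y => f y * G y) s := by
  rw [Tn_eq hf, Tn_eq (f := fun y => f y * G y) (fun s hs => by rw [hf s hs, zero_mul])]

theorem Tn_sq {f : ℝ → ℝ} (hf : ∀ s, 1 ≤ |s| → f s = 0) (n : ℕ) (s : ℝ) :
    (T^[n] f s) ^ 2 = T^[n] (fun y => f y ^ 2) s := by
  rw [Tn_eq hf, Tn_eq (f := fun y => f y ^ 2) (fun s hs => by rw [hf s hs]; norm_num)]

theorem Tn_deriv {f f' : ℝ → ℝ} (hf : ∀ s, HasDerivAt f (f' s) s) (n : ℕ) (s : ℝ) :
    HasDerivAt (T^[n] f) (4 ^ n * T^[n] f' s) s := by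
  induction n generalizing s with
  | zero => simpa using hf s
  | succ n ih =>
    rw [Function.iterate_succ_apply', Function.iterate_succ_apply']
    have h1 : HasDerivAt (fun s : ℝ => 4 * s - 2) 4 s := by
      simpa using ((hasDerivAt_id s).const_mul 4).sub_const 2
    have h2 : HasDerivAt (fun s : ℝ => 4 * s + 2) 4 s := by
      simpa using ((hasDerivAt_id s).const_mul 4).add_const 2
    have h3 := ((ih (4 * s - 2)).comp s h1).add ((ih (4 * s + 2)).comp s h2)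
    refine h3.congr_deriv ?_
    unfold T
    ring

theorem Tn_smooth {f : ℝ → ℝ} (hf : ContDiff ℝ ∞ f) (n : ℕ) : ContDiff ℝ ∞ (T^[n] f) := by
  induction n with
  | zero => exact hf
  | succ n ih =>
    rw [Function.iterate_succ_apply']
    exact (ih.comp (by fun_prop)).add (ih.comp (by fun_prop))

/-! ### the bump function -/

/-- a bump -/
noncomputable def cb : ContDiffBump (0 : ℝ) := ⟨1 / 4, 1 / 2, by norm_num, by norm_num⟩

/-- the bump function -/
noncomputable def bf (s : ℝ) : ℝ := cb s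

theorem bf_smooth : ContDiff ℝ ∞ bf := cb.contDiff

theorem bf_nonneg (s : ℝ) : 0 ≤ bf s := cb.nonneg

theorem bf_zero (s : ℝ) (hs : 1 / 2 ≤ |s|) : bf s = 0 := by
  apply cb.zero_of_le_dist
  rw [Real.dist_eq, sub_zero]
  exact hs

theorem bf_int_pos : 0 < ∫ s, bf s := cb.integral_pos

theorem bf_hasDerivAt (s : ℝ) : HasDerivAt bf (deriv bf s) s :=
  ((bf_smooth.differentiable (by norm_num)) s).hasDerivAt

theorem dbf_smooth : ContDiff ℝ ∞ (deriv bf) := by
  have h : ContDiff ℝ (∞ + 1) bf := bf_smooth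
  exact (contDiff_succ_iff_deriv.1 h).2.2

theorem dbf_zero (s : ℝ) (hs : 1 / 2 < |s|) : deriv bf s = 0 := by
  have h1 : bf =ᶠ[𝓝 s] fun _ => 0 := by
    have : {t : ℝ | 1 / 2 < |t|} ∈ 𝓝 s := (isOpen_lt continuous_const continuous_abs).mem_nhds hs
    filter_upwards [this] with t ht
    exact bf_zero t ht.le
  rw [h1.deriv_eq, deriv_const]

theorem cs_bf : Cs bf := ⟨bf_smooth.continuous, fun s hs => bf_zero s (by linarith)⟩

theorem cs_dbf : Cs (deriv bf) := ⟨dbf_smooth.continuous, fun s hs => dbf_zero s (by linarith)⟩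

/-! ### rescaled functions of one variable -/

/-- the rescaled coordinate -/
noncomputable def sc (a N m s : ℝ) : ℝ := a * (8 * (N * s - m))

theorem sc_zero {f : ℝ → ℝ} (hf : ∀ s, 1 ≤ |s| → f s = 0) {a N m : ℝ} (ha : 1 ≤ a) (hN : 64 ≤ N)
    (hm : 1 / 2 ≤ m) (hm' : m ≤ 11 / 2) (s : ℝ) (hs : s ≤ 1 / (4 * N) ∨ 1 - 1 / (4 * N) ≤ s) :
    f (sc a N m s) = 0 := by
  apply hf
  have hN0 : 0 < N := by linarith
  unfold sc
  rw [abs_mul, abs_of_pos (by linarith : 0 < a)]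
  have h1 : 1 ≤ |8 * (N * s - m)| := by
    rcases hs with h | h
    · have : N * s ≤ 1 / 4 := by
        calc N * s ≤ N * (1 / (4 * N)) := mul_le_mul_of_nonneg_left h hN0.le
          _ = 1 / 4 := by field_simp
      rw [abs_of_neg (by linarith)]; linarith
    · have : N - 1 / 4 ≤ N * s := by
        calc N - 1 / 4 = N * (1 - 1 / (4 * N)) := by field_simp
          _ ≤ _ := mul_le_mul_of_nonneg_left h hN0.le
      rw [abs_of_pos (by linarith)]; linarith
  nlinarith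

theorem sc_int (f : ℝ → ℝ) {a N : ℝ} (ha : 0 < a) (hN : 0 < N) (m : ℝ) :
    ∫ s, f (sc a N m s) = (1 / (8 * a * N)) * ∫ s, f s := by
  rw [← integral_aff f (by positivity : 0 < 8 * a * N) (8 * a * m)]
  congr 1
  funext s
  unfold sc
  congr 1
  ring

theorem sc_deriv {f : ℝ → ℝ} {f' : ℝ → ℝ} (hf : ∀ s, HasDerivAt f (f' s) s) (a N m s : ℝ) :
    HasDerivAt (fun s => f (sc a N m s)) (8 * a * N * f' (sc a N m s)) s := by
  have h1 : HasDerivAt (sc a N m) (8 * a * N) s := by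
    have h2 := ((((hasDerivAt_id s).const_mul N).sub_const m).const_mul 8).const_mul a
    refine h2.congr_deriv ?_
    ring
  refine ((hf (sc a N m s)).comp s h1).congr_deriv ?_
  ring

theorem sc_smooth {f : ℝ → ℝ} (hf : ContDiff ℝ ∞ f) (a N m : ℝ) :
    ContDiff ℝ ∞ (fun s => f (sc a N m s)) := by
  have h : ContDiff ℝ ∞ (sc a N m) := by
    unfold sc
    fun_prop
  exact hf.comp h

/-- integral over the unit interval of a function vanishing near its ends and outside -/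
theorem int_unit {F : ℝ → ℝ} {δ : ℝ} (hδ : 0 < δ) (h : ∀ s, (s ≤ δ ∨ 1 - δ ≤ s) → F s = 0) :
    ∫ s in Icc (0 : ℝ) 1, F s = ∫ s, F s := by
  apply setIntegral_eq_integral_of_forall_compl_eq_zero
  intro s hs
  apply h
  by_contra hcon
  rw [not_or, not_le, not_le] at hcon
  exact hs ⟨by linarith, by linarith⟩

theorem cube_prod (f g h : ℝ → ℝ) : ∫ x in cube, f (x 0) * g (x 1) * h (x 2) =
    (∫ s in Icc (0 : ℝ) 1, f s) * (∫ s in Icc (0 : ℝ) 1, g s) * ∫ s in Icc (0 : ℝ) 1, h s := by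
  have e : (volume.restrict cube : Measure V) =
      Measure.pi (fun _ : Fin 3 => (volume : Measure ℝ).restrict (Icc 0 1)) := by
    rw [← Measure.restrict_pi_pi]
    congr 1
    unfold cube
    rw [← Set.pi_univ_Icc]
    rfl
  rw [e]
  have h1 := integral_fintype_prod_eq_prod (𝕜 := ℝ) (E := fun _ : Fin 3 => ℝ)
    (fun i : Fin 3 => (![f, g, h] : Fin 3 → ℝ → ℝ) i)
    (μ := fun _ : Fin 3 => (volume : Measure ℝ).restrict (Icc 0 1))
  simpa [Fin.prod_univ_three] using h1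

theorem ae_open : ∀ᵐ x ∂(volume.restrict cube : Measure V), ∀ i, 0 < x i ∧ x i < 1 := by
  have e : (Set.pi univ (fun i : Fin 3 => Ioo ((0 : V) i) ((1 : V) i)) : Set V) =ᵐ[volume] cube :=
    Measure.univ_pi_Ioo_ae_eq_Icc (μ := fun _ : Fin 3 => (volume : Measure ℝ))
  rw [← Measure.restrict_congr_set e]
  filter_upwards [ae_restrict_mem (MeasurableSet.univ_pi fun _ => measurableSet_Ioo)] with x hx i
  exact hx i (mem_univ i)

theorem pd_prod {f g h : ℝ → ℝ} {f' g' h' : ℝ} (x : V) (hf : HasDerivAt f f' (x 0))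
    (hg : HasDerivAt g g' (x 1)) (hh : HasDerivAt h h' (x 2)) :
    pd 0 (fun y : V => f (y 0) * g (y 1) * h (y 2)) x = f' * g (x 1) * h (x 2) ∧
    pd 1 (fun y : V => f (y 0) * g (y 1) * h (y 2)) x = f (x 0) * g' * h (x 2) := by
  have c0 : HasFDerivAt (fun y : V => f (y 0)) _ x :=
    hf.comp_hasFDerivAt x (hasFDerivAt_apply (𝕜 := ℝ) (0 : Fin 3) x)
  have c1 : HasFDerivAt (fun y : V => g (y 1)) _ x :=
    hg.comp_hasFDerivAt x (hasFDerivAt_apply (𝕜 := ℝ) (1 : Fin 3) x)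
  have c2 : HasFDerivAt (fun y : V => h (y 2)) _ x :=
    hh.comp_hasFDerivAt x (hasFDerivAt_apply (𝕜 := ℝ) (2 : Fin 3) x)
  have c : HasFDerivAt (fun y : V => f (y 0) * g (y 1) * h (y 2)) _ x := (c0.mul c1).mul c2
  unfold pd
  rw [c.fderiv]
  constructor
  · simp
    ring
  · simp
    ring

/-! ### the field -/

/-- the factors of the potential -/
noncomputable def F0 (n : ℕ) (N s : ℝ) : ℝ := bf (sc (4 ^ n) N (1 / 2) s)
noncomputable def F1 (n : ℕ) (N s : ℝ) : ℝ := T^[n] bf (sc 1 N (11 / 2) s)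
noncomputable def F2 (N s : ℝ) : ℝ := bf (sc 1 N (1 / 2) s)
noncomputable def D0 (n : ℕ) (N s : ℝ) : ℝ := 8 * 4 ^ n * N * deriv bf (sc (4 ^ n) N (1 / 2) s)
noncomputable def D1 (n : ℕ) (N s : ℝ) : ℝ :=
  8 * 1 * N * (4 ^ n * T^[n] (deriv bf) (sc 1 N (11 / 2) s))
noncomputable def D2 (N s : ℝ) : ℝ := 8 * 1 * N * deriv bf (sc 1 N (1 / 2) s)

theorem hD0 (n : ℕ) (N s : ℝ) : HasDerivAt (F0 n N) (D0 n N s) s :=
  sc_deriv bf_hasDerivAt (4 ^ n) N (1 / 2) s
theorem hD1 (n : ℕ) (N s : ℝ) : HasDerivAt (F1 n N) (D1 n N s) s :=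
  sc_deriv (Tn_deriv bf_hasDerivAt n) 1 N (11 / 2) s
theorem hD2 (N s : ℝ) : HasDerivAt (F2 N) (D2 N s) s :=
  sc_deriv bf_hasDerivAt 1 N (1 / 2) s

/-- the potential -/
noncomputable def AA (n : ℕ) (N : ℝ) (x : V) : ℝ :=
  F0 n N (Int.fract (x 0)) * F1 n N (Int.fract (x 1)) * F2 N (Int.fract (x 2))

/-- the field -/
noncomputable def BB (n : ℕ) (N : ℝ) (x : V) : V := ![pd 1 (AA n N) x, -pd 0 (AA n N) x, 0]

theorem one_le_four_pow (n : ℕ) : (1 : ℝ) ≤ 4 ^ n := one_le_pow₀ (by norm_num)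

theorem F0_zero (n : ℕ) {N : ℝ} (hN : 64 ≤ N) (s : ℝ)
    (hs : s ≤ 1 / (4 * N) ∨ 1 - 1 / (4 * N) ≤ s) : F0 n N s = 0 :=
  sc_zero cs_bf.zero (one_le_four_pow n) hN le_rfl (by norm_num) s hs
theorem F1_zero (n : ℕ) {N : ℝ} (hN : 64 ≤ N) (s : ℝ)
    (hs : s ≤ 1 / (4 * N) ∨ 1 - 1 / (4 * N) ≤ s) : F1 n N s = 0 :=
  sc_zero (Tn_cs cs_bf n).zero le_rfl hN (by norm_num) le_rfl s hs
theorem F2_zero {N : ℝ} (hN : 64 ≤ N) (s : ℝ)
    (hs : s ≤ 1 / (4 * N) ∨ 1 - 1 / (4 * N) ≤ s) : F2 N s = 0 :=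
  sc_zero cs_bf.zero le_rfl hN le_rfl (by norm_num) s hs

theorem sp_AA (n : ℕ) {N : ℝ} (hN : 64 ≤ N) : SP (AA n N) := by
  have hδ : 0 < 1 / (4 * N) := by positivity
  exact ((Cell.sp_coord (Cell.per1 (sc_smooth bf_smooth _ _ _) hδ (F0_zero n hN)) 0).mul
    (Cell.sp_coord (Cell.per1 (sc_smooth (Tn_smooth bf_smooth n) _ _ _) hδ (F1_zero n hN)) 1)).mul
    (Cell.sp_coord (Cell.per1 (sc_smooth bf_smooth _ _ _) hδ (F2_zero hN)) 2)

theorem BB_comp (n : ℕ) (N : ℝ) (x : V) :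
    BB n N x 0 = pd 1 (AA n N) x ∧ BB n N x 1 = -pd 0 (AA n N) x ∧ BB n N x 2 = 0 :=
  ⟨rfl, rfl, rfl⟩

theorem BB_cont (n : ℕ) {N : ℝ} (hN : 64 ≤ N) : Continuous (BB n N) := by
  apply continuous_pi
  intro i
  fin_cases i
  · exact ((sp_AA n hN).pd 1).cont
  · exact ((sp_AA n hN).pd 0).cont.neg
  · exact continuous_const

theorem BB_per (n : ℕ) {N : ℝ} (hN : 64 ≤ N) : Per (BB n N) := by
  intro i x
  unfold BB
  rw [((sp_AA n hN).pd 1).per i x, ((sp_AA n hN).pd 0).per i x]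

theorem BB_l2 (n : ℕ) {N : ℝ} (hN : 64 ≤ N) : L2Field (BB n N) where
  per := BB_per n hN
  mem := by
    have := cube_finite
    obtain ⟨C, hC⟩ := (isCompact_Icc (a := (0 : V)) (b := 1)).exists_bound_of_continuousOn
      (BB_cont n hN).continuousOn
    refine MemLp.of_bound (BB_cont n hN).aestronglyMeasurable C ?_
    filter_upwards [ae_restrict_mem (μ := (volume : Measure V)) (s := cube) measurableSet_Icc]
      with x hx
    exact hC x hx

theorem BB_div (n : ℕ) {N : ℝ} (hN : 64 ≤ N) : DivFree (BB n N) := by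
  intro φ hφ
  have hA := sp_AA n hN
  have e : ∀ x, ∑ i, BB n N x i * pd i φ x =
      pd 1 (AA n N) x * pd 0 φ x - pd 0 (AA n N) x * pd 1 φ x := by
    intro x
    rw [Fin.sum_univ_three, (BB_comp n N x).1, (BB_comp n N x).2.1, (BB_comp n N x).2.2]
    ring
  simp_rw [e]
  rw [integral_sub ((hA.pd 1).mul (hφ.pd 0)).int ((hA.pd 0).mul (hφ.pd 1)).int,
    ibp hA (hφ.pd 0) 1, ibp hA (hφ.pd 1) 0, pd_comm hφ 1 0]
  ring

theorem fract_eq {s : ℝ} (h0 : 0 < s) (h1 : s < 1) : ∀ᶠ t in 𝓝 s, Int.fract t = t := by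
  filter_upwards [Ioo_mem_nhds h0 h1] with t ht
  exact Int.fract_eq_self.2 ⟨ht.1.le, ht.2⟩

theorem BB_open (n : ℕ) (N : ℝ) (x : V) (hx : ∀ i, 0 < x i ∧ x i < 1) :
    BB n N x 0 = F0 n N (x 0) * D1 n N (x 1) * F2 N (x 2) ∧
    BB n N x 1 = -(D0 n N (x 0) * F1 n N (x 1) * F2 N (x 2)) := by
  have hev : AA n N =ᶠ[𝓝 x] fun y => F0 n N (y 0) * F1 n N (y 1) * F2 N (y 2) := by
    have c : ∀ i : Fin 3, ∀ᶠ y : V in 𝓝 x, Int.fract (y i) = y i := fun i =>
      (continuous_apply i).continuousAt.eventually (fract_eq (hx i).1 (hx i).2)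
    filter_upwards [c 0, c 1, c 2] with y h0 h1 h2
    unfold AA
    rw [h0, h1, h2]
  have h := pd_prod x (hD0 n N (x 0)) (hD1 n N (x 1)) (hD2 N (x 2))
  rw [(BB_comp n N x).1, (BB_comp n N x).2.1, Cell.pd_congr hev, Cell.pd_congr hev, h.1, h.2]
  exact ⟨rfl, rfl⟩

/-! ### the region -/

theorem Hs_one (n : ℕ) (X : V) : (Hs^[n] X) 1 = Y^[n] (X 1) := by
  induction n generalizing X with
  | zero => rfl
  | succ n ih =>
    rw [Function.iterate_succ_apply, Function.iterate_succ_apply, ih]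
    congr 1

theorem mem_Reg {f : ℝ → ℝ} (hf : ∀ s, 1 ≤ |s| → f s = 0) (n : ℕ) (X : V)
    (h0 : |4 ^ n * X 0| < 1) (h1 : T^[n] f (X 1) ≠ 0) (h2 : |X 2| < 3 / 4) : X ∈ Reg n := by
  induction n generalizing X with
  | zero =>
    refine ⟨by simpa using h0, ?_, h2⟩
    by_contra h
    exact h1 (hf _ (not_lt.1 h))
  | succ n ih =>
    rw [Function.iterate_succ_apply'] at h1
    have hs := T_supp (Tn_zero hf n) h1
    rw [T_eq (Tn_zero hf n)] at h1
    have h4 : (1 : ℝ) ≤ 4 ^ n := one_le_four_pow n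
    have h00 : |X 0| < 1 / 4 := by
      rw [abs_mul, abs_of_pos (by positivity : (0 : ℝ) < 4 ^ (n + 1)), pow_succ] at h0
      have := abs_nonneg (X 0)
      nlinarith
    refine ⟨h00, hs.1, hs.2, h2, ih (Hs X) ?_ ?_ ?_⟩
    · show |4 ^ n * (4 * X 0)| < 1
      rw [← mul_assoc, ← pow_succ]
      exact h0
    · exact h1
    · show |X 2 / 16 + (if 0 < X 1 then 1 else -1) / 2| < 3 / 4
      rw [abs_lt] at h2 ⊢
      split_ifs <;> constructor <;> linarith

theorem reg_ev (n : ℕ) (X : V) (hX : X ∈ Reg n) : ∃ c d : ℝ, ∀ᶠ Z in 𝓝 X,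
    Z ∈ Reg n ∧ Hs^[n] Z = ![4 ^ n * Z 0, 4 ^ n * Z 1 + c, Z 2 / 16 ^ n + d] := by
  have ca : ∀ i : Fin 3, Continuous fun Z : V => |Z i| := fun i => (continuous_apply i).abs
  induction n generalizing X with
  | zero =>
    refine ⟨0, 0, ?_⟩
    have ho : IsOpen (Reg 0) := by
      show IsOpen {X : V | |X 0| < 1 ∧ |X 1| < 1 ∧ |X 2| < 3 / 4}
      exact (isOpen_lt (ca 0) continuous_const).inter
        ((isOpen_lt (ca 1) continuous_const).inter (isOpen_lt (ca 2) continuous_const))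
    filter_upwards [ho.mem_nhds hX] with Z hZ
    refine ⟨hZ, ?_⟩
    funext i
    fin_cases i <;> simp
  | succ n ih =>
    obtain ⟨h0, h1, h1', h2, hH⟩ := hX
    obtain ⟨c, d, hcd⟩ := ih (Hs X) hH
    set σ : ℝ := if 0 < X 1 then 1 else -1 with hσ
    have hX1 : X 1 ≠ 0 := by
      intro h
      rw [h, abs_zero] at h1
      linarith
    have hsgn : ∀ᶠ Z : V in 𝓝 X, (if 0 < Z 1 then (1 : ℝ) else -1) = σ := by
      by_cases hp : 0 < X 1
      · have : {Z : V | 0 < Z 1} ∈ 𝓝 X := (isOpen_lt continuous_const (by fun_prop)).mem_nhds hp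
        filter_upwards [this] with Z hZ
        have hZ' : 0 < Z 1 := hZ
        rw [hσ, if_pos hZ', if_pos hp]
      · have hn : X 1 < 0 := lt_of_le_of_ne (not_lt.1 hp) hX1
        have : {Z : V | Z 1 < 0} ∈ 𝓝 X := (isOpen_lt (by fun_prop) continuous_const).mem_nhds hn
        filter_upwards [this] with Z hZ
        have hZ' : Z 1 < 0 := hZ
        rw [hσ, if_neg (not_lt.2 hZ'.le), if_neg hp]
    set h : V → V := fun Z => ![4 * Z 0, 4 * Z 1 - 2 * σ, Z 2 / 16 + σ / 2] with hh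
    have hcont : Continuous h := by
      apply continuous_pi
      intro i
      fin_cases i
      · show Continuous fun Z : V => 4 * Z 0
        fun_prop
      · show Continuous fun Z : V => 4 * Z 1 - 2 * σ
        fun_prop
      · show Continuous fun Z : V => Z 2 / 16 + σ / 2
        fun_prop
    have hHs : ∀ᶠ Z : V in 𝓝 X, Hs Z = h Z := by
      filter_upwards [hsgn] with Z hZ
      rw [hh]
      unfold Hs
      rw [hZ]
    have hHX : Hs X = h X := hHs.self_of_nhds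
    rw [hHX] at hcd
    have hpull := hcont.continuousAt.eventually hcd
    have ho : {Z : V | |Z 0| < 1 / 4 ∧ 1 / 4 < |Z 1| ∧ |Z 1| < 3 / 4 ∧ |Z 2| < 3 / 4} ∈ 𝓝 X := by
      refine IsOpen.mem_nhds ?_ ⟨h0, h1, h1', h2⟩
      exact (isOpen_lt (ca 0) continuous_const).inter
        ((isOpen_lt continuous_const (ca 1)).inter
          ((isOpen_lt (ca 1) continuous_const).inter (isOpen_lt (ca 2) continuous_const)))
    refine ⟨4 ^ n * (-(2 * σ)) + c, σ / 2 / 16 ^ n + d, ?_⟩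
    filter_upwards [hHs, hpull, ho] with Z hZ1 hZ2 hZ3
    refine ⟨⟨hZ3.1, hZ3.2.1, hZ3.2.2.1, hZ3.2.2.2, ?_⟩, ?_⟩
    · rw [hZ1]; exact hZ2.1
    · rw [Function.iterate_succ_apply, hZ1, hZ2.2]
      funext i
      fin_cases i
      · show 4 ^ n * (4 * Z 0) = 4 ^ (n + 1) * Z 0
        ring
      · show 4 ^ n * (4 * Z 1 - 2 * σ) + c = 4 ^ (n + 1) * Z 1 + (4 ^ n * (-(2 * σ)) + c)
        ring
      · show (Z 2 / 16 + σ / 2) / 16 ^ n + d = Z 2 / 16 ^ (n + 1) + (σ / 2 / 16 ^ n + d)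
        field_simp
        ring

/-- the cell coordinates -/
noncomputable def XX (N : ℝ) (x : V) : V :=
  ![8 * (N * x 0 - 1 / 2), 8 * (N * x 1 - 11 / 2), 8 * (N * x 2 - 1 / 2)]

theorem XX_cont (N : ℝ) : Continuous (XX N) := by
  apply continuous_pi
  intro i
  fin_cases i
  · show Continuous fun x : V => 8 * (N * x 0 - 1 / 2)
    fun_prop
  · show Continuous fun x : V => 8 * (N * x 1 - 11 / 2)
    fun_prop
  · show Continuous fun x : V => 8 * (N * x 2 - 1 / 2)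
    fun_prop

theorem pt_XX (k : ℕ) (x : V) : pt k 0 (XX (2 ^ k) x) = x := by
  have h : (2 : ℝ) ^ k ≠ 0 := by positivity
  funext i
  fin_cases i
  · show (((0 : ℕ) : ℝ) + 1 / 2 + (8 * (2 ^ k * x 0 - 1 / 2)) / 8) / 2 ^ k = x 0
    field_simp
    push_cast
    ring
  · show (11 / 2 + (8 * (2 ^ k * x 1 - 11 / 2)) / 8) / 2 ^ k = x 1
    field_simp
    ring
  · show (1 / 2 + (8 * (2 ^ k * x 2 - 1 / 2)) / 8) / 2 ^ k = x 2
    field_simp
    ring

theorem local_g {k n : ℕ} {g : V → V} (hg : ∀ X ∈ Reg n, g (pt k 0 X) = pt k n (Hs^[n] X))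
    (x : V) (hx : XX (2 ^ k) x ∈ Reg n) (v : V) :
    (fderiv ℝ g x v) 0 = 4 ^ n * v 0 ∧
      (g x) 1 = (11 / 2 + Y^[n] (XX (2 ^ k) x 1) / 8) / 2 ^ k := by
  have hk : (2 : ℝ) ^ k ≠ 0 := by positivity
  obtain ⟨c, d, hcd⟩ := reg_ev n _ hx
  have hev := (XX_cont (2 ^ k)).continuousAt.eventually hcd
  set α : V := ![4 ^ n, 4 ^ n, 1 / 16 ^ n] with hα
  set β : V := ![((n : ℝ) + 1 / 2 - 4 ^ n / 2) / 2 ^ k,
    (11 / 2 - 4 ^ n * (11 / 2) + c / 8) / 2 ^ k, (1 / 2 - 1 / 2 / 16 ^ n + d / 8) / 2 ^ k] with hβ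
  have hgev : g =ᶠ[𝓝 x] fun y => fun i => α i * y i + β i := by
    filter_upwards [hev] with y hy
    have h1 := hg _ hy.1
    rw [pt_XX, hy.2] at h1
    rw [h1]
    funext i
    fin_cases i
    · show ((n : ℝ) + 1 / 2 + (4 ^ n * (8 * (2 ^ k * y 0 - 1 / 2))) / 8) / 2 ^ k =
        4 ^ n * y 0 + ((n : ℝ) + 1 / 2 - 4 ^ n / 2) / 2 ^ k
      field_simp
      ring
    · show (11 / 2 + (4 ^ n * (8 * (2 ^ k * y 1 - 11 / 2)) + c) / 8) / 2 ^ k =
        4 ^ n * y 1 + (11 / 2 - 4 ^ n * (11 / 2) + c / 8) / 2 ^ k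
      field_simp
      ring
    · show (1 / 2 + ((8 * (2 ^ k * y 2 - 1 / 2)) / 16 ^ n + d) / 8) / 2 ^ k =
        1 / 16 ^ n * y 2 + (1 / 2 - 1 / 2 / 16 ^ n + d / 8) / 2 ^ k
      field_simp
      ring
  have hd : HasFDerivAt (fun y : V => fun i => α i * y i + β i)
      (ContinuousLinearMap.pi fun i => α i • (ContinuousLinearMap.proj i : V →L[ℝ] ℝ)) x := by
    rw [hasFDerivAt_pi]
    intro i
    exact ((hasFDerivAt_apply (𝕜 := ℝ) i x).const_mul (α i)).add_const (β i)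
  constructor
  · rw [hgev.fderiv_eq, hd.fderiv]
    show α 0 * v 0 = 4 ^ n * v 0
    rfl
  · have h1 := hg _ hx
    rw [pt_XX] at h1
    rw [h1, ← Hs_one]
    rfl

/-! ### the integrals -/

/-- the angle -/
noncomputable def ang (N y : ℝ) : ℝ := 2 * Real.pi * ((11 / 2 + y / 8) / N)

theorem ang_deriv (N y : ℝ) : HasDerivAt (ang N) (2 * Real.pi / (8 * N)) y := by
  have h := ((((hasDerivAt_id y).div_const 8).const_add (11 / 2)).div_const N).const_mul
    (2 * Real.pi)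
  refine h.congr_deriv ?_
  ring

theorem ang_cont (N : ℝ) : Continuous (ang N) :=
  continuous_iff_continuousAt.2 fun y => (ang_deriv N y).continuousAt

theorem cos_ang {N y : ℝ} (hN : 64 ≤ N) (hy : |y| ≤ 1) : 1 / 2 ≤ Real.cos (ang N y) := by
  rw [abs_le] at hy
  have hpi := Real.pi_pos
  have hN0 : 0 < N := by linarith
  have h0 : 0 ≤ ang N y := by
    unfold ang
    have : 0 ≤ 11 / 2 + y / 8 := by linarith
    positivity
  have h1 : ang N y ≤ Real.pi / 3 := by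
    unfold ang
    have h2 : (11 / 2 + y / 8) / N ≤ 1 / 6 := by
      rw [div_le_div_iff₀ hN0 (by norm_num)]
      linarith
    nlinarith
  rw [← Real.cos_pi_div_three]
  exact Real.cos_le_cos_of_nonneg_of_le_pi h0 (by linarith) h1

theorem int_bf_cos {N : ℝ} (hN : 64 ≤ N) :
    Real.pi / (8 * N) * ∫ y, bf y ≤ -∫ y, deriv bf y * Real.sin (ang N y) := by
  have hN0 : 0 < N := by linarith
  have hpi := Real.pi_pos
  have hs : ∀ y, HasDerivAt (fun y => Real.sin (ang N y))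
      (Real.cos (ang N y) * (2 * Real.pi / (8 * N))) y := fun y => (ang_deriv N y).sin
  have hcs : Continuous fun y => Real.cos (ang N y) * (2 * Real.pi / (8 * N)) :=
    (Real.continuous_cos.comp (ang_cont N)).mul continuous_const
  have hcsin : Continuous fun y => Real.sin (ang N y) := Real.continuous_sin.comp (ang_cont N)
  have i1 : Integrable (fun y => deriv bf y * Real.sin (ang N y)) :=
    (cs_dbf.mul_right hcsin).integrable
  have i2 : Integrable (fun y => bf y * (Real.cos (ang N y) * (2 * Real.pi / (8 * N)))) :=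
    (cs_bf.mul_right hcs).integrable
  have i3 : Integrable (fun y => bf y * Real.sin (ang N y)) := (cs_bf.mul_right hcsin).integrable
  have h := integral_mul_deriv_eq_deriv_mul_of_integrable (u := bf)
    (v := fun y => Real.sin (ang N y)) (u' := deriv bf) (fun y _ => bf_hasDerivAt y) (fun y _ => hs y) i2 i1 i3
  have h2 : ∫ y, deriv bf y * Real.sin (ang N y) =
      -∫ y, bf y * (Real.cos (ang N y) * (2 * Real.pi / (8 * N))) := by
    rw [h, neg_neg]
  rw [h2, neg_neg, ← integral_const_mul]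
  apply integral_mono (cs_bf.integrable.const_mul _) i2
  intro y
  show Real.pi / (8 * N) * bf y ≤ bf y * (Real.cos (ang N y) * (2 * Real.pi / (8 * N)))
  by_cases hy : |y| ≤ 1
  · have hc := cos_ang hN hy
    have hb := bf_nonneg y
    have h3 : 0 ≤ bf y * (2 * Real.pi / (8 * N)) := by positivity
    have h4 : Real.pi / (8 * N) * bf y = 1 / 2 * (bf y * (2 * Real.pi / (8 * N))) := by ring
    rw [h4]
    calc 1 / 2 * (bf y * (2 * Real.pi / (8 * N)))
        ≤ Real.cos (ang N y) * (bf y * (2 * Real.pi / (8 * N))) :=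
          mul_le_mul_of_nonneg_right hc h3
      _ = _ := by ring
  · rw [cs_bf.zero y (not_le.1 hy).le]
    simp

theorem unit_int {f : ℝ → ℝ} (hf : ∀ s, 1 ≤ |s| → f s = 0) {a N m : ℝ} (ha : 1 ≤ a)
    (hN : 64 ≤ N) (hm : 1 / 2 ≤ m) (hm' : m ≤ 11 / 2) :
    ∫ s in Icc (0 : ℝ) 1, f (sc a N m s) = (1 / (8 * a * N)) * ∫ s, f s := by
  have hN0 : 0 < N := by linarith
  rw [int_unit (F := fun s => f (sc a N m s)) (δ := 1 / (4 * N)) (by positivity)
    (fun s hs => sc_zero hf ha hN hm hm' s hs), sc_int f (by linarith) hN0]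

theorem integrand {k n : ℕ} {g : V → V} (hg : ∀ X ∈ Reg n, g (pt k 0 X) = pt k n (Hs^[n] X))
    (x : V) (hx : ∀ i, 0 < x i ∧ x i < 1) :
    dot (fderiv ℝ g x (BB n (2 ^ k) x)) (psi0 (g x)) =
      4 ^ n * (F0 n (2 ^ k) (x 0) * (D1 n (2 ^ k) (x 1) *
        Real.sin (ang (2 ^ k) (Y^[n] (sc 1 (2 ^ k) (11 / 2) (x 1))))) * F2 (2 ^ k) (x 2)) := by
  obtain ⟨b0, b1⟩ := BB_open n (2 ^ k) x hx
  have b2 := (BB_comp n (2 ^ k) x).2.2
  have hdot : ∀ v w : V, dot v (psi0 w) = v 0 * Real.sin (2 * Real.pi * w 1) := by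
    intro v w
    unfold dot
    rw [Fin.sum_univ_three]
    show v 0 * Real.sin (2 * Real.pi * w 1) + v 1 * 0 + v 2 * 0 = _
    ring
  rw [hdot]
  by_cases hB : BB n (2 ^ k) x = 0
  · have h0 : F0 n (2 ^ k) (x 0) * D1 n (2 ^ k) (x 1) * F2 (2 ^ k) (x 2) = 0 := by
      rw [← b0, hB]; rfl
    have e : F0 n (2 ^ k) (x 0) * (D1 n (2 ^ k) (x 1) *
        Real.sin (ang (2 ^ k) (Y^[n] (sc 1 (2 ^ k) (11 / 2) (x 1))))) * F2 (2 ^ k) (x 2) =
        (F0 n (2 ^ k) (x 0) * D1 n (2 ^ k) (x 1) * F2 (2 ^ k) (x 2)) *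
          Real.sin (ang (2 ^ k) (Y^[n] (sc 1 (2 ^ k) (11 / 2) (x 1)))) := by ring
    rw [e, h0, hB, map_zero]
    simp
  · have e0 : sc (4 ^ n) (2 ^ k) (1 / 2) (x 0) = 4 ^ n * XX (2 ^ k) x 0 := rfl
    have e1 : sc 1 (2 ^ k) (11 / 2) (x 1) = XX (2 ^ k) x 1 := one_mul _
    have e2 : sc 1 (2 ^ k) (1 / 2) (x 2) = XX (2 ^ k) x 2 := one_mul _
    have hreg : XX (2 ^ k) x ∈ Reg n := by
      have hF2 : F2 (2 ^ k) (x 2) ≠ 0 := by
        intro h
        apply hB
        funext i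
        fin_cases i
        · show BB n (2 ^ k) x 0 = 0
          rw [b0, h, mul_zero]
        · show BB n (2 ^ k) x 1 = 0
          rw [b1, h, mul_zero, neg_zero]
        · exact b2
      have h2 : |XX (2 ^ k) x 2| < 3 / 4 := by
        by_contra hcon
        apply hF2
        unfold F2
        rw [e2]
        exact bf_zero _ (by linarith [not_lt.1 hcon])
      have hor : BB n (2 ^ k) x 0 ≠ 0 ∨ BB n (2 ^ k) x 1 ≠ 0 := by
        by_contra hcon
        rw [not_or, not_not, not_not] at hcon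
        apply hB
        funext i
        fin_cases i
        · exact hcon.1
        · exact hcon.2
        · exact b2
      rcases hor with h | h
      · rw [b0] at h
        have hF0 : F0 n (2 ^ k) (x 0) ≠ 0 := by
          intro h'; apply h; rw [h', zero_mul, zero_mul]
        have hD1 : D1 n (2 ^ k) (x 1) ≠ 0 := by
          intro h'; apply h; rw [h', mul_zero, zero_mul]
        refine mem_Reg cs_dbf.zero n _ ?_ ?_ h2
        · by_contra hcon
          apply hF0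
          unfold F0
          rw [e0]
          exact cs_bf.zero _ (not_lt.1 hcon)
        · intro hcon
          apply hD1
          unfold D1
          rw [e1, hcon]
          ring
      · rw [b1] at h
        have hD0 : D0 n (2 ^ k) (x 0) ≠ 0 := by
          intro h'; apply h; rw [h', zero_mul, zero_mul, neg_zero]
        have hF1 : F1 n (2 ^ k) (x 1) ≠ 0 := by
          intro h'; apply h; rw [h', mul_zero, zero_mul, neg_zero]
        refine mem_Reg cs_bf.zero n _ ?_ ?_ h2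
        · by_contra hcon
          apply hD0
          unfold D0
          rw [e0, cs_dbf.zero _ (not_lt.1 hcon), mul_zero]
        · intro hcon
          apply hF1
          unfold F1
          rw [e1, hcon]
    obtain ⟨l1, l2⟩ := local_g hg x hreg (BB n (2 ^ k) x)
    rw [l1, l2, b0, e1]
    unfold ang
    ring

theorem int_D1 (n : ℕ) {N : ℝ} (hN : 64 ≤ N) :
    ∫ s in Icc (0 : ℝ) 1, D1 n N s * Real.sin (ang N (Y^[n] (sc 1 N (11 / 2) s))) =
      2 ^ n * ∫ y, deriv bf y * Real.sin (ang N y) := by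
  have hN0 : 0 < N := by linarith
  have hcsin : Continuous fun y => Real.sin (ang N y) := Real.continuous_sin.comp (ang_cont N)
  have hcs : Cs (fun y => deriv bf y * Real.sin (ang N y)) := cs_dbf.mul_right hcsin
  have e : ∀ s, D1 n N s * Real.sin (ang N (Y^[n] (sc 1 N (11 / 2) s))) =
      (8 * N * 4 ^ n) *
        T^[n] (fun y => deriv bf y * Real.sin (ang N y)) (sc 1 N (11 / 2) s) := by
    intro s
    have h := Tn_mul cs_dbf.zero (fun y => Real.sin (ang N y)) n (sc 1 N (11 / 2) s)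
    rw [← h]
    unfold D1
    ring
  simp_rw [e]
  rw [integral_const_mul, unit_int (Tn_cs hcs n).zero le_rfl hN (by norm_num) le_rfl,
    Tn_int hcs n]
  have h2 : (4 : ℝ) ^ n * (1 / 2) ^ n = 2 ^ n := by
    rw [← mul_pow]; norm_num
  rw [← h2]
  field_simp

theorem flux_int {k n : ℕ} (hk : 6 ≤ k) {g : V → V}
    (hg : ∀ X ∈ Reg n, g (pt k 0 X) = pt k n (Hs^[n] X)) :
    ∫ x in cube, dot (fderiv ℝ g x (BB n (2 ^ k) x)) (psi0 (g x)) =
      2 ^ n * (∫ y, bf y) ^ 2 / (64 * (2 ^ k) ^ 2) *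
        ∫ y, deriv bf y * Real.sin (ang (2 ^ k) y) := by
  have hN : (64 : ℝ) ≤ 2 ^ k := by
    calc (64 : ℝ) = 2 ^ 6 := by norm_num
      _ ≤ 2 ^ k := pow_le_pow_right₀ (by norm_num) hk
  have h1 : ∫ x in cube, dot (fderiv ℝ g x (BB n (2 ^ k) x)) (psi0 (g x)) =
      ∫ x in cube, 4 ^ n * (F0 n (2 ^ k) (x 0) * (D1 n (2 ^ k) (x 1) *
        Real.sin (ang (2 ^ k) (Y^[n] (sc 1 (2 ^ k) (11 / 2) (x 1))))) * F2 (2 ^ k) (x 2)) := by
    apply integral_congr_ae
    filter_upwards [ae_open] with x hx using integrand hg x hx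
  rw [h1, integral_const_mul, cube_prod (F0 n (2 ^ k)) (fun s => D1 n (2 ^ k) s *
        Real.sin (ang (2 ^ k) (Y^[n] (sc 1 (2 ^ k) (11 / 2) s)))) (F2 (2 ^ k)), int_D1 n hN]
  have h2 : ∫ s in Icc (0 : ℝ) 1, F0 n (2 ^ k) s = (1 / (8 * 4 ^ n * 2 ^ k)) * ∫ s, bf s :=
    unit_int cs_bf.zero (one_le_four_pow n) hN le_rfl (by norm_num)
  have h3 : ∫ s in Icc (0 : ℝ) 1, F2 (2 ^ k) s = (1 / (8 * 1 * 2 ^ k)) * ∫ s, bf s :=
    unit_int cs_bf.zero le_rfl hN le_rfl (by norm_num)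
  rw [h2, h3]
  field_simp
  ring

theorem norm_int (n : ℕ) {N : ℝ} (hN : 64 ≤ N) :
    ∫ x in cube, ∑ i, BB n N x i ^ 2 =
      2 ^ n / (4 * N) * ((∫ y, bf y ^ 2) ^ 2 * ∫ y, deriv bf y ^ 2) := by
  have hN0 : 0 < N := by linarith
  have h1 : ∫ x in cube, ∑ i, BB n N x i ^ 2 =
      ∫ x in cube, (F0 n N (x 0) ^ 2 * D1 n N (x 1) ^ 2 * F2 N (x 2) ^ 2 +
        D0 n N (x 0) ^ 2 * F1 n N (x 1) ^ 2 * F2 N (x 2) ^ 2) := by
    apply integral_congr_ae
    filter_upwards [ae_open] with x hx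
    obtain ⟨b0, b1⟩ := BB_open n N x hx
    have b2 := (BB_comp n N x).2.2
    rw [Fin.sum_univ_three, b0, b1, b2]
    ring
  have c0 : Continuous (F0 n N) := (sc_smooth bf_smooth _ _ _).continuous
  have c1 : Continuous (F1 n N) := (sc_smooth (Tn_smooth bf_smooth n) _ _ _).continuous
  have c2 : Continuous (F2 N) := (sc_smooth bf_smooth _ _ _).continuous
  have d0 : Continuous (D0 n N) := continuous_const.mul (sc_smooth dbf_smooth _ _ _).continuous
  have d1 : Continuous (D1 n N) :=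
    continuous_const.mul (continuous_const.mul (sc_smooth (Tn_smooth dbf_smooth n) _ _ _).continuous)
  have hc : ∀ {f g h : ℝ → ℝ}, Continuous f → Continuous g → Continuous h →
      IntegrableOn (fun x : V => f (x 0) ^ 2 * g (x 1) ^ 2 * h (x 2) ^ 2) cube := by
    intro f g h hf hg hh
    apply integrableOn_cube
    exact (((hf.comp (continuous_apply 0)).pow 2).mul ((hg.comp (continuous_apply 1)).pow 2)).mul
      ((hh.comp (continuous_apply 2)).pow 2)
  rw [h1, integral_add (hc c0 d1 c2) (hc d0 c1 c2),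
    cube_prod (fun s => F0 n N s ^ 2) (fun s => D1 n N s ^ 2) (fun s => F2 N s ^ 2),
    cube_prod (fun s => D0 n N s ^ 2) (fun s => F1 n N s ^ 2) (fun s => F2 N s ^ 2)]
  have zb : ∀ s, 1 ≤ |s| → bf s ^ 2 = 0 := fun s hs => by rw [cs_bf.zero s hs]; norm_num
  have zd : ∀ s, 1 ≤ |s| → deriv bf s ^ 2 = 0 := fun s hs => by rw [cs_dbf.zero s hs]; norm_num
  have cb2 : Cs (fun s => bf s ^ 2) := ⟨cs_bf.cont.pow 2, zb⟩
  have cd2 : Cs (fun s => deriv bf s ^ 2) := ⟨cs_dbf.cont.pow 2, zd⟩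
  have i0 : ∫ s in Icc (0 : ℝ) 1, F0 n N s ^ 2 = (1 / (8 * 4 ^ n * N)) * ∫ s, bf s ^ 2 :=
    unit_int (f := fun s => bf s ^ 2) zb (one_le_four_pow n) hN le_rfl (by norm_num)
  have i2 : ∫ s in Icc (0 : ℝ) 1, F2 N s ^ 2 = (1 / (8 * 1 * N)) * ∫ s, bf s ^ 2 :=
    unit_int (f := fun s => bf s ^ 2) zb le_rfl hN le_rfl (by norm_num)
  have i1 : ∫ s in Icc (0 : ℝ) 1, F1 n N s ^ 2 =
      (1 / (8 * 1 * N)) * ((1 / 2) ^ n * ∫ s, bf s ^ 2) := by
    have e : ∀ s, F1 n N s ^ 2 = T^[n] (fun y => bf y ^ 2) (sc 1 N (11 / 2) s) := fun s =>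
      Tn_sq cs_bf.zero n _
    simp_rw [e]
    rw [unit_int (Tn_cs cb2 n).zero le_rfl hN (by norm_num) le_rfl, Tn_int cb2 n]
  have j0 : ∫ s in Icc (0 : ℝ) 1, D0 n N s ^ 2 =
      (8 * 4 ^ n * N) ^ 2 * ((1 / (8 * 4 ^ n * N)) * ∫ s, deriv bf s ^ 2) := by
    have e : ∀ s, D0 n N s ^ 2 = (8 * 4 ^ n * N) ^ 2 *
        (fun y => deriv bf y ^ 2) (sc (4 ^ n) N (1 / 2) s) := by
      intro s
      unfold D0
      rw [mul_pow]
    simp_rw [e]
    rw [integral_const_mul, unit_int (f := fun y => deriv bf y ^ 2) zd (one_le_four_pow n) hN le_rfl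
      (by norm_num)]
  have j1 : ∫ s in Icc (0 : ℝ) 1, D1 n N s ^ 2 =
      (8 * N * 4 ^ n) ^ 2 * ((1 / (8 * 1 * N)) * ((1 / 2) ^ n * ∫ s, deriv bf s ^ 2)) := by
    have e : ∀ s, D1 n N s ^ 2 = (8 * N * 4 ^ n) ^ 2 *
        T^[n] (fun y => deriv bf y ^ 2) (sc 1 N (11 / 2) s) := by
      intro s
      rw [← Tn_sq cs_dbf.zero n]
      unfold D1
      ring
    simp_rw [e]
    rw [integral_const_mul, unit_int (Tn_cs cd2 n).zero le_rfl hN (by norm_num) le_rfl,
      Tn_int cd2 n]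
  rw [i0, i1, i2, j0, j1]
  have h2 : (1 / 2 : ℝ) ^ n = 2 ^ n / 4 ^ n := by
    rw [← div_pow]; norm_num
  rw [h2]
  have h4 : (4 : ℝ) ^ n ≠ 0 := by positivity
  field_simp
  ring

end Pool.Agent.N262.FX.Gain

namespace Pool.Agent.N262.FX

open Gain in
theorem gain : ∃ c > 0, ∃ C > 0, ∀ k ≥ 6, ∀ (n : ℕ) (g : V → V),
    (∀ X ∈ Reg n, g (pt k 0 X) = pt k n (Hs^[n] X)) →
    ∃ B : V → V, Measurable B ∧ L2Field B ∧ DivFree B ∧
      l2norm B ≤ C * Real.sqrt (2 ^ n) ∧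
      c * 2 ^ n / (2 ^ k) ^ 3 ≤ |∫ x in cube, dot (fderiv ℝ g x (B x)) (psi0 (g x))| := by
  have hpi := Real.pi_pos
  have hI := bf_int_pos
  refine ⟨Real.pi * (∫ y, bf y) ^ 3 / 512, by positivity,
    Real.sqrt ((∫ y, bf y ^ 2) ^ 2 * ∫ y, deriv bf y ^ 2) + 1, by positivity, ?_⟩
  intro k hk n g hg
  have hN : (64 : ℝ) ≤ 2 ^ k := by
    calc (64 : ℝ) = 2 ^ 6 := by norm_num
      _ ≤ 2 ^ k := pow_le_pow_right₀ (by norm_num) hk
  refine ⟨BB n (2 ^ k), (BB_cont n hN).measurable, BB_l2 n hN, BB_div n hN, ?_, ?_⟩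
  · unfold l2norm
    rw [norm_int n hN]
    have hJ : 0 ≤ (∫ y, bf y ^ 2) ^ 2 * ∫ y, deriv bf y ^ 2 := by
      have : 0 ≤ ∫ y, deriv bf y ^ 2 := integral_nonneg fun y => sq_nonneg _
      positivity
    calc Real.sqrt (2 ^ n / (4 * 2 ^ k) * ((∫ y, bf y ^ 2) ^ 2 * ∫ y, deriv bf y ^ 2))
        ≤ Real.sqrt (2 ^ n * ((∫ y, bf y ^ 2) ^ 2 * ∫ y, deriv bf y ^ 2)) := by
          apply Real.sqrt_le_sqrt
          apply mul_le_mul_of_nonneg_right _ hJ
          apply div_le_self (by positivity)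
          linarith
      _ = Real.sqrt ((∫ y, bf y ^ 2) ^ 2 * ∫ y, deriv bf y ^ 2) * Real.sqrt (2 ^ n) := by
          rw [Real.sqrt_mul (by positivity), mul_comm]
      _ ≤ _ := by
          apply mul_le_mul_of_nonneg_right _ (Real.sqrt_nonneg _)
          linarith
  · rw [flux_int hk hg, abs_mul, abs_of_pos (by positivity)]
    have h := int_bf_cos hN
    have h' : Real.pi / (8 * 2 ^ k) * ∫ y, bf y ≤
        |∫ y, deriv bf y * Real.sin (ang (2 ^ k) y)| := h.trans (neg_le_abs _)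
    calc Real.pi * (∫ y, bf y) ^ 3 / 512 * 2 ^ n / (2 ^ k) ^ 3
        = 2 ^ n * (∫ y, bf y) ^ 2 / (64 * (2 ^ k) ^ 2) *
            (Real.pi / (8 * 2 ^ k) * ∫ y, bf y) := by
          field_simp
          ring
      _ ≤ _ := mul_le_mul_of_nonneg_left h' (by positivity)

end Pool.Agent.N262.FX
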