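import Pool.Agent.N262.FX.Ode

/-!
# The horseshoe orbit
-/

open MeasureTheory Set Filter Topology
open scoped ContDiff NNReal ENNReal
open H459R3.NS Pool.Agent.GR.Flow Pool.Agent.TH811.SPD

namespace Pool.Agent.N262.FX

theorem cp_deriv {X : ℝ → V} {X' : V} {t : ℝ} (h : ∀ i, HasDerivAt (fun s => X s i) (X' i) t) :
    HasDerivAt (fun s => cp (X s)) ((1 / 8 : ℝ) • X') t := by
  rw [hasDerivAt_pi]
  intro i
  have h1 := ((h i).div_const 8).const_add (1 / 2)
  refine h1.congr_deriv ?_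
  show X' i / 8 = (1 / 8 : ℝ) * X' i
  ring

theorem horseshoe {W₀ W₁ : V → V} (h : CellFields W₀ W₁) {g₀ g₁ : ℝ → V → V}
    (h0 : IsFlowOf W₀ g₀) (h1 : IsFlowOf W₁ g₁) (X : V) (σ : ℝ) (hσ : σ = 1 ∨ σ = -1)
    (hX0 : |X 0| ≤ 1 / 4) (hX1 : 1 / 4 ≤ σ * X 1) (hX1' : σ * X 1 ≤ 3 / 4) (hX2 : |X 2| ≤ 3 / 4) :
    g₁ 1 (g₀ 1 (cp X)) = cp ![4 * X 0, 4 * X 1 - 2 * σ, X 2 / 16 + σ / 2] := by
  obtain ⟨K₀, hK₀⟩ := v_lip h.sp0
  obtain ⟨K₁, hK₁⟩ := v_lip h.sp1
  have hlog : 0 < Real.log 4 := Real.log_pos (by norm_num)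
  have hσ2 : σ * σ = 1 := by rcases hσ with rfl | rfl <;> norm_num
  have hX1a : |X 1| ≤ 3 / 4 := by
    rcases hσ with rfl | rfl
    · rw [abs_le]; constructor <;> linarith
    · rw [abs_le]; constructor <;> linarith
  -- the strain
  have hexp : Real.exp (Real.log 4 * 1) = 4 := by rw [mul_one, Real.exp_log (by norm_num)]
  have hexp2 : Real.exp (-2 * Real.log 4 * 1) = 1 / 16 := by
    rw [mul_one, show -2 * Real.log 4 = -(Real.log 4 + Real.log 4) by ring, Real.exp_neg,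
      Real.exp_add, Real.exp_log (by norm_num)]
    norm_num
  have e0 : g₀ 1 (cp X) = cp ![4 * X 0, 4 * X 1, X 2 / 16] := by
    set Y : ℝ → V := fun s => ![Real.exp (Real.log 4 * s) * X 0, Real.exp (Real.log 4 * s) * X 1,
      Real.exp (-2 * Real.log 4 * s) * X 2] with hY
    have hYd : ∀ s, HasDerivAt (fun s => cp (Y s)) ((1 / 8 : ℝ) • ![Real.log 4 * Y s 0,
        Real.log 4 * Y s 1, -2 * Real.log 4 * Y s 2]) s := by
      intro s
      refine cp_deriv fun i => ?_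
      have k1 : ∀ c x : ℝ, HasDerivAt (fun s => Real.exp (c * s) * x)
          (c * (Real.exp (c * s) * x)) s := by
        intro c x
        have := (((hasDerivAt_id s).const_mul c).exp).mul_const x
        refine this.congr_deriv ?_
        simp only [id]
        ring
      fin_cases i
      · exact k1 (Real.log 4) (X 0)
      · exact k1 (Real.log 4) (X 1)
      · exact k1 (-2 * Real.log 4) (X 2)
    have hb : ∀ s ∈ Icc (0 : ℝ) 1, ∀ j, |Y s j| ≤ 3 := by
      intro s hs j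
      have k1 : Real.exp (Real.log 4 * s) ≤ 4 :=
        (Real.exp_le_exp.2 (mul_le_mul_of_nonneg_left hs.2 hlog.le)).trans hexp.le
      have k2 : Real.exp (-2 * Real.log 4 * s) ≤ 1 := by
        rw [Real.exp_le_one_iff]
        nlinarith [mul_nonneg hlog.le hs.1]
      have k3 : ∀ e x b c : ℝ, 0 ≤ e → e ≤ b → |x| ≤ c → b * c ≤ 3 → |e * x| ≤ 3 := by
        intro e x b c he heb hx hbc
        rw [abs_mul, abs_of_nonneg he]
        calc e * |x| ≤ b * c := mul_le_mul heb hx (abs_nonneg _) (he.trans heb)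
          _ ≤ 3 := hbc
      fin_cases j
      · exact k3 _ _ 4 (1 / 4) (Real.exp_pos _).le k1 hX0 (by norm_num)
      · exact k3 _ _ 4 (3 / 4) (Real.exp_pos _).le k1 hX1a (by norm_num)
      · exact k3 _ _ 1 (3 / 4) (Real.exp_pos _).le k2 hX2 (by norm_num)
    have hc := flow_curve hK₀ h0 (T := 1) (γ := fun s => cp (Y s))
      (fun s _ => (hYd s).continuousAt.continuousWithinAt)
      (fun s hs => by
        have := h.core0 (Y s) (hb s ⟨hs.1, hs.2.le⟩)
        show HasDerivWithinAt _ (W₀ (cp (Y s))) _ _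
        rw [this]
        exact (hYd s).hasDerivWithinAt) (t := 1) ⟨zero_le_one, le_rfl⟩
    have hY0 : Y 0 = X := by
      funext i
      fin_cases i <;> simp [hY]
    have hY1 : Y 1 = ![4 * X 0, 4 * X 1, X 2 / 16] := by
      simp only [hY, hexp, hexp2]
      congr 3
      ring
    rw [hY0, hY1] at hc
    exact hc
  -- the shear
  rw [e0]
  set Z : ℝ → V := fun s => ![4 * X 0, 4 * X 1 - 2 * σ * s, X 2 / 16 + σ / 2 * s] with hZ
  have hZd : ∀ s, HasDerivAt (fun s => cp (Z s)) ((1 / 8 : ℝ) • ![0, -2 * σ, σ / 2]) s := by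
    intro s
    refine cp_deriv fun i => ?_
    fin_cases i
    · exact hasDerivAt_const s _
    · have := ((hasDerivAt_id s).const_mul (2 * σ)).const_sub (4 * X 1)
      refine this.congr_deriv ?_
      show -(2 * σ * 1) = -2 * σ
      ring
    · have := ((hasDerivAt_id s).const_mul (σ / 2)).const_add (X 2 / 16)
      refine this.congr_deriv ?_
      show σ / 2 * 1 = σ / 2
      ring
  have a0 := abs_le.1 hX0
  have a2 := abs_le.1 hX2
  have hb : ∀ s ∈ Icc (0 : ℝ) 1, ∀ j, |Z s j| ≤ 3 := by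
    intro s hs j
    obtain ⟨hs0, hs1⟩ := hs
    fin_cases j
    · show |4 * X 0| ≤ 3
      rw [abs_le]; constructor <;> linarith [a0.1, a0.2]
    · show |4 * X 1 - 2 * σ * s| ≤ 3
      rcases hσ with rfl | rfl
      · rw [abs_le]; constructor <;> linarith
      · rw [abs_le]; constructor <;> linarith
    · show |X 2 / 16 + σ / 2 * s| ≤ 3
      rcases hσ with rfl | rfl
      · rw [abs_le]; constructor <;> linarith [a2.1, a2.2]
      · rw [abs_le]; constructor <;> linarith [a2.1, a2.2]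
  have hpos : ∀ s, 2 / 5 ≤ σ * (Z s 1 / 2 + 2 * Z s 2) := by
    intro s
    show 2 / 5 ≤ σ * ((4 * X 1 - 2 * σ * s) / 2 + 2 * (X 2 / 16 + σ / 2 * s))
    have e : σ * ((4 * X 1 - 2 * σ * s) / 2 + 2 * (X 2 / 16 + σ / 2 * s))
        = 2 * (σ * X 1) + σ * X 2 / 8 := by
      rcases hσ with rfl | rfl <;> ring
    rw [e]
    rcases hσ with rfl | rfl <;> linarith [a2.1, a2.2]
  have hc := flow_curve hK₁ h1 (T := 1) (γ := fun s => cp (Z s))
    (fun s _ => (hZd s).continuousAt.continuousWithinAt)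
    (fun s hs => by
      have := h.core1 (Z s) (hb s ⟨hs.1, hs.2.le⟩) σ hσ (hpos s)
      show HasDerivWithinAt _ (W₁ (cp (Z s))) _ _
      rw [this]
      exact (hZd s).hasDerivWithinAt) (t := 1) ⟨zero_le_one, le_rfl⟩
  have hZ0 : Z 0 = ![4 * X 0, 4 * X 1, X 2 / 16] := by
    funext i
    fin_cases i <;> simp [hZ]
  have hZ1 : Z 1 = ![4 * X 0, 4 * X 1 - 2 * σ, X 2 / 16 + σ / 2] := by
    simp only [hZ, mul_one]
  rw [hZ0, hZ1] at hc
  exact hc

end Pool.Agent.N262.FX
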