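import Pool.Agent.N262.FX.Ode

/-!
# Flows of Lipschitz divergence-free fields preserve the volume
-/

open MeasureTheory Set Filter Topology
open scoped ContDiff NNReal ENNReal
open H459R3.NS Pool.Agent.GR.Flow Pool.Agent.TH811.SPD

namespace Pool.Agent.N262.FX

/-- the invariance of the integrals of smooth functions, for nonnegative times -/
theorem int_flow_lip {v : V → V} {K : ℝ≥0} (hv : LipschitzWith K v) {g : ℝ → V → V}
    (hg : IsFlowOf v g)
    (happ : ∀ η : ℝ, 0 < η → ∃ w : V → V, (∀ i, SP (fun y => w y i)) ∧
      (∀ x, ∑ i, pd i (fun y => w y i) x = 0) ∧ ∀ x, ‖w x - v x‖ ≤ η) {t : ℝ} (ht : 0 ≤ t)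
    {f : V → ℝ} (hf : SP f) : ∫ x in cube, f (g t x) = ∫ x in cube, f x := by
  obtain ⟨L, hL⟩ := v_lip (v := fun x _ => f x) (fun _ => hf)
  have hfL : ∀ x y, |f x - f y| ≤ L * dist x y := by
    intro x y
    have h1 := hL.dist_le_mul x y
    rw [dist_eq_norm] at h1
    exact (norm_le_pi_norm ((fun _ => f x : V) - fun _ => f y) 0).trans h1
  have key : ∀ η : ℝ, 0 < η → |(∫ x in cube, f (g t x)) - ∫ x in cube, f x|
      ≤ L * gronwallBound 0 K η t := by
    intro η hη
    obtain ⟨w, hw, hwd, hwv⟩ := happ η hη
    obtain ⟨γ, hγ⟩ := exists_flow hw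
    have h1 : ∀ x, dist (g t x) (γ t x) ≤ gronwallBound 0 K η t := by
      intro x
      have h := dist_le_of_approx_trajectories_ODE (v := fun _ => v) (K := K)
        (f := fun t => g t x) (g := fun t => γ t x) (f' := fun t => v (g t x))
        (g' := fun t => w (γ t x)) (a := 0) (b := t) (εf := 0) (εg := η) (δ := 0)
        (fun _ => hv) (hg.continuous _).continuousOn
        (fun s _ => (hg.deriv x s).hasDerivWithinAt) (fun s _ => by simp)
        (hγ.continuous _).continuousOn (fun s _ => (hγ.deriv x s).hasDerivWithinAt)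
        (fun s _ => by rw [dist_eq_norm]; exact hwv _) (by simp [hg.zero, hγ.zero])
        t ⟨ht, le_rfl⟩
      simpa using h
    have i1 : IntegrableOn (fun x => f (g t x)) cube :=
      integrableOn_cube (hf.cont.comp (flow_continuous hv hg t))
    have i2 : IntegrableOn (fun x => f (γ t x)) cube :=
      integrableOn_cube (hf.cont.comp (flow_cont hw hγ t))
    rw [← int_flow hw hγ hwd hf t, ← integral_sub i1 i2]
    have h2 : ‖∫ x in cube, (f (g t x) - f (γ t x))‖ ≤ (L * gronwallBound 0 K η t) *
        (volume.restrict cube).real univ := by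
      have hfin := cube_finite
      refine norm_integral_le_of_norm_le_const (ae_of_all _ fun x => ?_)
      exact (hfL _ _).trans (mul_le_mul_of_nonneg_left (h1 x) L.2)
    have h3 : (volume.restrict cube).real (univ : Set V) = 1 := by
      rw [measureReal_def, Measure.restrict_apply_univ, volume_cube]; simp
    rw [h3, mul_one] at h2
    exact h2
  have hlim : Tendsto (fun η : ℝ => L * gronwallBound 0 K η t) (𝓝[>] 0) (𝓝 0) := by
    have h1 : Tendsto (fun η : ℝ => (L : ℝ) * gronwallBound 0 K η t) (𝓝 0)
        (𝓝 (L * gronwallBound 0 K 0 t)) :=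
      ((gronwallBound_continuous_ε 0 K t).tendsto 0).const_mul _
    rw [gronwallBound_ε0_δ0, mul_zero] at h1
    exact h1.mono_left nhdsWithin_le_nhds
  have h2 : |(∫ x in cube, f (g t x)) - ∫ x in cube, f x| ≤ 0 := by
    refine ge_of_tendsto hlim ?_
    filter_upwards [self_mem_nhdsWithin] with η hη
    exact key η hη
  have h3 := abs_nonpos_iff.1 h2
  linarith

/-- the invariance of the integrals of smooth functions -/
theorem int_flow_lip' {v : V → V} {K : ℝ≥0} (hv : LipschitzWith K v) {g : ℝ → V → V}
    (hg : IsFlowOf v g)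
    (happ : ∀ η : ℝ, 0 < η → ∃ w : V → V, (∀ i, SP (fun y => w y i)) ∧
      (∀ x, ∑ i, pd i (fun y => w y i) x = 0) ∧ ∀ x, ‖w x - v x‖ ≤ η) (t : ℝ)
    {f : V → ℝ} (hf : SP f) : ∫ x in cube, f (g t x) = ∫ x in cube, f x := by
  rcases le_total 0 t with ht | ht
  · exact int_flow_lip hv hg happ ht hf
  · have h := int_flow_lip (v := fun x => -v x) hv.neg (neg_flow hg) (fun η hη => by
      obtain ⟨w, hw, hwd, hwv⟩ := happ η hη
      refine ⟨fun x => -w x, fun i => ?_, fun x => ?_, fun x => ?_⟩
      · exact ⟨(hw i).smooth.neg, fun j x => congrArg Neg.neg ((hw i).per j x)⟩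
      · have e : ∀ i, pd i (fun y => (-w y) i) x = -pd i (fun y => w y i) x := by
          intro i
          unfold pd
          have : (fun y => (-w y) i) = -fun y => w y i := rfl
          rw [this, fderiv_neg]
          rfl
        simp_rw [e]
        rw [Finset.sum_neg_distrib, hwd, neg_zero]
      · have := hwv x
        rw [← norm_neg] at this
        have e : -w x - -v x = -(w x - v x) := by abel
        rw [e]
        exact this) (t := -t) (by linarith) hf
    simp only [neg_neg] at h
    exact h

theorem pres_flow {v : V → V} {K : ℝ≥0} (hv : LipschitzWith K v) (_hp : Per v) {g : ℝ → V → V}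
    (hg : IsFlowOf v g)
    (happ : ∀ η : ℝ, 0 < η → ∃ w : V → V, (∀ i, SP (fun y => w y i)) ∧
      (∀ x, ∑ i, pd i (fun y => w y i) x = 0) ∧ ∀ x, ‖w x - v x‖ ≤ η) (t : ℝ) :
    Pres (g t) := by
  have hcont := flow_continuous hv hg t
  have hc1 : Continuous (fun x => cov (g t x)) := cov_cont.comp hcont
  have hmap : (volume.restrict cube).map (fun x => cov (g t x))
      = (volume.restrict cube).map cov := by
    have hp : IsProbabilityMeasure (volume.restrict cube) :=
      ⟨by rw [Measure.restrict_apply_univ, volume_cube]⟩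
    have p1 : IsProbabilityMeasure ((volume.restrict cube).map (fun x => cov (g t x))) :=
      Measure.isProbabilityMeasure_map hc1.measurable.aemeasurable
    have p2 : IsProbabilityMeasure ((volume.restrict cube).map cov) :=
      Measure.isProbabilityMeasure_map cov_cont.measurable.aemeasurable
    refine measure_ext fun k => ?_
    have hm := (UnitAddTorus.mFourier (d := Fin 3) k).continuous
    rw [integral_map hc1.measurable.aemeasurable hm.aestronglyMeasurable,
      integral_map cov_cont.measurable.aemeasurable hm.aestronglyMeasurable]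
    simp_rw [mFourier_cov]
    have i1 : IntegrableOn (fun x => ee k (g t x)) cube :=
      integrableOn_cube ((ee_continuous k).comp hcont)
    have i2 : IntegrableOn (fun x => ee k x) cube := integrableOn_cube (ee_continuous k)
    rw [← integral_re_add_im i1, ← integral_re_add_im i2]
    have e1 := int_flow_lip' hv hg happ t (smooth_re k)
    have e2 := int_flow_lip' hv hg happ t (smooth_im k)
    simp only [RCLike.re_to_complex, RCLike.im_to_complex]
    rw [e1, e2]
  intro k hk hp
  have hks : Measurable fun y => k (sec y) := hk.comp sec_meas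
  have e1 : ∫⁻ x in cube, k (g t x) = ∫⁻ y, k (sec y) ∂((volume.restrict cube).map
      (fun x => cov (g t x))) := by
    rw [lintegral_map hks hc1.measurable]
    refine lintegral_congr fun x => ?_
    rw [sec_cov hp]
  have e2 : ∫⁻ x in cube, k x = ∫⁻ y, k (sec y) ∂((volume.restrict cube).map cov) := by
    rw [lintegral_map hks cov_cont.measurable]
    refine lintegral_congr fun x => ?_
    rw [sec_cov hp]
  rw [e1, e2, hmap]

end Pool.Agent.N262.FX
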