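import Pool.Agent.N262.FX.Orbit
import Pool.Agent.N262.FX.Horse
import Pool.Agent.N262.FX.Flux
import Pool.Agent.N262.FX.PresF
import Pool.Agent.N262.FX.Banach
import Pool.Agent.N262.FX.Gain
import Pool.Agent.N262.FX.Energy

/-!
# The field with infinitely many active slabs is a perfect dynamo
-/

open MeasureTheory Set Filter Topology
open scoped ContDiff NNReal ENNReal
open H459R3.NS Pool.Agent.GR.Flow

namespace Pool.Agent.N262.FX

/-- volume preserving homeomorphisms, Lipschitz, commuting with integer shifts -/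
structure GoodMap (g : V → V) : Prop where
  lip : ∃ C : ℝ≥0, LipschitzWith C g
  inv : ∃ h : V → V, Continuous h ∧ Function.LeftInverse h g ∧ Function.RightInverse h g
  shift : ∀ x (i : Fin 3), g (x + Pi.single i 1) = g x + Pi.single i 1
  pres : Pres g

theorem GoodMap.id : GoodMap (fun x => x) where
  lip := ⟨1, LipschitzWith.id⟩
  inv := ⟨fun x => x, continuous_id, fun _ => rfl, fun _ => rfl⟩
  shift _ _ := rfl
  pres _ _ _ := rfl

theorem GoodMap.comp {g f : V → V} (hg : GoodMap g) (hf : GoodMap f) :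
    GoodMap (fun x => g (f x)) where
  lip := by
    obtain ⟨C, hC⟩ := hg.lip
    obtain ⟨D, hD⟩ := hf.lip
    exact ⟨C * D, hC.comp hD⟩
  inv := by
    obtain ⟨h, hc, h1, h2⟩ := hg.inv
    obtain ⟨h', hc', h1', h2'⟩ := hf.inv
    refine ⟨fun x => h' (h x), hc'.comp hc, fun x => ?_, fun x => ?_⟩
    · show h' (h (g (f x))) = x
      rw [h1, h1']
    · show g (f (h' (h x))) = x
      rw [h2', h2]
  shift x i := by rw [hf.shift, hg.shift]
  pres k hk hp := by
    obtain ⟨C, hC⟩ := hg.lip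
    rw [hf.pres (fun x => k (g x)) (hk.comp hC.continuous.measurable) (fun i x => by
      show k (g (x + Pi.single i 1)) = k (g x)
      rw [hg.shift, hp]), hg.pres k hk hp]

namespace Sys

variable (s : Sys)

theorem G_good (S : Set ℕ) (i : Fin 3) {t : ℝ} (ht : 0 ≤ t) : GoodMap (s.G S i t) where
  lip := ⟨_, flow_lipschitz (s.us_lip S i) (s.G_flow S i) ht⟩
  inv := ⟨s.G S i (-t), flow_continuous (s.us_lip S i) (s.G_flow S i) (-t),
    flow_neg (s.us_lip S i) (s.G_flow S i) t, flow_neg' (s.us_lip S i) (s.G_flow S i) t⟩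
  shift x j := flow_shift (s.us_lip S i) (s.G_flow S i) (s.us_per S i) t x j
  pres := pres_flow (s.us_lip S i) (s.us_per S i) (s.G_flow S i) (s.us_approx S i) t

theorem Pn_good (S : Set ℕ) (n : ℕ) : GoodMap (s.Pn S n) := by
  induction n with
  | zero => exact GoodMap.id
  | succ n ih => exact (s.G_good S (ix n) zero_le_one).comp ih

theorem Ph_good (S : Set ℕ) {t : ℝ} (ht : 0 ≤ t) : GoodMap (s.Ph S t) :=
  (s.G_good S (ix ⌊t⌋₊) (sub_nonneg.2 (Nat.floor_le ht))).comp (s.Pn_good S ⌊t⌋₊)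

end Sys

theorem psi0_spv : SPV psi0 := by
  constructor
  · refine contDiff_pi.2 fun i => ?_
    unfold psi0
    fin_cases i
    · exact Real.contDiff_sin.comp (contDiff_const.mul (contDiff_apply ℝ ℝ 1))
    · exact contDiff_const
    · exact contDiff_const
  · intro i x
    unfold psi0
    have : Real.sin (2 * Real.pi * (x + Pi.single i 1 : V) 1) = Real.sin (2 * Real.pi * x 1) := by
      rw [Pi.add_apply, Pi.single_apply]
      split_ifs
      · rw [mul_add, mul_one, Real.sin_add_two_pi]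
      · rw [add_zero]
    rw [this]

/-- the growth of the gain beats the losses -/
theorem growth_aux (A : ℝ) : ∃ k₀ : ℕ, ∀ k ≥ k₀,
    A * 8 ^ k < Real.exp (Real.log 2 / 4 * (2 ^ (k - 1) : ℕ)) := by
  obtain ⟨K, hK⟩ := exists_nat_gt A
  refine ⟨K + 8, fun k hk => ?_⟩
  have h1 : ∀ m : ℕ, 4 * (m + 8) ≤ 2 ^ (m + 5) := by
    intro m
    induction m with
    | zero => norm_num
    | succ m ih => rw [show m + 1 + 5 = (m + 5) + 1 by ring, pow_succ]; omega
  obtain ⟨m, rfl⟩ : ∃ m, k = m + 8 := ⟨k - 8, by omega⟩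
  have h2 := h1 m
  have e1 : (((2 : ℕ) ^ (m + 8 - 1) : ℕ) : ℝ) / 4 = ((2 ^ (m + 5) : ℕ) : ℝ) := by
    rw [show m + 8 - 1 = (m + 5) + 2 by omega, pow_add]
    push_cast
    ring
  have e2 : Real.exp (Real.log 2 / 4 * ((2 ^ (m + 8 - 1) : ℕ) : ℝ))
      = (2 : ℝ) ^ (2 ^ (m + 5) : ℕ) := by
    rw [div_mul_eq_mul_div, mul_div_assoc, e1, mul_comm, Real.exp_nat_mul,
      Real.exp_log (by norm_num)]
  rw [e2]
  have h3 : (2 : ℝ) ^ (4 * (m + 8)) ≤ 2 ^ (2 ^ (m + 5) : ℕ) :=
    pow_le_pow_right₀ (by norm_num) h2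
  refine lt_of_lt_of_le ?_ h3
  have e3 : (2 : ℝ) ^ (4 * (m + 8)) = 2 ^ (m + 8) * 8 ^ (m + 8) := by
    rw [show (8 : ℝ) = 2 ^ 3 by norm_num, ← pow_mul, ← pow_add]
    congr 1
    ring
  rw [e3]
  refine mul_lt_mul_of_pos_right ?_ (by positivity)
  have h4 : m + 8 < 2 ^ (m + 8) := Nat.lt_two_pow_self
  have h5 : ((m + 8 : ℕ) : ℝ) < 2 ^ (m + 8) := by exact_mod_cast h4
  have h6 : (K : ℝ) ≤ ((m + 8 : ℕ) : ℝ) := by
    exact_mod_cast (show K ≤ m + 8 by omega)
  linarith

theorem exp_log_two (n : ℕ) : Real.exp (Real.log 2 / 12 * ((3 * n : ℕ) : ℝ)) *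
    Real.exp (Real.log 2 / 4 * (n : ℝ)) * Real.sqrt (2 ^ n) = 2 ^ n := by
  have h1 : Real.sqrt (2 ^ n) = Real.exp (Real.log 2 / 2 * n) := by
    rw [Real.sqrt_eq_iff_mul_self_eq (by positivity) (by positivity), ← Real.exp_add]
    have : Real.log 2 / 2 * n + Real.log 2 / 2 * n = n * Real.log 2 := by ring
    rw [this, Real.exp_nat_mul, Real.exp_log (by norm_num)]
  rw [h1, ← Real.exp_add, ← Real.exp_add]
  have : Real.log 2 / 12 * ((3 * n : ℕ) : ℝ) + Real.log 2 / 4 * n + Real.log 2 / 2 * n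
      = n * Real.log 2 := by push_cast; ring
  rw [this, Real.exp_nat_mul, Real.exp_log (by norm_num)]

theorem limsup_pos {F : ℝ → ℝ} {δ : ℝ}
    (h : ∀ R : ℝ, ∃ t ≥ R, Real.exp (δ * t) ≤ |F t|) :
    (δ : EReal) ≤ limsup (fun t : ℝ => ENNReal.log ‖F t‖ₑ / (t : EReal)) atTop := by
  refine le_limsup_of_frequently_le' ?_
  rw [frequently_atTop]
  intro R
  obtain ⟨t, ht, h1⟩ := h (max R 1)
  have ht1 : 1 ≤ t := (le_max_right R 1).trans ht
  have ht0 : 0 < t := by linarith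
  refine ⟨t, (le_max_left R 1).trans ht, ?_⟩
  have h2 : ‖F t‖ₑ = ENNReal.ofReal |F t| := by
    rw [← Real.norm_eq_abs, ofReal_norm]
  have h3 : ENNReal.ofReal (Real.exp (δ * t)) ≤ ‖F t‖ₑ := by
    rw [h2]; exact ENNReal.ofReal_le_ofReal h1
  have h4 : ((δ * t : ℝ) : EReal) ≤ ENNReal.log ‖F t‖ₑ := by
    have := ENNReal.log_le_log h3
    rw [ENNReal.log_ofReal_of_pos (Real.exp_pos _), Real.log_exp] at this
    exact this
  rw [EReal.le_div_iff_mul_le (by exact_mod_cast ht0) (EReal.coe_ne_top t)]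
  exact_mod_cast h4

namespace Sys

variable (s : Sys)

variable {s} in
theorem perfect (hh : s.HorseHyp) {S : Set ℕ} (hS : ∀ N : ℕ, ∃ k ∈ S, N ≤ k) :
    PerfectDynamo (s.uu S) := by
  have hlog : 0 < Real.log 2 := Real.log_pos (by norm_num)
  have hδ : 0 < Real.log 2 / 12 := by positivity
  refine ⟨s.Ph S, s.Ph_isFlow S, psi0, psi0_spv, ?_⟩
  obtain ⟨c, hc, C, hC, hgain⟩ := gain
  have hB := banach_steinhaus_flux (Φ := s.Ph S) (fun t ht => (s.Ph_good S ht).lip) psi0_spv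
    (δ := Real.log 2 / 12) (by
      intro R
      set R' := max R 1 with hR'
      have hR1 : 1 ≤ R' := le_max_right _ _
      obtain ⟨k₀, hk₀⟩ := growth_aux (R' * C / c)
      obtain ⟨K₁, hK₁⟩ := exists_nat_gt R
      obtain ⟨k, hkS, hk⟩ := hS (max k₀ (max 6 (K₁ + 1)))
      have hk1 : k₀ ≤ k := (le_max_left _ _).trans hk
      have hk2 : 6 ≤ k := ((le_max_left _ _).trans (le_max_right _ _)).trans hk
      have hk3 : K₁ + 1 ≤ k := ((le_max_right _ _).trans (le_max_right _ _)).trans hk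
      set n : ℕ := 2 ^ (k - 1) with hn
      have hmap : ∀ X ∈ Reg n, s.Ph S (3 * n : ℕ) (pt k 0 X) = pt k n (Hs^[n] X) := by
        intro X hX
        rw [s.Ph_nat]
        exact orbit hh (by omega) hkS le_rfl hX
      obtain ⟨B, hBm, hB2, hBd, hBn, hBf⟩ := hgain k hk2 n (s.Ph S (3 * n : ℕ)) hmap
      refine ⟨((3 * n : ℕ) : ℝ), ?_, B, hB2, hBd, ?_⟩
      · have h1 : k - 1 < n := Nat.lt_two_pow_self
        have h2 : K₁ ≤ 3 * n := by omega
        have h3 : (K₁ : ℝ) ≤ ((3 * n : ℕ) : ℝ) := by exact_mod_cast h2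
        linarith
      · refine lt_of_lt_of_le ?_ hBf
        have h1 := hk₀ k hk1
        rw [← hn] at h1
        have h2 : l2norm B ≤ C * Real.sqrt (2 ^ n) := hBn
        have h0 : 0 ≤ l2norm B := Real.sqrt_nonneg _
        have h3 : R * Real.exp (Real.log 2 / 12 * ((3 * n : ℕ) : ℝ)) * l2norm B
            ≤ R' * Real.exp (Real.log 2 / 12 * ((3 * n : ℕ) : ℝ)) * (C * Real.sqrt (2 ^ n)) := by
          refine mul_le_mul ?_ h2 h0 (by positivity)
          exact mul_le_mul_of_nonneg_right (le_max_left _ _) (Real.exp_pos _).le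
        refine lt_of_le_of_lt h3 ?_
        rw [lt_div_iff₀ (by positivity)]
        have e8 : ((2 : ℝ) ^ k) ^ 3 = 8 ^ k := by
          rw [← pow_mul, mul_comm, pow_mul]; norm_num
        rw [e8]
        have h4 : R' * C * 8 ^ k < c * Real.exp (Real.log 2 / 4 * (n : ℝ)) := by
          rw [div_mul_eq_mul_div, div_lt_iff₀ hc] at h1
          linarith
        have h5 : 0 < Real.exp (Real.log 2 / 12 * ((3 * n : ℕ) : ℝ)) * Real.sqrt (2 ^ n) := by
          positivity
        calc R' * Real.exp (Real.log 2 / 12 * ((3 * n : ℕ) : ℝ)) * (C * Real.sqrt (2 ^ n)) * 8 ^ k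
            = (R' * C * 8 ^ k) *
              (Real.exp (Real.log 2 / 12 * ((3 * n : ℕ) : ℝ)) * Real.sqrt (2 ^ n)) := by ring
          _ < (c * Real.exp (Real.log 2 / 4 * (n : ℝ))) *
              (Real.exp (Real.log 2 / 12 * ((3 * n : ℕ) : ℝ)) * Real.sqrt (2 ^ n)) :=
            mul_lt_mul_of_pos_right h4 h5
          _ = c * (Real.exp (Real.log 2 / 12 * ((3 * n : ℕ) : ℝ)) *
              Real.exp (Real.log 2 / 4 * (n : ℝ)) * Real.sqrt (2 ^ n)) := by ring
          _ = c * 2 ^ n := by rw [exp_log_two])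
  obtain ⟨B, hBm, hB2, hBd, hBf⟩ := hB
  have key : ((Real.log 2 / 12 : ℝ) : EReal) ≤ Gam (s.Ph S) psi0 := by
    refine le_trans (limsup_pos (F := fun t => flux (s.Ph S) B psi0 t) fun R => ?_)
      (le_iSup (fun Bin : {B : V → V // L2Field B ∧ DivFree B} =>
        limsup (fun t : ℝ => ENNReal.log ‖flux (s.Ph S) Bin.1 psi0 t‖ₑ / (t : EReal)) atTop)
        ⟨B, hB2, hBd⟩)
    obtain ⟨t, ht, h1⟩ := hBf (max R 0)
    refine ⟨t, (le_max_left _ _).trans ht, ?_⟩
    have ht0 : 0 ≤ t := (le_max_right _ _).trans ht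
    have hg := s.Ph_good S ht0
    obtain ⟨C, hC⟩ := hg.lip
    obtain ⟨h, hhc, hl, hr⟩ := hg.inv
    have hbij : Function.Bijective (s.Ph S t) := Function.bijective_iff_has_inverse.2 ⟨h, hl, hr⟩
    have hinv : Function.invFun (s.Ph S t) = h := by
      funext x
      apply hbij.1
      rw [Function.invFun_eq (hbij.2 x), hr]
    rw [flux_eq hbij hC.continuous (by rw [hinv]; exact hhc) hg.shift hg.pres hBm hB2.per psi0_spv]
    exact h1
  exact lt_of_lt_of_le (by exact_mod_cast hδ) key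

end Sys

end Pool.Agent.N262.FX
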