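import Pool.Agent.N262.FX.NonFast
import Pool.Agent.N262.FX.Perfect

/-!
# A perfect dynamo which is not a fast dynamo
-/

open MeasureTheory Set Filter Topology
open scoped ContDiff NNReal ENNReal
open H459R3.NS Pool.Agent.GR.Flow

namespace Pool.Agent.N262.FX

/-- an `L²` function which is orthogonal to the smooth functions vanishes -/
theorem ae_zero_of_orth {f : V → ℝ} (hf : MemLp f 2 (volume.restrict cube))
    (h : ∀ φ : V → ℝ, SP φ → ∫ x in cube, f x * φ x = 0) : f =ᵐ[volume.restrict cube] 0 := by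
  have hcs : ∀ k, SP (cs k) := fun k => by
    have := Pool.Agent.TH811.SPD.smooth_re k
    have e : (fun x => (ee k x).re) = cs k := by
      funext x
      have : ee k x = Complex.exp (((2 * Real.pi * ph k x : ℝ) : ℂ) * Complex.I) := by
        rw [ee]; congr 1; push_cast; ring
      rw [this, Complex.exp_ofReal_mul_I_re, cs]
    rw [← e]; exact this
  have hsn : ∀ k, SP (sn k) := fun k => by
    have := Pool.Agent.TH811.SPD.smooth_im k
    have e : (fun x => (ee k x).im) = sn k := by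
      funext x
      have : ee k x = Complex.exp (((2 * Real.pi * ph k x : ℝ) : ℂ) * Complex.I) := by
        rw [ee]; congr 1; push_cast; ring
      rw [this, Complex.exp_ofReal_mul_I_im, sn]
    rw [← e]; exact this
  have h0 : ∀ n x, PP n f x = 0 := by
    intro n x
    refine Finset.sum_eq_zero fun k _ => ?_
    rw [h _ (hcs k), h _ (hsn k), mul_zero, mul_zero, add_zero]
  have h1 := PP_tendsto hf
  simp_rw [h0, zero_sub, neg_sq] at h1
  have h2 : ∫ x in cube, f x ^ 2 = 0 := tendsto_nhds_unique tendsto_const_nhds h1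
  rw [integral_eq_zero_iff_of_nonneg (fun x => sq_nonneg _) hf.integrable_sq] at h2
  filter_upwards [h2] with x hx
  have : f x ^ 2 = 0 := hx
  simpa using this

theorem l2norm_init {ε : ℝ} {u : ℝ → V → V} {Bin : V → V} {B : ℝ → V → V} (hBin : L2Field Bin)
    (h : IsSol ε u Bin B) : l2norm (B 0) = l2norm Bin := by
  have h0 := h.l2 0 le_rfl
  have hae : ∀ i, (fun x => B 0 x i - Bin x i) =ᵐ[volume.restrict cube] 0 := by
    intro i
    refine ae_zero_of_orth ((h0.comp i).sub (hBin.comp i)) fun φ hφ => ?_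
    have hψ : SPV (fun x => Pi.single i (φ x)) := by
      constructor
      · refine contDiff_pi.2 fun j => ?_
        by_cases hj : j = i
        · subst hj; simpa using hφ.smooth
        · simpa [Pi.single_apply, hj] using contDiff_const
      · intro j x
        show (Pi.single i (φ (x + Pi.single j 1)) : V) = Pi.single i (φ x)
        rw [hφ.per j x]
    have h2 := h.weak _ hψ 0 le_rfl
    rw [intervalIntegral.integral_same, add_zero] at h2
    have e : ∀ b : V, ∀ c : ℝ, dot b (Pi.single i c) = b i * c := by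
      intro b c
      simp [dot, Pi.single_apply]
    simp_rw [e] at h2
    have hφ2 : MemLp φ 2 (volume.restrict cube) := by
      have := cube_finite
      obtain ⟨C, hC⟩ := Pool.Agent.TH811.SPD.per_bound hφ.per hφ.cont
      exact MemLp.of_bound hφ.cont.aestronglyMeasurable C (ae_of_all _ hC)
    have i1 : Integrable (fun x => B 0 x i * φ x) (volume.restrict cube) :=
      (h0.comp i).integrable_mul hφ2
    have i2 : Integrable (fun x => Bin x i * φ x) (volume.restrict cube) :=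
      (hBin.comp i).integrable_mul hφ2
    simp_rw [sub_mul]
    rw [integral_sub i1 i2, h2, sub_self]
  unfold l2norm
  congr 1
  refine integral_congr_ae ?_
  filter_upwards [hae 0, hae 1, hae 2] with x h0 h1 h2
  simp only [Pi.zero_apply, sub_eq_zero] at h0 h1 h2
  simp only [Fin.sum_univ_three, h0, h1, h2]

namespace Sys

variable (s : Sys)

theorem nf {Cx : ℝ} (hCx : ∀ (F : Finset ℕ) (K : ℕ), (∀ k ∈ F, k ≤ K) → ∀ y : ℝ,
    ∃ d : ℝ, HasDerivAt (cshear F K) d y ∧ |d| ≤ Cx * 2 ^ K) (F : Finset ℕ) (K : ℕ)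
    (hF : ∀ k ∈ F, k ≤ K) {ρ : ℝ} (hρ : 0 < ρ) : ∃ ε : ℝ, 0 < ε ∧ ε ≤ ρ ∧ ∃ K' : ℕ,
      ∀ S : Set ℕ, (∀ k, k < K' → (k ∈ S ↔ k ∈ F)) → ∀ (Bin : V → V) (B : ℝ → V → V),
        L2Field Bin → IsSol ε (s.uu S) Bin B →
        l2norm (B ((3 * 2 ^ K : ℕ) : ℝ)) ^ 2
          ≤ (2 + 2 * (Cx * 2 ^ K) ^ 2) * Real.exp 1 * l2norm Bin ^ 2 := by
  obtain ⟨C, hC0, hC⟩ := s.chain F (3 * 2 ^ K)
  set ε : ℝ := min (min ρ 1) (1 / (C + 1)) with hε
  have h1 : ε ≤ ρ := (min_le_left _ _).trans (min_le_left _ _)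
  have h2 : ε ≤ 1 := (min_le_left _ _).trans (min_le_right _ _)
  have h3 : ε ≤ 1 / (C + 1) := min_le_right _ _
  have h0 : 0 < ε := lt_min (lt_min hρ one_pos) (by positivity)
  obtain ⟨K', hK'⟩ : ∃ K' : ℕ, s.M / 2 ^ K' ≤ ε := by
    obtain ⟨K', hK⟩ := exists_nat_gt (s.M / ε)
    refine ⟨K', ?_⟩
    rw [div_lt_iff₀ h0] at hK
    rw [div_le_iff₀ (by positivity)]
    have h1 : (K' : ℝ) ≤ 2 ^ K' := by exact_mod_cast (Nat.lt_two_pow_self (n := K')).le
    nlinarith
  refine ⟨ε, h0, h1, K', fun S hS Bin B hBin hB => ?_⟩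
  have h4 := hC ε h0 h2 S (fun i x => (s.us_close (K := K') (fun k hk => by
    rw [hS k hk]; exact Finset.mem_coe.symm) i x).trans hK') Bin B hB
  rw [En_coord (hB.l2 0 le_rfl), l2norm_init hBin hB] at h4
  have h5 := s.final_bound hF (hCx F K hF) (hB.l2 ((3 * 2 ^ K : ℕ) : ℝ) (Nat.cast_nonneg _))
  refine h5.trans ?_
  rw [mul_assoc]
  refine mul_le_mul_of_nonneg_left (h4.trans ?_) (by positivity)
  refine mul_le_mul_of_nonneg_right (Real.exp_le_exp.2 ?_) (sq_nonneg _)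
  calc C * ε ≤ C * (1 / (C + 1)) := mul_le_mul_of_nonneg_left h3 hC0
    _ ≤ 1 := by rw [mul_one_div, div_le_one (by positivity)]; linarith

/-- exponentials beat powers along `2^K` -/
theorem beat (Cx : ℝ) {c₀ γ₀ : ℝ} (hc : 0 < c₀) (hγ : 0 < γ₀) : ∃ K₀ : ℕ, ∀ K ≥ K₀,
    (2 + 2 * (Cx * 2 ^ K) ^ 2) * Real.exp 1 <
      (c₀ * Real.exp (γ₀ * ((3 * 2 ^ K : ℕ) : ℝ))) ^ 2 := by
  have h1 : Tendsto (fun y : ℝ => (2 + 2 * (Cx * y) ^ 2) * Real.exp 1 * Real.exp (-(6 * γ₀) * y))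
      atTop (𝓝 0) := by
    have e2 := tendsto_rpow_mul_exp_neg_mul_atTop_nhds_zero 2 (6 * γ₀) (by positivity)
    have e0 := tendsto_rpow_mul_exp_neg_mul_atTop_nhds_zero 0 (6 * γ₀) (by positivity)
    have e3 := (e0.const_mul (2 * Real.exp 1)).add (e2.const_mul (2 * Cx ^ 2 * Real.exp 1))
    rw [mul_zero, mul_zero, add_zero] at e3
    refine e3.congr fun y => ?_
    simp only [Real.rpow_zero, Real.rpow_two]
    ring
  have h2 : Tendsto (fun K : ℕ => (2 : ℝ) ^ K) atTop atTop :=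
    tendsto_pow_atTop_atTop_of_one_lt (by norm_num)
  have h3 := (h1.comp h2).eventually (gt_mem_nhds (show 0 < c₀ ^ 2 by positivity))
  obtain ⟨K₀, hK₀⟩ := eventually_atTop.1 h3
  refine ⟨K₀, fun K hK => ?_⟩
  have h4 := hK₀ K hK
  simp only [Function.comp_apply] at h4
  have h5 : (c₀ * Real.exp (γ₀ * ((3 * 2 ^ K : ℕ) : ℝ))) ^ 2
      = c₀ ^ 2 * Real.exp (6 * γ₀ * 2 ^ K) := by
    rw [mul_pow, ← Real.exp_nat_mul]
    congr 2
    push_cast
    ring
  rw [h5]
  have h6 : Real.exp (-(6 * γ₀) * 2 ^ K) * Real.exp (6 * γ₀ * 2 ^ K) = 1 := by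
    rw [← Real.exp_add]
    have : -(6 * γ₀) * 2 ^ K + 6 * γ₀ * 2 ^ K = (0 : ℝ) := by ring
    rw [this, Real.exp_zero]
  calc (2 + 2 * (Cx * 2 ^ K) ^ 2) * Real.exp 1
      = ((2 + 2 * (Cx * 2 ^ K) ^ 2) * Real.exp 1 * Real.exp (-(6 * γ₀) * 2 ^ K)) *
        Real.exp (6 * γ₀ * 2 ^ K) := by rw [mul_assoc _ _ (Real.exp (6 * γ₀ * 2 ^ K)), h6, mul_one]
    _ < c₀ ^ 2 * Real.exp (6 * γ₀ * 2 ^ K) := mul_lt_mul_of_pos_right h4 (Real.exp_pos _)

/-- the length of the period associated with a finite set -/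
def KF (F : Finset ℕ) : ℕ := F.sup id + F.card

theorem le_KF {F : Finset ℕ} : ∀ k ∈ F, k ≤ KF F := fun _ hk =>
  (Finset.le_sup (f := id) hk).trans (Nat.le_add_right _ _)

/-- the choice of the active slabs -/
noncomputable def Fs (nx : Finset ℕ → ℕ) : ℕ → Finset ℕ
  | 0 => ∅
  | n + 1 => insert (max (nx (Fs nx n)) ((Fs nx n).sup id + 1)) (Fs nx n)

theorem Fs_new (nx : Finset ℕ → ℕ) (n : ℕ) :
    max (nx (Fs nx n)) ((Fs nx n).sup id + 1) ∉ Fs nx n := by
  intro h
  have h1 : max (nx (Fs nx n)) ((Fs nx n).sup id + 1) ≤ (Fs nx n).sup id :=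
    Finset.le_sup (f := id) h
  have h2 := le_max_right (nx (Fs nx n)) ((Fs nx n).sup id + 1)
  omega

theorem Fs_card (nx : Finset ℕ → ℕ) (n : ℕ) : (Fs nx n).card = n := by
  induction n with
  | zero => rfl
  | succ n ih => rw [Fs, Finset.card_insert_of_notMem (Fs_new nx n), ih]

theorem Fs_mono (nx : Finset ℕ → ℕ) : Monotone (Fs nx) :=
  monotone_nat_of_le_succ fun _ => Finset.subset_insert _ _

theorem Fs_sup_mono (nx : Finset ℕ → ℕ) {m n : ℕ} (h : m ≤ n) :
    (Fs nx m).sup id ≤ (Fs nx n).sup id := Finset.sup_mono (Fs_mono nx h)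

/-- later elements are large -/
theorem Fs_later (nx : Finset ℕ → ℕ) {n m k : ℕ} (hk : k ∈ Fs nx m) (hn : k ∉ Fs nx n) :
    nx (Fs nx n) ≤ k := by
  have hnm : n ≤ m := by
    by_contra hcon
    exact hn (Fs_mono nx (not_le.1 hcon).le hk)
  obtain ⟨d, rfl⟩ := Nat.exists_eq_add_of_le hnm
  clear hnm
  induction d with
  | zero => exact absurd hk hn
  | succ d ih =>
    have hk' : k ∈ insert (max (nx (Fs nx (n + d))) ((Fs nx (n + d)).sup id + 1)) (Fs nx (n + d)) :=
      hk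
    rw [Finset.mem_insert] at hk'
    rcases hk' with hk' | hk'
    · cases d with
      | zero => rw [hk']; exact le_max_left _ _
      | succ d =>
        have h1 : max (nx (Fs nx n)) ((Fs nx n).sup id + 1) ∈ Fs nx (n + (d + 1)) := by
          refine Fs_mono nx (show n + 1 ≤ n + (d + 1) by omega) ?_
          exact Finset.mem_insert_self _ _
        have h2 : max (nx (Fs nx n)) ((Fs nx n).sup id + 1) ≤ (Fs nx (n + (d + 1))).sup id :=
          Finset.le_sup (f := id) h1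
        have h3 := le_max_left (nx (Fs nx n)) ((Fs nx n).sup id + 1)
        have h4 := le_max_right (nx (Fs nx (n + (d + 1)))) ((Fs nx (n + (d + 1))).sup id + 1)
        omega
    · exact ih hk'

theorem exists_S : ∃ S : Set ℕ, (∀ N : ℕ, ∃ k ∈ S, N ≤ k) ∧ ¬ FastDynamo (s.uu S) := by
  obtain ⟨Cx, hCx0, hCx⟩ := exists_cD
  choose ε hε0 hε1 nx hnx using fun F : Finset ℕ =>
    s.nf hCx F (KF F) le_KF (ρ := 1 / ((F.card : ℝ) + 1)) (by positivity)
  refine ⟨{k | ∃ n, k ∈ Fs nx n}, fun N => ?_, ?_⟩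
  · have h1 : N ≤ (Fs nx N).sup id + 1 := by
      by_contra hcon
      have h2 : Fs nx N ⊆ Finset.range (N - 1) := by
        intro k hk
        have : k ≤ (Fs nx N).sup id := Finset.le_sup (f := id) hk
        rw [Finset.mem_range]
        omega
      have h3 := Finset.card_le_card h2
      rw [Fs_card, Finset.card_range] at h3
      omega
    exact ⟨_, ⟨N + 1, Finset.mem_insert_self _ _⟩, h1.trans (le_max_right _ _)⟩
  · rintro ⟨ε₀, hε₀, c₀, hc₀, γ₀, hγ₀, hfast⟩
    obtain ⟨K₀, hK₀⟩ := beat Cx hc₀ hγ₀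
    obtain ⟨N, hN⟩ := exists_nat_gt (1 / ε₀)
    set F := Fs nx (max N K₀) with hF
    have hcard : F.card = max N K₀ := Fs_card nx _
    have hεF : ε F ≤ ε₀ := by
      refine (hε1 F).trans ?_
      rw [hcard, div_le_iff₀ (by positivity)]
      rw [div_lt_iff₀ hε₀] at hN
      have : (N : ℝ) ≤ ((max N K₀ : ℕ) : ℝ) := by exact_mod_cast le_max_left _ _
      nlinarith
    obtain ⟨Bin, B, hBin, hdiv, hpos, hsol, hgrow⟩ := hfast (ε F) (hε0 F) hεF
    have h1 := hnx F {k | ∃ n, k ∈ Fs nx n} (fun k hk => by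
      constructor
      · rintro ⟨m, hm⟩
        by_contra hcon
        exact absurd (Fs_later nx hm hcon) (not_le.2 hk)
      · exact fun h => ⟨_, h⟩) Bin B hBin hsol
    have h2 := hgrow ((3 * 2 ^ KF F : ℕ) : ℝ) (Nat.cast_nonneg _)
    have h3 := hK₀ (KF F) (by
      show K₀ ≤ F.sup id + F.card
      rw [hcard]
      exact (le_max_right N K₀).trans (Nat.le_add_left _ _))
    have h4 : (c₀ * Real.exp (γ₀ * ((3 * 2 ^ KF F : ℕ) : ℝ)) * l2norm Bin) ^ 2
        ≤ l2norm (B ((3 * 2 ^ KF F : ℕ) : ℝ)) ^ 2 :=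
      pow_le_pow_left₀ (by positivity) h2 2
    rw [mul_pow] at h4
    have h5 : 0 < l2norm Bin ^ 2 := by positivity
    have h6 := mul_lt_mul_of_pos_right h3 h5
    linarith

end Sys

end Pool.Agent.N262.FX
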