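import Pool.Agent.N262.FX.Shear
import Pool.Agent.N262.FX.Energy

/-!
# The field is not a fast dynamo
-/

open MeasureTheory Set Filter Topology
open scoped ContDiff NNReal ENNReal
open H459R3.NS Pool.Agent.GR.Flow

namespace Pool.Agent.N262.FX

theorem L2Field.comp {B : V → V} (h : L2Field B) (i : Fin 3) :
    MemLp (fun x => B x i) 2 (volume.restrict cube) :=
  (ContinuousLinearMap.proj (R := ℝ) (φ := fun _ : Fin 3 => ℝ) i).comp_memLp' h.mem

theorem l2norm_sq (B : V → V) : l2norm B ^ 2 = ∫ x in cube, ∑ i, B x i ^ 2 := by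
  unfold l2norm
  rw [Real.sq_sqrt]
  exact integral_nonneg fun x => Finset.sum_nonneg fun i _ => sq_nonneg _

/-- the coordinate functions -/
theorem coord_pd (i m : Fin 3) (x : V) : pd i (fun y : V => y m) x = if m = i then 1 else 0 := by
  unfold pd
  have h : HasFDerivAt (fun y : V => y m) (ContinuousLinearMap.proj (R := ℝ)
      (φ := fun _ : Fin 3 => ℝ) m) x := (ContinuousLinearMap.proj (R := ℝ)
      (φ := fun _ : Fin 3 => ℝ) m).hasFDerivAt
  rw [h.fderiv]
  simp [Pi.single_apply]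

theorem coord_qp (m : Fin 3) : QP (fun y : V => y m) :=
  ⟨contDiff_apply ℝ ℝ m, fun i => ⟨(Pi.single i (1 : ℝ) : V) m, fun _ => rfl⟩⟩

theorem coord_nondeg : Nondeg (fun (m : Fin 3) (y : V) => y m) := by
  refine ⟨1, one_pos, fun x b => ?_⟩
  rw [one_mul]
  refine Finset.sum_le_sum fun m _ => ?_
  simp [coord_pd]

theorem En_coord {B : V → V} (hB : L2Field B) : ∑ m, En (fun y : V => y m) B = l2norm B ^ 2 := by
  rw [l2norm_sq, integral_finsetSum _ fun i _ => (hB.comp i).integrable_sq]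
  refine Finset.sum_congr rfl fun m _ => ?_
  unfold En
  refine integral_congr_ae (ae_of_all _ fun x => ?_)
  simp [coord_pd]

namespace Sys

variable (s : Sys)

/-- the components of the inverse of the flow at time `n` -/
noncomputable def lf (F : Finset ℕ) : ℕ → Fin 3 → V → ℝ
  | 0 => fun m y => y m
  | n + 1 => fun m y => lf F n m (s.G (F : Set ℕ) (ix n) (-1) y)

theorem lf_qp (F : Finset ℕ) (n : ℕ) : ∀ m, QP (s.lf F n m) := by
  induction n with
  | zero => exact coord_qp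
  | succ n ih => exact fun m => (ih m).flow (s.us_sp F (ix n)) (s.G_flow _ _) (-1)

theorem lf_nondeg (F : Finset ℕ) (n : ℕ) : Nondeg (s.lf F n) := by
  induction n with
  | zero => exact coord_nondeg
  | succ n ih => exact ih.flow (s.us_sp F (ix n)) (s.G_flow _ _) (s.lf_qp F n) (-1)

theorem lf_Pn (F : Finset ℕ) (n : ℕ) (m : Fin 3) (x : V) :
    s.lf F n m (s.Pn (F : Set ℕ) n x) = x m := by
  induction n generalizing x with
  | zero => rfl
  | succ n ih =>
    show s.lf F n m (s.G (F : Set ℕ) (ix n) (-1) (s.G (F : Set ℕ) (ix n) 1 _)) = _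
    rw [flow_neg (s.us_lip _ _) (s.G_flow _ _), ih]

theorem chain (F : Finset ℕ) (n : ℕ) : ∃ C : ℝ, 0 ≤ C ∧ ∀ (ε : ℝ), 0 < ε → ε ≤ 1 →
    ∀ (S : Set ℕ), (∀ i x, ‖s.us S i x - s.us (F : Set ℕ) i x‖ ≤ ε) →
    ∀ (Bin : V → V) (B : ℝ → V → V), IsSol ε (s.uu S) Bin B →
      ∑ m, En (s.lf F n m) (B n) ≤ Real.exp (C * ε) * ∑ m, En (fun y : V => y m) (B 0) := by
  induction n with
  | zero =>
    refine ⟨0, le_rfl, fun ε _ _ S _ Bin B _ => ?_⟩
    rw [zero_mul, Real.exp_zero, one_mul, Nat.cast_zero]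
    rfl
  | succ n ih =>
    obtain ⟨C, hC0, hC⟩ := ih
    obtain ⟨D, hD0, hD⟩ := window (s.us_sp F (ix n)) (s.us_div F (ix n))
      (s.G_flow (F : Set ℕ) (ix n)) (s.lf_qp F n) (s.lf_nondeg F n)
    refine ⟨D + C, by positivity, fun ε h0 h1 S hS Bin B hB => ?_⟩
    have h2 := hC ε h0 h1 S hS Bin B hB
    have h3 := hD ε h0 h1 (s.uu S) Bin B (s.uu_admissible S).meas (s.uu_admissible S).bdd hB n
      (Nat.cast_nonneg n) (fun r hr x => by
        rw [s.uu_eq hr.1 hr.2]
        exact hS _ x)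
    rw [Nat.cast_succ]
    refine h3.trans ?_
    rw [add_mul, Real.exp_add, mul_assoc]
    exact mul_le_mul_of_nonneg_left h2 (Real.exp_pos _).le

/-- the bound of the derivative of the cutoff -/
theorem exists_cD : ∃ C : ℝ, 0 ≤ C ∧ ∀ (F : Finset ℕ) (K : ℕ), (∀ k ∈ F, k ≤ K) → ∀ y : ℝ,
    ∃ d : ℝ, HasDerivAt (cshear F K) d y ∧ |d| ≤ C * 2 ^ K := by
  obtain ⟨C, h0, hC⟩ := chs_deriv_bound
  refine ⟨C, h0, fun F K hF y => ⟨∑ k ∈ F, 2 ^ (K - k) * (2 ^ k * deriv chs (2 ^ k * Int.fract y)),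
    ?_, ?_⟩⟩
  · exact HasDerivAt.fun_sum (u := F) (A := fun k y => 2 ^ (K - k) * chk k y)
      (A' := fun k => 2 ^ (K - k) * (2 ^ k * deriv chs (2 ^ k * Int.fract y)))
      (x := y) fun k _ => (chk_deriv k y).const_mul ((2 : ℝ) ^ (K - k))
  · have hz : ∀ k, ¬ (4 < 2 ^ k * Int.fract y ∧ 2 ^ k * Int.fract y < 8) →
        deriv chs (2 ^ k * Int.fract y) = 0 := by
      intro k hk
      rw [not_and_or, not_lt, not_lt] at hk
      have : chs =ᶠ[𝓝 (2 ^ k * Int.fract y)] fun _ => 0 := by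
        rcases hk with hk | hk
        · filter_upwards [Iio_mem_nhds (show 2 ^ k * Int.fract y < 17 / 4 by linarith)] with z hz
          exact chs_zero (Or.inl (le_of_lt hz))
        · filter_upwards [Ioi_mem_nhds (show 7 < 2 ^ k * Int.fract y by linarith)] with z hz
          exact chs_zero (Or.inr (le_of_lt hz))
      rw [this.deriv_eq]
      simp
    by_cases h : ∃ k ∈ F, 4 < 2 ^ k * Int.fract y ∧ 2 ^ k * Int.fract y < 8
    · obtain ⟨k, hk, hs⟩ := h
      rw [Finset.sum_eq_single_of_mem k hk fun l _ hl => ?_]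
      · rw [← mul_assoc, ← pow_add, Nat.sub_add_cancel (hF k hk), abs_mul, mul_comm]
        rw [abs_of_nonneg (by positivity : (0 : ℝ) ≤ 2 ^ K)]
        exact mul_le_mul_of_nonneg_right (hC _) (by positivity)
      · rw [hz l fun hl' => hl (slab_unique (x := fun _ => y) hl' hs), mul_zero, mul_zero]
    · push Not at h
      rw [Finset.sum_eq_zero fun k hk => by
        rw [hz k fun h2 => absurd h2.2 (not_lt.2 (h k hk h2.1)), mul_zero, mul_zero], abs_zero]
      positivity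

theorem lf_final {F : Finset ℕ} {K : ℕ} (hF : ∀ k ∈ F, k ≤ K) (m : Fin 3) (y : V) :
    s.lf F (3 * 2 ^ K) m y = y m - if m = 0 then cshear F K (y 1) else 0 := by
  have h1 := s.lf_Pn F (3 * 2 ^ K) m (y - Pi.single 0 (cshear F K (y 1)))
  rw [s.Pn_shear hF] at h1
  have e : (y - Pi.single 0 (cshear F K (y 1)) : V) 1 = y 1 := by simp
  rw [e, sub_add_cancel] at h1
  rw [h1, Pi.sub_apply, Pi.single_apply]

theorem final_bound {F : Finset ℕ} {K : ℕ} (hF : ∀ k ∈ F, k ≤ K) {C : ℝ}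
    (hC : ∀ y : ℝ, ∃ d : ℝ, HasDerivAt (cshear F K) d y ∧ |d| ≤ C * 2 ^ K) {B : V → V}
    (hB : L2Field B) :
    l2norm B ^ 2 ≤ (2 + 2 * (C * 2 ^ K) ^ 2) * ∑ m, En (s.lf F (3 * 2 ^ K) m) B := by
  choose d hd hd' using hC
  have hcont : Continuous d := by
    have h1 : ContDiff ℝ ∞ (cshear F K) :=
      ContDiff.sum fun k _ => contDiff_const.mul (chk_smooth k)
    have h2 : d = deriv (cshear F K) := funext fun y => (hd y).deriv.symm
    rw [h2]
    exact h1.continuous_deriv (by norm_cast)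
  have e0 : ∀ x, ∑ i, B x i * pd i (s.lf F (3 * 2 ^ K) 0) x = B x 0 - d (x 1) * B x 1 := by
    intro x
    have e : s.lf F (3 * 2 ^ K) 0 = fun y => y 0 - cshear F K (y 1) := by
      funext y; rw [s.lf_final hF, if_pos rfl]
    have h1 : HasFDerivAt (fun y : V => y 0 - cshear F K (y 1))
        (ContinuousLinearMap.proj (R := ℝ) (φ := fun _ : Fin 3 => ℝ) 0 -
          (d (x 1)) • ContinuousLinearMap.proj (R := ℝ) (φ := fun _ : Fin 3 => ℝ) 1) x := by
      refine (ContinuousLinearMap.proj (R := ℝ) (φ := fun _ : Fin 3 => ℝ) 0).hasFDerivAt.sub ?_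
      exact (hd (x 1)).comp_hasFDerivAt x
        (ContinuousLinearMap.proj (R := ℝ) (φ := fun _ : Fin 3 => ℝ) 1).hasFDerivAt
    have h2 : ∀ i, pd i (s.lf F (3 * 2 ^ K) 0) x =
        (if i = 0 then 1 else 0) - d (x 1) * (if i = 1 then 1 else 0) := by
      intro i
      unfold pd
      rw [e, h1.fderiv]
      simp [Pi.single_apply, eq_comm]
    rw [Fin.sum_univ_three, h2, h2, h2]
    simp
    ring
  have e1 : ∀ m : Fin 3, m ≠ 0 → ∀ x, ∑ i, B x i * pd i (s.lf F (3 * 2 ^ K) m) x = B x m := by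
    intro m hm x
    have e : s.lf F (3 * 2 ^ K) m = fun y => y m := by
      funext y; rw [s.lf_final hF, if_neg hm, sub_zero]
    rw [e]
    simp [coord_pd]
  have hbd : ∀ x : V, |d (x 1)| ≤ C * 2 ^ K := fun x => hd' _
  have i0 : Integrable (fun x => (B x 0 - d (x 1) * B x 1) ^ 2) (volume.restrict cube) := by
    have hm : MemLp (fun x => d (x 1) * B x 1) 2 (volume.restrict cube) := by
      refine MemLp.of_le_mul (c := C * 2 ^ K) (hB.comp 1)
        ((hcont.comp (continuous_apply 1)).aestronglyMeasurable.mul (hB.comp 1).1)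
        (ae_of_all _ fun x => ?_)
      rw [norm_mul]
      exact mul_le_mul_of_nonneg_right (hbd x) (norm_nonneg _)
    exact ((hB.comp 0).sub hm).integrable_sq
  have i1 := (hB.comp 1).integrable_sq
  have i2 := (hB.comp 2).integrable_sq
  have hsum : ∑ m, En (s.lf F (3 * 2 ^ K) m) B
      = ∫ x in cube, ((B x 0 - d (x 1) * B x 1) ^ 2 + B x 1 ^ 2 + B x 2 ^ 2) := by
    have i01 : Integrable (fun x => (B x 0 - d (x 1) * B x 1) ^ 2 + B x 1 ^ 2)
      (volume.restrict cube) := i0.add i1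
    rw [integral_add i01 i2, integral_add i0 i1, Fin.sum_univ_three]
    unfold En
    simp_rw [e0, e1 1 (by decide), e1 2 (by decide)]
  rw [hsum, l2norm_sq, ← integral_const_mul]
  refine integral_mono (integrable_finsetSum _ fun i _ => (hB.comp i).integrable_sq)
    (((i0.add i1).add i2).const_mul _) fun x => ?_
  simp only [Fin.sum_univ_three]
  have h1 : d (x 1) ^ 2 ≤ (C * 2 ^ K) ^ 2 := sq_le_sq' (by linarith [abs_le.1 (hbd x)]) (abs_le.1 (hbd x)).2
  set a := B x 0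
  set b := B x 1
  set c := B x 2
  set D := (C * 2 ^ K) ^ 2
  have hD : 0 ≤ D := by positivity
  have h2 : a ^ 2 ≤ 2 * (a - d (x 1) * b) ^ 2 + 2 * (d (x 1) ^ 2 * b ^ 2) := by
    nlinarith [sq_nonneg (a - 2 * (d (x 1) * b))]
  have h3 : d (x 1) ^ 2 * b ^ 2 ≤ D * b ^ 2 := mul_le_mul_of_nonneg_right h1 (sq_nonneg _)
  have h4 : 0 ≤ D * (a - d (x 1) * b) ^ 2 := by positivity
  have h5 : 0 ≤ D * c ^ 2 := by positivity
  nlinarith [sq_nonneg b, sq_nonneg c]

end Sys

end Pool.Agent.N262.FX
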