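import Pool.Agent.N262.FX.Defs2

/-!
# Flows of Lipschitz fields: uniqueness, fixed planes, Lipschitz bounds
-/

open MeasureTheory Set Filter Topology
open scoped ContDiff NNReal ENNReal
open H459R3.NS Pool.Agent.GR.Flow

namespace Pool.Agent.N262.FX

section gen

variable {v : V → V} {K : ℝ≥0} (hK : LipschitzWith K v) {g : ℝ → V → V} (hg : IsFlowOf v g)

include hK hg in
/-- a curve which solves the equation on `[0, T]` is an orbit of the flow -/
theorem flow_curve {T : ℝ} {γ : ℝ → V} (hc : ContinuousOn γ (Icc 0 T))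
    (hd : ∀ t ∈ Ico 0 T, HasDerivWithinAt γ (v (γ t)) (Ici t) t) {t : ℝ} (ht : t ∈ Icc 0 T) :
    g t (γ 0) = γ t := by
  have h := ODE_solution_unique_of_mem_Icc_right (v := fun _ => v) (s := fun _ => univ) (K := K)
    (f := fun t => g t (γ 0)) (g := γ) (a := 0) (b := T)
    (fun t _ => hK.lipschitzOnWith) (hg.continuous _).continuousOn
    (fun t _ => (hg.deriv _ t).hasDerivWithinAt) (fun t _ => trivial) hc hd (fun t _ => trivial)
    (by rw [hg.zero])
  exact h ht

include hK hg in
theorem flow_fixed {x : V} (hx : v x = 0) (t : ℝ) : g t x = x := by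
  have h1 : (fun t => g t x) = fun _ => x := by
    refine ODE_solution_unique_univ (v := fun _ => v) (s := fun _ => univ) (K := K) (t₀ := 0)
      (fun t => hK.lipschitzOnWith) (fun t => ⟨hg.deriv _ t, trivial⟩)
      (fun t => ⟨?_, trivial⟩) (hg.zero x)
    rw [hx]
    exact hasDerivAt_const t x
  exact congrFun h1 t

include hK hg in
theorem flow_neg (t : ℝ) (x : V) : g (-t) (g t x) = x := by
  rw [← hg.add hK, neg_add_cancel, hg.zero]

include hK hg in
theorem flow_neg' (t : ℝ) (x : V) : g t (g (-t) x) = x := by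
  rw [← hg.add hK, add_neg_cancel, hg.zero]

include hK hg in
theorem flow_fixed_iff {t : ℝ} {x : V} (h : v (g t x) = 0) : g t x = x := by
  have h1 := flow_fixed hK hg h (-t)
  rw [flow_neg hK hg] at h1
  exact h1.symm

include hK hg in
/-- orbits do not cross planes on which the field vanishes -/
theorem flow_lt {j : Fin 3} {c : ℝ} (h : ∀ z : V, z j = c → v z = 0) {x : V} (hx : x j < c)
    (t : ℝ) : g t x j < c := by
  by_contra hcon
  push Not at hcon
  have hcont : Continuous fun s => g s x j := (continuous_apply j).comp (hg.continuous x)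
  have h0 : g 0 x j < c := by rw [hg.zero]; exact hx
  have : ∃ s, g s x j = c := by
    have := mem_range_of_exists_le_of_exists_ge hcont ⟨0, h0.le⟩ ⟨t, hcon⟩
    exact this
  obtain ⟨s, hs⟩ := this
  have h1 := flow_fixed_iff hK hg (h _ hs)
  rw [h1] at hs
  exact hx.ne hs

include hK hg in
theorem flow_gt {j : Fin 3} {c : ℝ} (h : ∀ z : V, z j = c → v z = 0) {x : V} (hx : c < x j)
    (t : ℝ) : c < g t x j := by
  by_contra hcon
  push Not at hcon
  have hcont : Continuous fun s => g s x j := (continuous_apply j).comp (hg.continuous x)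
  have h0 : c < g 0 x j := by rw [hg.zero]; exact hx
  have : ∃ s, g s x j = c := by
    have := mem_range_of_exists_le_of_exists_ge hcont ⟨t, hcon⟩ ⟨0, h0.le⟩
    exact this
  obtain ⟨s, hs⟩ := this
  have h1 := flow_fixed_iff hK hg (h _ hs)
  rw [h1] at hs
  exact hx.ne' hs

include hK hg in
theorem flow_ge {j : Fin 3} {c : ℝ} (h : ∀ z : V, z j = c → v z = 0) {x : V} (hx : c ≤ x j)
    (t : ℝ) : c ≤ g t x j := by
  rcases hx.lt_or_eq with h1 | h1
  · exact (flow_gt hK hg h h1 t).le
  · rw [flow_fixed hK hg (h x h1.symm)]; exact hx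

include hK hg in
/-- conservation of the integer part of the coordinates -/
theorem flow_floor {N : ℝ} (hN : 0 < N) (h : ∀ z : V, (∃ (j : Fin 3) (m : ℤ), N * z j = m) →
    v z = 0) (x : V) (j : Fin 3) (t : ℝ) : ⌊N * g t x j⌋ = ⌊N * x j⌋ := by
  rw [Int.floor_eq_iff]
  have key : ∀ m : ℤ, ∀ z : V, z j = m / N → v z = 0 := fun m z hz =>
    h z ⟨j, m, by rw [hz]; field_simp⟩
  constructor
  · have h1 : (⌊N * x j⌋ : ℝ) / N ≤ x j := by
      rw [div_le_iff₀ hN, mul_comm]; exact Int.floor_le _
    have h2 := flow_ge hK hg (key ⌊N * x j⌋) h1 t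
    rw [div_le_iff₀ hN] at h2
    rw [mul_comm N (g t x j)]
    exact h2
  · have h1 : x j < ((⌊N * x j⌋ + 1 : ℤ) : ℝ) / N := by
      rw [lt_div_iff₀ hN, mul_comm]; push_cast; exact Int.lt_floor_add_one _
    have h2 := flow_lt hK hg (key (⌊N * x j⌋ + 1)) h1 t
    rw [lt_div_iff₀ hN] at h2
    push_cast at h2
    rw [mul_comm N (g t x j)]
    exact h2

include hK hg in
/-- the flow maps are Lipschitz -/
theorem flow_lipschitz {t : ℝ} (ht : 0 ≤ t) :
    LipschitzWith (Real.toNNReal (Real.exp (K * t))) (g t) := by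
  refine LipschitzWith.of_dist_le_mul fun x y => ?_
  have h := dist_le_of_trajectories_ODE (v := fun _ => v) (K := K) (f := fun t => g t x)
    (g := fun t => g t y) (a := 0) (b := t) (δ := dist x y)
    (fun t => hK) (hg.continuous _).continuousOn
    (fun t _ => (hg.deriv _ t).hasDerivWithinAt) (hg.continuous _).continuousOn
    (fun t _ => (hg.deriv _ t).hasDerivWithinAt) (by rw [hg.zero, hg.zero]) t ⟨ht, le_rfl⟩
  rw [sub_zero] at h
  rw [Real.coe_toNNReal _ (Real.exp_pos _).le, mul_comm]
  exact h

theorem neg_flow (hg : IsFlowOf v g) : IsFlowOf (fun x => -v x) (fun t x => g (-t) x) where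
  zero x := by simp only [neg_zero]; exact hg.zero x
  deriv x t := by
    have h := (hg.deriv x (-t)).scomp t ((hasDerivAt_id t).neg)
    simp only [neg_smul, one_smul] at h
    exact h

include hK hg in
theorem flow_continuous (t : ℝ) : Continuous (g t) := by
  rcases le_total 0 t with ht | ht
  · exact (flow_lipschitz hK hg ht).continuous
  · have h1 : LipschitzWith K (fun x => -v x) := hK.neg
    have h2 := flow_lipschitz h1 (neg_flow hg) (t := -t) (by linarith)
    simp only [neg_neg] at h2
    exact h2.continuous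

include hK hg in
theorem flow_bijective (t : ℝ) : Function.Bijective (g t) :=
  Function.bijective_iff_has_inverse.2 ⟨g (-t), flow_neg hK hg t, flow_neg' hK hg t⟩

include hK hg in
theorem flow_shift (hp : Per v) (t : ℝ) (x : V) (i : Fin 3) :
    g t (x + Pi.single i 1) = g t x + Pi.single i 1 := by
  have h1 : (fun t => g t (x + Pi.single i 1)) = fun t => g t x + Pi.single i 1 := by
    refine ODE_solution_unique_univ (v := fun _ => v) (s := fun _ => univ) (K := K) (t₀ := 0)
      (fun t => hK.lipschitzOnWith) (fun t => ⟨hg.deriv _ t, trivial⟩)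
      (fun t => ⟨?_, trivial⟩) ?_
    · rw [hp]
      exact (hg.deriv x t).add_const _
    · rw [hg.zero, hg.zero]
  exact congrFun h1 t

end gen

/-- shifts by integer vectors -/
theorem shift_int {g : V → V} (h : ∀ x (i : Fin 3), g (x + Pi.single i 1) = g x + Pi.single i 1)
    (x : V) (m : K3) : g (x + fun i => (m i : ℝ)) = g x + fun i => (m i : ℝ) := by
  have hp : Per (fun x => g x - x) := fun i x => by
    simp only [h]
    abel
  have h1 := hp.int m x
  have h2 : g (x + fun i => (m i : ℝ)) = (g x - x) + (x + fun i => (m i : ℝ)) := by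
    rw [← h1]; abel
  rw [h2]; abel

end Pool.Agent.N262.FX
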