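import Pool.Agent.N262.FX.Shear

/-!
# Explicit orbits in the core of a slab
-/

open MeasureTheory Set Filter Topology
open scoped ContDiff NNReal ENNReal
open H459R3.NS Pool.Agent.GR.Flow

namespace Pool.Agent.N262.FX

namespace Sys

variable (s : Sys)

/-- the time one maps of the cell fields compose to the horseshoe -/
def HorseHyp : Prop := ∀ (X : V) (σ : ℝ), (σ = 1 ∨ σ = -1) → |X 0| ≤ 1 / 4 → 1 / 4 ≤ σ * X 1 →
  σ * X 1 ≤ 3 / 4 → |X 2| ≤ 3 / 4 →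
  s.Ψ₁ 1 (s.Ψ₀ 1 (cp X)) = cp ![4 * X 0, 4 * X 1 - 2 * σ, X 2 / 16 + σ / 2]

theorem pt_eq (k j : ℕ) (X : V) :
    pt k j X = ((2 : ℝ) ^ k)⁻¹ • (cp X + fun i => (((![(j : ℤ), 5, 0] : K3) i : ℤ) : ℝ)) := by
  funext i
  simp only [pt, cp, Pi.smul_apply, Pi.add_apply, smul_eq_mul]
  rw [div_eq_inv_mul]
  congr 1
  fin_cases i <;> simp <;> ring

variable {s} in
theorem orbit_step (hh : s.HorseHyp) {k j : ℕ} (hk : 3 ≤ k) (hj : j < 2 ^ (k - 1)) {X : V}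
    (h0 : |X 0| < 1 / 4) (h1 : 1 / 4 < |X 1|) (h1' : |X 1| < 3 / 4) (h2 : |X 2| < 3 / 4) :
    s.Ak k (pt k j X) = pt k (j + 1) (Hs X) := by
  obtain ⟨σ, hσ, hσ', hs1, hs2⟩ : ∃ σ : ℝ, (σ = 1 ∨ σ = -1) ∧
      σ = (if 0 < X 1 then 1 else -1) ∧ 1 / 4 ≤ σ * X 1 ∧ σ * X 1 ≤ 3 / 4 := by
    by_cases h : 0 < X 1
    · rw [abs_of_pos h] at h1 h1'
      exact ⟨1, Or.inl rfl, by rw [if_pos h], by linarith, by linarith⟩
    · rw [abs_of_nonpos (not_lt.1 h)] at h1 h1'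
      exact ⟨-1, Or.inr rfl, by rw [if_neg h], by linarith, by linarith⟩
  have hH : s.hE (cp X) = cp (Hs X) := by
    show s.Ψ₁ 1 (s.Ψ₀ 1 (cp X)) = _
    rw [hh X σ hσ h0.le hs1 hs2 h2.le, Hs, hσ']
  rw [abs_lt] at h0 h2
  have h1'' := h1'
  rw [abs_lt] at h1''
  have f0 : ⌊(cp X + fun i => (((![(j : ℤ), 5, 0] : K3) i : ℤ) : ℝ) : V) 0⌋ = j := by
    rw [Int.floor_eq_iff]
    simp only [cp, Pi.add_apply, Matrix.cons_val_zero]
    push_cast
    constructor <;> linarith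
  have f1 : ⌊(cp X + fun i => (((![(j : ℤ), 5, 0] : K3) i : ℤ) : ℝ) : V) 1⌋ = 5 := by
    rw [Int.floor_eq_iff]
    simp only [cp, Pi.add_apply, Matrix.cons_val_one, Matrix.cons_val_zero]
    push_cast
    constructor <;> linarith
  have h8 : (8 : ℤ) ≤ 2 ^ k := by
    calc (8 : ℤ) = 2 ^ 3 := by norm_num
      _ ≤ 2 ^ k := pow_le_pow_right₀ (by norm_num) hk
  have h5 : (5 : ℤ) % 2 ^ k = 5 := Int.emod_eq_of_lt (by norm_num) (by linarith)
  have hj1 : (j : ℤ) < 2 ^ (k - 1) := by exact_mod_cast hj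
  have hj2 : (j : ℤ) < 2 ^ k := lt_of_lt_of_le hj1 (pow_le_pow_right₀ (by norm_num) (by omega))
  have hs : sgk k (j : ℤ) = 1 := by
    unfold sgk
    rw [Int.emod_eq_of_lt (by positivity) hj2, if_pos hj1]
  rw [pt_eq, s.Ak_core (by rw [f1]; exact h5), f0, hs, zpow_one, s.hE_good.2, hH, pt_eq]
  congr 1
  rw [add_assoc]
  congr 1
  funext i
  fin_cases i <;> simp

variable {s} in
theorem orbit_iter (hh : s.HorseHyp) {k : ℕ} (hk : 3 ≤ k) : ∀ (n j : ℕ) (_ : j + n ≤ 2 ^ (k - 1))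
    (X : V) (_ : X ∈ Reg n), (s.Ak k)^[n] (pt k j X) = pt k (j + n) (Hs^[n] X) := by
  intro n
  induction n with
  | zero => intro j _ X _; rfl
  | succ n ih =>
    intro j hj X hX
    obtain ⟨h0, h1, h1', h2, h3⟩ := hX
    rw [Function.iterate_succ_apply, orbit_step hh hk (by omega) h0 h1 h1' h2,
      ih (j + 1) (by omega) _ h3, Function.iterate_succ_apply]
    congr 1
    omega

theorem pt_slab {k j : ℕ} (hk : 3 ≤ k) {X : V} (h1 : |X 1| < 1) : slab k (pt k j X) := by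
  apply slab_of_core
  rw [abs_lt] at h1
  have h8 : (8 : ℤ) ≤ 2 ^ k := by
    calc (8 : ℤ) = 2 ^ 3 := by norm_num
      _ ≤ 2 ^ k := pow_le_pow_right₀ (by norm_num) hk
  have h5 : (5 : ℤ) % 2 ^ k = 5 := Int.emod_eq_of_lt (by norm_num) (by linarith)
  have : fl k (pt k j X) 1 = 5 := by
    rw [pt_eq, fl_inv, Int.floor_eq_iff]
    simp only [cp, Pi.add_apply, Matrix.cons_val_one, Matrix.cons_val_zero]
    push_cast
    constructor <;> linarith
  rw [this, h5]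

theorem Reg_one {n : ℕ} {X : V} (h : X ∈ Reg n) : |X 1| < 1 := by
  cases n with
  | zero => exact h.2.1
  | succ n => exact h.2.2.1.trans (by norm_num)

variable {s} in
/-- the flow at time `3 n` on the region `Reg n` of the first cell -/
theorem orbit (hh : s.HorseHyp) {S : Set ℕ} {k : ℕ} (hk : 3 ≤ k) (hkS : k ∈ S) {n : ℕ}
    (hn : n ≤ 2 ^ (k - 1)) {X : V} (hX : X ∈ Reg n) :
    s.Pn S (3 * n) (pt k 0 X) = pt k n (Hs^[n] X) := by
  rw [(s.Pn_slab hkS (pt_slab hk (Reg_one hX)) n).1, orbit_iter hh hk n 0 (by omega) X hX, zero_add]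

end Sys

end Pool.Agent.N262.FX
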