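import Pool.Agent.N262.FX.Time

/-!
# The flow of finitely many slabs over a long period is a shear
-/

open MeasureTheory Set Filter Topology
open scoped ContDiff NNReal ENNReal
open H459R3.NS Pool.Agent.GR.Flow

namespace Pool.Agent.N262.FX

/-- permutations which preserve integer parts and commute with integer shifts -/
def goodPerm : Subgroup (Equiv.Perm V) where
  carrier := {p | (∀ ξ j, ⌊p ξ j⌋ = ⌊ξ j⌋) ∧
    ∀ ξ (m : K3), p (ξ + fun i => (m i : ℝ)) = p ξ + fun i => (m i : ℝ)}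
  mul_mem' := by
    rintro p q ⟨hp, hp'⟩ ⟨hq, hq'⟩
    refine ⟨fun ξ j => ?_, fun ξ m => ?_⟩
    · rw [Equiv.Perm.mul_apply, hp, hq]
    · rw [Equiv.Perm.mul_apply, hq', hp', Equiv.Perm.mul_apply]
  one_mem' := ⟨fun _ _ => rfl, fun _ _ => rfl⟩
  inv_mem' := by
    rintro p ⟨hp, hp'⟩
    refine ⟨fun ξ j => ?_, fun ξ m => ?_⟩
    · have := hp (p⁻¹ ξ) j
      rw [show p (p⁻¹ ξ) = ξ from p.apply_symm_apply ξ] at this
      exact this.symm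
    · rw [Equiv.Perm.inv_eq_iff_eq, hp', show p (p⁻¹ ξ) = ξ from p.apply_symm_apply ξ]

/-- the direction of the action at the integer `m` -/
def sgk (k : ℕ) (m : ℤ) : ℤ := if m % 2 ^ k < 2 ^ (k - 1) then 1 else -1

theorem sgk_add (k : ℕ) (m : ℤ) : sgk k (m + 2 ^ k) = sgk k m := by
  unfold sgk
  rw [Int.add_emod_right]

/-- the total action -/
def ek (k : ℕ) (a : ℤ) (n : ℕ) : ℤ := ∑ i ∈ Finset.range n, sgk k (a + i)

theorem ek_succ (k : ℕ) (a : ℤ) (n : ℕ) : ek k a (n + 1) = sgk k (a + n) + ek k a n := by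
  rw [ek, Finset.sum_range_succ, add_comm]; rfl

theorem ek_shift (k : ℕ) (a : ℤ) : ek k (a + 1) (2 ^ k) = ek k a (2 ^ k) := by
  have h1 : ek k a (2 ^ k + 1) = sgk k (a + (2 ^ k : ℕ)) + ek k a (2 ^ k) := ek_succ k a _
  have h2 : ek k a (2 ^ k + 1) = ek k (a + 1) (2 ^ k) + sgk k a := by
    rw [ek, Finset.sum_range_succ']
    simp only [Nat.cast_zero, add_zero]
    congr 1
    refine Finset.sum_congr rfl fun i _ => ?_
    push_cast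
    ring_nf
  have h3 : sgk k (a + (2 ^ k : ℕ)) = sgk k a := by push_cast; exact sgk_add k a
  rw [h3] at h1
  linarith

theorem ek_zero_start {k : ℕ} (hk : 1 ≤ k) : ek k 0 (2 ^ k) = 0 := by
  have h2 : (2 : ℕ) ^ k = 2 ^ (k - 1) + 2 ^ (k - 1) := by
    rw [← two_mul, ← pow_succ']
    congr 1
    omega
  unfold ek
  rw [h2, Finset.sum_range_add]
  have e1 : ∀ i ∈ Finset.range (2 ^ (k - 1)), sgk k (0 + (i : ℤ)) = 1 := by
    intro i hi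
    rw [Finset.mem_range] at hi
    unfold sgk
    rw [if_pos]
    rw [zero_add, Int.emod_eq_of_lt (by positivity)]
    · exact_mod_cast hi
    · have : i < 2 ^ k := by omega
      exact_mod_cast this
  have e2 : ∀ i ∈ Finset.range (2 ^ (k - 1)), sgk k (0 + ((2 ^ (k - 1) + i : ℕ) : ℤ)) = -1 := by
    intro i hi
    rw [Finset.mem_range] at hi
    unfold sgk
    rw [if_neg]
    rw [zero_add, Int.emod_eq_of_lt (by positivity)]
    · push_cast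
      have : (0 : ℤ) ≤ i := by positivity
      linarith
    · have : 2 ^ (k - 1) + i < 2 ^ k := by omega
      exact_mod_cast this
  rw [Finset.sum_congr rfl e1, Finset.sum_congr rfl e2]
  simp

theorem ek_full {k : ℕ} (hk : 1 ≤ k) (a : ℤ) : ek k a (2 ^ k) = 0 := by
  have h : ∀ a : ℤ, ek k a (2 ^ k) = ek k 0 (2 ^ k) := by
    intro a
    induction a using Int.induction_on with
    | zero => rfl
    | succ n ih => rw [ek_shift, ih]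
    | pred n ih =>
      rw [← ih, ← ek_shift k (-(n : ℤ) - 1)]
      congr 1
      ring
  rw [h, ek_zero_start hk]

namespace Sys

variable (s : Sys)

/-- the horseshoe permutation -/
noncomputable def hE : Equiv.Perm V where
  toFun ξ := s.Ψ₁ 1 (s.Ψ₀ 1 ξ)
  invFun ξ := s.Ψ₀ (-1) (s.Ψ₁ (-1) ξ)
  left_inv ξ := by
    obtain ⟨K, hK⟩ := cf_lip s.c0
    obtain ⟨K', hK'⟩ := cf_lip s.c1
    show s.Ψ₀ (-1) (s.Ψ₁ (-1) (s.Ψ₁ 1 (s.Ψ₀ 1 ξ))) = ξ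
    rw [flow_neg hK' s.f1, flow_neg hK s.f0]
  right_inv ξ := by
    obtain ⟨K, hK⟩ := cf_lip s.c0
    obtain ⟨K', hK'⟩ := cf_lip s.c1
    show s.Ψ₁ 1 (s.Ψ₀ 1 (s.Ψ₀ (-1) (s.Ψ₁ (-1) ξ))) = ξ
    rw [flow_neg' hK s.f0, flow_neg' hK' s.f1]

theorem hE_good : s.hE ∈ goodPerm := by
  obtain ⟨K, hK⟩ := cf_lip s.c0
  obtain ⟨K', hK'⟩ := cf_lip s.c1
  refine ⟨fun ξ j => ?_, fun ξ m => ?_⟩
  · show ⌊s.Ψ₁ 1 (s.Ψ₀ 1 ξ) j⌋ = _
    rw [cf_floor s.c1 s.f1, cf_floor s.c0 s.f0]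
  · show s.Ψ₁ 1 (s.Ψ₀ 1 _) = _
    rw [shift_int (g := s.Ψ₀ 1) (flow_shift hK s.f0 s.c0.per 1),
      shift_int (g := s.Ψ₁ 1) (flow_shift hK' s.f1 s.c1.per 1)]
    rfl

/-- one period in the slab `k` -/
noncomputable def Ak (k : ℕ) (x : V) : V := gd k 1 (ga k s.Ψ₁ s.Ψ₀ 1 (ga k s.Ψ₀ s.Ψ₁ 1 x))

theorem scale_scale (k : ℕ) (ξ : V) : (2 : ℝ) ^ k • (((2 : ℝ) ^ k)⁻¹ • ξ) = ξ := by
  rw [smul_smul, mul_inv_cancel₀ (by positivity), one_smul]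

theorem scale_scale' (k : ℕ) (x : V) : ((2 : ℝ) ^ k)⁻¹ • ((2 : ℝ) ^ k • x) = x := by
  rw [smul_smul, inv_mul_cancel₀ (by positivity), one_smul]

theorem fl_inv (k : ℕ) (ξ : V) (j : Fin 3) : fl k (((2 : ℝ) ^ k)⁻¹ • ξ) j = ⌊ξ j⌋ := by
  show ⌊(2 : ℝ) ^ k * ((((2 : ℝ) ^ k)⁻¹ • ξ) j)⌋ = _
  rw [Pi.smul_apply, smul_eq_mul, mul_inv_cancel_left₀ (by positivity)]

theorem chk_core {k : ℕ} {x : V} (h : fl k x 1 % 2 ^ k = 5) : chk k (x 1) = 1 := by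
  rw [fl_emod, Int.floor_eq_iff] at h
  push_cast at h
  exact chs_one (by linarith [h.1]) (by linarith [h.2])

theorem gd_core {k : ℕ} {ξ : V} (h : ⌊ξ 1⌋ % 2 ^ k = 5) :
    gd k 1 (((2 : ℝ) ^ k)⁻¹ • ξ) = ((2 : ℝ) ^ k)⁻¹ • (ξ + Pi.single 0 1) := by
  rw [gd, chk_core (by rw [fl_inv]; exact h), smul_add]
  congr 1
  funext i
  simp only [Pi.single_apply, Pi.smul_apply, smul_eq_mul]
  split_ifs <;> ring

/-- one period in the core -/
theorem Ak_core {k : ℕ} {ξ : V} (h : ⌊ξ 1⌋ % 2 ^ k = 5) :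
    s.Ak k (((2 : ℝ) ^ k)⁻¹ • ξ)
      = ((2 : ℝ) ^ k)⁻¹ • ((s.hE ^ sgk k ⌊ξ 0⌋) ξ + Pi.single 0 1) := by
  by_cases hs : ⌊ξ 0⌋ % 2 ^ k < 2 ^ (k - 1)
  · have hP : isP k (fl k (((2 : ℝ) ^ k)⁻¹ • ξ)) := ⟨by rw [fl_inv]; exact h, by rw [fl_inv]; exact hs⟩
    have e1 : ga k s.Ψ₀ s.Ψ₁ 1 (((2 : ℝ) ^ k)⁻¹ • ξ) = ((2 : ℝ) ^ k)⁻¹ • s.Ψ₀ 1 ξ := by
      rw [ga, if_pos hP, scale_scale]
    have hP2 : isP k (fl k (((2 : ℝ) ^ k)⁻¹ • s.Ψ₀ 1 ξ)) := by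
      constructor
      · rw [fl_inv, cf_floor s.c0 s.f0]; exact h
      · rw [fl_inv, cf_floor s.c0 s.f0]; exact hs
    have e2 : ga k s.Ψ₁ s.Ψ₀ 1 (((2 : ℝ) ^ k)⁻¹ • s.Ψ₀ 1 ξ)
        = ((2 : ℝ) ^ k)⁻¹ • s.Ψ₁ 1 (s.Ψ₀ 1 ξ) := by
      rw [ga, if_pos hP2, scale_scale]
    have h3 : ⌊s.Ψ₁ 1 (s.Ψ₀ 1 ξ) 1⌋ % 2 ^ k = 5 := by
      rw [cf_floor s.c1 s.f1, cf_floor s.c0 s.f0]; exact h
    rw [Ak, e1, e2, gd_core h3, sgk, if_pos hs, zpow_one]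
    rfl
  · have hP : isM k (fl k (((2 : ℝ) ^ k)⁻¹ • ξ)) := ⟨by rw [fl_inv]; exact h, by rw [fl_inv]; exact hs⟩
    have hn : ¬ isP k (fl k (((2 : ℝ) ^ k)⁻¹ • ξ)) := fun h2 => hP.2 h2.2
    have e1 : ga k s.Ψ₀ s.Ψ₁ 1 (((2 : ℝ) ^ k)⁻¹ • ξ) = ((2 : ℝ) ^ k)⁻¹ • s.Ψ₁ (-1) ξ := by
      rw [ga, if_neg hn, if_pos hP, scale_scale]
    have hP2 : isM k (fl k (((2 : ℝ) ^ k)⁻¹ • s.Ψ₁ (-1) ξ)) := by
      constructor
      · rw [fl_inv, cf_floor s.c1 s.f1]; exact h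
      · rw [fl_inv, cf_floor s.c1 s.f1]; exact hs
    have hn2 : ¬ isP k (fl k (((2 : ℝ) ^ k)⁻¹ • s.Ψ₁ (-1) ξ)) := fun h2 => hP2.2 h2.2
    have e2 : ga k s.Ψ₁ s.Ψ₀ 1 (((2 : ℝ) ^ k)⁻¹ • s.Ψ₁ (-1) ξ)
        = ((2 : ℝ) ^ k)⁻¹ • s.Ψ₀ (-1) (s.Ψ₁ (-1) ξ) := by
      rw [ga, if_neg hn2, if_pos hP2, scale_scale]
    have h3 : ⌊s.Ψ₀ (-1) (s.Ψ₁ (-1) ξ) 1⌋ % 2 ^ k = 5 := by
      rw [cf_floor s.c0 s.f0, cf_floor s.c1 s.f1]; exact h
    rw [Ak, e1, e2, gd_core h3, sgk, if_neg hs, zpow_neg_one]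
    rfl

theorem Ak_iter {k : ℕ} {ξ : V} (h : ⌊ξ 1⌋ % 2 ^ k = 5) (n : ℕ) :
    (s.Ak k)^[n] (((2 : ℝ) ^ k)⁻¹ • ξ)
      = ((2 : ℝ) ^ k)⁻¹ • ((s.hE ^ ek k ⌊ξ 0⌋ n) ξ + Pi.single 0 (n : ℝ)) := by
  induction n with
  | zero =>
    simp [ek]
  | succ n ih =>
    rw [Function.iterate_succ_apply', ih]
    obtain ⟨hg1, hg2⟩ := goodPerm.zpow_mem s.hE_good (ek k ⌊ξ 0⌋ n)
    set ζ := (s.hE ^ ek k ⌊ξ 0⌋ n) ξ with hζ
    have hsingle : (Pi.single 0 (n : ℝ) : V) = fun i => (((Pi.single 0 (n : ℤ) : K3) i : ℤ) : ℝ) := by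
      funext i
      simp only [Pi.single_apply]
      split_ifs <;> simp
    have h0 : ⌊(ζ + Pi.single 0 (n : ℝ) : V) 0⌋ = ⌊ξ 0⌋ + n := by
      rw [Pi.add_apply, Pi.single_eq_same]
      have := hg1 ξ 0
      rw [← hζ] at this
      rw [Int.floor_add_natCast, this]
    have h1 : ⌊(ζ + Pi.single 0 (n : ℝ) : V) 1⌋ % 2 ^ k = 5 := by
      rw [Pi.add_apply, Pi.single_eq_of_ne (by decide), add_zero]
      have := hg1 ξ 1
      rw [← hζ] at this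
      rw [this]; exact h
    rw [s.Ak_core h1, h0]
    obtain ⟨_, hs2⟩ := goodPerm.zpow_mem s.hE_good (sgk k (⌊ξ 0⌋ + n))
    rw [hsingle, hs2, ← hsingle, hζ, ← Equiv.Perm.mul_apply, ← zpow_add, ek_succ]
    congr 1
    rw [add_assoc]
    congr 1
    funext i
    simp only [Pi.add_apply, Pi.single_apply]
    split_ifs <;> push_cast <;> ring

theorem gd_noncore {k : ℕ} {x : V} (h : ¬ fl k x 1 % 2 ^ k = 5) :
    s.Ak k x = gd k 1 x := by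
  have e : ∀ Ψ Ψ' : ℝ → V → V, ga k Ψ Ψ' 1 x = x := fun Ψ Ψ' => by
    rw [ga, if_neg fun h2 => h h2.1, if_neg fun h2 => h h2.1]
  rw [Ak, e, e]

theorem Ak_iter_noncore {k : ℕ} {x : V} (h : ¬ fl k x 1 % 2 ^ k = 5) (n : ℕ) :
    (s.Ak k)^[n] x = x + Pi.single 0 (n * (((2 : ℝ) ^ k)⁻¹ * chk k (x 1))) := by
  induction n with
  | zero => simp
  | succ n ih =>
    rw [Function.iterate_succ_apply', ih]
    have e1 : (x + Pi.single 0 (n * (((2 : ℝ) ^ k)⁻¹ * chk k (x 1))) : V) 1 = x 1 := by simp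
    have h2 : ¬ fl k (x + Pi.single 0 (n * (((2 : ℝ) ^ k)⁻¹ * chk k (x 1)))) 1 % 2 ^ k = 5 := by
      unfold fl at h ⊢
      rw [e1]; exact h
    rw [s.gd_noncore h2, gd, e1, add_assoc]
    congr 1
    funext i
    simp only [Pi.add_apply, Pi.single_apply]
    split_ifs <;> push_cast <;> ring

/-- `2ᵏ` periods in the slab `k` give a shear -/
theorem Ak_full {k : ℕ} {x : V} (hx : slab k x) :
    (s.Ak k)^[2 ^ k] x = x + Pi.single 0 (chk k (x 1)) := by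
  by_cases hc : fl k x 1 % 2 ^ k = 5
  · have hk : 1 ≤ k := by
      by_contra hcon
      have : k = 0 := by omega
      subst this
      rw [pow_zero, Int.emod_one] at hc
      norm_num at hc
    have h1 : ⌊((2 : ℝ) ^ k • x) 1⌋ % 2 ^ k = 5 := hc
    have h2 := s.Ak_iter h1 (2 ^ k)
    rw [scale_scale', ek_full hk, zpow_zero, Equiv.Perm.one_apply, smul_add, scale_scale'] at h2
    rw [h2, chk_core hc]
    congr 1
    funext i
    simp only [Pi.single_apply, Pi.smul_apply, smul_eq_mul]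
    split_ifs
    · push_cast; field_simp
    · ring
  · rw [s.Ak_iter_noncore hc]
    congr 2
    push_cast
    field_simp

theorem Ak_slab {k : ℕ} {x : V} (hx : slab k x) : slab k (s.Ak k x) := by
  unfold Ak
  have h1 := ga_slab s.c0 s.c1 s.f0 s.f1 hx 1
  have h2 := ga_slab s.c1 s.c0 s.f1 s.f0 h1 1
  unfold slab at h2 ⊢
  rw [gd_apply_one]
  exact h2

theorem Ak_mul {k : ℕ} {x : V} (hx : slab k x) (m : ℕ) :
    (s.Ak k)^[2 ^ k * m] x = x + Pi.single 0 (m * chk k (x 1)) := by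
  induction m with
  | zero => simp
  | succ m ih =>
    rw [mul_add, mul_one, add_comm, Function.iterate_add_apply, ih]
    have e1 : (x + Pi.single 0 (m * chk k (x 1)) : V) 1 = x 1 := by simp
    have hs : slab k (x + Pi.single 0 (m * chk k (x 1)) : V) := by
      unfold slab at hx ⊢
      rw [e1]; exact hx
    rw [s.Ak_full hs, e1, add_assoc]
    congr 1
    funext i
    simp only [Pi.add_apply, Pi.single_apply]
    split_ifs <;> push_cast <;> ring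

/-- three windows -/
theorem Pn_three (S : Set ℕ) (n : ℕ) (x : V) : s.Pn S (3 * (n + 1)) x
    = s.G S 2 1 (s.G S 1 1 (s.G S 0 1 (s.Pn S (3 * n) x))) := by
  have e : 3 * (n + 1) = 3 * n + 1 + 1 + 1 := by ring
  have i0 : ix ((3 * n : ℕ) : ℤ) = 0 := by
    unfold ix; rw [if_pos]; push_cast; omega
  have i1 : ix ((3 * n + 1 : ℕ) : ℤ) = 1 := by
    unfold ix; rw [if_neg, if_pos] <;> push_cast <;> omega
  have i2 : ix ((3 * n + 1 + 1 : ℕ) : ℤ) = 2 := by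
    unfold ix; rw [if_neg, if_neg] <;> push_cast <;> omega
  rw [e]
  show s.G S (ix ((3 * n + 1 + 1 : ℕ) : ℤ)) 1 (s.G S (ix ((3 * n + 1 : ℕ) : ℤ)) 1
    (s.G S (ix ((3 * n : ℕ) : ℤ)) 1 (s.Pn S (3 * n) x))) = _
  rw [i0, i1, i2]

theorem Pn_slab {S : Set ℕ} {k : ℕ} (hk : k ∈ S) {x : V} (hx : slab k x) (n : ℕ) :
    s.Pn S (3 * n) x = (s.Ak k)^[n] x ∧ slab k ((s.Ak k)^[n] x) := by
  induction n with
  | zero => exact ⟨rfl, hx⟩
  | succ n ih =>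
    rw [Function.iterate_succ_apply']
    refine ⟨?_, s.Ak_slab ih.2⟩
    rw [s.Pn_three, ih.1]
    have h0 := ih.2
    rw [s.G_of_mem hk h0]
    have h1 : slab k (s.gg k 0 1 ((s.Ak k)^[n] x)) := s.gg_slab h0 0 1
    rw [s.G_of_mem hk h1]
    have h2 := s.gg_slab h1 1 1
    rw [s.G_of_mem hk h2]
    simp only [gg, if_true, show (1 : Fin 3) ≠ 0 by decide, show (2 : Fin 3) ≠ 0 by decide,
      show (2 : Fin 3) ≠ 1 by decide, if_false]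
    rfl

theorem Pn_not {S : Set ℕ} {x : V} (hx : ∀ k ∈ S, ¬ slab k x) (n : ℕ) : s.Pn S n x = x := by
  induction n with
  | zero => rfl
  | succ n ih =>
    show s.G S (ix n) 1 (s.Pn S n x) = x
    rw [ih, s.G_of_not hx]

/-- the amount of the shear -/
noncomputable def cshear (F : Finset ℕ) (K : ℕ) (y : ℝ) : ℝ := ∑ k ∈ F, 2 ^ (K - k) * chk k y

theorem chk_not_slab {k : ℕ} {x : V} (h : ¬ slab k x) : chk k (x 1) = 0 := by
  apply chs_zero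
  unfold slab at h
  rw [not_and_or, not_lt, not_lt] at h
  rcases h with h | h
  · left; linarith
  · right; linarith

/-- the flow of finitely many slabs over a long period is a shear -/
theorem Pn_shear {F : Finset ℕ} {K : ℕ} (hF : ∀ k ∈ F, k ≤ K) (x : V) :
    s.Pn (F : Set ℕ) (3 * 2 ^ K) x = x + Pi.single 0 (cshear F K (x 1)) := by
  by_cases h : ∃ k ∈ F, slab k x
  · obtain ⟨k, hk, hs⟩ := h
    have h1 := (s.Pn_slab (S := (F : Set ℕ)) (Finset.mem_coe.2 hk) hs (2 ^ K)).1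
    have h2 : 2 ^ K = 2 ^ k * 2 ^ (K - k) := by rw [← pow_add]; congr 1; have := hF k hk; omega
    rw [h1, h2, s.Ak_mul hs]
    congr 2
    unfold cshear
    rw [Finset.sum_eq_single_of_mem k hk fun l _ hl => ?_]
    · push_cast; rfl
    · rw [chk_not_slab fun hs' => hl (slab_unique hs' hs), mul_zero]
  · push Not at h
    rw [s.Pn_not (S := (F : Set ℕ)) (fun k hk => h k (Finset.mem_coe.1 hk))]
    have : cshear F K (x 1) = 0 :=
      Finset.sum_eq_zero fun k hk => by rw [chk_not_slab (h k hk), mul_zero]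
    rw [this, Pi.single_zero, add_zero]

end Sys

end Pool.Agent.N262.FX
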