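import Pool.Agent.N262.FX.Cellwise

/-!
# The velocity fields of the three windows
-/

open MeasureTheory Set Filter Topology
open scoped ContDiff NNReal ENNReal
open H459R3.NS Pool.Agent.GR.Flow

namespace Pool.Agent.N262.FX

/-! ### the drift profile -/

/-- the cutoff: `1` on `[19/4, 25/4]`, `0` outside `[17/4, 7]` -/
noncomputable def chs (s : ℝ) : ℝ :=
  Real.smoothTransition (2 * (s - 17 / 4)) * Real.smoothTransition (4 / 3 * (7 - s))

theorem chs_smooth : ContDiff ℝ ∞ chs := by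
  unfold chs
  refine ContDiff.mul ?_ ?_
  · exact Real.smoothTransition.contDiff.comp (contDiff_const.mul (contDiff_id.sub contDiff_const))
  · exact Real.smoothTransition.contDiff.comp (contDiff_const.mul (contDiff_const.sub contDiff_id))

theorem chs_one {s : ℝ} (h1 : 19 / 4 ≤ s) (h2 : s ≤ 25 / 4) : chs s = 1 := by
  unfold chs
  rw [Real.smoothTransition.one_of_one_le (by linarith),
    Real.smoothTransition.one_of_one_le (by linarith), mul_one]

theorem chs_zero {s : ℝ} (h : s ≤ 17 / 4 ∨ 7 ≤ s) : chs s = 0 := by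
  unfold chs
  rcases h with h | h
  · rw [Real.smoothTransition.zero_of_nonpos (by linarith), zero_mul]
  · rw [Real.smoothTransition.zero_of_nonpos (x := 4 / 3 * (7 - s)) (by linarith), mul_zero]

theorem chs_bound (s : ℝ) : |chs s| ≤ 1 := by
  unfold chs
  rw [abs_mul, abs_of_nonneg (Real.smoothTransition.nonneg _),
    abs_of_nonneg (Real.smoothTransition.nonneg _)]
  exact mul_le_one₀ (Real.smoothTransition.le_one _) (Real.smoothTransition.nonneg _)
    (Real.smoothTransition.le_one _)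

theorem chs_deriv_bound : ∃ C : ℝ, 0 ≤ C ∧ ∀ s, |deriv chs s| ≤ C := by
  have hc : HasCompactSupport chs := by
    refine HasCompactSupport.of_support_subset_isCompact (isCompact_Icc (a := (17 : ℝ) / 4) (b := 7))
      fun s hs => ?_
    by_contra hcon
    rw [mem_Icc, not_and_or, not_le, not_le] at hcon
    exact hs (chs_zero (hcon.imp le_of_lt le_of_lt))
  have hd := hc.deriv
  obtain ⟨C, hC⟩ := (chs_smooth.continuous_deriv (by norm_cast)).bounded_above_of_compact_support hd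
  exact ⟨max C 0, le_max_right _ _, fun s => (hC s).trans (le_max_left _ _)⟩

/-- the drift profile of the slab with cells of side `2⁻ᵏ` -/
noncomputable def chk (k : ℕ) (y : ℝ) : ℝ := chs (2 ^ k * Int.fract y)

theorem chk_aux0 (k : ℕ) : ∀ s : ℝ, s ≤ 1 / 2 ^ k → chs (2 ^ k * s) = 0 := by
  intro s hs
  apply chs_zero
  left
  have h2 : (0 : ℝ) < 2 ^ k := by positivity
  rw [le_div_iff₀ h2] at hs
  linarith

theorem chk_aux1 (k : ℕ) : ∀ s : ℝ, 1 - 1 / 2 ^ k ≤ s → s < 1 → chs (2 ^ k * s) = 0 := by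
  intro s hs hs1
  have h2 : (0 : ℝ) < 2 ^ k := by positivity
  apply chs_zero
  rcases le_or_gt 3 k with h | h
  · right
    have h3 : (8 : ℝ) ≤ 2 ^ k := by
      calc (8 : ℝ) = 2 ^ 3 := by norm_num
        _ ≤ 2 ^ k := pow_le_pow_right₀ (by norm_num) h
    have h4 : 2 ^ k * (1 - 1 / 2 ^ k : ℝ) ≤ 2 ^ k * s := mul_le_mul_of_nonneg_left hs h2.le
    have h5 : (2 : ℝ) ^ k * (1 - 1 / 2 ^ k) = 2 ^ k - 1 := by field_simp
    linarith
  · left
    have h3 : (2 : ℝ) ^ k ≤ 4 := by
      calc (2 : ℝ) ^ k ≤ 2 ^ 2 := pow_le_pow_right₀ (by norm_num) (by omega)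
        _ = 4 := by norm_num
    nlinarith

theorem chk_smooth (k : ℕ) : ContDiff ℝ ∞ (chk k) :=
  contDiff_fract (F := fun s => chs (2 ^ k * s)) (chs_smooth.comp (contDiff_const.mul contDiff_id))
    (δ := 1 / 2 ^ k) (by positivity) (chk_aux0 k) (chk_aux1 k)

theorem chk_deriv (k : ℕ) (s : ℝ) :
    HasDerivAt (chk k) (2 ^ k * deriv chs (2 ^ k * Int.fract s)) s := by
  have h := hasDerivAt_fract (F := fun s => chs (2 ^ k * s))
    (chs_smooth.comp (contDiff_const.mul contDiff_id))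
    (δ := 1 / 2 ^ k) (by positivity) (chk_aux0 k) (chk_aux1 k) s
  have h2 : deriv (fun s : ℝ => chs (2 ^ k * s)) (Int.fract s)
      = 2 ^ k * deriv chs (2 ^ k * Int.fract s) := by
    have h3 : HasDerivAt chs (deriv chs (2 ^ k * Int.fract s)) (2 ^ k * Int.fract s) :=
      (chs_smooth.differentiable (by norm_cast) _).hasDerivAt
    have h4 := h3.comp (Int.fract s) ((hasDerivAt_id (Int.fract s)).const_mul ((2 : ℝ) ^ k))
    rw [mul_one] at h4
    rw [mul_comm]
    exact h4.deriv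
  rw [h2] at h
  exact h

theorem chk_add_one (k : ℕ) (y : ℝ) : chk k (y + 1) = chk k y := by
  unfold chk
  rw [Int.fract_add_one]

theorem chk_bound (k : ℕ) (y : ℝ) : |chk k y| ≤ 1 := chs_bound _

/-! ### fields of one slab -/

/-- the point lies in the slab number `k` -/
def slab (k : ℕ) (x : V) : Prop := 4 < 2 ^ k * Int.fract (x 1) ∧ 2 ^ k * Int.fract (x 1) < 8

theorem slab_unique {k l : ℕ} {x : V} (hk : slab k x) (hl : slab l x) : k = l := by
  have key : ∀ {k l : ℕ}, slab k x → slab l x → ¬ k < l := by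
    intro k l hk hl h
    have h1 : (2 : ℝ) ^ (k + 1) ≤ 2 ^ l := pow_le_pow_right₀ (by norm_num) h
    have h2 := Int.fract_nonneg (x 1)
    have h3 : (2 : ℝ) ^ (k + 1) * Int.fract (x 1) ≤ 2 ^ l * Int.fract (x 1) :=
      mul_le_mul_of_nonneg_right h1 h2
    rw [pow_succ] at h3
    have h4 := hk.1
    have h5 := hl.2
    nlinarith
  exact le_antisymm (not_lt.1 (key hl hk)) (not_lt.1 (key hk hl))

/-- cells of the core of the slab, first half -/
def isP (k : ℕ) (m : K3) : Prop := m 1 % 2 ^ k = 5 ∧ m 0 % 2 ^ k < 2 ^ (k - 1)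

/-- cells of the core of the slab, second half -/
def isM (k : ℕ) (m : K3) : Prop := m 1 % 2 ^ k = 5 ∧ ¬ m 0 % 2 ^ k < 2 ^ (k - 1)

instance (k : ℕ) (m : K3) : Decidable (isP k m) := inferInstanceAs (Decidable (_ ∧ _))
instance (k : ℕ) (m : K3) : Decidable (isM k m) := inferInstanceAs (Decidable (_ ∧ _))

noncomputable def selP (k : ℕ) (m : K3) : ℝ := if isP k m then 1 else 0
noncomputable def selM (k : ℕ) (m : K3) : ℝ := if isM k m then 1 else 0

theorem emod_shift (k : ℕ) (m : K3) (i j : Fin 3) :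
    (m + Pi.single i (2 ^ k) : K3) j % 2 ^ k = m j % 2 ^ k := by
  rw [Pi.add_apply, Pi.single_apply]
  split_ifs
  · rw [Int.add_emod_right]
  · rw [add_zero]

theorem isP_shift (k : ℕ) (m : K3) (i : Fin 3) : isP k (m + Pi.single i (2 ^ k)) ↔ isP k m := by
  unfold isP
  rw [emod_shift, emod_shift]

theorem isM_shift (k : ℕ) (m : K3) (i : Fin 3) : isM k (m + Pi.single i (2 ^ k)) ↔ isM k m := by
  unfold isM
  rw [emod_shift, emod_shift]

theorem selP_shift (k : ℕ) (m : K3) (i : Fin 3) : selP k (m + Pi.single i (2 ^ k)) = selP k m := by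
  unfold selP
  simp only [isP_shift]

theorem selM_shift (k : ℕ) (m : K3) (i : Fin 3) : selM k (m + Pi.single i (2 ^ k)) = selM k m := by
  unfold selM
  simp only [isM_shift]

theorem fl_emod (k : ℕ) (x : V) (j : Fin 3) : fl k x j % 2 ^ k = ⌊2 ^ k * Int.fract (x j)⌋ := by
  have h1 : (2 : ℝ) ^ k * x j = 2 ^ k * Int.fract (x j) + ((2 ^ k * ⌊x j⌋ : ℤ) : ℝ) := by
    push_cast
    rw [← mul_add, Int.fract_add_floor]
  have h2 : fl k x j = ⌊2 ^ k * Int.fract (x j)⌋ + 2 ^ k * ⌊x j⌋ := by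
    show ⌊(2 : ℝ) ^ k * x j⌋ = _
    rw [h1, Int.floor_add_intCast]
  rw [h2, Int.add_mul_emod_self_left]
  apply Int.emod_eq_of_lt
  · exact Int.floor_nonneg.2 (by have := Int.fract_nonneg (x j); positivity)
  · rw [Int.floor_lt]
    push_cast
    have := Int.fract_lt_one (x j)
    have h2 : (0 : ℝ) < 2 ^ k := by positivity
    nlinarith

theorem slab_of_core {k : ℕ} {x : V} (h : fl k x 1 % 2 ^ k = 5) : slab k x := by
  rw [fl_emod, Int.floor_eq_iff] at h
  push_cast at h
  exact ⟨by linarith [h.1], by linarith [h.2]⟩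

theorem isP_slab {k : ℕ} {x : V} (h : isP k (fl k x)) : slab k x := slab_of_core h.1
theorem isM_slab {k : ℕ} {x : V} (h : isM k (fl k x)) : slab k x := slab_of_core h.1

/-- a smooth periodic divergence-free field which vanishes near the boundaries of the unit cells -/
structure CF (W : V → V) : Prop where
  sp : ∀ i, SP (fun x => W x i)
  div : ∀ x, ∑ i, pd i (fun y => W y i) x = 0
  van : ∀ x : V, (∃ (j : Fin 3) (m : ℤ), |x j - m| < 1 / 32) → W x = 0

theorem CF.vani {W : V → V} (h : CF W) (i : Fin 3) : Van (fun x => W x i) := fun x hx => by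
  show W x i = 0
  rw [h.van x hx]; rfl

theorem CF.per {W : V → V} (h : CF W) : Per W := fun i x => funext fun j => (h.sp j).per i x

theorem CF.zero {W : V → V} (h : CF W) {x : V} (hx : ∃ (j : Fin 3) (m : ℤ), x j = m) : W x = 0 := by
  obtain ⟨j, m, hm⟩ := hx
  exact h.van x ⟨j, m, by rw [hm]; norm_num⟩

/-- the field of an action window in the slab with cells of side `2⁻ᵏ`: a copy of `W` in the cells
of the first half, a copy of `-W'` in the cells of the second half -/
noncomputable def vf (k : ℕ) (W W' : V → V) (x : V) : V := fun i =>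
  ((2 : ℝ) ^ k)⁻¹ * (cellF k (selP k) (fun y => W y i) x - cellF k (selM k) (fun y => W' y i) x)

theorem vf_P {k : ℕ} {W W' : V → V} {x : V} (h : isP k (fl k x)) :
    vf k W W' x = ((2 : ℝ) ^ k)⁻¹ • W ((2 : ℝ) ^ k • x) := by
  have h' : ¬ isM k (fl k x) := fun h2 => h2.2 h.2
  funext i
  simp only [vf, cellF, selP, selM, if_pos h, if_neg h', one_mul, zero_mul, sub_zero,
    Pi.smul_apply, smul_eq_mul]

theorem vf_M {k : ℕ} {W W' : V → V} {x : V} (h : isM k (fl k x)) :
    vf k W W' x = -(((2 : ℝ) ^ k)⁻¹ • W' ((2 : ℝ) ^ k • x)) := by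
  have h' : ¬ isP k (fl k x) := fun h2 => h.2 h2.2
  funext i
  simp only [vf, cellF, selP, selM, if_pos h, if_neg h', one_mul, zero_mul, zero_sub,
    Pi.smul_apply, smul_eq_mul, Pi.neg_apply, mul_neg]

theorem vf_0 {k : ℕ} {W W' : V → V} {x : V} (h : ¬ isP k (fl k x)) (h' : ¬ isM k (fl k x)) :
    vf k W W' x = 0 := by
  funext i
  simp only [vf, cellF, selP, selM, if_neg h, if_neg h', zero_mul, sub_zero, mul_zero,
    Pi.zero_apply]

theorem vf_not_slab {k : ℕ} {W W' : V → V} {x : V} (h : ¬ slab k x) : vf k W W' x = 0 :=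
  vf_0 (fun h1 => h (isP_slab h1)) (fun h1 => h (isM_slab h1))

theorem vf_sp {k : ℕ} {W W' : V → V} (hW : CF W) (hW' : CF W') (i : Fin 3) :
    SP (fun x => vf k W W' x i) := by
  have h1 := cellF_sp (k := k) (selP_shift k) (hW.sp i) (hW.vani i)
  have h2 := cellF_sp (k := k) (selM_shift k) (hW'.sp i) (hW'.vani i)
  refine ⟨contDiff_const.mul (h1.smooth.sub h2.smooth), fun j x => ?_⟩
  show ((2 : ℝ) ^ k)⁻¹ * (_ - _) = ((2 : ℝ) ^ k)⁻¹ * (_ - _)
  rw [h1.per j x, h2.per j x]

theorem pd_const_mul_sub {f g : V → ℝ} (hf : ContDiff ℝ ∞ f) (hg : ContDiff ℝ ∞ g) (c : ℝ)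
    (j : Fin 3) (x : V) : pd j (fun y => c * (f y - g y)) x = c * (pd j f x - pd j g x) := by
  have h1 : HasFDerivAt f (fderiv ℝ f x) x := (hf.differentiable (by norm_cast) _).hasFDerivAt
  have h2 : HasFDerivAt g (fderiv ℝ g x) x := (hg.differentiable (by norm_cast) _).hasFDerivAt
  have h3 := ((h1.sub h2).const_mul c).fderiv
  unfold pd
  have : (fun y => c * (f y - g y)) = fun y => c * (f - g) y := rfl
  rw [this, h3]
  simp

theorem vf_div {k : ℕ} {W W' : V → V} (hW : CF W) (hW' : CF W') (x : V) :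
    ∑ i, pd i (fun y => vf k W W' y i) x = 0 := by
  have h : ∀ i, pd i (fun y => vf k W W' y i) x = selP k (fl k x) * pd i (fun y => W y i)
      ((2 : ℝ) ^ k • x) - selM k (fl k x) * pd i (fun y => W' y i) ((2 : ℝ) ^ k • x) := by
    intro i
    have h1 := cellF_sp (k := k) (selP_shift k) (hW.sp i) (hW.vani i)
    have h2 := cellF_sp (k := k) (selM_shift k) (hW'.sp i) (hW'.vani i)
    have h3 := pd_const_mul_sub h1.smooth h2.smooth ((2 : ℝ) ^ k)⁻¹ i x
    rw [cellF_pd (hW.sp i).smooth (hW.vani i), cellF_pd (hW'.sp i).smooth (hW'.vani i)] at h3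
    refine h3.trans ?_
    unfold cellF
    field_simp
  rw [Finset.sum_congr rfl fun i _ => h i, Finset.sum_sub_distrib, ← Finset.mul_sum,
    ← Finset.mul_sum, hW.div, hW'.div]
  ring

theorem CF.bound {W : V → V} (h : CF W) : ∃ C : ℝ, 0 ≤ C ∧ ∀ x, ‖W x‖ ≤ C := by
  obtain ⟨C, hC⟩ := Pool.Agent.TH811.SPD.per_bound h.per
    (continuous_pi fun i => (h.sp i).smooth.continuous)
  exact ⟨C, C.2, hC⟩

theorem selP_abs (k : ℕ) (m : K3) : |selP k m| ≤ 1 := by unfold selP; split_ifs <;> simp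
theorem selM_abs (k : ℕ) (m : K3) : |selM k m| ≤ 1 := by unfold selM; split_ifs <;> simp

theorem vf_bound {W W' : V → V} (hW : CF W) (hW' : CF W') :
    ∃ C : ℝ, 0 ≤ C ∧ ∀ k x, ‖vf k W W' x‖ ≤ C / 2 ^ k := by
  obtain ⟨C, h0, hC⟩ := hW.bound
  obtain ⟨C', h0', hC'⟩ := hW'.bound
  refine ⟨C + C', by positivity, fun k x => ?_⟩
  rw [pi_norm_le_iff_of_nonneg (by positivity)]
  intro i
  have h2 : (0 : ℝ) < 2 ^ k := by positivity
  unfold vf cellF
  rw [norm_mul, norm_inv, Real.norm_of_nonneg h2.le, div_eq_inv_mul]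
  refine mul_le_mul_of_nonneg_left ?_ (by positivity)
  refine (norm_sub_le _ _).trans (add_le_add ?_ ?_)
  · rw [norm_mul]
    calc _ ≤ 1 * C := mul_le_mul (selP_abs _ _) ((norm_le_pi_norm _ i).trans (hC _))
          (norm_nonneg _) zero_le_one
      _ = C := one_mul _
  · rw [norm_mul]
    calc _ ≤ 1 * C' := mul_le_mul (selM_abs _ _) ((norm_le_pi_norm _ i).trans (hC' _))
          (norm_nonneg _) zero_le_one
      _ = C' := one_mul _

theorem SP.fderiv_bound {f : V → ℝ} (h : SP f) : ∃ C : ℝ, 0 ≤ C ∧ ∀ x, ‖fderiv ℝ f x‖ ≤ C := by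
  obtain ⟨C, hC⟩ := Pool.Agent.TH811.SPD.per_bound (f := fderiv ℝ f) (Per.fderiv h.per)
    (h.smooth.continuous_fderiv (by norm_cast))
  exact ⟨C, C.2, hC⟩

theorem vf_lip {W W' : V → V} (hW : CF W) (hW' : CF W') :
    ∃ L : ℝ≥0, ∀ k, LipschitzWith L (vf k W W') := by
  choose C h0 hC using fun i => SP.fderiv_bound (hW.sp i)
  choose C' h0' hC' using fun i => SP.fderiv_bound (hW'.sp i)
  let L : ℝ := ∑ i, (C i + C' i)
  have hL : 0 ≤ L := Finset.sum_nonneg fun i _ => add_nonneg (h0 i) (h0' i)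
  refine ⟨⟨L, hL⟩, fun k => ?_⟩
  have key : ∀ i, LipschitzWith ⟨L, hL⟩ (fun x => vf k W W' x i) := by
    intro i
    have hs := (vf_sp (k := k) hW hW' i).smooth
    refine lipschitzWith_of_nnnorm_fderiv_le (hs.differentiable (by norm_cast)) fun x => ?_
    rw [← NNReal.coe_le_coe, coe_nnnorm]
    have h1 := cellF_sp (k := k) (selP_shift k) (hW.sp i) (hW.vani i)
    have h2 := cellF_sp (k := k) (selM_shift k) (hW'.sp i) (hW'.vani i)
    have h3 : HasFDerivAt _ _ x := (h1.smooth.differentiable (by norm_cast) x).hasFDerivAt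
    have h4 : HasFDerivAt _ _ x := (h2.smooth.differentiable (by norm_cast) x).hasFDerivAt
    have h5 := ((h3.sub h4).const_mul ((2 : ℝ) ^ k)⁻¹).fderiv
    have h6 : (fun x => vf k W W' x i) = fun y => ((2 : ℝ) ^ k)⁻¹ *
      ((cellF k (selP k) fun y => W y i) - (cellF k (selM k) fun y => W' y i)) y := rfl
    rw [h6, h5, cellF_fderiv (hW.sp i).smooth (hW.vani i),
      cellF_fderiv (hW'.sp i).smooth (hW'.vani i)]
    have h7 : (((2 : ℝ) ^ k)⁻¹ • ((2 ^ k * selP k (fl k x)) • fderiv ℝ (fun y => W y i)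
        ((2 : ℝ) ^ k • x) - (2 ^ k * selM k (fl k x)) • fderiv ℝ (fun y => W' y i)
        ((2 : ℝ) ^ k • x))) = selP k (fl k x) • fderiv ℝ (fun y => W y i)
        ((2 : ℝ) ^ k • x) - selM k (fl k x) • fderiv ℝ (fun y => W' y i)
        ((2 : ℝ) ^ k • x) := by
      rw [smul_sub, smul_smul, smul_smul]
      congr 2 <;> field_simp
    rw [h7]
    have h8 : C i + C' i ≤ L :=
      Finset.single_le_sum (f := fun i => C i + C' i) (fun j _ => add_nonneg (h0 j) (h0' j))
        (Finset.mem_univ i)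
    refine le_trans ?_ h8
    refine (norm_sub_le _ _).trans (add_le_add ?_ ?_)
    · rw [norm_smul]
      calc _ ≤ 1 * C i := mul_le_mul (selP_abs _ _) (hC i _) (norm_nonneg _) zero_le_one
        _ = C i := one_mul _
    · rw [norm_smul]
      calc _ ≤ 1 * C' i := mul_le_mul (selM_abs _ _) (hC' i _) (norm_nonneg _) zero_le_one
        _ = C' i := one_mul _
  refine LipschitzWith.of_dist_le_mul fun x y => ?_
  rw [dist_pi_le_iff (by positivity)]
  intro i
  exact (key i).dist_le_mul x y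

/-- the drift field -/
noncomputable def dr (k : ℕ) (x : V) : V := fun i => if i = 0 then ((2 : ℝ) ^ k)⁻¹ * chk k (x 1) else 0

theorem dr_not_slab {k : ℕ} {x : V} (h : ¬ slab k x) : dr k x = 0 := by
  funext i
  unfold dr
  split_ifs
  · have : chk k (x 1) = 0 := by
      apply chs_zero
      unfold slab at h
      rw [not_and_or, not_lt, not_lt] at h
      rcases h with h | h
      · left; linarith
      · right; linarith
    rw [this, mul_zero]; rfl
  · rfl

theorem dr_sp (k : ℕ) (i : Fin 3) : SP (fun x => dr k x i) := by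
  unfold dr
  by_cases hi : i = 0
  · simp only [hi, if_true]
    refine ⟨contDiff_const.mul ((chk_smooth k).comp (contDiff_apply ℝ ℝ 1)), fun j x => ?_⟩
    show ((2 : ℝ) ^ k)⁻¹ * chk k ((x + Pi.single j 1 : V) 1) = ((2 : ℝ) ^ k)⁻¹ * chk k (x 1)
    rw [Pi.add_apply, Pi.single_apply]
    split_ifs
    · rw [chk_add_one]
    · rw [add_zero]
  · simp only [hi, if_false]
    exact ⟨contDiff_const, fun _ _ => rfl⟩

theorem dr_div (k : ℕ) (x : V) : ∑ i, pd i (fun y => dr k y i) x = 0 := by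
  refine Finset.sum_eq_zero fun i _ => ?_
  unfold pd dr
  by_cases hi : i = 0
  · subst hi
    simp only [if_true]
    have h1 : HasFDerivAt (fun y : V => ((2 : ℝ) ^ k)⁻¹ * chk k (y 1)) _ x :=
      (((chk_deriv k (x 1)).hasFDerivAt).comp x (ContinuousLinearMap.proj (R := ℝ)
        (φ := fun _ : Fin 3 => ℝ) 1).hasFDerivAt).const_mul ((2 : ℝ) ^ k)⁻¹
    rw [h1.fderiv]
    simp
  · simp [hi]

theorem dr_bound (k : ℕ) (x : V) : ‖dr k x‖ ≤ 1 / 2 ^ k := by
  rw [pi_norm_le_iff_of_nonneg (by positivity)]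
  intro i
  unfold dr
  split_ifs
  · rw [norm_mul, norm_inv, norm_pow, one_div]
    have := chk_bound k (x 1)
    calc _ ≤ (‖(2 : ℝ)‖ ^ k)⁻¹ * 1 := mul_le_mul_of_nonneg_left this (by positivity)
      _ = _ := by rw [mul_one]; norm_num
  · rw [norm_zero]; positivity

theorem dr_lip : ∃ L : ℝ≥0, ∀ k, LipschitzWith L (dr k) := by
  obtain ⟨C, h0, hC⟩ := chs_deriv_bound
  refine ⟨⟨C, h0⟩, fun k => LipschitzWith.of_dist_le_mul fun x y => ?_⟩
  rw [dist_pi_le_iff (by positivity)]
  intro i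
  unfold dr
  split_ifs
  · have h1 : ∀ a b : ℝ, |chk k a - chk k b| ≤ 2 ^ k * C * |a - b| := by
      intro a b
      have := Convex.norm_image_sub_le_of_norm_deriv_le (𝕜 := ℝ) (f := chk k) (C := 2 ^ k * C)
        (s := univ) (x := b) (y := a) (fun s _ => (chk_deriv k s).differentiableAt)
        (fun s _ => by
          rw [(chk_deriv k s).deriv, norm_mul, norm_pow, Real.norm_ofNat]
          exact mul_le_mul_of_nonneg_left (hC _) (by positivity)) convex_univ (mem_univ _)
        (mem_univ _)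
      exact this
    rw [Real.dist_eq, ← mul_sub, abs_mul, abs_of_nonneg (by positivity)]
    have h2 : |x 1 - y 1| ≤ dist x y := dist_le_pi_dist x y 1
    calc ((2 : ℝ) ^ k)⁻¹ * |chk k (x 1) - chk k (y 1)|
        ≤ ((2 : ℝ) ^ k)⁻¹ * (2 ^ k * C * |x 1 - y 1|) :=
          mul_le_mul_of_nonneg_left (h1 _ _) (by positivity)
      _ = C * |x 1 - y 1| := by field_simp
      _ ≤ C * dist x y := mul_le_mul_of_nonneg_left h2 h0
  · rw [dist_self]
    positivity

end Pool.Agent.N262.FX
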