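import Pool.Agent.N262.FX.Field

/-!
# The time-periodic field and its flow
-/

open MeasureTheory Set Filter Topology
open scoped ContDiff NNReal ENNReal
open H459R3.NS Pool.Agent.GR.Flow

namespace Pool.Agent.N262.FX

theorem approx_int {v : V → V} (hc : Continuous v) {φ : V → ℝ}
    (hφ : SP φ) : ∃ C : ℝ, 0 ≤ C ∧ ∀ (η : ℝ) (w : V → V), 0 ≤ η → Continuous w →
      (∀ x, ‖w x - v x‖ ≤ η) →
      |(∫ x in cube, ∑ i, w x i * pd i φ x) - ∫ x in cube, ∑ i, v x i * pd i φ x| ≤ C * η := by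
  choose C hC using fun i => Pool.Agent.TH811.SPD.per_bound (hφ.pd i).per (hφ.pd i).cont
  refine ⟨∑ i, (C i : ℝ), Finset.sum_nonneg fun i _ => (C i).2, fun η w hη hw h => ?_⟩
  have i1 : ∀ w : V → V, Continuous w → IntegrableOn (fun x => ∑ i, w x i * pd i φ x) cube := by
    intro w hw
    refine integrableOn_cube (continuous_finsetSum _ fun i _ => ?_)
    exact ((continuous_apply i).comp hw).mul (hφ.pd i).cont
  rw [← integral_sub (i1 w hw) (i1 v hc), ← Real.norm_eq_abs]
  have hfin := cube_finite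
  have h1 : ∀ x, ‖(∑ i, w x i * pd i φ x) - ∑ i, v x i * pd i φ x‖ ≤ (∑ i, (C i : ℝ)) * η := by
    intro x
    rw [← Finset.sum_sub_distrib, Finset.sum_mul]
    refine (norm_sum_le _ _).trans (Finset.sum_le_sum fun i _ => ?_)
    rw [← sub_mul, norm_mul, mul_comm]
    refine mul_le_mul (hC i x) ?_ (norm_nonneg _) (C i).2
    exact (norm_le_pi_norm (w x - v x) i).trans (h x)
  have h2 := norm_integral_le_of_norm_le_const (μ := volume.restrict cube) (ae_of_all _ h1)
  rw [measureReal_restrict_apply_univ, measureReal_def, volume_cube, ENNReal.toReal_one,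
    mul_one] at h2
  exact h2

theorem divFree_of_approx {v : V → V} (hc : Continuous v)
    (happ : ∀ η : ℝ, 0 < η → ∃ w : V → V, (∀ i, SP (fun y => w y i)) ∧
      (∀ x, ∑ i, pd i (fun y => w y i) x = 0) ∧ ∀ x, ‖w x - v x‖ ≤ η) : DivFree v := by
  intro φ hφ
  obtain ⟨C, h0, hC⟩ := approx_int hc hφ
  by_contra hne
  have hpos : 0 < |∫ x in cube, ∑ i, v x i * pd i φ x| := abs_pos.2 hne
  set I := ∫ x in cube, ∑ i, v x i * pd i φ x with hI
  obtain ⟨w, hw, hdiv, hwv⟩ := happ (|I| / (2 * (C + 1))) (by positivity)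
  have h1 := hC _ w (by positivity) (continuous_pi fun i => (hw i).cont) hwv
  have h2 : ∫ x in cube, ∑ i, w x i * pd i φ x = 0 :=
    Pool.Agent.TH811.SPD.int_adv hw hdiv hφ
  rw [h2, zero_sub, abs_neg] at h1
  have h3 : C * (|I| / (2 * (C + 1))) < |I| := by
    rw [mul_div_assoc', div_lt_iff₀ (by positivity)]
    nlinarith
  linarith

/-- the number of the window -/
def ix (n : ℤ) : Fin 3 := if n % 3 = 0 then 0 else if n % 3 = 1 then 1 else 2

theorem ix_add_three (n : ℤ) : ix (n + 3) = ix n := by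
  unfold ix
  rw [Int.add_emod_right]

namespace Sys

variable (s : Sys)

theorem us_approx (S : Set ℕ) (i : Fin 3) (η : ℝ) (hη : 0 < η) : ∃ w : V → V,
    (∀ j, SP (fun y => w y j)) ∧ (∀ x, ∑ j, pd j (fun y => w y j) x = 0) ∧
      ∀ x, ‖w x - s.us S i x‖ ≤ η := by
  classical
  obtain ⟨K, hK⟩ : ∃ K : ℕ, s.M / 2 ^ K ≤ η := by
    obtain ⟨K, hK⟩ := exists_nat_gt (s.M / η)
    refine ⟨K, ?_⟩
    rw [div_lt_iff₀ hη] at hK
    rw [div_le_iff₀ (by positivity)]
    have h1 : (K : ℝ) ≤ 2 ^ K := by exact_mod_cast (Nat.lt_two_pow_self (n := K)).le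
    nlinarith
  let F : Finset ℕ := (Finset.range K).filter (· ∈ S)
  refine ⟨s.us (F : Set ℕ) i, s.us_sp F i, s.us_div F i, fun x => ?_⟩
  refine (s.us_close (K := K) (fun k hk => ?_) i x).trans hK
  simp [F, hk]

theorem us_cont (S : Set ℕ) (i : Fin 3) : Continuous (s.us S i) := (s.us_lip S i).continuous

theorem us_divFree (S : Set ℕ) (i : Fin 3) : DivFree (s.us S i) :=
  divFree_of_approx (s.us_cont S i) (s.us_approx S i)

/-- the velocity field -/
noncomputable def uu (S : Set ℕ) (t : ℝ) (x : V) : V := s.us S (ix ⌊t⌋) x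

theorem uu_eq {S : Set ℕ} {n : ℕ} {t : ℝ} (h1 : (n : ℝ) ≤ t) (h2 : t < n + 1) :
    s.uu S t = s.us S (ix n) := by
  have : ⌊t⌋ = (n : ℤ) := by rw [Int.floor_eq_iff]; exact ⟨by exact_mod_cast h1, by exact_mod_cast h2⟩
  funext x
  rw [uu, this]

theorem uu_admissible (S : Set ℕ) : Admissible (s.uu S) where
  per t := s.us_per S _
  time := ⟨3, by norm_num, fun t x => by
    unfold uu
    have h1 : ⌊t + 3⌋ = ⌊t⌋ + 3 := by
      have := Int.floor_add_natCast t 3
      push_cast at this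
      exact this
    rw [h1, ix_add_three]⟩
  meas := by
    have h1 : Measurable (fun p : Fin 3 × V => s.us S p.1 p.2) :=
      measurable_from_prod_countable_right fun i => (s.us_cont S i).measurable
    have h2 : Measurable (fun t : ℝ => ix ⌊t⌋) :=
      (measurable_of_countable ix).comp Int.measurable_floor
    exact h1.comp ((h2.comp measurable_fst).prodMk measurable_snd)
  bdd := ⟨s.M, fun t x => s.us_bound S _ x⟩
  lip := ⟨2 * s.L, fun t => s.us_lip S _⟩
  div t := s.us_divFree S _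

/-- the flow at integer times -/
noncomputable def Pn (S : Set ℕ) : ℕ → V → V
  | 0 => id
  | n + 1 => fun x => s.G S (ix n) 1 (Pn S n x)

/-- the flow -/
noncomputable def Ph (S : Set ℕ) (t : ℝ) (x : V) : V :=
  s.G S (ix ⌊t⌋₊) (t - ⌊t⌋₊) (s.Pn S ⌊t⌋₊ x)

theorem Ph_eq {S : Set ℕ} {n : ℕ} {t : ℝ} (h1 : (n : ℝ) ≤ t) (h2 : t ≤ n + 1) (x : V) :
    s.Ph S t x = s.G S (ix n) (t - n) (s.Pn S n x) := by
  rcases h2.lt_or_eq with h | h
  · have : ⌊t⌋₊ = n := (Nat.floor_eq_iff (le_trans (Nat.cast_nonneg n) h1)).2 ⟨h1, h⟩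
    rw [Ph, this]
  · have : ⌊t⌋₊ = n + 1 := by rw [h]; exact_mod_cast Nat.floor_natCast (n + 1)
    rw [Ph, this, h]
    push_cast
    rw [sub_self, (s.G_flow S _).zero]
    show s.G S (ix n) 1 (s.Pn S n x) = _
    congr 2
    ring

theorem Ph_nat (S : Set ℕ) (n : ℕ) (x : V) : s.Ph S n x = s.Pn S n x := by
  rw [s.Ph_eq (n := n) le_rfl (by linarith), sub_self, (s.G_flow S _).zero]

theorem Ph_zero (S : Set ℕ) (x : V) : s.Ph S 0 x = x := by
  have := s.Ph_nat S 0 x
  rw [Nat.cast_zero] at this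
  exact this

theorem int_piece (S : Set ℕ) (x : V) {n : ℕ} {t : ℝ} (h1 : (n : ℝ) ≤ t) (h2 : t ≤ n + 1) :
    IntervalIntegrable (fun r => s.uu S r (s.Ph S r x)) volume n t ∧
    ∫ r in (n : ℝ)..t, s.uu S r (s.Ph S r x) = s.Ph S t x - s.Ph S n x := by
  set y := s.Pn S n x with hy
  have hd : ∀ r : ℝ, HasDerivAt (fun r : ℝ => s.G S (ix n) (r - n) y)
      (s.us S (ix n) (s.G S (ix n) (r - n) y)) r := by
    intro r
    have := ((s.G_flow S (ix n)).deriv y (r - n)).comp_sub_const r (n : ℝ)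
    exact this
  have hcont : Continuous fun r : ℝ => s.us S (ix n) (s.G S (ix n) (r - n) y) :=
    (s.us_cont S _).comp (((s.G_flow S _).continuous y).comp (continuous_id.sub continuous_const))
  have hae : ∀ᵐ r ∂volume, r ∈ uIoc (n : ℝ) t →
      s.us S (ix n) (s.G S (ix n) (r - n) y) = s.uu S r (s.Ph S r x) := by
    have h3 : ∀ᵐ r : ℝ ∂volume, r ≠ n + 1 := by
      rw [ae_iff]
      simp
    filter_upwards [h3] with r hr hmem
    rw [uIoc_of_le h1] at hmem
    have h4 : r < n + 1 := lt_of_le_of_ne (hmem.2.trans h2) hr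
    rw [s.uu_eq hmem.1.le h4, s.Ph_eq hmem.1.le h4.le]
  constructor
  · refine IntervalIntegrable.congr_ae (hcont.intervalIntegrable _ _) ?_
    exact (ae_restrict_iff' measurableSet_uIoc).2 hae
  · rw [← intervalIntegral.integral_congr_ae hae,
      intervalIntegral.integral_eq_sub_of_hasDerivAt (fun r _ => hd r) (hcont.intervalIntegrable _ _),
      s.Ph_eq h1 h2, s.Ph_nat, sub_self, (s.G_flow S _).zero]

theorem int_nat (S : Set ℕ) (x : V) (n : ℕ) :
    IntervalIntegrable (fun r => s.uu S r (s.Ph S r x)) volume 0 n ∧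
    ∫ r in (0 : ℝ)..n, s.uu S r (s.Ph S r x) = s.Ph S n x - x := by
  induction n with
  | zero => simp [Ph_zero]
  | succ n ih =>
    have h := s.int_piece S x (n := n) (t := n + 1) (by linarith) le_rfl
    push_cast
    refine ⟨ih.1.trans h.1, ?_⟩
    rw [← intervalIntegral.integral_add_adjacent_intervals ih.1 h.1, ih.2, h.2]
    abel

theorem int_all (S : Set ℕ) (x : V) {t : ℝ} (ht : 0 ≤ t) :
    IntervalIntegrable (fun r => s.uu S r (s.Ph S r x)) volume 0 t ∧
    ∫ r in (0 : ℝ)..t, s.uu S r (s.Ph S r x) = s.Ph S t x - x := by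
  have h1 := s.int_nat S x ⌊t⌋₊
  have h2 := s.int_piece S x (Nat.floor_le ht) (Nat.lt_floor_add_one t).le
  refine ⟨h1.1.trans h2.1, ?_⟩
  rw [← intervalIntegral.integral_add_adjacent_intervals h1.1 h2.1, h1.2, h2.2]
  abel

theorem Ph_isFlow (S : Set ℕ) : IsFlow (s.uu S) (s.Ph S) where
  eq x t ht := by rw [(s.int_all S x ht).2]; abel
  cont x := by
    intro t ht
    obtain ⟨N, hN⟩ := exists_nat_gt t
    have h1 := (s.int_nat S x N).1
    have h2 : ContinuousOn (fun t => ∫ r in (0 : ℝ)..t, s.uu S r (s.Ph S r x))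
        (uIcc 0 (N : ℝ)) := intervalIntegral.continuousOn_primitive_interval
          ((intervalIntegrable_iff' (by simp)).1 h1)
    rw [uIcc_of_le (Nat.cast_nonneg N)] at h2
    have h3 : ContinuousWithinAt (fun t => x + ∫ r in (0 : ℝ)..t, s.uu S r (s.Ph S r x))
        (Ici 0) t := by
      refine continuousWithinAt_const.add ?_
      refine (h2 t ⟨ht, hN.le⟩).mono_of_mem_nhdsWithin ?_
      rw [← Ici_inter_Iic]
      exact inter_mem_nhdsWithin _ (Iic_mem_nhds hN)
    refine h3.congr (fun r hr => ?_) ?_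
    · rw [(s.int_all S x hr).2]; abel
    · rw [(s.int_all S x ht).2]; abel

end Sys

end Pool.Agent.N262.FX
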